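import Mathlib
import Pool.Agent.W771.Basic
import Pool.Agent.H153R4.Pl
set_option autoImplicit false

/-! The extension operator of the paraboloid on the plane `ℂ`: phases, Plancherel, polar
coordinates. -/

namespace Pool.Agent.Q63.Star

open MeasureTheory Set Complex
open scoped ENNReal NNReal FourierTransform ComplexConjugate

/-- the phase `e^{-is}` -/
noncomputable def ph (s : ℝ) : ℂ := cexp (-(I * (s : ℂ)))

lemma norm_ph (s : ℝ) : ‖ph s‖ = 1 := by
  unfold ph
  rw [show (-(I * (s : ℂ)) : ℂ) = ((-s : ℝ) : ℂ) * I by push_cast; ring]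
  exact Complex.norm_exp_ofReal_mul_I _

lemma enorm_ph (s : ℝ) : ‖ph s‖ₑ = 1 := by
  rw [← ofReal_norm, norm_ph, ENNReal.ofReal_one]

lemma ph_add (a b : ℝ) : ph (a + b) = ph a * ph b := by
  unfold ph
  rw [← Complex.exp_add]
  congr 1
  push_cast
  ring

lemma ph_zero : ph 0 = 1 := by simp [ph]

lemma ph_cont : Continuous ph := by
  unfold ph
  fun_prop

@[fun_prop]
lemma ph_meas : Measurable ph := ph_cont.measurable

lemma ph_conj (s : ℝ) : conj (ph s) = ph (-s) := by
  unfold ph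
  rw [← Complex.exp_conj]
  congr 1
  simp

/-- the inner product of the plane -/
def dt (x y : ℂ) : ℝ := x.re * y.re + x.im * y.im

@[fun_prop]
lemma dt_cont : Continuous (fun p : ℂ × ℂ => dt p.1 p.2) := by
  unfold dt
  fun_prop

lemma dt_meas : Measurable (fun p : ℂ × ℂ => dt p.1 p.2) := dt_cont.measurable

lemma dt_add_left (x y z : ℂ) : dt (x + y) z = dt x z + dt y z := by
  simp only [dt, add_re, add_im]; ring

lemma dt_add_right (x y z : ℂ) : dt x (y + z) = dt x y + dt x z := by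
  simp only [dt, add_re, add_im]; ring

lemma dt_smul_left (r : ℝ) (x y : ℂ) : dt (r * x) y = r * dt x y := by
  simp only [dt, mul_re, mul_im, ofReal_re, ofReal_im]; ring

lemma dt_smul_right (r : ℝ) (x y : ℂ) : dt x (r * y) = r * dt x y := by
  simp only [dt, mul_re, mul_im, ofReal_re, ofReal_im]; ring

lemma dt_self (x : ℂ) : dt x x = normSq x := by
  simp only [dt, normSq_apply]

lemma dt_mul (a x y : ℂ) : dt (a * x) (a * y) = normSq a * dt x y := by
  simp only [dt, normSq_apply, mul_re, mul_im]; ring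

lemma dt_neg_left (x y : ℂ) : dt (-x) y = - dt x y := by
  simp only [dt, neg_re, neg_im]; ring

lemma dt_neg_right (x y : ℂ) : dt x (-y) = - dt x y := by
  simp only [dt, neg_re, neg_im]; ring

lemma inner_dt (x y : ℂ) : inner ℝ x y = dt x y := by
  rw [Complex.inner]
  simp only [dt, mul_re, conj_re, conj_im]; ring

/-- the unit vector with angle `θ` -/
noncomputable def um (θ : ℝ) : ℂ := Real.cos θ + Real.sin θ * I

lemma um_re (θ : ℝ) : (um θ).re = Real.cos θ := by
  simp [um, -Complex.ofReal_cos, -Complex.ofReal_sin]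

lemma um_im (θ : ℝ) : (um θ).im = Real.sin θ := by
  simp [um, -Complex.ofReal_cos, -Complex.ofReal_sin]

@[fun_prop]
lemma um_cont : Continuous um := by
  unfold um
  fun_prop

@[fun_prop]
lemma um_meas : Measurable um := um_cont.measurable

lemma normSq_um (θ : ℝ) : normSq (um θ) = 1 := by
  rw [normSq_apply, um_re, um_im, ← sq, ← sq, Real.cos_sq_add_sin_sq]

lemma norm_um (θ : ℝ) : ‖um θ‖ = 1 := by
  rw [Complex.norm_def, normSq_um, Real.sqrt_one]

lemma um_add (a b : ℝ) : um (a + b) = um a * um b := by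
  apply Complex.ext
  · rw [mul_re, um_re, um_re, um_re, um_im, um_im, Real.cos_add]
  · rw [mul_im, um_im, um_re, um_re, um_im, um_im, Real.sin_add]
    ring

lemma normSq_smul (r : ℝ) (x : ℂ) : normSq (r * x) = r ^ 2 * normSq x := by
  rw [map_mul, normSq_ofReal, sq]

/-! ### polar coordinates -/

/-- half plane of polar coordinates -/
def TP : Set (ℝ × ℝ) := Ioi (0 : ℝ) ×ˢ Ioo (-Real.pi) Real.pi

lemma TP_meas : MeasurableSet TP := measurableSet_Ioi.prod measurableSet_Ioo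

lemma polsymm (p : ℝ × ℝ) : Complex.polarCoord.symm p = p.1 * um p.2 := by
  rw [Complex.polarCoord_symm_apply]
  rfl

lemma pol_int (f : ℂ → ℂ) : ∫ x, f x = ∫ p in TP, (p.1 : ℂ) * f (p.1 * um p.2) := by
  rw [← Complex.integral_comp_polarCoord_symm f]
  have : polarCoord.target = TP := rfl
  rw [this]
  apply integral_congr_ae
  filter_upwards with p
  rw [polsymm, real_smul]

lemma pol_lint (f : ℂ → ℝ≥0∞) :
    ∫⁻ x, f x = ∫⁻ p in TP, ENNReal.ofReal p.1 * f (p.1 * um p.2) := by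
  rw [← Complex.lintegral_comp_polarCoord_symm f]
  have : polarCoord.target = TP := rfl
  rw [this]
  apply lintegral_congr
  intro p
  rw [polsymm, smul_eq_mul]

/-! ### scaling -/

lemma lint_smulC (F : ℂ → ℝ≥0∞) (hF : Measurable F) (c : ℝ) (hc : c ≠ 0) :
    ∫⁻ x : ℂ, F (c * x) = ENNReal.ofReal ((c ^ 2)⁻¹) * ∫⁻ x, F x := by
  have h := Measure.map_addHaar_smul (volume : Measure ℂ) hc
  rw [Complex.finrank_real_complex] at h
  have e : ∫⁻ x : ℂ, F (c * x) = ∫⁻ x : ℂ, F (c • x) := by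
    simp only [Complex.real_smul]
  rw [e, ← lintegral_map hF (measurable_const_smul c), h, lintegral_smul_measure, smul_eq_mul,
    abs_of_nonneg (by positivity)]

/-! ### the extension operator -/

/-- the extension operator -/
noncomputable def Ex (f : ℂ → ℂ) (ζ : ℂ) (t : ℝ) : ℂ :=
  ∫ x : ℂ, ph (dt x ζ + t * normSq x) * f x

@[fun_prop]
lemma normSq_meas : Measurable (fun x : ℂ => normSq x) := Complex.continuous_normSq.measurable

lemma ker_meas : Measurable (fun w : (ℂ × ℝ) × ℂ => ph (dt w.2 w.1.1 + w.1.2 * normSq w.2)) := by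
  have h1 : Measurable (fun w : (ℂ × ℝ) × ℂ => dt w.2 w.1.1) :=
    dt_meas.comp (measurable_snd.prodMk (measurable_fst.comp measurable_fst))
  fun_prop

lemma Ex_meas (f : ℂ → ℂ) (hf : Measurable f) : Measurable (fun w : ℂ × ℝ => Ex f w.1 w.2) := by
  have h : Measurable (fun w : (ℂ × ℝ) × ℂ => ph (dt w.2 w.1.1 + w.1.2 * normSq w.2) * f w.2) :=
    ker_meas.mul (hf.comp measurable_snd)
  exact (h.stronglyMeasurable.integral_prod_right' (ν := volume)).measurable

lemma Ex_meas_left (f : ℂ → ℂ) (hf : Measurable f) (t : ℝ) :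
    Measurable (fun ζ : ℂ => Ex f ζ t) :=
  (Ex_meas f hf).of_uncurry_right

lemma ker_meas_x (ζ : ℂ) (t : ℝ) : Measurable (fun x : ℂ => ph (dt x ζ + t * normSq x)) := by
  have h : Measurable (fun x : ℂ => (((ζ, t), x) : (ℂ × ℝ) × ℂ)) := by fun_prop
  exact ker_meas.comp h

lemma Ex_int (f : ℂ → ℂ) (hf : Integrable f) (ζ : ℂ) (t : ℝ) :
    Integrable (fun x => ph (dt x ζ + t * normSq x) * f x) := by
  refine hf.mono ((ker_meas_x ζ t).aestronglyMeasurable.mul hf.1) ?_
  filter_upwards with x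
  rw [norm_mul, norm_ph, one_mul]

lemma Ex_le (f : ℂ → ℂ) (ζ : ℂ) (t : ℝ) : ‖Ex f ζ t‖ₑ ≤ ∫⁻ x, ‖f x‖ₑ := by
  unfold Ex
  refine (enorm_integral_le_lintegral_enorm _).trans (le_of_eq ?_)
  apply lintegral_congr
  intro x
  rw [enorm_mul, enorm_ph, one_mul]

lemma Ex_add (f g : ℂ → ℂ) (hf : Integrable f) (hg : Integrable g) (ζ : ℂ) (t : ℝ) :
    Ex (fun x => f x + g x) ζ t = Ex f ζ t + Ex g ζ t := by
  unfold Ex
  rw [← integral_add (Ex_int f hf ζ t) (Ex_int g hg ζ t)]
  apply integral_congr_ae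
  filter_upwards with x
  ring

lemma Ex_sub (f g : ℂ → ℂ) (hf : Integrable f) (hg : Integrable g) (ζ : ℂ) (t : ℝ) :
    Ex (fun x => f x - g x) ζ t = Ex f ζ t - Ex g ζ t := by
  unfold Ex
  rw [← integral_sub (Ex_int f hf ζ t) (Ex_int g hg ζ t)]
  apply integral_congr_ae
  filter_upwards with x
  ring

lemma Ex_eq_fourier (f : ℂ → ℂ) (ζ : ℂ) (t : ℝ) :
    Ex f ζ t = 𝓕 (fun x : ℂ => ph (t * normSq x) * f x) (((2 * Real.pi)⁻¹ : ℝ) * ζ) := by
  unfold Ex
  rw [Real.fourier_eq]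
  apply integral_congr_ae
  filter_upwards with x
  rw [Circle.smul_def, Real.fourierChar_apply, smul_eq_mul, inner_dt, dt_smul_right, ph_add,
    mul_assoc]
  congr 1
  unfold ph
  congr 1
  push_cast
  have : (Real.pi : ℂ) ≠ 0 := by exact_mod_cast Real.pi_ne_zero
  field_simp

lemma memLp_of_lint (f : ℂ → ℂ) (hf : Measurable f) (h : ∫⁻ x, ‖f x‖ₑ ^ 2 ≠ ∞) : MemLp f 2 := by
  refine ⟨hf.aestronglyMeasurable, ?_⟩
  have b1 := eLpNorm_nnreal_pow_eq_lintegral (f := f) (μ := (volume : Measure ℂ)) (p := 2)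
    (by norm_num)
  simp only [NNReal.coe_ofNat, ENNReal.rpow_ofNat] at b1
  have c1 : (((2 : NNReal) : ℝ≥0∞)) = 2 := by norm_num
  rw [c1] at b1
  by_contra hcon
  rw [not_lt, top_le_iff] at hcon
  rw [hcon] at b1
  apply h
  rw [← b1]
  simp

/-- Plancherel on the plane, as an inequality for integrable functions. -/
lemma planch2 (f : ℂ → ℂ) (hf : Measurable f) (h1 : Integrable f) (t : ℝ) :
    ∫⁻ ζ, ‖Ex f ζ t‖ₑ ^ 2 ≤ ENNReal.ofReal ((2 * Real.pi) ^ 2) * ∫⁻ x, ‖f x‖ₑ ^ 2 := by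
  by_cases h : ∫⁻ x, ‖f x‖ₑ ^ 2 = ∞
  · rw [h, ENNReal.mul_top]
    · exact le_top
    · rw [Ne, ENNReal.ofReal_eq_zero, not_le]
      positivity
  have h2 : MemLp f 2 := memLp_of_lint f hf h
  set G : ℂ → ℂ := fun x => ph (t * normSq x) * f x with hG
  have hGm : Measurable G := by
    have : Measurable (fun x : ℂ => ph (t * normSq x)) := by fun_prop
    exact this.mul hf
  have hGn : ∀ x, ‖G x‖ = ‖f x‖ := fun x => by rw [hG]; simp only [norm_mul, norm_ph, one_mul]
  have g1 : Integrable G := h1.mono hGm.aestronglyMeasurable (ae_of_all _ fun x => (hGn x).le)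
  have g2 : MemLp G 2 := h2.mono hGm.aestronglyMeasurable (ae_of_all _ fun x => (hGn x).le)
  have h3 := Pool.Agent.H153R4.plancherel G g1 g2
  have hcont : Continuous (𝓕 G) :=
    VectorFourier.fourierIntegral_continuous (L := innerₗ ℂ) Real.continuous_fourierChar
      continuous_inner g1
  have hpi : (2 * Real.pi) ≠ 0 := by positivity
  simp_rw [Ex_eq_fourier f _ t]
  rw [lint_smulC (fun x => ‖𝓕 G x‖ₑ ^ 2) (by fun_prop) _ (inv_ne_zero hpi), h3]
  apply le_of_eq
  rw [inv_pow, inv_inv]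
  congr 1
  apply lintegral_congr
  intro x
  rw [← ofReal_norm, ← ofReal_norm, hGn]

/-- Plancherel on the line, as an inequality for integrable functions. -/
lemma planch1 (g : ℝ → ℂ) (hg : Measurable g) (h1 : Integrable g) :
    ∫⁻ t : ℝ, ‖∫ u : ℝ, ph (2 * t * u) * g u‖ₑ ^ 2 ≤
      ENNReal.ofReal Real.pi * ∫⁻ u, ‖g u‖ₑ ^ 2 := by
  by_cases h : ∫⁻ x, ‖g x‖ₑ ^ 2 = ∞
  · rw [h, ENNReal.mul_top]
    · exact le_top
    · rw [Ne, ENNReal.ofReal_eq_zero, not_le]
      positivity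
  have h2 : MemLp g 2 := by
    refine ⟨hg.aestronglyMeasurable, ?_⟩
    have b1 := eLpNorm_nnreal_pow_eq_lintegral (f := g) (μ := (volume : Measure ℝ)) (p := 2)
      (by norm_num)
    simp only [NNReal.coe_ofNat, ENNReal.rpow_ofNat] at b1
    have c1 : (((2 : NNReal) : ℝ≥0∞)) = 2 := by norm_num
    rw [c1] at b1
    by_contra hcon
    rw [not_lt, top_le_iff] at hcon
    rw [hcon] at b1
    apply h
    rw [← b1]
    simp
  have h3 := Pool.Agent.W771.planch1 g h1 h2
  have hm : Measurable (fun x : ℝ => ‖∫ u : ℝ, g u * cexp (-(I * (u * x : ℝ)))‖ₑ ^ 2) := by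
    have h : Measurable (fun w : ℝ × ℝ => g w.2 * cexp (-(I * (w.2 * w.1 : ℝ)))) := by
      fun_prop
    exact ((h.stronglyMeasurable.integral_prod_right' (ν := volume)).measurable.enorm).pow_const 2
  have e : ∀ t : ℝ, ‖∫ u : ℝ, ph (2 * t * u) * g u‖ₑ ^ 2 =
      (fun x : ℝ => ‖∫ u : ℝ, g u * cexp (-(I * (u * x : ℝ)))‖ₑ ^ 2) (2 * t) := by
    intro t
    simp only
    congr 2
    apply integral_congr_ae
    filter_upwards with u
    unfold ph
    rw [mul_comm]
    congr 3
    push_cast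
    ring
  simp_rw [e]
  rw [Pool.Agent.W771.lint_scale _ hm 2 (by norm_num), h3, ← mul_assoc,
    ← ENNReal.ofReal_mul (by positivity)]
  apply le_of_eq
  congr 2
  rw [abs_of_pos (by positivity)]
  ring

end Pool.Agent.Q63.Star
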