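import Mathlib
import Pool.Agent.Q63.Star.Basic
set_option autoImplicit false

/-! The Strichartz inequality `L^2 → L^4` for the paraboloid in `ℝ^3`. -/

namespace Pool.Agent.Q63.Star

open MeasureTheory Set Complex
open scoped ENNReal NNReal ComplexConjugate

/-! ### Hölder -/

lemma hol4 {X : Type*} [MeasurableSpace X] (μ : Measure X) (f : X → ℝ≥0∞) (hf : AEMeasurable f μ) :
    (∫⁻ x, f x ∂μ) ^ 4 ≤ μ univ ^ 3 * ∫⁻ x, f x ^ 4 ∂μ := by
  have hpq : (4 : ℝ).HolderConjugate (4 / 3) := by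
    rw [Real.holderConjugate_iff]; norm_num
  have h := ENNReal.lintegral_mul_le_Lp_mul_Lq μ hpq hf (g := fun _ => 1) aemeasurable_const
  simp only [Pi.mul_apply, mul_one, ENNReal.one_rpow, lintegral_const, one_mul] at h
  calc (∫⁻ x, f x ∂μ) ^ 4 ≤ ((∫⁻ x, f x ^ (4 : ℝ) ∂μ) ^ (1 / (4 : ℝ)) *
        μ univ ^ (1 / (4 / 3 : ℝ))) ^ 4 := by gcongr
    _ = _ := by
      rw [mul_pow, ← ENNReal.rpow_natCast, ← ENNReal.rpow_natCast, ← ENNReal.rpow_mul,
        ← ENNReal.rpow_mul, mul_comm, ← ENNReal.rpow_natCast]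
      norm_num

lemma hol2 {X : Type*} [MeasurableSpace X] (μ : Measure X) (f : X → ℝ≥0∞) (hf : AEMeasurable f μ) :
    (∫⁻ x, f x ∂μ) ^ 2 ≤ μ univ * ∫⁻ x, f x ^ 2 ∂μ := by
  have hpq : (2 : ℝ).HolderConjugate 2 := by
    rw [Real.holderConjugate_iff]; norm_num
  have h := ENNReal.lintegral_mul_le_Lp_mul_Lq μ hpq hf (g := fun _ => 1) aemeasurable_const
  simp only [Pi.mul_apply, mul_one, ENNReal.one_rpow, lintegral_const, one_mul] at h
  calc (∫⁻ x, f x ∂μ) ^ 2 ≤ ((∫⁻ x, f x ^ (2 : ℝ) ∂μ) ^ (1 / (2 : ℝ)) *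
        μ univ ^ (1 / (2 : ℝ))) ^ 2 := by gcongr
    _ = _ := by
      rw [mul_pow, ← ENNReal.rpow_natCast, ← ENNReal.rpow_natCast, ← ENNReal.rpow_mul,
        ← ENNReal.rpow_mul, mul_comm]
      norm_num

/-! ### the substitution `u = r^2` -/

lemma img_sq : (fun r : ℝ => r ^ 2) '' Ioi (0 : ℝ) = Ioi 0 := by
  ext u
  constructor
  · rintro ⟨r, hr, rfl⟩
    have hr' : (0 : ℝ) < r := hr
    exact pow_pos hr' 2
  · intro hu
    have hu' : (0 : ℝ) < u := hu
    exact ⟨Real.sqrt u, Real.sqrt_pos.2 hu', Real.sq_sqrt hu'.le⟩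

lemma inj_sq : InjOn (fun r : ℝ => r ^ 2) (Ioi (0 : ℝ)) := by
  intro a ha b hb hab
  have ha' : (0 : ℝ) < a := ha
  have hb' : (0 : ℝ) < b := hb
  simp only at hab
  exact (pow_left_inj₀ ha'.le hb'.le two_ne_zero).1 hab

lemma der_sq (r : ℝ) : HasDerivWithinAt (fun r : ℝ => r ^ 2) (2 * r) (Ioi (0 : ℝ)) r := by
  have := (hasDerivAt_pow 2 r).hasDerivWithinAt (s := Ioi (0 : ℝ))
  simpa using this

lemma sub_sq_lint (F : ℝ → ℝ≥0∞) :
    ∫⁻ u in Ioi (0 : ℝ), F u = ∫⁻ r in Ioi (0 : ℝ), ENNReal.ofReal (2 * r) * F (r ^ 2) := by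
  have h := lintegral_image_eq_lintegral_abs_deriv_mul measurableSet_Ioi
    (fun r _ => der_sq r) inj_sq F
  rw [img_sq] at h
  rw [h]
  refine setLIntegral_congr_fun measurableSet_Ioi fun r hr => ?_
  have hr' : (0 : ℝ) < r := hr
  rw [abs_of_pos (by positivity)]

lemma sub_sq_int (F : ℝ → ℂ) :
    ∫ u in Ioi (0 : ℝ), F u = ∫ r in Ioi (0 : ℝ), ((2 * r : ℝ) : ℂ) * F (r ^ 2) := by
  have h := integral_image_eq_integral_abs_deriv_smul measurableSet_Ioi
    (fun r _ => der_sq r) inj_sq F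
  rw [img_sq] at h
  rw [h]
  refine setIntegral_congr_fun measurableSet_Ioi fun r hr => ?_
  have hr' : (0 : ℝ) < r := hr
  rw [abs_of_pos (by positivity), real_smul]

/-! ### the radial Plancherel inequality -/

lemma radP (Φ : ℂ → ℂ) (hΦ : Measurable Φ) :
    ∫⁻ t : ℝ, ‖∫ w : ℂ, ph (2 * t * normSq w) * Φ w‖ₑ ^ 2 ≤
      ENNReal.ofReal (Real.pi ^ 2) * ∫⁻ w, ‖Φ w‖ₑ ^ 2 := by
  by_cases hi : Integrable Φ
  swap
  · have h0 : ∀ t : ℝ, ∫ w : ℂ, ph (2 * t * normSq w) * Φ w = 0 := by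
      intro t
      apply integral_undef
      intro hc
      apply hi
      refine hc.mono hΦ.aestronglyMeasurable ?_
      filter_upwards with w
      rw [norm_mul, norm_ph, one_mul]
    simp [h0]
  have hpi := Real.pi_pos
  set Ψ : ℝ × ℝ → ℂ := fun p => Φ (p.1 * um p.2) with hΨ
  have hΨm : Measurable Ψ := by
    apply hΦ.comp
    fun_prop
  -- integrability in polar coordinates
  have hIP : IntegrableOn (fun p : ℝ × ℝ => (p.1 : ℂ) * Ψ p) TP := by
    refine ⟨(by fun_prop : Measurable fun p : ℝ × ℝ => (p.1 : ℂ) * Ψ p).aestronglyMeasurable, ?_⟩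
    have h1 := pol_lint (fun w => ‖Φ w‖ₑ)
    have h2 : ∫⁻ w, ‖Φ w‖ₑ < ∞ := hi.2
    rw [h1] at h2
    refine lt_of_le_of_lt (le_of_eq ?_) h2
    refine setLIntegral_congr_fun TP_meas fun p hp => ?_
    have hp1 : (0 : ℝ) < p.1 := hp.1
    simp only
    rw [enorm_mul, ← ofReal_norm (p.1 : ℂ), Complex.norm_real, Real.norm_eq_abs, abs_of_pos hp1]
  set H : ℝ → ℂ := fun r => ∫ θ in Ioo (-Real.pi) Real.pi, Ψ (r, θ) with hH
  have hHm : Measurable H := (hΨm.stronglyMeasurable.integral_prod_right'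
      (ν := volume.restrict (Ioo (-Real.pi) Real.pi))).measurable
  set A : ℝ → ℂ := (Ioi (0 : ℝ)).indicator (fun u => (1 / 2 : ℂ) * H (Real.sqrt u)) with hA
  have hAm : Measurable A := by
    apply Measurable.indicator _ measurableSet_Ioi
    exact (hHm.comp Real.continuous_sqrt.measurable).const_mul _
  -- the formula
  have hform : ∀ t : ℝ, ∫ w : ℂ, ph (2 * t * normSq w) * Φ w = ∫ u : ℝ, ph (2 * t * u) * A u := by
    intro t
    rw [pol_int]
    have e1 : ∫ p in TP, (p.1 : ℂ) * (ph (2 * t * normSq (p.1 * um p.2)) * Φ (p.1 * um p.2)) =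
        ∫ p in TP, ph (2 * t * p.1 ^ 2) * ((p.1 : ℂ) * Ψ p) := by
      apply integral_congr_ae
      filter_upwards with p
      rw [normSq_smul, normSq_um, mul_one]
      ring
    rw [e1]
    have hI2 : IntegrableOn (fun p : ℝ × ℝ => ph (2 * t * p.1 ^ 2) * ((p.1 : ℂ) * Ψ p)) TP := by
      refine Integrable.mono hIP
        (by fun_prop : Measurable fun p : ℝ × ℝ =>
          ph (2 * t * p.1 ^ 2) * ((p.1 : ℂ) * Ψ p)).aestronglyMeasurable ?_
      filter_upwards with p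
      rw [norm_mul, norm_ph, one_mul]
    unfold TP at hI2 ⊢
    rw [Measure.volume_eq_prod] at hI2 ⊢
    rw [setIntegral_prod _ hI2]
    have e2 : ∫ u : ℝ, ph (2 * t * u) * A u =
        ∫ u in Ioi (0 : ℝ), ph (2 * t * u) * ((1 / 2 : ℂ) * H (Real.sqrt u)) := by
      rw [← integral_indicator measurableSet_Ioi]
      apply integral_congr_ae
      filter_upwards with u
      by_cases hu : u ∈ Ioi (0 : ℝ)
      · rw [hA, indicator_of_mem hu, indicator_of_mem hu]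
      · rw [hA, indicator_of_notMem hu, indicator_of_notMem hu, mul_zero]
    rw [e2, sub_sq_int (fun u => ph (2 * t * u) * ((1 / 2 : ℂ) * H (Real.sqrt u)))]
    refine setIntegral_congr_fun measurableSet_Ioi fun r hr => ?_
    have hr' : (0 : ℝ) < r := hr
    simp only
    rw [integral_const_mul, Real.sqrt_sq hr'.le]
    rw [integral_const_mul]
    rw [hH]
    push_cast
    ring
  -- integrability of A
  have hAn : ∀ u, ‖A u‖ₑ ≤ (Ioi (0 : ℝ)).indicator
      (fun u => ENNReal.ofReal (1 / 2) *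
        ∫⁻ θ in Ioo (-Real.pi) Real.pi, ‖Ψ (Real.sqrt u, θ)‖ₑ) u := by
    intro u
    by_cases hu : u ∈ Ioi (0 : ℝ)
    · rw [hA, indicator_of_mem hu, indicator_of_mem hu, enorm_mul]
      have : ‖(1 / 2 : ℂ)‖ₑ = ENNReal.ofReal (1 / 2) := by
        rw [← ofReal_norm]
        norm_num
      rw [this]
      gcongr
      exact enorm_integral_le_lintegral_enorm _
    · rw [hA, indicator_of_notMem hu, indicator_of_notMem hu, enorm_zero]
  have hmE : Measurable (fun p : ℝ × ℝ => ‖Ψ p‖ₑ) := hΨm.enorm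
  have hI3 : ∀ F : ℂ → ℝ≥0∞, Measurable F → ∫⁻ u in Ioi (0 : ℝ),
      ENNReal.ofReal (1 / 2) * ∫⁻ θ in Ioo (-Real.pi) Real.pi, F (Real.sqrt u * um θ) =
      ∫⁻ w, F w := by
    intro F hF
    have hF2 : Measurable (fun p : ℝ × ℝ => F (p.1 * um p.2)) := by
      apply hF.comp
      fun_prop
    rw [pol_lint, sub_sq_lint]
    unfold TP
    rw [Measure.volume_eq_prod, setLIntegral_prod _ (by fun_prop)]
    refine setLIntegral_congr_fun measurableSet_Ioi fun r hr => ?_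
    have hr' : (0 : ℝ) < r := hr
    simp only
    rw [Real.sqrt_sq hr'.le, ← mul_assoc, ← ENNReal.ofReal_mul (by positivity)]
    have hF3 : Measurable (fun y : ℝ => F (r * um y)) := by
      apply hF.comp
      fun_prop
    rw [lintegral_const_mul _ hF3]
    congr 2
    ring
  have hAi : Integrable A := by
    refine ⟨hAm.aestronglyMeasurable, ?_⟩
    refine lt_of_le_of_lt (lintegral_mono hAn) ?_
    rw [lintegral_indicator measurableSet_Ioi]
    rw [hI3 (fun w => ‖Φ w‖ₑ) hΦ.enorm]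
    exact hi.2
  simp_rw [hform]
  refine (planch1 A hAm hAi).trans ?_
  have hsq : ENNReal.ofReal (Real.pi ^ 2) = ENNReal.ofReal Real.pi * ENNReal.ofReal Real.pi := by
    rw [← ENNReal.ofReal_mul hpi.le, sq]
  rw [hsq, mul_assoc]
  gcongr
  calc ∫⁻ u, ‖A u‖ₑ ^ 2 ≤ ∫⁻ u in Ioi (0 : ℝ), ENNReal.ofReal Real.pi *
        (ENNReal.ofReal (1 / 2) *
          ∫⁻ θ in Ioo (-Real.pi) Real.pi, ‖Φ (Real.sqrt u * um θ)‖ₑ ^ 2) := by
        rw [← lintegral_indicator measurableSet_Ioi]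
        apply lintegral_mono
        intro u
        simp only
        by_cases hu : u ∈ Ioi (0 : ℝ)
        · have h1 := hAn u
          rw [indicator_of_mem hu] at h1
          rw [indicator_of_mem hu]
          have h2 := hol2 (volume.restrict (Ioo (-Real.pi) Real.pi))
            (fun θ => ‖Φ (Real.sqrt u * um θ)‖ₑ)
            (by
              have hq : Measurable (fun θ : ℝ => Φ (Real.sqrt u * um θ)) := by
                apply hΦ.comp
                fun_prop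
              exact hq.enorm.aemeasurable)
          rw [Measure.restrict_apply_univ, Real.volume_Ioo] at h2
          calc ‖A u‖ₑ ^ 2 ≤ (ENNReal.ofReal (1 / 2) *
              ∫⁻ θ in Ioo (-Real.pi) Real.pi, ‖Ψ (Real.sqrt u, θ)‖ₑ) ^ 2 := by gcongr
            _ = ENNReal.ofReal (1 / 2) ^ 2 *
              (∫⁻ θ in Ioo (-Real.pi) Real.pi, ‖Ψ (Real.sqrt u, θ)‖ₑ) ^ 2 := by rw [mul_pow]
            _ ≤ ENNReal.ofReal (1 / 2) ^ 2 * (ENNReal.ofReal (Real.pi - -Real.pi) *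
              ∫⁻ θ in Ioo (-Real.pi) Real.pi, ‖Φ (Real.sqrt u * um θ)‖ₑ ^ 2) := by gcongr
            _ = _ := by
              rw [← mul_assoc, ← mul_assoc, ← ENNReal.ofReal_pow (by norm_num),
                ← ENNReal.ofReal_mul (by norm_num), ← ENNReal.ofReal_mul hpi.le]
              congr 2
              ring
        · rw [indicator_of_notMem hu, hA, indicator_of_notMem hu]
          simp
    _ = ENNReal.ofReal Real.pi * ∫⁻ w, ‖Φ w‖ₑ ^ 2 := by
        rw [lintegral_const_mul']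
        · rw [hI3 (fun w => ‖Φ w‖ₑ ^ 2) (hΦ.enorm.pow_const 2)]
        · exact ENNReal.ofReal_ne_top

/-! ### pairs of points -/

lemma sub_two_lint (a : ℂ → ℝ≥0∞) (ha : Measurable a) (y : ℂ) :
    ∫⁻ m : ℂ, a (2 * m - y) = ENNReal.ofReal (1 / 4) * ∫⁻ x, a x := by
  have h := lint_smulC (fun x => a (x - y)) (by fun_prop) 2 (by norm_num)
  have e : ∀ m : ℂ, a (2 * m - y) = a (((2 : ℝ) : ℂ) * m - y) := by
    intro m
    norm_num
  simp_rw [e]
  rw [h, lintegral_sub_right_eq_self a y]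
  norm_num

lemma pair_lint (a : ℂ → ℝ≥0∞) (ha : Measurable a) :
    ∫⁻ m : ℂ, ∫⁻ w : ℂ, a (m + w) * a (m - w) = ENNReal.ofReal (1 / 4) * (∫⁻ x, a x) ^ 2 := by
  have h1 : ∀ m : ℂ, ∫⁻ w : ℂ, a (m + w) * a (m - w) = ∫⁻ y : ℂ, a (2 * m - y) * a y := by
    intro m
    rw [← lintegral_sub_left_eq_self (fun w => a (m + w) * a (m - w)) m]
    apply lintegral_congr
    intro y
    congr 2 <;> ring
  simp_rw [h1]
  rw [lintegral_lintegral_swap (by fun_prop)]
  have h2 : ∀ y : ℂ, ∫⁻ m : ℂ, a (2 * m - y) * a y =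
      ENNReal.ofReal (1 / 4) * (∫⁻ x, a x) * a y := by
    intro y
    rw [lintegral_mul_const _ (by fun_prop), sub_two_lint a ha y]
  simp_rw [h2]
  rw [lintegral_const_mul _ ha]
  ring

lemma pair_int (G : ℂ → ℂ) (hG : Measurable G) (hi : Integrable G) :
    Integrable (fun p : ℂ × ℂ => G (p.1 + p.2) * G (p.1 - p.2)) (volume.prod volume) := by
  have hm : Measurable (fun p : ℂ × ℂ => G (p.1 + p.2) * G (p.1 - p.2)) := by fun_prop
  refine ⟨hm.aestronglyMeasurable, ?_⟩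
  unfold HasFiniteIntegral
  rw [lintegral_prod _ hm.enorm.aemeasurable]
  simp_rw [enorm_mul]
  rw [pair_lint (fun x => ‖G x‖ₑ) hG.enorm]
  exact ENNReal.mul_lt_top ENNReal.ofReal_lt_top (ENNReal.pow_lt_top hi.2)

lemma pair_eq (G : ℂ → ℂ) (hG : Measurable G) (hi : Integrable G) :
    (∫ x, G x) ^ 2 = 4 * ∫ m : ℂ, ∫ w : ℂ, G (m + w) * G (m - w) := by
  have h1 : ∀ m : ℂ, ∫ w : ℂ, G (m + w) * G (m - w) = ∫ y : ℂ, G (2 * m - y) * G y := by
    intro m
    rw [← integral_sub_left_eq_self (fun w => G (m + w) * G (m - w)) volume m]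
    apply integral_congr_ae
    filter_upwards with y
    congr 2 <;> ring
  simp_rw [h1]
  have hm : Measurable (fun p : ℂ × ℂ => G (2 * p.1 - p.2) * G p.2) := by fun_prop
  have hI : Integrable (Function.uncurry fun m y : ℂ => G (2 * m - y) * G y)
      (volume.prod volume) := by
    refine ⟨hm.aestronglyMeasurable, ?_⟩
    unfold HasFiniteIntegral
    rw [lintegral_prod _ (by exact hm.enorm.aemeasurable)]
    have h2 : ∀ m : ℂ, ∫⁻ y : ℂ, ‖Function.uncurry (fun m y : ℂ => G (2 * m - y) * G y) (m, y)‖ₑ =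
        ∫⁻ w : ℂ, ‖G (m + w)‖ₑ * ‖G (m - w)‖ₑ := by
      intro m
      rw [← lintegral_sub_left_eq_self (fun w => ‖G (m + w)‖ₑ * ‖G (m - w)‖ₑ) m]
      apply lintegral_congr
      intro y
      simp only [Function.uncurry_apply_pair, enorm_mul]
      congr 3 <;> ring
    simp_rw [h2]
    rw [pair_lint (fun x => ‖G x‖ₑ) hG.enorm]
    exact ENNReal.mul_lt_top ENNReal.ofReal_lt_top (ENNReal.pow_lt_top hi.2)
  rw [integral_integral_swap hI]
  have h3 : ∀ y : ℂ, ∫ m : ℂ, G (2 * m - y) * G y = (1 / 4 : ℂ) * (∫ x, G x) * G y := by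
    intro y
    rw [integral_mul_const]
    congr 1
    have h4 := Measure.integral_comp_smul (volume : Measure ℂ) (fun x => G (x - y)) (2 : ℝ)
    rw [Complex.finrank_real_complex] at h4
    have h5 : ∫ m : ℂ, G (2 * m - y) = ∫ m : ℂ, G ((2 : ℝ) • m - y) := by
      apply integral_congr_ae
      filter_upwards with m
      simp only [real_smul]
      norm_num
    rw [h5, h4, integral_sub_right_eq_self G y, real_smul]
    norm_num
  simp_rw [h3]
  rw [integral_const_mul]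
  ring

/-- the bilinear amplitude -/
noncomputable def Bt (f : ℂ → ℂ) (t : ℝ) (m : ℂ) : ℂ :=
  ∫ w : ℂ, ph (2 * t * normSq w) * (f (m + w) * f (m - w))

lemma Bt_meas (f : ℂ → ℂ) (hf : Measurable f) : Measurable (fun p : ℝ × ℂ => Bt f p.1 p.2) := by
  have h : Measurable (fun p : (ℝ × ℂ) × ℂ => ph (2 * p.1.1 * normSq p.2) *
      (f (p.1.2 + p.2) * f (p.1.2 - p.2))) := by fun_prop
  exact (h.stronglyMeasurable.integral_prod_right' (ν := volume)).measurable

lemma Bt_int (f : ℂ → ℂ) (hf : Measurable f) (hi : Integrable f) (t : ℝ) : Integrable (Bt f t) := by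
  have h := pair_int f hf hi
  have h2 : Integrable (fun p : ℂ × ℂ => ph (2 * t * normSq p.2) *
      (f (p.1 + p.2) * f (p.1 - p.2))) (volume.prod volume) := by
    refine h.mono (by fun_prop : Measurable fun p : ℂ × ℂ => ph (2 * t * normSq p.2) *
      (f (p.1 + p.2) * f (p.1 - p.2))).aestronglyMeasurable ?_
    filter_upwards with p
    rw [norm_mul, norm_ph, one_mul]
  exact h2.integral_prod_left

lemma Ex_sq (f : ℂ → ℂ) (hf : Measurable f) (hi : Integrable f) (ζ : ℂ) (t : ℝ) :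
    (Ex f ζ t) ^ 2 = 4 * Ex (Bt f t) (2 * ζ) (2 * t) := by
  have hGm : Measurable (fun x : ℂ => ph (dt x ζ + t * normSq x) * f x) :=
    (ker_meas_x ζ t).mul hf
  unfold Ex
  rw [pair_eq _ hGm (Ex_int f hi ζ t)]
  congr 1
  apply integral_congr_ae
  filter_upwards with m
  unfold Bt
  rw [← integral_const_mul]
  apply integral_congr_ae
  filter_upwards with w
  have e : ph (dt (m + w) ζ + t * normSq (m + w)) * ph (dt (m - w) ζ + t * normSq (m - w)) =
      ph (dt m (2 * ζ) + 2 * t * normSq m) * ph (2 * t * normSq w) := by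
    rw [← ph_add, ← ph_add]
    congr 1
    simp only [dt, normSq_apply, add_re, add_im, sub_re, sub_im, mul_re, mul_im, re_ofNat,
      im_ofNat]
    ring
  calc ph (dt (m + w) ζ + t * normSq (m + w)) * f (m + w) *
      (ph (dt (m - w) ζ + t * normSq (m - w)) * f (m - w)) =
      (ph (dt (m + w) ζ + t * normSq (m + w)) * ph (dt (m - w) ζ + t * normSq (m - w))) *
      (f (m + w) * f (m - w)) := by ring
    _ = _ := by rw [e]; ring

/-- **Strichartz' inequality.** -/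
theorem strich (f : ℂ → ℂ) (hf : Measurable f) (hi : Integrable f) :
    ∫⁻ t : ℝ, ∫⁻ ζ : ℂ, ‖Ex f ζ t‖ₑ ^ 4 ≤
      ENNReal.ofReal (4 * Real.pi ^ 4) * (∫⁻ x, ‖f x‖ₑ ^ 2) ^ 2 := by
  have h1 : ∀ t : ℝ, ∫⁻ ζ : ℂ, ‖Ex f ζ t‖ₑ ^ 4 ≤
      ENNReal.ofReal (16 * Real.pi ^ 2) * ∫⁻ m, ‖Bt f t m‖ₑ ^ 2 := by
    intro t
    have hBm : Measurable (Bt f t) := (Bt_meas f hf).of_uncurry_left
    have e1 : ∀ ζ : ℂ, ‖Ex f ζ t‖ₑ ^ 4 = ENNReal.ofReal 16 *
        (fun ζ : ℂ => ‖Ex (Bt f t) ζ (2 * t)‖ₑ ^ 2) (((2 : ℝ) : ℂ) * ζ) := by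
      intro ζ
      simp only
      have e2 : ‖Ex f ζ t‖ₑ ^ 4 = ‖(Ex f ζ t) ^ 2‖ₑ ^ 2 := by
        rw [enorm_pow]; ring
      rw [e2, Ex_sq f hf hi, enorm_mul, mul_pow]
      have e3 : ‖(4 : ℂ)‖ₑ ^ 2 = ENNReal.ofReal 16 := by
        rw [← ofReal_norm, ← ENNReal.ofReal_pow (by positivity)]
        norm_num
      rw [e3]
      norm_num
    simp_rw [e1]
    have hm : Measurable (fun ζ : ℂ => ‖Ex (Bt f t) ζ (2 * t)‖ₑ ^ 2) :=
      ((Ex_meas_left _ hBm _).enorm).pow_const 2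
    rw [lintegral_const_mul' _ _ ENNReal.ofReal_ne_top, lint_smulC _ hm 2 (by norm_num)]
    calc ENNReal.ofReal 16 * (ENNReal.ofReal ((2 ^ 2)⁻¹) * ∫⁻ ζ, ‖Ex (Bt f t) ζ (2 * t)‖ₑ ^ 2) ≤
        ENNReal.ofReal 16 * (ENNReal.ofReal ((2 ^ 2)⁻¹) * (ENNReal.ofReal ((2 * Real.pi) ^ 2) *
          ∫⁻ m, ‖Bt f t m‖ₑ ^ 2)) := by
          gcongr
          exact planch2 _ hBm (Bt_int f hf hi t) (2 * t)
      _ = _ := by
        rw [← mul_assoc, ← mul_assoc, ← ENNReal.ofReal_mul (by norm_num),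
          ← ENNReal.ofReal_mul (by norm_num)]
        congr 2
        ring
  have hBm2 : Measurable (fun p : ℝ × ℂ => ‖Bt f p.1 p.2‖ₑ ^ 2) := ((Bt_meas f hf).enorm).pow_const 2
  calc ∫⁻ t : ℝ, ∫⁻ ζ : ℂ, ‖Ex f ζ t‖ₑ ^ 4 ≤
      ∫⁻ t : ℝ, ENNReal.ofReal (16 * Real.pi ^ 2) * ∫⁻ m, ‖Bt f t m‖ₑ ^ 2 := lintegral_mono h1
    _ = ENNReal.ofReal (16 * Real.pi ^ 2) * ∫⁻ t : ℝ, ∫⁻ m, ‖Bt f t m‖ₑ ^ 2 :=
        lintegral_const_mul' _ _ ENNReal.ofReal_ne_top
    _ = ENNReal.ofReal (16 * Real.pi ^ 2) * ∫⁻ m, ∫⁻ t : ℝ, ‖Bt f t m‖ₑ ^ 2 := by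
        rw [lintegral_lintegral_swap hBm2.aemeasurable]
    _ ≤ ENNReal.ofReal (16 * Real.pi ^ 2) * ∫⁻ m, ENNReal.ofReal (Real.pi ^ 2) *
        ∫⁻ w, ‖f (m + w)‖ₑ ^ 2 * ‖f (m - w)‖ₑ ^ 2 := by
        gcongr with m
        refine (radP (fun w => f (m + w) * f (m - w)) (by fun_prop)).trans (le_of_eq ?_)
        congr 1
        apply lintegral_congr
        intro w
        rw [enorm_mul, mul_pow]
    _ = _ := by
        rw [lintegral_const_mul' _ _ ENNReal.ofReal_ne_top,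
          pair_lint (fun x => ‖f x‖ₑ ^ 2) (hf.enorm.pow_const 2), ← mul_assoc, ← mul_assoc,
          ← ENNReal.ofReal_mul (by positivity), ← ENNReal.ofReal_mul (by positivity)]
        congr 2
        ring

end Pool.Agent.Q63.Star
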