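import Mathlib
import Pool.Agent.Q63.Star.Strich
import Pool.Agent.H789R2.FR.E4
set_option autoImplicit false

/-! The planar `L^4` estimate for the full circle. -/

namespace Pool.Agent.Q63.Star

open MeasureTheory Set Complex
open scoped ENNReal NNReal ComplexConjugate

/-- circle extension of a density supported in an arc -/
noncomputable def q0 (β : ℝ → ℂ) (ζ : ℂ) : ℂ := ∫ η : ℝ, β η * ph (-(dt (um η) ζ))

/-- tilted density -/
noncomputable def bt (β : ℝ → ℂ) (c : ℝ) : ℂ :=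
  ((1 / Pool.Agent.H789R2.FR.sc c : ℝ) : ℂ) * β (Real.arcsin c)

lemma sc_arcsin (c : ℝ) : Pool.Agent.H789R2.FR.sc c = Real.cos (Real.arcsin c) := by
  rw [Real.cos_arcsin]
  rfl

lemma bt_meas (β : ℝ → ℂ) (hβ : Measurable β) : Measurable (bt β) := by
  have h1 := Pool.Agent.H789R2.FR.E4w.sc_meas
  have h2 : Measurable Real.arcsin := Real.continuous_arcsin.measurable
  unfold bt
  fun_prop

lemma arc_cos (η : ℝ) (h : |η| ≤ Real.pi / 4) : 1 / Real.sqrt 2 ≤ Real.cos η := by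
  rw [← Real.cos_abs]
  have h1 : Real.cos (Real.pi / 4) ≤ Real.cos |η| :=
    Real.cos_le_cos_of_nonneg_of_le_pi (abs_nonneg _) (by linarith [Real.pi_pos]) h
  rw [Real.cos_pi_div_four] at h1
  have h2 : 1 / Real.sqrt 2 = Real.sqrt 2 / 2 := by
    have := Real.mul_self_sqrt (show (0:ℝ) ≤ 2 by norm_num)
    have h3 : Real.sqrt 2 ≠ 0 := by positivity
    field_simp
    rw [sq]; linarith
  rw [h2]
  exact h1

lemma q0_eq (β : ℝ → ℂ) (hs : ∀ η, β η ≠ 0 → |η| ≤ Real.pi / 4) (ζ : ℂ) :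
    q0 β ζ = Pool.Agent.H789R2.FR.Ex (bt β) (-ζ.re) (-ζ.im) := by
  have hpi := Real.pi_pos
  have himg : Real.arcsin '' Ioo (-1 : ℝ) 1 = Ioo (-(Real.pi / 2)) (Real.pi / 2) := by
    ext η
    constructor
    · rintro ⟨c, hc, rfl⟩
      exact ⟨Real.neg_pi_div_two_lt_arcsin.2 hc.1, Real.arcsin_lt_pi_div_two.2 hc.2⟩
    · intro hη
      refine ⟨Real.sin η, ⟨?_, ?_⟩, Real.arcsin_sin hη.1.le hη.2.le⟩
      · have := Real.sin_lt_sin_of_lt_of_le_pi_div_two (x := -(Real.pi / 2)) (y := η) le_rfl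
          hη.2.le hη.1
        rwa [Real.sin_neg, Real.sin_pi_div_two] at this
      · have := Real.sin_lt_sin_of_lt_of_le_pi_div_two (x := η) (y := Real.pi / 2)
          hη.1.le le_rfl hη.2
        rwa [Real.sin_pi_div_two] at this
  have hder : ∀ c ∈ Ioo (-1 : ℝ) 1, HasDerivWithinAt Real.arcsin (1 / Real.sqrt (1 - c ^ 2))
      (Ioo (-1 : ℝ) 1) c := fun c hc =>
    (Real.hasDerivAt_arcsin hc.1.ne' hc.2.ne).hasDerivWithinAt
  have hinj : InjOn Real.arcsin (Ioo (-1 : ℝ) 1) := by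
    intro a ha b hb hab
    exact Real.injOn_arcsin (Ioo_subset_Icc_self ha) (Ioo_subset_Icc_self hb) hab
  have h := integral_image_eq_integral_abs_deriv_smul measurableSet_Ioo hder hinj
    (fun η => β η * ph (-(dt (um η) ζ)))
  rw [himg] at h
  have e1 : q0 β ζ = ∫ η in Ioo (-(Real.pi / 2)) (Real.pi / 2), β η * ph (-(dt (um η) ζ)) := by
    unfold q0
    symm
    apply setIntegral_eq_integral_of_forall_compl_eq_zero
    intro η hη
    have : β η = 0 := by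
      by_contra hcon
      have h1 := hs η hcon
      apply hη
      rw [abs_le] at h1
      constructor <;> linarith [h1.1, h1.2]
    rw [this, zero_mul]
  rw [e1, h]
  unfold Pool.Agent.H789R2.FR.Ex
  refine setIntegral_congr_fun measurableSet_Ioo fun c hc => ?_
  have hsc : Real.sqrt (1 - c ^ 2) = Pool.Agent.H789R2.FR.sc c := rfl
  have hsc0 : 0 ≤ 1 / Real.sqrt (1 - c ^ 2) := by positivity
  rw [abs_of_nonneg hsc0, hsc, real_smul]
  unfold bt ph
  have e2 : dt (um (Real.arcsin c)) ζ = Pool.Agent.H789R2.FR.sc c * ζ.re + c * ζ.im := by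
    unfold dt
    rw [um_re, um_im, ← sc_arcsin, Real.sin_arcsin hc.1.le hc.2.le]
  rw [e2]
  have e3 : (-(I * ((-(Pool.Agent.H789R2.FR.sc c * ζ.re + c * ζ.im) : ℝ) : ℂ))) =
      -((-ζ.re * Pool.Agent.H789R2.FR.sc c + -ζ.im * c : ℝ) : ℂ) * I := by
    push_cast
    ring
  rw [e3]
  ring

lemma bt_bd (β : ℝ → ℂ) (hb : ∀ η, ‖β η‖ ≤ 1) (hs : ∀ η, β η ≠ 0 → |η| ≤ Real.pi / 4) (c : ℝ) :
    ‖bt β c‖ ≤ 2 ∧ (bt β c ≠ 0 → c ∈ Pool.Agent.H789R2.FR.band 1 ∧
      1 / Pool.Agent.H789R2.FR.sc c ≤ 2) := by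
  by_cases h0 : β (Real.arcsin c) = 0
  · unfold bt
    rw [h0, mul_zero]
    simp
  · have h1 := hs _ h0
    have h2 := arc_cos _ h1
    rw [← sc_arcsin] at h2
    have h4 : (1 : ℝ) / 2 < 1 / Real.sqrt 2 := by
      have h5 : Real.sqrt 2 < 2 := by
        rw [Real.sqrt_lt' (by norm_num)]; norm_num
      exact one_div_lt_one_div_of_lt (by positivity) h5
    have h3 : (1 : ℝ) / 2 < Pool.Agent.H789R2.FR.sc c := by linarith
    have h6 : 1 / Pool.Agent.H789R2.FR.sc c ≤ 2 := by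
      rw [div_le_iff₀ (by linarith)]
      linarith
    refine ⟨?_, fun _ => ⟨⟨?_, h3, ?_⟩, h6⟩⟩
    · unfold bt
      rw [norm_mul, Complex.norm_real, Real.norm_eq_abs, abs_of_nonneg (by
        have : 0 < Pool.Agent.H789R2.FR.sc c := by linarith
        positivity)]
      calc 1 / Pool.Agent.H789R2.FR.sc c * ‖β (Real.arcsin c)‖ ≤ 2 * 1 := by
            apply mul_le_mul h6 (hb _) (norm_nonneg _) (by norm_num)
        _ = 2 := by norm_num
    · by_contra hcon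
      rw [not_lt] at hcon
      have h7 : Pool.Agent.H789R2.FR.sc c = 0 := by
        unfold Pool.Agent.H789R2.FR.sc
        apply Real.sqrt_eq_zero_of_nonpos
        nlinarith [sq_abs c, abs_nonneg c]
      rw [h7] at h3
      linarith
    · unfold Pool.Agent.H789R2.FR.sc
      rw [Real.sqrt_le_one]
      nlinarith [sq_nonneg c]

lemma bt_sq (β : ℝ → ℂ) (hβ : Measurable β) (hb : ∀ η, ‖β η‖ ≤ 1)
    (hs : ∀ η, β η ≠ 0 → |η| ≤ Real.pi / 4) :
    ∫⁻ c, ‖bt β c‖ₑ ^ 2 ≤ ENNReal.ofReal 2 * ∫⁻ η, ‖β η‖ₑ ^ 2 := by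
  have hpi := Real.pi_pos
  have himg : Real.arcsin '' Ioo (-1 : ℝ) 1 = Ioo (-(Real.pi / 2)) (Real.pi / 2) := by
    ext η
    constructor
    · rintro ⟨c, hc, rfl⟩
      exact ⟨Real.neg_pi_div_two_lt_arcsin.2 hc.1, Real.arcsin_lt_pi_div_two.2 hc.2⟩
    · intro hη
      refine ⟨Real.sin η, ⟨?_, ?_⟩, Real.arcsin_sin hη.1.le hη.2.le⟩
      · have := Real.sin_lt_sin_of_lt_of_le_pi_div_two (x := -(Real.pi / 2)) (y := η) le_rfl
          hη.2.le hη.1
        rwa [Real.sin_neg, Real.sin_pi_div_two] at this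
      · have := Real.sin_lt_sin_of_lt_of_le_pi_div_two (x := η) (y := Real.pi / 2)
          hη.1.le le_rfl hη.2
        rwa [Real.sin_pi_div_two] at this
  have hder : ∀ c ∈ Ioo (-1 : ℝ) 1, HasDerivWithinAt Real.arcsin (1 / Real.sqrt (1 - c ^ 2))
      (Ioo (-1 : ℝ) 1) c := fun c hc =>
    (Real.hasDerivAt_arcsin hc.1.ne' hc.2.ne).hasDerivWithinAt
  have hinj : InjOn Real.arcsin (Ioo (-1 : ℝ) 1) := by
    intro a ha b hb hab
    exact Real.injOn_arcsin (Ioo_subset_Icc_self ha) (Ioo_subset_Icc_self hb) hab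
  have h := lintegral_image_eq_lintegral_abs_deriv_mul measurableSet_Ioo hder hinj
    (fun η => ‖β η‖ₑ ^ 2)
  rw [himg] at h
  calc ∫⁻ c, ‖bt β c‖ₑ ^ 2 ≤ ∫⁻ c in Ioo (-1 : ℝ) 1, ENNReal.ofReal 2 *
        (ENNReal.ofReal |1 / Real.sqrt (1 - c ^ 2)| * ‖β (Real.arcsin c)‖ₑ ^ 2) := by
        rw [← lintegral_indicator measurableSet_Ioo]
        apply lintegral_mono
        intro c
        simp only
        by_cases h0 : bt β c = 0
        · rw [h0]
          simp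
        · obtain ⟨h1, h2⟩ := (bt_bd β hb hs c).2 h0
          have hc : c ∈ Ioo (-1 : ℝ) 1 := abs_lt.1 h1.1
          rw [indicator_of_mem hc]
          have hsc : Real.sqrt (1 - c ^ 2) = Pool.Agent.H789R2.FR.sc c := rfl
          have hsc0 : 0 ≤ 1 / Real.sqrt (1 - c ^ 2) := by positivity
          rw [abs_of_nonneg hsc0, hsc]
          unfold bt
          rw [enorm_mul, mul_pow, ← mul_assoc, ← ENNReal.ofReal_mul (by norm_num)]
          gcongr
          rw [← ofReal_norm, ← ENNReal.ofReal_pow (norm_nonneg _), Complex.norm_real,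
            Real.norm_eq_abs, abs_of_nonneg (by rw [← hsc]; exact hsc0)]
          apply ENNReal.ofReal_le_ofReal
          rw [sq]
          have : 0 ≤ 1 / Pool.Agent.H789R2.FR.sc c := by rw [← hsc]; exact hsc0
          nlinarith
    _ = ENNReal.ofReal 2 * ∫⁻ c in Ioo (-1 : ℝ) 1,
        (ENNReal.ofReal |1 / Real.sqrt (1 - c ^ 2)| * ‖β (Real.arcsin c)‖ₑ ^ 2) :=
        lintegral_const_mul' _ _ ENNReal.ofReal_ne_top
    _ = ENNReal.ofReal 2 * ∫⁻ η in Ioo (-(Real.pi / 2)) (Real.pi / 2), ‖β η‖ₑ ^ 2 := by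
        rw [← h]
    _ ≤ _ := by
        gcongr
        exact Measure.restrict_le_self

/-- volume on `ℂ` as iterated integral -/
lemma lint_re_im (F : ℂ → ℝ≥0∞) (hF : Measurable F) :
    ∫⁻ ζ, F ζ = ∫⁻ y : ℝ, ∫⁻ z : ℝ, F ⟨y, z⟩ := by
  have h := Complex.volume_preserving_equiv_real_prod.symm.lintegral_comp hF
  rw [← h, Measure.volume_eq_prod, lintegral_prod]
  · rfl
  · exact (hF.comp Complex.measurableEquivRealProd.symm.measurable).aemeasurable

theorem arc4 : ∃ C : ℝ, 0 < C ∧ ∀ Λ : ℝ, 1 ≤ Λ → ∀ β : ℝ → ℂ, Measurable β →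
    (∀ η, ‖β η‖ ≤ 1) → (∀ η, β η ≠ 0 → |η| ≤ Real.pi / 4) →
    ∫⁻ ζ in {ζ : ℂ | ‖ζ‖ ≤ Λ}, ‖q0 β ζ‖ₑ ^ 4 ≤
      ENNReal.ofReal (C * (1 + Real.log Λ)) * ∫⁻ η, ‖β η‖ₑ ^ 2 := by
  obtain ⟨C, hC, h⟩ := Pool.Agent.H789R2.FR.E4r
  refine ⟨C * 8, by positivity, ?_⟩
  intro Λ hΛ β hβ hb hs
  have hlog : 0 ≤ Real.log Λ := Real.log_nonneg hΛ
  have hbm := bt_meas β hβ
  have hbb : ∀ c, ‖bt β c‖ ≤ 2 := fun c => (bt_bd β hb hs c).1
  have hband : ∀ c, c ∉ Pool.Agent.H789R2.FR.band 1 → bt β c = 0 := by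
    intro c hc
    by_contra hcon
    exact hc ((bt_bd β hb hs c).2 hcon).1
  have h1 := h 1 one_pos le_rfl Λ (by rwa [mul_one]) (bt β) hbm 2 hbb hband
  have hEm : Measurable (fun p : ℝ × ℝ => ‖Pool.Agent.H789R2.FR.Ex (bt β) p.1 p.2‖ₑ ^ 4) := by
    have h2 : Measurable (fun w : (ℝ × ℝ) × ℝ =>
        Complex.exp (-((w.1.1 * Pool.Agent.H789R2.FR.sc w.2 + w.1.2 * w.2 : ℝ) : ℂ) * I) *
          bt β w.2) := by
      have := Pool.Agent.H789R2.FR.E4w.sc_meas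
      fun_prop
    exact ((h2.stronglyMeasurable.integral_prod_right'
      (ν := volume.restrict (Ioo (-1 : ℝ) 1))).measurable.enorm).pow_const 4
  have hsqi : Integrable (fun c => ‖bt β c‖ ^ 2) := by
    have hz : ∀ c, c ∉ Ioo (-1 : ℝ) 1 → ‖bt β c‖ ^ 2 = 0 := by
      intro c hc
      have : bt β c = 0 := by
        apply hband
        intro hcon
        exact hc (abs_lt.1 hcon.1)
      rw [this]; simp
    have h3 : IntegrableOn (fun c => ‖bt β c‖ ^ 2) (Ioo (-1 : ℝ) 1) := by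
      apply Measure.integrableOn_of_bounded (M := 4)
      · simp
      · exact (hbm.norm.pow_const 2).aestronglyMeasurable
      · filter_upwards with c
        rw [Real.norm_eq_abs, abs_of_nonneg (by positivity)]
        nlinarith [hbb c, norm_nonneg (bt β c)]
    exact h3.integrable_of_forall_notMem_eq_zero hz
  have hL2 : ENNReal.ofReal (∫ c, ‖bt β c‖ ^ 2) = ∫⁻ c, ‖bt β c‖ₑ ^ 2 := by
    rw [ofReal_integral_eq_lintegral_ofReal hsqi (ae_of_all _ fun c => by positivity)]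
    apply lintegral_congr
    intro c
    rw [ENNReal.ofReal_pow (norm_nonneg _), ofReal_norm]
  set G : ℝ → ℝ → ℝ≥0∞ := fun y z => ‖Pool.Agent.H789R2.FR.Ex (bt β) y z‖ₑ ^ 4 with hG
  have hmeasF : Measurable (fun ζ : ℂ => ‖q0 β ζ‖ₑ ^ 4) := by
    have : (fun ζ : ℂ => ‖q0 β ζ‖ₑ ^ 4) = fun ζ : ℂ =>
        (fun p : ℝ × ℝ => ‖Pool.Agent.H789R2.FR.Ex (bt β) p.1 p.2‖ₑ ^ 4) (-ζ.re, -ζ.im) := by
      funext ζ
      simp only
      rw [q0_eq β hs]
    rw [this]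
    apply hEm.comp
    fun_prop
  have hSm : MeasurableSet {ζ : ℂ | ‖ζ‖ ≤ Λ} := measurableSet_le measurable_norm measurable_const
  calc ∫⁻ ζ in {ζ : ℂ | ‖ζ‖ ≤ Λ}, ‖q0 β ζ‖ₑ ^ 4
      = ∫⁻ ζ, {ζ : ℂ | ‖ζ‖ ≤ Λ}.indicator (fun ζ => ‖q0 β ζ‖ₑ ^ 4) ζ := by
        rw [lintegral_indicator hSm]
    _ = ∫⁻ y : ℝ, ∫⁻ z : ℝ, {ζ : ℂ | ‖ζ‖ ≤ Λ}.indicator (fun ζ => ‖q0 β ζ‖ₑ ^ 4) ⟨y, z⟩ :=
        lint_re_im _ (hmeasF.indicator hSm)
    _ ≤ ∫⁻ y : ℝ, (Icc (-Λ) Λ).indicator (fun y => ∫⁻ z : ℝ, G (-y) (-z)) y := by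
        apply lintegral_mono
        intro y
        simp only
        by_cases hy : y ∈ Icc (-Λ) Λ
        · rw [indicator_of_mem hy]
          apply lintegral_mono
          intro z
          refine (indicator_le_self _ _ _).trans ?_
          simp only
          rw [q0_eq β hs]
        · rw [indicator_of_notMem hy]
          rw [nonpos_iff_eq_zero]
          rw [lintegral_eq_zero_of_ae_eq_zero]
          filter_upwards with z
          rw [indicator_of_notMem]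
          · rfl
          · intro hcon
            apply hy
            have h5 : |y| ≤ ‖(⟨y, z⟩ : ℂ)‖ := Complex.abs_re_le_norm ⟨y, z⟩
            exact abs_le.1 (h5.trans hcon)
    _ = ∫⁻ y in Icc (-Λ) Λ, ∫⁻ z : ℝ, G y z := by
        rw [← lintegral_neg_eq_self]
        rw [← lintegral_indicator measurableSet_Icc]
        apply lintegral_congr
        intro y
        by_cases hy : y ∈ Icc (-Λ) Λ
        · have hy' : -y ∈ Icc (-Λ) Λ := ⟨by linarith [hy.2], by linarith [hy.1]⟩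
          rw [indicator_of_mem hy, indicator_of_mem hy', neg_neg]
          exact lintegral_neg_eq_self (fun z => G y z)
        · have hy' : -y ∉ Icc (-Λ) Λ := fun hc => hy ⟨by linarith [hc.2], by linarith [hc.1]⟩
          rw [indicator_of_notMem hy, indicator_of_notMem hy']
    _ = ∫⁻ y in Icc (-Λ) Λ, ∫⁻ z : ℝ,
        ENNReal.ofReal (‖Pool.Agent.H789R2.FR.Ex (bt β) y z‖ ^ 4) := by
        simp only [hG, ENNReal.ofReal_pow (norm_nonneg _), ofReal_norm]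
    _ ≤ _ := h1
    _ = ENNReal.ofReal (C * 4 * (1 + Real.log Λ)) * ∫⁻ c, ‖bt β c‖ₑ ^ 2 := by
        rw [← hL2, ← ENNReal.ofReal_mul (by positivity)]
        congr 1
        rw [mul_one]
        ring
    _ ≤ ENNReal.ofReal (C * 4 * (1 + Real.log Λ)) * (ENNReal.ofReal 2 * ∫⁻ η, ‖β η‖ₑ ^ 2) := by
        gcongr
        exact bt_sq β hβ hb hs
    _ = _ := by
        rw [← mul_assoc, ← ENNReal.ofReal_mul (by positivity)]
        congr 2
        ring

end Pool.Agent.Q63.Star
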