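import Mathlib
import Pool.Agent.Q63.Star.Circle
set_option autoImplicit false

/-! The planar `L^4` estimate for the full circle, assembled from arcs. -/

namespace Pool.Agent.Q63.Star

open MeasureTheory Set Complex
open scoped ENNReal NNReal ComplexConjugate

/-- circle extension with doubled angle -/
noncomputable def Qf (b : ℝ → ℂ) (ζ : ℂ) : ℂ :=
  ∫ θ in Ioo (-Real.pi) Real.pi, b θ * ph (-(dt (um (2 * θ)) ζ))

/-- rotation invariance of Lebesgue measure -/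
lemma rot_mp (θ : ℝ) : MeasurePreserving (fun ζ : ℂ => um θ * ζ) := by
  have hu : um θ ∈ Submonoid.unitSphere ℂ := mem_sphere_zero_iff_norm.2 (norm_um θ)
  have h := (rotation (⟨um θ, hu⟩ : Circle)).measurePreserving
  exact h

lemma rot_lint (θ : ℝ) (F : ℂ → ℝ≥0∞) (hF : Measurable F) :
    ∫⁻ ζ, F (um θ * ζ) = ∫⁻ ζ, F ζ :=
  (rot_mp θ).lintegral_comp hF

lemma rot_lint_ball (θ : ℝ) (F : ℂ → ℝ≥0∞) (hF : Measurable F) (Λ : ℝ) :
    ∫⁻ ζ in {ζ : ℂ | ‖ζ‖ ≤ Λ}, F (um θ * ζ) = ∫⁻ ζ in {ζ : ℂ | ‖ζ‖ ≤ Λ}, F ζ := by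
  have hSm : MeasurableSet {ζ : ℂ | ‖ζ‖ ≤ Λ} := measurableSet_le measurable_norm measurable_const
  rw [← lintegral_indicator hSm, ← lintegral_indicator hSm,
    ← rot_lint θ _ (hF.indicator hSm)]
  apply lintegral_congr
  intro ζ
  have hn : ‖um θ * ζ‖ = ‖ζ‖ := by rw [norm_mul, norm_um, one_mul]
  by_cases h : ‖ζ‖ ≤ Λ
  · rw [indicator_of_mem (show ζ ∈ {ζ : ℂ | ‖ζ‖ ≤ Λ} from h), indicator_of_mem]
    show ‖um θ * ζ‖ ≤ Λ
    rw [hn]; exact h
  · rw [indicator_of_notMem (show ζ ∉ {ζ : ℂ | ‖ζ‖ ≤ Λ} from h), indicator_of_notMem]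
    intro hc
    have hc' : ‖um θ * ζ‖ ≤ Λ := hc
    rw [hn] at hc'
    exact h hc'

/-- the density on the arc with centre `a` -/
noncomputable def ba (b : ℝ → ℂ) (a η : ℝ) : ℂ :=
  (Ioc (-(Real.pi / 4)) (Real.pi / 4)).indicator (fun η => b (η / 2 + a)) η

lemma ba_meas (b : ℝ → ℂ) (hb : Measurable b) (a : ℝ) : Measurable (ba b a) := by
  apply Measurable.indicator _ measurableSet_Ioc
  fun_prop

lemma ba_le (b : ℝ → ℂ) (hb : ∀ θ, ‖b θ‖ ≤ 1) (a η : ℝ) : ‖ba b a η‖ ≤ 1 :=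
  (norm_indicator_le_norm_self _ _).trans (hb _)

lemma ba_supp (b : ℝ → ℂ) (a η : ℝ) (h : ba b a η ≠ 0) : |η| ≤ Real.pi / 4 := by
  have := mem_of_indicator_ne_zero h
  exact abs_le.2 ⟨this.1.le, this.2⟩

lemma piece_eq (b : ℝ → ℂ) (a : ℝ) (ζ : ℂ) :
    ∫ θ in (a - Real.pi / 8)..(a + Real.pi / 8), b θ * ph (-(dt (um (2 * θ)) ζ)) =
      (1 / 2 : ℂ) * q0 (ba b a) (um (-(2 * a)) * ζ) := by
  have hpi := Real.pi_pos
  have h := intervalIntegral.integral_comp_div_add (a := -(Real.pi / 4)) (b := Real.pi / 4)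
    (fun θ => b θ * ph (-(dt (um (2 * θ)) ζ))) (c := 2) (by norm_num) a
  have e1 : -(Real.pi / 4) / 2 + a = a - Real.pi / 8 := by ring
  have e2 : Real.pi / 4 / 2 + a = a + Real.pi / 8 := by ring
  rw [e1, e2] at h
  have e3 : q0 (ba b a) (um (-(2 * a)) * ζ) = ∫ η in (-(Real.pi / 4))..(Real.pi / 4),
      b (η / 2 + a) * ph (-(dt (um (2 * (η / 2 + a))) ζ)) := by
    rw [intervalIntegral.integral_of_le (by linarith)]
    unfold q0
    rw [← integral_indicator measurableSet_Ioc]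
    apply integral_congr_ae
    filter_upwards with η
    unfold ba
    by_cases hη : η ∈ Ioc (-(Real.pi / 4)) (Real.pi / 4)
    · rw [indicator_of_mem hη, indicator_of_mem hη]
      congr 3
      have e4 : um (2 * (η / 2 + a)) = um (2 * a) * um η := by
        rw [← um_add]; congr 1; ring
      have e5 : ζ = um (2 * a) * (um (-(2 * a)) * ζ) := by
        rw [← mul_assoc, ← um_add, add_neg_cancel]
        simp [um]
      rw [e4]
      conv_rhs => rw [e5]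
      rw [dt_mul, normSq_um, one_mul]
    · rw [indicator_of_notMem hη, indicator_of_notMem hη, zero_mul]
  rw [e3, h, real_smul]
  push_cast
  ring

lemma ba_sq (b : ℝ → ℂ) (hb : Measurable b) (a : ℝ) (h1 : -Real.pi ≤ a - Real.pi / 8)
    (h2 : a + Real.pi / 8 ≤ Real.pi) :
    ∫⁻ η, ‖ba b a η‖ₑ ^ 2 ≤ ENNReal.ofReal 2 * ∫⁻ θ in Ioo (-Real.pi) Real.pi, ‖b θ‖ₑ ^ 2 := by
  set F : ℝ → ℝ≥0∞ := (Ioc (-Real.pi) Real.pi).indicator (fun θ => ‖b θ‖ₑ ^ 2) with hF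
  have hFm : Measurable F := (hb.enorm.pow_const 2).indicator measurableSet_Ioc
  have e1 : ∫⁻ θ in Ioo (-Real.pi) Real.pi, ‖b θ‖ₑ ^ 2 = ∫⁻ θ, F θ := by
    rw [hF, lintegral_indicator measurableSet_Ioc]
    exact setLIntegral_congr Ioo_ae_eq_Ioc
  rw [e1]
  have e2 : ENNReal.ofReal 2 * ∫⁻ θ, F θ = ∫⁻ η, F ((1 / 2) * (η + 2 * a)) := by
    rw [lintegral_add_right_eq_self (fun η => F ((1 / 2) * η)) (2 * a),
      Pool.Agent.W771.lint_scale F hFm (1 / 2) (by norm_num)]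
    congr 2
    norm_num
  rw [e2]
  apply lintegral_mono
  intro η
  simp only
  unfold ba
  by_cases hη : η ∈ Ioc (-(Real.pi / 4)) (Real.pi / 4)
  · rw [indicator_of_mem hη, hF, indicator_of_mem]
    · rw [show 1 / 2 * (η + 2 * a) = η / 2 + a by ring]
    · constructor
      · linarith [hη.1]
      · linarith [hη.2]
  · rw [indicator_of_notMem hη]
    simp

lemma ph_int (b : ℝ → ℂ) (hb : Measurable b) (hb1 : ∀ θ, ‖b θ‖ ≤ 1) (ζ : ℂ) (x y : ℝ) :
    IntervalIntegrable (fun θ => b θ * ph (-(dt (um (2 * θ)) ζ))) volume x y := by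
  have hm : Measurable (fun θ : ℝ => b θ * ph (-(dt (um (2 * θ)) ζ))) := by
    have h1 : Measurable (fun θ : ℝ => dt (um (2 * θ)) ζ) := by
      have h2 : Measurable (fun θ : ℝ => ((um (2 * θ), ζ) : ℂ × ℂ)) := by fun_prop
      exact dt_meas.comp h2
    fun_prop
  rw [intervalIntegrable_iff]
  apply Measure.integrableOn_of_bounded (M := 1)
  · simp [uIoc]
  · exact hm.aestronglyMeasurable
  · filter_upwards with θ
    rw [norm_mul, norm_ph, mul_one]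
    exact hb1 θ

lemma Qf_sum (b : ℝ → ℂ) (hb : Measurable b) (hb1 : ∀ θ, ‖b θ‖ ≤ 1) (ζ : ℂ) :
    Qf b ζ = ∑ k ∈ Finset.range 8, (1 / 2 : ℂ) *
      q0 (ba b (-Real.pi + k * (Real.pi / 4) + Real.pi / 8))
        (um (-(2 * (-Real.pi + k * (Real.pi / 4) + Real.pi / 8))) * ζ) := by
  have hpi := Real.pi_pos
  have h := intervalIntegral.sum_integral_adjacent_intervals
    (f := fun θ => b θ * ph (-(dt (um (2 * θ)) ζ))) (μ := volume)
    (a := fun k : ℕ => -Real.pi + k * (Real.pi / 4)) (n := 8)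
    (fun k _ => ph_int b hb hb1 ζ _ _)
  have e0 : -Real.pi + ((0 : ℕ) : ℝ) * (Real.pi / 4) = -Real.pi := by simp
  have e8 : -Real.pi + ((8 : ℕ) : ℝ) * (Real.pi / 4) = Real.pi := by push_cast; ring
  rw [e0, e8, intervalIntegral.integral_of_le (by linarith),
    integral_Ioc_eq_integral_Ioo] at h
  unfold Qf
  rw [← h]
  apply Finset.sum_congr rfl
  intro k _
  rw [← piece_eq]
  congr 1
  · ring
  · push_cast
    ring

lemma sum8 (x : ℕ → ℝ≥0∞) : (∑ k ∈ Finset.range 8, x k) ^ 4 ≤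
    512 * ∑ k ∈ Finset.range 8, x k ^ 4 := by
  have h := hol4 (Measure.count : Measure (Fin 8)) (fun k => x k) (by fun_prop)
  rw [lintegral_count, lintegral_count, tsum_fintype, tsum_fintype] at h
  rw [← Fin.sum_univ_eq_sum_range, ← Fin.sum_univ_eq_sum_range (fun k => x k ^ 4)]
  refine h.trans (le_of_eq ?_)
  congr 1
  rw [Measure.count_univ]
  simp
  norm_num

lemma q0_meas (β : ℝ → ℂ) (hβ : Measurable β) : Measurable (q0 β) := by
  have h : Measurable (fun w : ℂ × ℝ => β w.2 * ph (-(dt (um w.2) w.1))) := by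
    have h1 : Measurable (fun w : ℂ × ℝ => dt (um w.2) w.1) := by
      have h2 : Measurable (fun w : ℂ × ℝ => ((um w.2, w.1) : ℂ × ℂ)) := by fun_prop
      exact dt_meas.comp h2
    fun_prop
  exact (h.stronglyMeasurable.integral_prod_right' (ν := volume)).measurable

lemma Qf_meas (b : ℝ → ℂ) (hb : Measurable b) : Measurable (Qf b) := by
  have h : Measurable (fun w : ℂ × ℝ => b w.2 * ph (-(dt (um (2 * w.2)) w.1))) := by
    have h1 : Measurable (fun w : ℂ × ℝ => dt (um (2 * w.2)) w.1) := by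
      have h2 : Measurable (fun w : ℂ × ℝ => ((um (2 * w.2), w.1) : ℂ × ℂ)) := by fun_prop
      exact dt_meas.comp h2
    fun_prop
  exact (h.stronglyMeasurable.integral_prod_right'
    (ν := volume.restrict (Ioo (-Real.pi) Real.pi))).measurable

/-- **The planar `L^4` estimate for the circle.** -/
theorem circ4 : ∃ C : ℝ, 0 < C ∧ ∀ Λ : ℝ, 1 ≤ Λ → ∀ b : ℝ → ℂ, Measurable b →
    (∀ θ, ‖b θ‖ ≤ 1) →
    ∫⁻ ζ in {ζ : ℂ | ‖ζ‖ ≤ Λ}, ‖Qf b ζ‖ₑ ^ 4 ≤
      ENNReal.ofReal (C * (1 + Real.log Λ)) * ∫⁻ θ in Ioo (-Real.pi) Real.pi, ‖b θ‖ₑ ^ 2 := by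
  obtain ⟨C, hC, h⟩ := arc4
  refine ⟨512 * 8 * (C * 2), by positivity, ?_⟩
  intro Λ hΛ b hb hb1
  have hpi := Real.pi_pos
  have hlog : 0 ≤ Real.log Λ := Real.log_nonneg hΛ
  set ak : ℕ → ℝ := fun k => -Real.pi + k * (Real.pi / 4) + Real.pi / 8 with hak
  have hpt : ∀ ζ : ℂ, ‖Qf b ζ‖ₑ ^ 4 ≤ 512 * ∑ k ∈ Finset.range 8,
      ‖q0 (ba b (ak k)) (um (-(2 * ak k)) * ζ)‖ₑ ^ 4 := by
    intro ζ
    rw [Qf_sum b hb hb1 ζ]
    calc _ ≤ (∑ k ∈ Finset.range 8, ‖(1 / 2 : ℂ) *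
          q0 (ba b (ak k)) (um (-(2 * ak k)) * ζ)‖ₑ) ^ 4 := by
          gcongr
          exact enorm_sum_le _ _
      _ ≤ (∑ k ∈ Finset.range 8, ‖q0 (ba b (ak k)) (um (-(2 * ak k)) * ζ)‖ₑ) ^ 4 := by
          gcongr with k _
          rw [enorm_mul]
          calc _ ≤ 1 * ‖q0 (ba b (ak k)) (um (-(2 * ak k)) * ζ)‖ₑ := by
                gcongr
                rw [← ofReal_norm, ENNReal.ofReal_le_one]
                norm_num
            _ = _ := one_mul _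
      _ ≤ _ := sum8 _
  have hkb : ∀ k ∈ Finset.range 8, -Real.pi ≤ ak k - Real.pi / 8 ∧ ak k + Real.pi / 8 ≤ Real.pi := by
    intro k hk
    have hk7 : (k : ℝ) ≤ 7 := by
      have := Finset.mem_range.1 hk
      exact_mod_cast Nat.lt_succ_iff.1 this
    have hk0 : (0 : ℝ) ≤ k := Nat.cast_nonneg k
    rw [hak]
    constructor
    · simp only
      nlinarith
    · simp only
      nlinarith
  have hqm : ∀ k, Measurable (fun ζ : ℂ => ‖q0 (ba b (ak k)) (um (-(2 * ak k)) * ζ)‖ₑ ^ 4) := by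
    intro k
    have := q0_meas _ (ba_meas b hb (ak k))
    fun_prop
  calc ∫⁻ ζ in {ζ : ℂ | ‖ζ‖ ≤ Λ}, ‖Qf b ζ‖ₑ ^ 4
      ≤ ∫⁻ ζ in {ζ : ℂ | ‖ζ‖ ≤ Λ}, 512 * ∑ k ∈ Finset.range 8,
        ‖q0 (ba b (ak k)) (um (-(2 * ak k)) * ζ)‖ₑ ^ 4 := lintegral_mono hpt
    _ = 512 * ∑ k ∈ Finset.range 8, ∫⁻ ζ in {ζ : ℂ | ‖ζ‖ ≤ Λ},
        ‖q0 (ba b (ak k)) (um (-(2 * ak k)) * ζ)‖ₑ ^ 4 := by
        rw [lintegral_const_mul' _ _ (by norm_num), lintegral_finsetSum _ (fun k _ => hqm k)]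
    _ ≤ 512 * ∑ k ∈ Finset.range 8, ENNReal.ofReal (C * (1 + Real.log Λ)) *
        (ENNReal.ofReal 2 * ∫⁻ θ in Ioo (-Real.pi) Real.pi, ‖b θ‖ₑ ^ 2) := by
        gcongr with k hk
        have h3 : Measurable (fun ζ : ℂ => ‖q0 (ba b (ak k)) ζ‖ₑ ^ 4) :=
          ((q0_meas _ (ba_meas b hb (ak k))).enorm).pow_const 4
        rw [rot_lint_ball (-(2 * ak k)) (fun ζ => ‖q0 (ba b (ak k)) ζ‖ₑ ^ 4) h3 Λ]
        refine (h Λ hΛ _ (ba_meas b hb _) (ba_le b hb1 _) (ba_supp b _)).trans ?_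
        gcongr
        exact ba_sq b hb _ (hkb k hk).1 (hkb k hk).2
    _ = _ := by
        rw [Finset.sum_const, Finset.card_range, nsmul_eq_mul]
        have e : (512 : ℝ≥0∞) = ENNReal.ofReal 512 := by norm_num
        have e8 : ((8 : ℕ) : ℝ≥0∞) = ENNReal.ofReal 8 := by norm_num
        rw [e, e8, ← mul_assoc, ← mul_assoc, ← mul_assoc, ← ENNReal.ofReal_mul (by positivity),
          ← ENNReal.ofReal_mul (by positivity), ← ENNReal.ofReal_mul (by positivity)]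
        congr 2
        ring

end Pool.Agent.Q63.Star
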