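import Mathlib
import Pool.Agent.Q63.Star.Circ2
set_option autoImplicit false

/-! The `L^4` norm in time and angle on a circle of radius `κ`. -/

namespace Pool.Agent.Q63.Star

open MeasureTheory Set Complex
open scoped ENNReal NNReal ComplexConjugate

lemma um_per (θ : ℝ) : um (θ + 2 * Real.pi) = um θ := by
  unfold um
  rw [Real.cos_add_two_pi, Real.sin_add_two_pi]

lemma um_per' (θ : ℝ) : um (θ - 2 * Real.pi) = um θ := by
  unfold um
  rw [Real.cos_sub_two_pi, Real.sin_sub_two_pi]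

/-- doubling of the angle -/
lemma dbl (F : ℝ → ℝ≥0∞) (hF : Measurable F) (hp : ∀ x, F (x + 2 * Real.pi) = F x) :
    ∫⁻ φ in Ioo (-Real.pi) Real.pi, F (2 * φ) ≤
      ENNReal.ofReal 2 * ∫⁻ ψ in Ioo (-Real.pi) Real.pi, F ψ := by
  have hpi := Real.pi_pos
  set J : Set ℝ := Ioc (-Real.pi) Real.pi with hJ
  have hJm : MeasurableSet J := measurableSet_Ioc
  have e1 : ∫⁻ φ in Ioo (-Real.pi) Real.pi, F (2 * φ) = ∫⁻ φ in J, F (2 * φ) :=
    setLIntegral_congr Ioo_ae_eq_Ioc
  have e2 : ∫⁻ ψ in Ioo (-Real.pi) Real.pi, F ψ = ∫⁻ ψ, J.indicator F ψ := by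
    rw [lintegral_indicator hJm]
    exact setLIntegral_congr Ioo_ae_eq_Ioc
  have hp' : ∀ x, F (x - 2 * Real.pi) = F x := by
    intro x
    have := hp (x - 2 * Real.pi)
    rw [sub_add_cancel] at this
    exact this.symm
  rw [e1, e2]
  have hIm : Measurable (J.indicator F) := hF.indicator hJm
  have hm1 : Measurable (fun x : ℝ => J.indicator F (x + 2 * Real.pi)) := by fun_prop
  have hm2 : Measurable (fun x : ℝ => J.indicator F (x - 2 * Real.pi)) := by fun_prop
  calc ∫⁻ φ in J, F (2 * φ) ≤ ∫⁻ φ, (fun x => J.indicator F (x + 2 * Real.pi) + J.indicator F x +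
        J.indicator F (x - 2 * Real.pi)) (2 * φ) := by
        rw [← lintegral_indicator hJm]
        apply lintegral_mono
        intro φ
        simp only
        by_cases hφ : φ ∈ J
        · rw [indicator_of_mem hφ]
          by_cases h1 : 2 * φ ≤ -Real.pi
          · have h2 : 2 * φ + 2 * Real.pi ∈ J := ⟨by linarith [hφ.1], by linarith⟩
            rw [indicator_of_mem h2, hp]
            exact le_add_right (le_add_right le_rfl)
          · by_cases h3 : 2 * φ ≤ Real.pi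
            · have h2 : 2 * φ ∈ J := ⟨by linarith, h3⟩
              rw [indicator_of_mem h2]
              exact le_add_right (le_add_left le_rfl)
            · have h2 : 2 * φ - 2 * Real.pi ∈ J := ⟨by linarith, by linarith [hφ.2]⟩
              rw [indicator_of_mem h2, hp']
              exact le_add_left le_rfl
        · rw [indicator_of_notMem hφ]
          exact zero_le
    _ = ENNReal.ofReal |(2 : ℝ)⁻¹| * (3 * ∫⁻ ψ, J.indicator F ψ) := by
        have h9 := Pool.Agent.W771.lint_scale (fun x => J.indicator F (x + 2 * Real.pi) +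
          J.indicator F x + J.indicator F (x - 2 * Real.pi)) (by fun_prop) 2 (by norm_num)
        rw [h9]
        congr 1
        rw [lintegral_add_right _ hm2, lintegral_add_right _ hIm,
          lintegral_add_right_eq_self (J.indicator F), lintegral_sub_right_eq_self (J.indicator F)]
        ring
    _ ≤ _ := by
        rw [← mul_assoc]
        gcongr
        rw [show (3 : ℝ≥0∞) = ENNReal.ofReal 3 by norm_num, ← ENNReal.ofReal_mul (by positivity)]
        apply ENNReal.ofReal_le_ofReal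
        rw [abs_of_pos (by norm_num)]
        norm_num

/-- the `L^4` quantity -/
noncomputable def TT (b : ℝ → ℂ) (R κ : ℝ) : ℝ≥0∞ :=
  ∫⁻ t in Icc R (2 * R), ∫⁻ φ in Ioo (-Real.pi) Real.pi,
    ‖Qf b (((t * κ ^ 2 / 2 : ℝ) : ℂ) * um (2 * φ))‖ₑ ^ 4

lemma TT_le (b : ℝ → ℂ) (hb : Measurable b) (R κ : ℝ) (hR : 0 < R) (hκ : 0 < κ) :
    TT b R κ ≤ ENNReal.ofReal (8 / (R * κ ^ 4)) *
      ∫⁻ ζ in {ζ : ℂ | ‖ζ‖ ≤ R * κ ^ 2}, ‖Qf b ζ‖ₑ ^ 4 := by
  have hpi := Real.pi_pos
  have hQm := Qf_meas b hb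
  have hQ4 : Measurable (fun p : ℝ × ℝ => ‖Qf b ((p.1 : ℂ) * um p.2)‖ₑ ^ 4) := by
    have : Measurable (fun p : ℝ × ℝ => Qf b ((p.1 : ℂ) * um p.2)) := by
      apply hQm.comp
      fun_prop
    exact this.enorm.pow_const 4
  set H : ℝ → ℝ≥0∞ := fun l => ∫⁻ ψ in Ioo (-Real.pi) Real.pi, ‖Qf b ((l : ℂ) * um ψ)‖ₑ ^ 4 with hH
  have hHm : Measurable H := hQ4.lintegral_prod_right'
  set S : Set ℝ := Ioc 0 (R * κ ^ 2) with hS
  have hSm : MeasurableSet S := measurableSet_Ioc
  -- polar coordinates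
  have hpol : ∫⁻ ζ in {ζ : ℂ | ‖ζ‖ ≤ R * κ ^ 2}, ‖Qf b ζ‖ₑ ^ 4 =
      ∫⁻ l in S, ENNReal.ofReal l * H l := by
    have hBm : MeasurableSet {ζ : ℂ | ‖ζ‖ ≤ R * κ ^ 2} :=
      measurableSet_le measurable_norm measurable_const
    rw [← lintegral_indicator hBm, pol_lint]
    unfold TP
    have hmm : Measurable (fun p : ℝ × ℝ => ENNReal.ofReal p.1 *
        {ζ : ℂ | ‖ζ‖ ≤ R * κ ^ 2}.indicator (fun ζ => ‖Qf b ζ‖ₑ ^ 4) (p.1 * um p.2)) := by
      have h1 : Measurable ({ζ : ℂ | ‖ζ‖ ≤ R * κ ^ 2}.indicator (fun ζ => ‖Qf b ζ‖ₑ ^ 4)) :=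
        (hQm.enorm.pow_const 4).indicator hBm
      have h2 : Measurable (fun p : ℝ × ℝ => (p.1 : ℂ) * um p.2) := by fun_prop
      exact (ENNReal.measurable_ofReal.comp measurable_fst).mul (h1.comp h2)
    rw [Measure.volume_eq_prod, setLIntegral_prod _ hmm.aemeasurable,
      ← lintegral_indicator measurableSet_Ioi, ← lintegral_indicator hSm]
    apply lintegral_congr
    intro l
    by_cases hl : l ∈ Ioi (0 : ℝ)
    · have hl0 : (0 : ℝ) < l := hl
      rw [indicator_of_mem hl]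
      by_cases hl2 : l ≤ R * κ ^ 2
      · have : l ∈ S := ⟨hl0, hl2⟩
        rw [indicator_of_mem this, hH]
        simp only
        rw [← lintegral_const_mul' _ _ ENNReal.ofReal_ne_top]
        apply lintegral_congr
        intro ψ
        rw [indicator_of_mem]
        show ‖(l : ℂ) * um ψ‖ ≤ R * κ ^ 2
        rw [norm_mul, norm_um, mul_one, Complex.norm_real, Real.norm_eq_abs, abs_of_pos hl0]
        exact hl2
      · have : l ∉ S := fun hc => hl2 hc.2
        rw [indicator_of_notMem this]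
        rw [lintegral_eq_zero_of_ae_eq_zero]
        filter_upwards with ψ
        rw [indicator_of_notMem, mul_zero]
        · rfl
        · intro hc
          have hc' : ‖(l : ℂ) * um ψ‖ ≤ R * κ ^ 2 := hc
          rw [norm_mul, norm_um, mul_one, Complex.norm_real, Real.norm_eq_abs,
            abs_of_pos hl0] at hc'
          exact hl2 hc'
    · have : l ∉ S := fun hc => hl hc.1
      rw [indicator_of_notMem hl, indicator_of_notMem this]
  rw [hpol]
  unfold TT
  have hκ2 : 0 < κ ^ 2 := by positivity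
  calc ∫⁻ t in Icc R (2 * R), ∫⁻ φ in Ioo (-Real.pi) Real.pi,
        ‖Qf b (((t * κ ^ 2 / 2 : ℝ) : ℂ) * um (2 * φ))‖ₑ ^ 4
      ≤ ∫⁻ t in Icc R (2 * R), ENNReal.ofReal 2 * H (t * κ ^ 2 / 2) := by
        apply lintegral_mono
        intro t
        simp only
        have hFm : Measurable (fun ψ : ℝ => ‖Qf b (((t * κ ^ 2 / 2 : ℝ) : ℂ) * um ψ)‖ₑ ^ 4) := by
          have : Measurable (fun ψ : ℝ => Qf b (((t * κ ^ 2 / 2 : ℝ) : ℂ) * um ψ)) := by
            apply hQm.comp
            fun_prop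
          exact this.enorm.pow_const 4
        refine (dbl (fun ψ => ‖Qf b (((t * κ ^ 2 / 2 : ℝ) : ℂ) * um ψ)‖ₑ ^ 4) hFm ?_).trans
          (le_of_eq ?_)
        · intro x
          rw [um_per]
        · rfl
    _ ≤ ∫⁻ t : ℝ, (fun l => S.indicator (fun l => ENNReal.ofReal 2 *
        (ENNReal.ofReal (2 * l / (R * κ ^ 2)) * H l)) l) ((κ ^ 2 / 2) * t) := by
        rw [← lintegral_indicator measurableSet_Icc]
        apply lintegral_mono
        intro t
        simp only
        by_cases ht : t ∈ Icc R (2 * R)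
        · rw [indicator_of_mem ht]
          have ht0 : 0 < t := lt_of_lt_of_le hR ht.1
          have h1 : κ ^ 2 / 2 * t ∈ S := ⟨by positivity, by nlinarith [ht.2]⟩
          rw [indicator_of_mem h1]
          gcongr
          rw [show κ ^ 2 / 2 * t = t * κ ^ 2 / 2 by ring]
          calc H (t * κ ^ 2 / 2) = 1 * H (t * κ ^ 2 / 2) := (one_mul _).symm
            _ ≤ _ := by
              gcongr
              rw [ENNReal.one_le_ofReal, le_div_iff₀ (by positivity)]
              nlinarith [ht.1]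
        · rw [indicator_of_notMem ht]
          exact zero_le
    _ = ENNReal.ofReal |(κ ^ 2 / 2)⁻¹| * ∫⁻ l in S, ENNReal.ofReal 2 *
        (ENNReal.ofReal (2 * l / (R * κ ^ 2)) * H l) := by
        rw [Pool.Agent.W771.lint_scale _ _ (κ ^ 2 / 2) (by positivity), lintegral_indicator hSm]
        apply Measurable.indicator _ hSm
        fun_prop
    _ = ∫⁻ l in S, ENNReal.ofReal |(κ ^ 2 / 2)⁻¹| * (ENNReal.ofReal 2 *
        (ENNReal.ofReal (2 * l / (R * κ ^ 2)) * H l)) := by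
        rw [← lintegral_const_mul' _ _ ENNReal.ofReal_ne_top]
    _ = ∫⁻ l in S, ENNReal.ofReal (8 / (R * κ ^ 4)) * (ENNReal.ofReal l * H l) := by
        refine setLIntegral_congr_fun hSm fun l hl => ?_
        have hl0 : 0 < l := hl.1
        rw [← mul_assoc, ← mul_assoc, ← mul_assoc, ← ENNReal.ofReal_mul (by positivity),
          ← ENNReal.ofReal_mul (by positivity), ← ENNReal.ofReal_mul (by positivity)]
        congr 2
        rw [abs_of_pos (by positivity)]
        field_simp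
        norm_num
    _ = _ := lintegral_const_mul' _ _ ENNReal.ofReal_ne_top

/-- large radius -/
theorem TT_large : ∃ C : ℝ, 0 < C ∧ ∀ R : ℝ, 16 ≤ R → ∀ κ : ℝ, 1 / 4 ≤ κ → ∀ b : ℝ → ℂ,
    Measurable b → (∀ θ, ‖b θ‖ ≤ 1) →
    TT b R κ ≤ ENNReal.ofReal (C * (1 + Real.log R) / (R * κ ^ 3)) *
      ∫⁻ θ in Ioo (-Real.pi) Real.pi, ‖b θ‖ₑ ^ 2 := by
  obtain ⟨C, hC, h⟩ := circ4
  refine ⟨48 * C, by positivity, ?_⟩
  intro R hR κ hκ b hb hb1
  have hR0 : 0 < R := by linarith
  have hκ0 : 0 < κ := by linarith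
  have hΛ : 1 ≤ R * κ ^ 2 := by nlinarith
  have hlogR : 0 ≤ Real.log R := Real.log_nonneg (by linarith)
  have hlog : Real.log (R * κ ^ 2) ≤ Real.log R + 2 * κ := by
    rw [Real.log_mul hR0.ne' (by positivity), Real.log_pow]
    have := Real.log_le_sub_one_of_pos hκ0
    push_cast
    linarith
  have hlogΛ : 0 ≤ Real.log (R * κ ^ 2) := Real.log_nonneg hΛ
  refine (TT_le b hb R κ hR0 hκ0).trans ?_
  calc _ ≤ ENNReal.ofReal (8 / (R * κ ^ 4)) * (ENNReal.ofReal (C * (1 + Real.log (R * κ ^ 2))) *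
        ∫⁻ θ in Ioo (-Real.pi) Real.pi, ‖b θ‖ₑ ^ 2) := by
        gcongr
        exact h _ hΛ b hb hb1
    _ ≤ _ := by
        rw [← mul_assoc, ← ENNReal.ofReal_mul (by positivity)]
        gcongr
        have h2 : 1 + Real.log (R * κ ^ 2) ≤ (1 + Real.log R) * (6 * κ) := by
          nlinarith
        calc 8 / (R * κ ^ 4) * (C * (1 + Real.log (R * κ ^ 2))) ≤
            8 / (R * κ ^ 4) * (C * ((1 + Real.log R) * (6 * κ))) := by gcongr
          _ = _ := by
            field_simp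
            ring

/-- any radius -/
theorem TT_small : ∃ C : ℝ, 0 < C ∧ ∀ R : ℝ, 0 < R → ∀ κ : ℝ, ∀ b : ℝ → ℂ,
    Measurable b → (∀ θ, ‖b θ‖ ≤ 1) →
    TT b R κ ≤ ENNReal.ofReal (C * R) * ∫⁻ θ in Ioo (-Real.pi) Real.pi, ‖b θ‖ₑ ^ 2 := by
  have hpi := Real.pi_pos
  refine ⟨(2 * Real.pi) ^ 4, by positivity, ?_⟩
  intro R hR κ b hb hb1
  set N : ℝ≥0∞ := ∫⁻ θ in Ioo (-Real.pi) Real.pi, ‖b θ‖ₑ ^ 2 with hN
  have hvol : (volume.restrict (Ioo (-Real.pi) Real.pi)) univ = ENNReal.ofReal (2 * Real.pi) := by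
    rw [Measure.restrict_apply_univ, Real.volume_Ioo]
    congr 1
    ring
  have hNle : N ≤ ENNReal.ofReal (2 * Real.pi) := by
    calc N ≤ ∫⁻ θ in Ioo (-Real.pi) Real.pi, 1 := by
          apply lintegral_mono
          intro θ
          simp only
          have : ‖b θ‖ₑ ≤ 1 := by
            rw [← ofReal_norm, ENNReal.ofReal_le_one]
            exact hb1 θ
          calc ‖b θ‖ₑ ^ 2 ≤ 1 ^ 2 := by gcongr
            _ = 1 := one_pow 2
      _ = _ := by rw [lintegral_one, hvol]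
  have hQ : ∀ ζ, ‖Qf b ζ‖ₑ ^ 4 ≤ ENNReal.ofReal ((2 * Real.pi) ^ 3) * N := by
    intro ζ
    have h1 : ‖Qf b ζ‖ₑ ≤ ∫⁻ θ in Ioo (-Real.pi) Real.pi, ‖b θ‖ₑ := by
      unfold Qf
      refine (enorm_integral_le_lintegral_enorm _).trans (le_of_eq ?_)
      apply lintegral_congr
      intro θ
      rw [enorm_mul, enorm_ph, mul_one]
    have h2 := hol2 (volume.restrict (Ioo (-Real.pi) Real.pi)) (fun θ => ‖b θ‖ₑ)
      hb.enorm.aemeasurable
    rw [hvol] at h2
    calc ‖Qf b ζ‖ₑ ^ 4 ≤ (∫⁻ θ in Ioo (-Real.pi) Real.pi, ‖b θ‖ₑ) ^ 4 := by gcongr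
      _ = ((∫⁻ θ in Ioo (-Real.pi) Real.pi, ‖b θ‖ₑ) ^ 2) ^ 2 := by ring
      _ ≤ (ENNReal.ofReal (2 * Real.pi) * N) ^ 2 := by gcongr
      _ = ENNReal.ofReal (2 * Real.pi) ^ 2 * N * N := by ring
      _ ≤ ENNReal.ofReal (2 * Real.pi) ^ 2 * N * ENNReal.ofReal (2 * Real.pi) := by gcongr
      _ = _ := by
        rw [← ENNReal.ofReal_pow (by positivity), mul_right_comm,
          ← ENNReal.ofReal_mul (by positivity)]
        congr 2
  unfold TT
  calc _ ≤ ∫⁻ t in Icc R (2 * R), ∫⁻ φ in Ioo (-Real.pi) Real.pi,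
        ENNReal.ofReal ((2 * Real.pi) ^ 3) * N := by
        apply lintegral_mono
        intro t
        apply lintegral_mono
        intro φ
        exact hQ _
    _ = _ := by
        rw [lintegral_const, lintegral_const, hvol, Measure.restrict_apply_univ, Real.volume_Icc,
          mul_right_comm _ N, mul_right_comm _ N, ← ENNReal.ofReal_mul (by positivity),
          ← ENNReal.ofReal_mul (by positivity)]
        congr 2
        ring

end Pool.Agent.Q63.Star
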