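import Mathlib
import Pool.Agent.Q63.Star.Tk
set_option autoImplicit false

/-! Gaussian integrals for the wave packet estimate. -/

namespace Pool.Agent.Q63.Star

open MeasureTheory Set Complex
open scoped ENNReal NNReal ComplexConjugate

lemma gl0 (b : ℝ) (hb : 0 < b) :
    ∫⁻ x : ℝ, ENNReal.ofReal (Real.exp (-b * x ^ 2)) = ENNReal.ofReal (Real.sqrt (Real.pi / b)) := by
  rw [← integral_gaussian b, ofReal_integral_eq_lintegral_ofReal (integrable_exp_neg_mul_sq hb)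
    (ae_of_all _ fun x => (Real.exp_pos _).le)]

lemma gl (b : ℝ) (hb : 0 < b) (a : ℝ) :
    ∫⁻ x : ℝ, ENNReal.ofReal (Real.exp (-b * (x - a) ^ 2)) =
      ENNReal.ofReal (Real.sqrt (Real.pi / b)) := by
  rw [← gl0 b hb]
  exact lintegral_sub_right_eq_self (fun x => ENNReal.ofReal (Real.exp (-b * x ^ 2))) a

lemma glC (z : ℝ) (hz : 0 < z) (c : ℂ) :
    ∫⁻ v : ℂ, ENNReal.ofReal (Real.exp (-z * ‖c - v‖ ^ 2)) = ENNReal.ofReal (Real.pi / z) := by
  have h1 : ∫⁻ v : ℂ, ENNReal.ofReal (Real.exp (-z * ‖c - v‖ ^ 2)) =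
      ∫⁻ v : ℂ, ENNReal.ofReal (Real.exp (-z * ‖v‖ ^ 2)) :=
    lintegral_sub_left_eq_self (fun v => ENNReal.ofReal (Real.exp (-z * ‖v‖ ^ 2))) c
  rw [h1, lint_re_im _ (by fun_prop)]
  have h2 : ∀ y w : ℝ, ENNReal.ofReal (Real.exp (-z * ‖(⟨y, w⟩ : ℂ)‖ ^ 2)) =
      ENNReal.ofReal (Real.exp (-z * y ^ 2)) * ENNReal.ofReal (Real.exp (-z * w ^ 2)) := by
    intro y w
    rw [← ENNReal.ofReal_mul (Real.exp_pos _).le, ← Real.exp_add, ← Complex.normSq_eq_norm_sq,
      normSq_apply]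
    congr 2
    ring
  simp_rw [h2]
  have h3 : ∀ y : ℝ, ∫⁻ w : ℝ, ENNReal.ofReal (Real.exp (-z * y ^ 2)) *
      ENNReal.ofReal (Real.exp (-z * w ^ 2)) = ENNReal.ofReal (Real.sqrt (Real.pi / z)) *
      ENNReal.ofReal (Real.exp (-z * y ^ 2)) := by
    intro y
    rw [lintegral_const_mul' _ _ ENNReal.ofReal_ne_top, gl0 z hz, mul_comm]
  simp_rw [h3]
  rw [lintegral_const_mul' _ _ ENNReal.ofReal_ne_top, gl0 z hz,
    ← ENNReal.ofReal_mul (Real.sqrt_nonneg _), Real.mul_self_sqrt (by positivity)]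

lemma cau : ∫⁻ y : ℝ, ENNReal.ofReal ((1 + y ^ 2)⁻¹) = ENNReal.ofReal Real.pi := by
  rw [← integral_univ_inv_one_add_sq, ofReal_integral_eq_lintegral_ofReal
    integrable_inv_one_add_sq (ae_of_all _ fun x => by positivity)]

lemma exp_ineq (x z : ℝ) (hz : 1 ≤ z) :
    (1 + |x|) ^ 2 * Real.exp (-z * x ^ 2) ≤ 4 * Real.exp (-(z / 2) * x ^ 2) := by
  have h1 : (1 + |x|) ^ 2 ≤ 4 * Real.exp (z / 2 * x ^ 2) := by
    have h2 : z / 2 * x ^ 2 + 1 ≤ Real.exp (z / 2 * x ^ 2) := Real.add_one_le_exp _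
    have h3 : |x| ^ 2 = x ^ 2 := sq_abs x
    nlinarith [sq_nonneg (|x| - 1), sq_nonneg x]
  have h4 : Real.exp (-(z / 2) * x ^ 2) = Real.exp (z / 2 * x ^ 2) * Real.exp (-z * x ^ 2) := by
    rw [← Real.exp_add]
    congr 1
    ring
  rw [h4, ← mul_assoc]
  exact mul_le_mul_of_nonneg_right h1 (Real.exp_pos _).le

/-- away from the centre -/
lemma PA_pt (z κ n x y ρ : ℝ) (hz : 1 ≤ z) (hκ : 1 / 4 ≤ κ) (hn : 0 ≤ n) (hy : y ^ 2 ≤ n ^ 2) :
    1 / κ ^ 2 * Real.exp (-z * (κ - n) ^ 2) * Real.exp (-(2 * z) * (x - ρ) ^ 2) ≤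
      100 * Real.exp (-(z / 2) * (κ - n) ^ 2) * ((1 + y ^ 2)⁻¹ *
        Real.exp (-(2 * z) * (x - ρ) ^ 2)) := by
  have hκ0 : 0 < κ := by linarith
  have h1 : 1 + n ≤ 5 * κ * (1 + |κ - n|) := by
    have h2 : n ≤ κ + |κ - n| := by
      have := neg_abs_le (κ - n)
      linarith
    nlinarith [abs_nonneg (κ - n)]
  have h3 : 1 / κ ^ 2 ≤ 25 * (1 + |κ - n|) ^ 2 * (1 + y ^ 2)⁻¹ := by
    rw [div_le_iff₀ (by positivity), mul_assoc, mul_comm, mul_assoc, inv_mul_eq_div, ]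
    have h4 : (1 + n) ^ 2 ≤ (5 * κ * (1 + |κ - n|)) ^ 2 := by gcongr
    have h5 : 1 + y ^ 2 ≤ (1 + n) ^ 2 := by nlinarith
    have h6 : 1 + y ^ 2 ≤ κ ^ 2 * (25 * (1 + |κ - n|) ^ 2) := by nlinarith
    have hy0 : 0 < 1 + y ^ 2 := by positivity
    rw [le_div_iff₀ hy0]
    linarith
  calc _ ≤ 25 * (1 + |κ - n|) ^ 2 * (1 + y ^ 2)⁻¹ * Real.exp (-z * (κ - n) ^ 2) *
        Real.exp (-(2 * z) * (x - ρ) ^ 2) := by gcongr
    _ = 25 * ((1 + |κ - n|) ^ 2 * Real.exp (-z * (κ - n) ^ 2)) * ((1 + y ^ 2)⁻¹ *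
        Real.exp (-(2 * z) * (x - ρ) ^ 2)) := by ring
    _ ≤ 25 * (4 * Real.exp (-(z / 2) * (κ - n) ^ 2)) * ((1 + y ^ 2)⁻¹ *
        Real.exp (-(2 * z) * (x - ρ) ^ 2)) := by
        exact mul_le_mul_of_nonneg_right (mul_le_mul_of_nonneg_left (exp_ineq _ z hz)
          (by norm_num)) (by positivity)
    _ = _ := by ring

/-- near the centre -/
lemma PB_pt (z κ n x y ρ : ℝ) (hz : 1 ≤ z) (hκ0 : 0 < κ) (hκ : κ < 1 / 4) (hn : 0 ≤ n)
    (hx : x ≤ n) (hy : y ^ 2 ≤ n ^ 2) (hρ : 1 / 2 ≤ ρ) :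
    κ * Real.exp (-z * (κ - n) ^ 2) * Real.exp (-(2 * z) * (x - ρ) ^ 2) ≤
      Real.exp (-(z / 128)) * (Real.exp (-(1 / 4) * y ^ 2) * Real.exp (-(1 / 2) * (x - ρ) ^ 2)) := by
  have hS : 1 / 64 ≤ (κ - n) ^ 2 + (x - ρ) ^ 2 := by
    by_cases h : κ + 1 / 8 ≤ n
    · nlinarith [sq_nonneg (x - ρ)]
    · push Not at h
      nlinarith [sq_nonneg (κ - n)]
  have h1 : n ^ 2 / 2 - 1 / 16 ≤ (κ - n) ^ 2 := by
    nlinarith [sq_nonneg (n - 2 * κ)]
  have h2 : -z * (κ - n) ^ 2 + -(2 * z) * (x - ρ) ^ 2 ≤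
      1 / 32 + (-(z / 128) + (-(1 / 4) * y ^ 2 + -(1 / 2) * (x - ρ) ^ 2)) := by
    nlinarith [sq_nonneg (κ - n), sq_nonneg (x - ρ)]
  have h3 : Real.exp (1 / 32) ≤ 4 := by
    have : Real.exp (1 / 32) ≤ Real.exp 1 := Real.exp_le_exp.2 (by norm_num)
    linarith [Real.exp_one_lt_d9]
  calc κ * Real.exp (-z * (κ - n) ^ 2) * Real.exp (-(2 * z) * (x - ρ) ^ 2)
      = κ * Real.exp (-z * (κ - n) ^ 2 + -(2 * z) * (x - ρ) ^ 2) := by
        rw [mul_assoc, ← Real.exp_add]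
    _ ≤ κ * Real.exp (1 / 32 + (-(z / 128) + (-(1 / 4) * y ^ 2 + -(1 / 2) * (x - ρ) ^ 2))) := by
        gcongr
    _ = κ * Real.exp (1 / 32) * (Real.exp (-(z / 128)) * (Real.exp (-(1 / 4) * y ^ 2) *
        Real.exp (-(1 / 2) * (x - ρ) ^ 2))) := by
        rw [Real.exp_add, Real.exp_add, Real.exp_add]
        ring
    _ ≤ 1 * (Real.exp (-(z / 128)) * (Real.exp (-(1 / 4) * y ^ 2) *
        Real.exp (-(1 / 2) * (x - ρ) ^ 2))) := by
        gcongr
        nlinarith [Real.exp_pos (1 / 32 : ℝ)]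
    _ = _ := one_mul _

lemma PA (z ρ : ℝ) (hz : 1 ≤ z) :
    ∫⁻ v : ℂ, ∫⁻ κ in Ici (1 / 4 : ℝ), ENNReal.ofReal (1 / κ ^ 2 *
      Real.exp (-z * (κ - ‖v‖) ^ 2) * Real.exp (-(2 * z) * (v.re - ρ) ^ 2)) ≤
      ENNReal.ofReal (100 * Real.pi ^ 2 / z) := by
  have hz0 : 0 < z := by linarith
  have hpi := Real.pi_pos
  calc _ ≤ ∫⁻ v : ℂ, ENNReal.ofReal (100 * Real.sqrt (Real.pi / (z / 2))) *
        (ENNReal.ofReal ((1 + v.im ^ 2)⁻¹) *
        ENNReal.ofReal (Real.exp (-(2 * z) * (v.re - ρ) ^ 2))) := by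
        apply lintegral_mono
        intro v
        simp only
        have hn : 0 ≤ ‖v‖ := norm_nonneg v
        have hy : v.im ^ 2 ≤ ‖v‖ ^ 2 := by
          rw [← Complex.normSq_eq_norm_sq, normSq_apply]
          nlinarith [sq_nonneg v.re]
        calc ∫⁻ κ in Ici (1 / 4 : ℝ), ENNReal.ofReal (1 / κ ^ 2 *
              Real.exp (-z * (κ - ‖v‖) ^ 2) * Real.exp (-(2 * z) * (v.re - ρ) ^ 2))
            ≤ ∫⁻ κ in Ici (1 / 4 : ℝ), ENNReal.ofReal (Real.exp (-(z / 2) * (κ - ‖v‖) ^ 2)) *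
              ENNReal.ofReal (100 * ((1 + v.im ^ 2)⁻¹ *
                Real.exp (-(2 * z) * (v.re - ρ) ^ 2))) := by
              apply setLIntegral_mono' measurableSet_Ici
              intro κ hκ
              rw [← ENNReal.ofReal_mul (Real.exp_pos _).le]
              apply ENNReal.ofReal_le_ofReal
              refine (PA_pt z κ ‖v‖ v.re v.im ρ hz hκ hn hy).trans (le_of_eq ?_)
              ring
          _ ≤ ∫⁻ κ : ℝ, ENNReal.ofReal (Real.exp (-(z / 2) * (κ - ‖v‖) ^ 2)) *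
              ENNReal.ofReal (100 * ((1 + v.im ^ 2)⁻¹ *
                Real.exp (-(2 * z) * (v.re - ρ) ^ 2))) := setLIntegral_le_lintegral _ _
          _ = _ := by
              rw [lintegral_mul_const' _ _ ENNReal.ofReal_ne_top, gl (z / 2) (by positivity),
                ← ENNReal.ofReal_mul (by positivity), ← ENNReal.ofReal_mul (by positivity),
                ← ENNReal.ofReal_mul (by positivity)]
              congr 1
              ring
    _ = ENNReal.ofReal (100 * Real.sqrt (Real.pi / (z / 2))) *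
        (ENNReal.ofReal Real.pi * ENNReal.ofReal (Real.sqrt (Real.pi / (2 * z)))) := by
        rw [lintegral_const_mul' _ _ ENNReal.ofReal_ne_top, lint_re_im _ (by fun_prop)]
        congr 1
        simp only
        have h3 : ∀ y : ℝ, ∫⁻ w : ℝ, ENNReal.ofReal ((1 + w ^ 2)⁻¹) *
            ENNReal.ofReal (Real.exp (-(2 * z) * (y - ρ) ^ 2)) = ENNReal.ofReal Real.pi *
            ENNReal.ofReal (Real.exp (-(2 * z) * (y - ρ) ^ 2)) := by
          intro y
          rw [lintegral_mul_const' _ _ ENNReal.ofReal_ne_top, cau]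
        simp_rw [h3]
        rw [lintegral_const_mul' _ _ ENNReal.ofReal_ne_top, gl (2 * z) (by positivity)]
    _ = _ := by
        rw [← ENNReal.ofReal_mul (by positivity), ← ENNReal.ofReal_mul (by positivity)]
        congr 1
        have e : Real.sqrt (Real.pi / (z / 2)) * Real.sqrt (Real.pi / (2 * z)) = Real.pi / z := by
          rw [← Real.sqrt_mul (by positivity)]
          have : Real.pi / (z / 2) * (Real.pi / (2 * z)) = (Real.pi / z) ^ 2 := by
            field_simp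
          rw [this, Real.sqrt_sq (by positivity)]
        calc 100 * Real.sqrt (Real.pi / (z / 2)) * (Real.pi * Real.sqrt (Real.pi / (2 * z))) =
            100 * Real.pi * (Real.sqrt (Real.pi / (z / 2)) * Real.sqrt (Real.pi / (2 * z))) := by
              ring
          _ = _ := by rw [e]; ring

lemma PB (z ρ : ℝ) (hz : 1 ≤ z) (hρ : 1 / 2 ≤ ρ) :
    ∫⁻ v : ℂ, ∫⁻ κ in Ioo (0 : ℝ) (1 / 4), ENNReal.ofReal (κ *
      Real.exp (-z * (κ - ‖v‖) ^ 2) * Real.exp (-(2 * z) * (v.re - ρ) ^ 2)) ≤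
      ENNReal.ofReal (10 * Real.exp (-(z / 128))) := by
  have hz0 : 0 < z := by linarith
  have hpi := Real.pi_pos
  calc _ ≤ ∫⁻ v : ℂ, ENNReal.ofReal (Real.exp (-(z / 128))) *
        (ENNReal.ofReal (Real.exp (-(1 / 4) * v.im ^ 2)) *
          ENNReal.ofReal (Real.exp (-(1 / 2) * (v.re - ρ) ^ 2))) := by
        apply lintegral_mono
        intro v
        simp only
        have hn : 0 ≤ ‖v‖ := norm_nonneg v
        have hx : v.re ≤ ‖v‖ := Complex.re_le_norm v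
        have hy : v.im ^ 2 ≤ ‖v‖ ^ 2 := by
          rw [← Complex.normSq_eq_norm_sq, normSq_apply]
          nlinarith [sq_nonneg v.re]
        calc ∫⁻ κ in Ioo (0 : ℝ) (1 / 4), ENNReal.ofReal (κ *
              Real.exp (-z * (κ - ‖v‖) ^ 2) * Real.exp (-(2 * z) * (v.re - ρ) ^ 2))
            ≤ ∫⁻ κ in Ioo (0 : ℝ) (1 / 4), ENNReal.ofReal (Real.exp (-(z / 128)) *
              (Real.exp (-(1 / 4) * v.im ^ 2) * Real.exp (-(1 / 2) * (v.re - ρ) ^ 2))) := by
              apply setLIntegral_mono' measurableSet_Ioo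
              intro κ hκ
              apply ENNReal.ofReal_le_ofReal
              exact PB_pt z κ ‖v‖ v.re v.im ρ hz hκ.1 hκ.2 hn hx hy hρ
          _ ≤ _ := by
              rw [lintegral_const, Measure.restrict_apply_univ, Real.volume_Ioo,
                ENNReal.ofReal_mul (Real.exp_pos _).le, ENNReal.ofReal_mul (Real.exp_pos _).le]
              calc _ ≤ ENNReal.ofReal (Real.exp (-(z / 128))) *
                    (ENNReal.ofReal (Real.exp (-(1 / 4) * v.im ^ 2)) *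
                    ENNReal.ofReal (Real.exp (-(1 / 2) * (v.re - ρ) ^ 2))) * 1 := by
                    gcongr
                    rw [ENNReal.ofReal_le_one]
                    norm_num
                _ = _ := mul_one _
    _ = ENNReal.ofReal (Real.exp (-(z / 128))) * (ENNReal.ofReal (Real.sqrt (Real.pi / (1 / 4))) *
        ENNReal.ofReal (Real.sqrt (Real.pi / (1 / 2)))) := by
        rw [lintegral_const_mul' _ _ ENNReal.ofReal_ne_top, lint_re_im _ (by fun_prop)]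
        congr 1
        simp only
        have h3 : ∀ y : ℝ, ∫⁻ w : ℝ, ENNReal.ofReal (Real.exp (-(1 / 4) * w ^ 2)) *
            ENNReal.ofReal (Real.exp (-(1 / 2) * (y - ρ) ^ 2)) =
            ENNReal.ofReal (Real.sqrt (Real.pi / (1 / 4))) *
            ENNReal.ofReal (Real.exp (-(1 / 2) * (y - ρ) ^ 2)) := by
          intro y
          rw [lintegral_mul_const' _ _ ENNReal.ofReal_ne_top, gl0 (1 / 4) (by norm_num)]
        simp_rw [h3]
        rw [lintegral_const_mul' _ _ ENNReal.ofReal_ne_top, gl (1 / 2) (by norm_num)]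
    _ ≤ _ := by
        rw [← ENNReal.ofReal_mul (by positivity), ← ENNReal.ofReal_mul (by positivity)]
        apply ENNReal.ofReal_le_ofReal
        rw [mul_comm]
        gcongr
        rw [← Real.sqrt_mul (by positivity), Real.sqrt_le_left (by norm_num)]
        have := Real.pi_lt_d2
        nlinarith

end Pool.Agent.Q63.Star
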