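import Mathlib
import Pool.Agent.Q63.Star.LemP
set_option autoImplicit false

/-! The `L^4` estimate for wave packets with rough angular dependence. -/

namespace Pool.Agent.Q63.Star

open MeasureTheory Set Complex
open scoped ENNReal NNReal ComplexConjugate

lemma hol4w {X : Type*} [MeasurableSpace X] (μ : Measure X) (w f : X → ℝ≥0∞) (hw : Measurable w)
    (hf : Measurable f) :
    (∫⁻ x, w x * f x ∂μ) ^ 4 ≤ (∫⁻ x, w x ∂μ) ^ 3 * ∫⁻ x, w x * f x ^ 4 ∂μ := by
  have h := hol4 (μ.withDensity w) f hf.aemeasurable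
  rw [lintegral_withDensity_eq_lintegral_mul _ hw hf,
    lintegral_withDensity_eq_lintegral_mul _ hw (hf.pow_const 4),
    withDensity_apply _ MeasurableSet.univ, Measure.restrict_univ] at h
  exact h

/-- the angular density at the point `v` -/
noncomputable def bv (B : ℝ → ℝ → ℂ) (v : ℂ) (θ : ℝ) : ℂ := B (dt v (um θ)) θ

lemma dt_um_meas : Measurable (fun p : ℂ × ℝ => dt p.1 (um p.2)) := by
  have h2 : Measurable (fun p : ℂ × ℝ => ((p.1, um p.2) : ℂ × ℂ)) := by fun_prop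
  exact dt_meas.comp h2

lemma bv_meas2 (B : ℝ → ℝ → ℂ) (hB : Measurable (Function.uncurry B)) :
    Measurable (fun p : ℂ × ℝ => bv B p.1 p.2) :=
  hB.comp (dt_um_meas.prodMk measurable_snd)

lemma bv_meas (B : ℝ → ℝ → ℂ) (hB : Measurable (Function.uncurry B)) (v : ℂ) :
    Measurable (bv B v) := (bv_meas2 B hB).of_uncurry_left

/-- the circle extension at the point `v`, jointly measurable -/
lemma Q3_meas (B : ℝ → ℝ → ℂ) (hB : Measurable (Function.uncurry B)) :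
    Measurable (fun p : ℂ × ℂ => Qf (bv B p.1) p.2) := by
  have h : Measurable (fun w : (ℂ × ℂ) × ℝ => bv B w.1.1 w.2 *
      ph (-(dt (um (2 * w.2)) w.1.2))) := by
    have h1 : Measurable (fun w : (ℂ × ℂ) × ℝ => dt (um (2 * w.2)) w.1.2) := by
      have h2 : Measurable (fun w : (ℂ × ℂ) × ℝ => ((um (2 * w.2), w.1.2) : ℂ × ℂ)) := by fun_prop
      exact dt_meas.comp h2
    have h3 : Measurable (fun w : (ℂ × ℂ) × ℝ => bv B w.1.1 w.2) := by
      have h4 : Measurable (fun w : (ℂ × ℂ) × ℝ => ((w.1.1, w.2) : ℂ × ℝ)) := by fun_prop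
      exact (bv_meas2 B hB).comp h4
    fun_prop
  exact (h.stronglyMeasurable.integral_prod_right'
    (ν := volume.restrict (Ioo (-Real.pi) Real.pi))).measurable

lemma um_sq (θ : ℝ) : um θ ^ 2 = um (2 * θ) := by
  rw [sq, ← um_add]
  congr 1
  ring

/-- fixed packet centre -/
lemma fixv : ∃ C1 C0 : ℝ, 0 < C1 ∧ 0 < C0 ∧ ∀ R : ℝ, 16 ≤ R → ∀ z : ℝ, 1 ≤ z →
    ∀ B : ℝ → ℝ → ℂ, Measurable (Function.uncurry B) → (∀ u θ, ‖B u θ‖ ≤ 1) → ∀ v : ℂ,
    ∫⁻ t in Icc R (2 * R), ∫⁻ c : ℂ, ENNReal.ofReal (Real.exp (-z * ‖c - v‖ ^ 2)) *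
      ‖Qf (bv B v) (((t / 2 : ℝ) : ℂ) * c ^ 2)‖ₑ ^ 4 ≤
    (ENNReal.ofReal (C1 * (1 + Real.log R) / R) *
        (∫⁻ κ in Ici (1 / 4 : ℝ), ENNReal.ofReal (1 / κ ^ 2 * Real.exp (-z * (κ - ‖v‖) ^ 2))) +
      ENNReal.ofReal (C0 * R) *
        ∫⁻ κ in Ioo (0 : ℝ) (1 / 4), ENNReal.ofReal (κ * Real.exp (-z * (κ - ‖v‖) ^ 2))) *
      ∫⁻ θ in Ioo (-Real.pi) Real.pi, ‖bv B v θ‖ₑ ^ 2 := by
  obtain ⟨C1, hC1, h1⟩ := TT_large
  obtain ⟨C0, hC0, h0⟩ := TT_small
  refine ⟨C1, C0, hC1, hC0, ?_⟩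
  intro R hR z hz B hB hB1 v
  have hR0 : 0 < R := by linarith
  have hlogR : 0 ≤ Real.log R := Real.log_nonneg (by linarith)
  have hb : Measurable (bv B v) := bv_meas B hB v
  have hb1 : ∀ θ, ‖bv B v θ‖ ≤ 1 := fun θ => hB1 _ _
  have hQm : Measurable (Qf (bv B v)) := Qf_meas _ hb
  set N : ℝ≥0∞ := ∫⁻ θ in Ioo (-Real.pi) Real.pi, ‖bv B v θ‖ₑ ^ 2 with hN
  -- the function in polar coordinates
  set G : ℝ → ℝ → ℝ → ℝ≥0∞ := fun t κ φ =>
    ‖Qf (bv B v) (((t * κ ^ 2 / 2 : ℝ) : ℂ) * um (2 * φ))‖ₑ ^ 4 with hG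
  have hGm : Measurable (fun p : (ℝ × ℝ) × ℝ => G p.1.1 p.1.2 p.2) := by
    have : Measurable (fun p : (ℝ × ℝ) × ℝ =>
        Qf (bv B v) (((p.1.1 * p.1.2 ^ 2 / 2 : ℝ) : ℂ) * um (2 * p.2))) := by
      apply hQm.comp
      fun_prop
    exact this.enorm.pow_const 4
  have hstep : ∀ t : ℝ, ∫⁻ c : ℂ, ENNReal.ofReal (Real.exp (-z * ‖c - v‖ ^ 2)) *
      ‖Qf (bv B v) (((t / 2 : ℝ) : ℂ) * c ^ 2)‖ₑ ^ 4 ≤
      ∫⁻ κ in Ioi (0 : ℝ), ENNReal.ofReal (κ * Real.exp (-z * (κ - ‖v‖) ^ 2)) *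
        ∫⁻ φ in Ioo (-Real.pi) Real.pi, G t κ φ := by
    intro t
    rw [pol_lint]
    have hm1 : Measurable (fun p : ℝ × ℝ => ENNReal.ofReal p.1 *
        (ENNReal.ofReal (Real.exp (-z * ‖(p.1 : ℂ) * um p.2 - v‖ ^ 2)) *
        ‖Qf (bv B v) (((t / 2 : ℝ) : ℂ) * ((p.1 : ℂ) * um p.2) ^ 2)‖ₑ ^ 4)) := by
      have : Measurable (fun p : ℝ × ℝ =>
          Qf (bv B v) (((t / 2 : ℝ) : ℂ) * ((p.1 : ℂ) * um p.2) ^ 2)) := by
        apply hQm.comp
        fun_prop
      have h5 : Measurable (fun p : ℝ × ℝ => ‖(p.1 : ℂ) * um p.2 - v‖) := by fun_prop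
      fun_prop
    unfold TP
    rw [Measure.volume_eq_prod, setLIntegral_prod _ hm1.aemeasurable]
    apply setLIntegral_mono' measurableSet_Ioi
    intro κ hκ
    have hκ0 : (0 : ℝ) < κ := hκ
    rw [← lintegral_const_mul' _ _ ENNReal.ofReal_ne_top]
    apply lintegral_mono
    intro φ
    simp only
    rw [ENNReal.ofReal_mul hκ0.le, mul_assoc]
    have e1 : (((t / 2 : ℝ) : ℂ) * ((κ : ℂ) * um φ) ^ 2) =
        ((t * κ ^ 2 / 2 : ℝ) : ℂ) * um (2 * φ) := by
      rw [mul_pow, um_sq]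
      push_cast
      ring
    rw [e1]
    have h6 : |κ - ‖v‖| ≤ ‖(κ : ℂ) * um φ - v‖ := by
      have := abs_norm_sub_norm_le ((κ : ℂ) * um φ) v
      rwa [norm_mul, norm_um, mul_one, Complex.norm_real, Real.norm_eq_abs,
        abs_of_pos hκ0] at this
    have h7 : (κ - ‖v‖) ^ 2 ≤ ‖(κ : ℂ) * um φ - v‖ ^ 2 := by
      rw [← sq_abs (κ - ‖v‖)]
      gcongr
    have h8 : Real.exp (-z * ‖(κ : ℂ) * um φ - v‖ ^ 2) ≤ Real.exp (-z * (κ - ‖v‖) ^ 2) :=
      Real.exp_le_exp.2 (by nlinarith)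
    exact mul_le_mul' le_rfl (mul_le_mul' (ENNReal.ofReal_le_ofReal h8) le_rfl)
  have hGi : Measurable (fun p : ℝ × ℝ => ∫⁻ φ in Ioo (-Real.pi) Real.pi, G p.1 p.2 φ) :=
    hGm.lintegral_prod_right'
  calc ∫⁻ t in Icc R (2 * R), ∫⁻ c : ℂ, ENNReal.ofReal (Real.exp (-z * ‖c - v‖ ^ 2)) *
        ‖Qf (bv B v) (((t / 2 : ℝ) : ℂ) * c ^ 2)‖ₑ ^ 4
      ≤ ∫⁻ t in Icc R (2 * R), ∫⁻ κ in Ioi (0 : ℝ),
        ENNReal.ofReal (κ * Real.exp (-z * (κ - ‖v‖) ^ 2)) *
        ∫⁻ φ in Ioo (-Real.pi) Real.pi, G t κ φ := lintegral_mono hstep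
    _ = ∫⁻ κ in Ioi (0 : ℝ), ∫⁻ t in Icc R (2 * R),
        ENNReal.ofReal (κ * Real.exp (-z * (κ - ‖v‖) ^ 2)) *
        ∫⁻ φ in Ioo (-Real.pi) Real.pi, G t κ φ := by
        rw [lintegral_lintegral_swap]
        apply Measurable.aemeasurable
        apply Measurable.mul _ hGi
        fun_prop
    _ = ∫⁻ κ in Ioi (0 : ℝ), ENNReal.ofReal (κ * Real.exp (-z * (κ - ‖v‖) ^ 2)) *
        TT (bv B v) R κ := by
        apply lintegral_congr
        intro κ
        rw [lintegral_const_mul' _ _ ENNReal.ofReal_ne_top]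
        rfl
    _ ≤ (∫⁻ κ in Ioo (0 : ℝ) (1 / 4), ENNReal.ofReal (κ * Real.exp (-z * (κ - ‖v‖) ^ 2)) *
        TT (bv B v) R κ) + ∫⁻ κ in Ici (1 / 4 : ℝ),
        ENNReal.ofReal (κ * Real.exp (-z * (κ - ‖v‖) ^ 2)) * TT (bv B v) R κ := by
        rw [← Ioo_union_Ici_eq_Ioi (show (0 : ℝ) < 1 / 4 by norm_num)]
        exact lintegral_union_le _ _ _
    _ ≤ (∫⁻ κ in Ioo (0 : ℝ) (1 / 4), ENNReal.ofReal (κ * Real.exp (-z * (κ - ‖v‖) ^ 2)) *
        (ENNReal.ofReal (C0 * R) * N)) + ∫⁻ κ in Ici (1 / 4 : ℝ),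
        ENNReal.ofReal (1 / κ ^ 2 * Real.exp (-z * (κ - ‖v‖) ^ 2)) *
          (ENNReal.ofReal (C1 * (1 + Real.log R) / R) * N) := by
        apply add_le_add
        · apply lintegral_mono
          intro κ
          simp only
          gcongr
          exact h0 R hR0 κ _ hb hb1
        · apply setLIntegral_mono' measurableSet_Ici
          intro κ hκ
          have hκ1 : 1 / 4 ≤ κ := hκ
          have hκ0 : 0 < κ := by linarith
          calc _ ≤ ENNReal.ofReal (κ * Real.exp (-z * (κ - ‖v‖) ^ 2)) *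
                (ENNReal.ofReal (C1 * (1 + Real.log R) / (R * κ ^ 3)) * N) := by
                gcongr
                exact h1 R hR κ hκ1 _ hb hb1
            _ = _ := by
                rw [← mul_assoc, ← mul_assoc, ← ENNReal.ofReal_mul (by positivity),
                  ← ENNReal.ofReal_mul (by positivity)]
                congr 2
                field_simp
    _ = _ := by
        rw [lintegral_mul_const _ (by fun_prop), lintegral_mul_const _ (by fun_prop)]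
        ring

/-- **Lemma K.** -/
theorem lemK : ∃ C : ℝ, 0 < C ∧ ∀ R : ℝ, 16 ≤ R → ∀ z : ℝ, 1 ≤ z →
    ∀ (ρ : ℝ → ℝ), Measurable ρ → (∀ θ, 1 / 2 ≤ ρ θ) → ∀ Θ : Set ℝ, MeasurableSet Θ →
    ∀ B : ℝ → ℝ → ℂ, Measurable (Function.uncurry B) →
    (∀ u θ, ‖B u θ‖ ≤ Real.exp (-z * (u - ρ θ) ^ 2)) → (∀ u θ, θ ∉ Θ → B u θ = 0) →
    ∫⁻ t in Icc R (2 * R), ∫⁻ c : ℂ, (∫⁻ v : ℂ, ENNReal.ofReal (Real.exp (-z * ‖c - v‖ ^ 2)) *
      ‖Qf (bv B v) (((t / 2 : ℝ) : ℂ) * c ^ 2)‖ₑ) ^ 4 ≤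
    ENNReal.ofReal (C / z ^ 4 * ((1 + Real.log R) / R + R * z * Real.exp (-(z / 128)))) *
      volume (Θ ∩ Ioo (-Real.pi) Real.pi) := by
  obtain ⟨C1, C0, hC1, hC0, hfix⟩ := fixv
  have hpi := Real.pi_pos
  refine ⟨Real.pi ^ 3 * (C1 * (100 * Real.pi ^ 2) + C0 * 10), by positivity, ?_⟩
  intro R hR z hz ρ hρm hρ Θ hΘ B hB hBb hBΘ
  have hR0 : 0 < R := by linarith
  have hz0 : 0 < z := by linarith
  have hlogR : 0 ≤ Real.log R := Real.log_nonneg (by linarith)
  have hB1 : ∀ u θ, ‖B u θ‖ ≤ 1 := by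
    intro u θ
    refine (hBb u θ).trans ?_
    rw [Real.exp_le_one_iff]
    nlinarith [sq_nonneg (u - ρ θ)]
  have hQ3 := Q3_meas B hB
  set A : ℝ≥0∞ := ENNReal.ofReal (C1 * (1 + Real.log R) / R) with hA
  set D : ℝ≥0∞ := ENNReal.ofReal (C0 * R) with hD
  -- joint measurability
  have hF : Measurable (fun p : (ℝ × ℂ) × ℂ => ENNReal.ofReal (Real.exp (-z * ‖p.1.2 - p.2‖ ^ 2)) *
      ‖Qf (bv B p.2) (((p.1.1 / 2 : ℝ) : ℂ) * p.1.2 ^ 2)‖ₑ ^ 4) := by
    have h1 : Measurable (fun p : (ℝ × ℂ) × ℂ =>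
        ((p.2, ((p.1.1 / 2 : ℝ) : ℂ) * p.1.2 ^ 2) : ℂ × ℂ)) := by fun_prop
    have h2 := hQ3.comp h1
    have h3 : Measurable (fun p : (ℝ × ℂ) × ℂ => ‖p.1.2 - p.2‖) := by fun_prop
    exact ((h3.pow_const 2).const_mul (-z)).exp.ennreal_ofReal.mul (h2.enorm.pow_const 4)
  set M : ℂ → ℝ≥0∞ := fun v => ∫⁻ κ in Ici (1 / 4 : ℝ),
    ENNReal.ofReal (1 / κ ^ 2 * Real.exp (-z * (κ - ‖v‖) ^ 2)) with hM
  set M' : ℂ → ℝ≥0∞ := fun v => ∫⁻ κ in Ioo (0 : ℝ) (1 / 4),
    ENNReal.ofReal (κ * Real.exp (-z * (κ - ‖v‖) ^ 2)) with hM'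
  have hMm : Measurable M := by
    have : Measurable (fun p : ℂ × ℝ =>
        ENNReal.ofReal (1 / p.2 ^ 2 * Real.exp (-z * (p.2 - ‖p.1‖) ^ 2))) := by fun_prop
    exact this.lintegral_prod_right'
  have hM'm : Measurable M' := by
    have : Measurable (fun p : ℂ × ℝ =>
        ENNReal.ofReal (p.2 * Real.exp (-z * (p.2 - ‖p.1‖) ^ 2))) := by fun_prop
    exact this.lintegral_prod_right'
  set e2 : ℂ → ℝ → ℝ≥0∞ := fun v θ =>
    ENNReal.ofReal (Real.exp (-(2 * z) * (dt v (um θ) - ρ θ) ^ 2)) with he2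
  have he2m : Measurable (fun p : ℂ × ℝ => e2 p.1 p.2) := by
    have h1 := dt_um_meas
    have h2 : Measurable (fun p : ℂ × ℝ => ρ p.2) := hρm.comp measurable_snd
    fun_prop
  -- angular mass
  have hN : ∀ v : ℂ, ∫⁻ θ in Ioo (-Real.pi) Real.pi, ‖bv B v θ‖ₑ ^ 2 ≤
      ∫⁻ θ in Ioo (-Real.pi) Real.pi, Θ.indicator (fun θ => e2 v θ) θ := by
    intro v
    apply lintegral_mono
    intro θ
    simp only
    by_cases hθ : θ ∈ Θ
    · rw [indicator_of_mem hθ, ← ofReal_norm, ← ENNReal.ofReal_pow (norm_nonneg _)]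
      apply ENNReal.ofReal_le_ofReal
      calc ‖bv B v θ‖ ^ 2 ≤ (Real.exp (-z * (dt v (um θ) - ρ θ) ^ 2)) ^ 2 := by
            gcongr
            exact hBb _ _
        _ = _ := by
            rw [← Real.exp_nat_mul]
            congr 1
            push_cast
            ring
    · unfold bv
      rw [hBΘ _ _ hθ]
      simp
  -- rotation
  have hrotM : ∀ (K : ℂ → ℝ≥0∞), Measurable K → (∀ (θ : ℝ) (v : ℂ), K (um θ * v) = K v) →
      ∀ θ : ℝ, ∫⁻ v : ℂ, K v * e2 v θ =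
        ∫⁻ v : ℂ, K v * ENNReal.ofReal (Real.exp (-(2 * z) * (v.re - ρ θ) ^ 2)) := by
    intro K hK hKr θ
    have hmv : Measurable (fun v : ℂ => K v * e2 v θ) := hK.mul (he2m.of_uncurry_right (y := θ))
    rw [← rot_lint θ _ hmv]
    apply lintegral_congr
    intro v
    rw [hKr]
    congr 1
    rw [he2]
    simp only
    congr 5
    have : dt (um θ * v) (um θ) = dt (um θ * v) (um θ * 1) := by rw [mul_one]
    rw [this, dt_mul, normSq_um, one_mul]
    simp [dt]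
  have hMr : ∀ (θ : ℝ) (v : ℂ), M (um θ * v) = M v := by
    intro θ v
    rw [hM]
    simp only [norm_mul, norm_um, one_mul]
  have hM'r : ∀ (θ : ℝ) (v : ℂ), M' (um θ * v) = M' v := by
    intro θ v
    rw [hM']
    simp only [norm_mul, norm_um, one_mul]
  have hPA : ∀ θ : ℝ, ∫⁻ v : ℂ, M v * e2 v θ ≤ ENNReal.ofReal (100 * Real.pi ^ 2 / z) := by
    intro θ
    rw [hrotM M hMm hMr θ]
    refine le_trans (le_of_eq ?_) (PA z (ρ θ) hz)
    apply lintegral_congr
    intro v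
    rw [hM]
    simp only
    rw [← lintegral_mul_const _ (by fun_prop)]
    refine setLIntegral_congr_fun measurableSet_Ici fun κ hκ => ?_
    rw [← ENNReal.ofReal_mul (by positivity)]
  have hPB : ∀ θ : ℝ, ∫⁻ v : ℂ, M' v * e2 v θ ≤ ENNReal.ofReal (10 * Real.exp (-(z / 128))) := by
    intro θ
    rw [hrotM M' hM'm hM'r θ]
    refine le_trans (le_of_eq ?_) (PB z (ρ θ) hz (hρ θ))
    apply lintegral_congr
    intro v
    rw [hM']
    simp only
    rw [← lintegral_mul_const _ (by fun_prop)]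
    refine setLIntegral_congr_fun measurableSet_Ioo fun κ hκ => ?_
    have : (0 : ℝ) < κ := hκ.1
    rw [← ENNReal.ofReal_mul (by positivity)]
  calc ∫⁻ t in Icc R (2 * R), ∫⁻ c : ℂ, (∫⁻ v : ℂ,
        ENNReal.ofReal (Real.exp (-z * ‖c - v‖ ^ 2)) *
        ‖Qf (bv B v) (((t / 2 : ℝ) : ℂ) * c ^ 2)‖ₑ) ^ 4
      ≤ ∫⁻ t in Icc R (2 * R), ∫⁻ c : ℂ, ENNReal.ofReal ((Real.pi / z) ^ 3) * ∫⁻ v : ℂ,
        ENNReal.ofReal (Real.exp (-z * ‖c - v‖ ^ 2)) *
        ‖Qf (bv B v) (((t / 2 : ℝ) : ℂ) * c ^ 2)‖ₑ ^ 4 := by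
        apply lintegral_mono
        intro t
        apply lintegral_mono
        intro c
        simp only
        have hw : Measurable (fun v : ℂ => ENNReal.ofReal (Real.exp (-z * ‖c - v‖ ^ 2))) := by
          fun_prop
        have hq : Measurable (fun v : ℂ => ‖Qf (bv B v) (((t / 2 : ℝ) : ℂ) * c ^ 2)‖ₑ) := by
          have h1 : Measurable (fun v : ℂ => ((v, ((t / 2 : ℝ) : ℂ) * c ^ 2) : ℂ × ℂ)) := by
            fun_prop
          exact (hQ3.comp h1).enorm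
        refine (hol4w volume _ _ hw hq).trans ?_
        rw [glC z hz0 c, ← ENNReal.ofReal_pow (by positivity)]
    _ = ENNReal.ofReal ((Real.pi / z) ^ 3) * ∫⁻ t in Icc R (2 * R), ∫⁻ c : ℂ, ∫⁻ v : ℂ,
        ENNReal.ofReal (Real.exp (-z * ‖c - v‖ ^ 2)) *
        ‖Qf (bv B v) (((t / 2 : ℝ) : ℂ) * c ^ 2)‖ₑ ^ 4 := by
        rw [← lintegral_const_mul' _ _ ENNReal.ofReal_ne_top]
        apply lintegral_congr
        intro t
        rw [← lintegral_const_mul' _ _ ENNReal.ofReal_ne_top]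
    _ = ENNReal.ofReal ((Real.pi / z) ^ 3) * ∫⁻ v : ℂ, ∫⁻ t in Icc R (2 * R), ∫⁻ c : ℂ,
        ENNReal.ofReal (Real.exp (-z * ‖c - v‖ ^ 2)) *
        ‖Qf (bv B v) (((t / 2 : ℝ) : ℂ) * c ^ 2)‖ₑ ^ 4 := by
        congr 1
        have h1 : ∀ t : ℝ, ∫⁻ c : ℂ, ∫⁻ v : ℂ,
            ENNReal.ofReal (Real.exp (-z * ‖c - v‖ ^ 2)) *
            ‖Qf (bv B v) (((t / 2 : ℝ) : ℂ) * c ^ 2)‖ₑ ^ 4 = ∫⁻ v : ℂ, ∫⁻ c : ℂ,
            ENNReal.ofReal (Real.exp (-z * ‖c - v‖ ^ 2)) *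
            ‖Qf (bv B v) (((t / 2 : ℝ) : ℂ) * c ^ 2)‖ₑ ^ 4 := by
          intro t
          apply lintegral_lintegral_swap
          have h2 : Measurable (fun p : ℂ × ℂ => (((t, p.1), p.2) : (ℝ × ℂ) × ℂ)) := by fun_prop
          exact (hF.comp h2).aemeasurable
        simp_rw [h1]
        apply lintegral_lintegral_swap
        have h3 : Measurable (fun p : (ℝ × ℂ) × ℂ => (((p.1.1, p.2), p.1.2) : (ℝ × ℂ) × ℂ)) := by
          fun_prop
        exact (hF.comp h3).lintegral_prod_right'.aemeasurable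
    _ ≤ ENNReal.ofReal ((Real.pi / z) ^ 3) * ∫⁻ v : ℂ, (A * M v + D * M' v) *
        ∫⁻ θ in Ioo (-Real.pi) Real.pi, Θ.indicator (fun θ => e2 v θ) θ := by
        refine mul_le_mul' le_rfl (lintegral_mono fun v => ?_)
        exact (hfix R hR z hz B hB hB1 v).trans (mul_le_mul' le_rfl (hN v))
    _ = ENNReal.ofReal ((Real.pi / z) ^ 3) * ∫⁻ θ in Ioo (-Real.pi) Real.pi,
        Θ.indicator (fun θ => ∫⁻ v : ℂ, (A * M v + D * M' v) * e2 v θ) θ := by
        congr 1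
        have hm3 : Measurable (fun p : ℂ × ℝ => (A * M p.1 + D * M' p.1) *
            Θ.indicator (fun θ => e2 p.1 θ) p.2) := by
          have h4 : Measurable (fun p : ℂ × ℝ => Θ.indicator (fun θ => e2 p.1 θ) p.2) := by
            have : (fun p : ℂ × ℝ => Θ.indicator (fun θ => e2 p.1 θ) p.2) =
                (Prod.snd ⁻¹' Θ).indicator (fun p : ℂ × ℝ => e2 p.1 p.2) := by
              funext p
              by_cases hp : p.2 ∈ Θ
              · rw [indicator_of_mem hp, indicator_of_mem (show p ∈ Prod.snd ⁻¹' Θ from hp)]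
              · rw [indicator_of_notMem hp,
                  indicator_of_notMem (show p ∉ Prod.snd ⁻¹' Θ from hp)]
            rw [this]
            exact he2m.indicator (measurable_snd hΘ)
          have h5 : Measurable (fun p : ℂ × ℝ => M p.1) := hMm.comp measurable_fst
          have h6 : Measurable (fun p : ℂ × ℝ => M' p.1) := hM'm.comp measurable_fst
          exact ((h5.const_mul _).add (h6.const_mul _)).mul h4
        have h7 : ∀ v : ℂ, (A * M v + D * M' v) *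
            ∫⁻ θ in Ioo (-Real.pi) Real.pi, Θ.indicator (fun θ => e2 v θ) θ =
            ∫⁻ θ in Ioo (-Real.pi) Real.pi, (A * M v + D * M' v) *
              Θ.indicator (fun θ => e2 v θ) θ := by
          intro v
          rw [lintegral_const_mul]
          exact (he2m.of_uncurry_left (x := v)).indicator hΘ
        simp_rw [h7]
        rw [lintegral_lintegral_swap hm3.aemeasurable]
        apply lintegral_congr
        intro θ
        by_cases hθ : θ ∈ Θ
        · simp only [indicator_of_mem hθ]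
        · simp only [indicator_of_notMem hθ, mul_zero, lintegral_zero]
    _ ≤ ENNReal.ofReal ((Real.pi / z) ^ 3) * ∫⁻ θ in Ioo (-Real.pi) Real.pi,
        Θ.indicator (fun _ => A * ENNReal.ofReal (100 * Real.pi ^ 2 / z) +
          D * ENNReal.ofReal (10 * Real.exp (-(z / 128)))) θ := by
        refine mul_le_mul' le_rfl (lintegral_mono fun θ => ?_)
        by_cases hθ : θ ∈ Θ
        · rw [indicator_of_mem hθ, indicator_of_mem hθ]
          have he2t : Measurable (fun v => e2 v θ) := he2m.of_uncurry_right (y := θ)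
          calc ∫⁻ v : ℂ, (A * M v + D * M' v) * e2 v θ =
              A * (∫⁻ v : ℂ, M v * e2 v θ) + D * ∫⁻ v : ℂ, M' v * e2 v θ := by
                have m1 : Measurable (fun v : ℂ => M v * e2 v θ) := hMm.mul he2t
                have m2 : Measurable (fun v : ℂ => M' v * e2 v θ) := hM'm.mul he2t
                rw [← lintegral_const_mul _ m1, ← lintegral_const_mul _ m2,
                  ← lintegral_add_left (m1.const_mul _)]
                apply lintegral_congr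
                intro v
                ring
            _ ≤ _ := by
                gcongr
                · exact hPA θ
                · exact hPB θ
        · rw [indicator_of_notMem hθ, indicator_of_notMem hθ]
    _ = ENNReal.ofReal ((Real.pi / z) ^ 3) * ((A * ENNReal.ofReal (100 * Real.pi ^ 2 / z) +
          D * ENNReal.ofReal (10 * Real.exp (-(z / 128)))) *
          volume (Θ ∩ Ioo (-Real.pi) Real.pi)) := by
        rw [lintegral_indicator_const hΘ, Measure.restrict_apply hΘ]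
    _ ≤ _ := by
        rw [← mul_assoc]
        gcongr
        rw [hA, hD, ← ENNReal.ofReal_mul (by positivity), ← ENNReal.ofReal_mul (by positivity),
          ← ENNReal.ofReal_add (by positivity) (by positivity),
          ← ENNReal.ofReal_mul (by positivity)]
        apply ENNReal.ofReal_le_ofReal
        have p1 : 0 ≤ C1 * (100 * Real.pi ^ 2) := by positivity
        have p2 : 0 ≤ C0 * 10 := by positivity
        have p3 : 0 ≤ (1 + Real.log R) / R := by positivity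
        have p4 : 0 ≤ R * z * Real.exp (-(z / 128)) := by positivity
        have p5 : C1 * (100 * Real.pi ^ 2) * ((1 + Real.log R) / R) +
            C0 * 10 * (R * z * Real.exp (-(z / 128))) ≤
            (C1 * (100 * Real.pi ^ 2) + C0 * 10) *
              ((1 + Real.log R) / R + R * z * Real.exp (-(z / 128))) := by
          nlinarith [mul_nonneg p1 p4, mul_nonneg p2 p3]
        calc (Real.pi / z) ^ 3 * (C1 * (1 + Real.log R) / R * (100 * Real.pi ^ 2 / z) +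
            C0 * R * (10 * Real.exp (-(z / 128)))) = Real.pi ^ 3 / z ^ 4 *
            (C1 * (100 * Real.pi ^ 2) * ((1 + Real.log R) / R) +
              C0 * 10 * (R * z * Real.exp (-(z / 128)))) := by
              field_simp
          _ ≤ Real.pi ^ 3 / z ^ 4 * ((C1 * (100 * Real.pi ^ 2) + C0 * 10) *
              ((1 + Real.log R) / R + R * z * Real.exp (-(z / 128)))) :=
              mul_le_mul_of_nonneg_left p5 (by positivity)
          _ = _ := by ring

end Pool.Agent.Q63.Star
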