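import Mathlib
import Pool.Agent.Q63.Star.LemK
set_option autoImplicit false

/-! Complex Gaussian integrals with moments and the two packet identities. -/

namespace Pool.Agent.Q63.Star

open MeasureTheory Set Complex
open scoped ENNReal NNReal ComplexConjugate

/-- complex Gaussian -/
noncomputable def cg (a β d : ℂ) (r : ℝ) : ℂ := cexp (-a * (r : ℂ) ^ 2 + β * (r : ℂ) + d)

lemma cg_cont (a β d : ℂ) : Continuous (cg a β d) := by
  unfold cg
  fun_prop

lemma cg_int (a β d : ℂ) (ha : 0 < a.re) : Integrable (cg a β d) := by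
  unfold cg
  exact integrable_cexp_quadratic ha β d

lemma cg_eq (a β d : ℂ) (ha : 0 < a.re) :
    ∫ r, cg a β d r = (Real.pi / a) ^ (1 / 2 : ℂ) * cexp (d + β ^ 2 / (4 * a)) := by
  unfold cg
  rw [integral_cexp_quadratic (b := -a) (by rw [neg_re]; linarith) β d, neg_neg]
  congr 2
  rw [mul_neg, div_neg, sub_neg_eq_add]

lemma cg_norm (a β d : ℂ) (r : ℝ) : ‖cg a β d r‖ = Real.exp (-a.re * r ^ 2 + β.re * r + d.re) := by
  unfold cg
  rw [Complex.norm_exp]
  congr 1
  have : (r : ℂ) ^ 2 = ((r ^ 2 : ℝ) : ℂ) := by push_cast; ring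
  rw [this]
  simp only [add_re, mul_re, neg_re, neg_im, ofReal_re, ofReal_im]
  ring

lemma poly_bd (c r : ℝ) (hc : 0 < c) : (1 + r ^ 2) * Real.exp (-(c * r ^ 2)) ≤ 1 + 1 / c := by
  have h1 : c * r ^ 2 + 1 ≤ Real.exp (c * r ^ 2) := Real.add_one_le_exp _
  rw [Real.exp_neg, ← div_eq_mul_inv, div_le_iff₀ (Real.exp_pos _)]
  have h2 : 0 ≤ c * r ^ 2 := by positivity
  have h3 : (1 + 1 / c) * (c * r ^ 2 + 1) ≤ (1 + 1 / c) * Real.exp (c * r ^ 2) := by gcongr
  have h4 : (1 + 1 / c) * (c * r ^ 2 + 1) = c * r ^ 2 + r ^ 2 + 1 + 1 / c := by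
    field_simp
    ring
  have h5 : 0 < 1 / c := by positivity
  nlinarith

lemma cg_mom_int (a β d : ℂ) (ha : 0 < a.re) (k : ℕ) (hk : k ≤ 2) :
    Integrable (fun r : ℝ => (r : ℂ) ^ k * cg a β d r) := by
  have ha2 : 0 < (a / 2).re := by
    have : (a / 2).re = a.re / 2 := by simp
    rw [this]; linarith
  have h1 := (cg_int (a / 2) β d ha2).norm.const_mul (1 + 1 / (a.re / 2))
  refine h1.mono' ?_ ?_
  · apply Continuous.aestronglyMeasurable
    have := cg_cont a β d
    fun_prop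
  · filter_upwards with r
    rw [norm_mul, norm_pow, Complex.norm_real, Real.norm_eq_abs, cg_norm, cg_norm]
    have e : (a / 2).re = a.re / 2 := by simp
    rw [e]
    have h2 : |r| ^ k ≤ 1 + r ^ 2 := by
      have h3 : |r| ^ 2 = r ^ 2 := sq_abs r
      interval_cases k
      · simp
        positivity
      · nlinarith [sq_nonneg (|r| - 1), abs_nonneg r]
      · rw [h3]; linarith
    have h4 : Real.exp (-a.re * r ^ 2 + β.re * r + d.re) =
        Real.exp (-(a.re / 2 * r ^ 2)) * Real.exp (-(a.re / 2) * r ^ 2 + β.re * r + d.re) := by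
      rw [← Real.exp_add]
      congr 1
      ring
    rw [h4, ← mul_assoc]
    gcongr
    calc |r| ^ k * Real.exp (-(a.re / 2 * r ^ 2)) ≤ (1 + r ^ 2) * Real.exp (-(a.re / 2 * r ^ 2)) := by
          gcongr
      _ ≤ _ := poly_bd _ r (by linarith)

lemma cg_der (a β d : ℂ) (r : ℝ) :
    HasDerivAt (cg a β d) ((-(2 * a) * (r : ℂ) + β) * cg a β d r) r := by
  have h1 : HasDerivAt (fun w : ℂ => -a * w ^ 2 + β * w + d) (-a * (2 * (r : ℂ)) + β) (r : ℂ) := by
    have h2 : HasDerivAt (fun w : ℂ => w ^ 2) (2 * (r : ℂ)) (r : ℂ) := by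
      simpa using hasDerivAt_pow 2 (r : ℂ)
    have h3 : HasDerivAt (fun w : ℂ => β * w) β (r : ℂ) := by
      simpa using (hasDerivAt_id (r : ℂ)).const_mul β
    exact ((h2.const_mul (-a)).add h3).add_const d
  have h4 := (h1.cexp).comp_ofReal
  unfold cg
  convert h4 using 1
  ring

lemma cg_mom1 (a β d : ℂ) (ha : 0 < a.re) :
    ∫ r : ℝ, (r : ℂ) * cg a β d r = β / (2 * a) * ∫ r, cg a β d r := by
  have ha0 : a ≠ 0 := by
    intro h
    rw [h] at ha
    simp at ha
  have i0 := cg_int a β d ha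
  have i1 := cg_mom_int a β d ha 1 (by norm_num)
  simp only [pow_one] at i1
  have hd : Integrable (fun r : ℝ => (-(2 * a) * (r : ℂ) + β) * cg a β d r) := by
    refine ((i1.const_mul (-(2 * a))).add (i0.const_mul β)).congr ?_
    filter_upwards with r
    simp only [Pi.add_apply]
    ring
  have h0 := integral_eq_zero_of_hasDerivAt_of_integrable (cg_der a β d) hd i0
  have h1 : ∫ r : ℝ, (-(2 * a) * (r : ℂ) + β) * cg a β d r =
      -(2 * a) * (∫ r : ℝ, (r : ℂ) * cg a β d r) + β * ∫ r, cg a β d r := by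
    rw [← integral_const_mul, ← integral_const_mul, ← integral_add (i1.const_mul _)
      (i0.const_mul _)]
    apply integral_congr_ae
    filter_upwards with r
    ring
  rw [h1] at h0
  field_simp
  linear_combination -h0

lemma cg_mom2 (a β d : ℂ) (ha : 0 < a.re) :
    ∫ r : ℝ, (r : ℂ) ^ 2 * cg a β d r =
      (β ^ 2 / (4 * a ^ 2) + 1 / (2 * a)) * ∫ r, cg a β d r := by
  have ha0 : a ≠ 0 := by
    intro h
    rw [h] at ha
    simp at ha
  have i0 := cg_int a β d ha
  have i1 := cg_mom_int a β d ha 1 (by norm_num)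
  simp only [pow_one] at i1
  have i2 := cg_mom_int a β d ha 2 le_rfl
  have hder : ∀ r : ℝ, HasDerivAt (fun r : ℝ => (r : ℂ) * cg a β d r)
      (cg a β d r + (r : ℂ) * ((-(2 * a) * (r : ℂ) + β) * cg a β d r)) r := by
    intro r
    have h1 : HasDerivAt (fun r : ℝ => (r : ℂ)) 1 r := by
      simpa using (hasDerivAt_id (r : ℂ)).comp_ofReal
    have h2 := h1.mul (cg_der a β d r)
    rw [one_mul] at h2
    exact h2
  have hd : Integrable (fun r : ℝ => cg a β d r +
      (r : ℂ) * ((-(2 * a) * (r : ℂ) + β) * cg a β d r)) := by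
    refine ((i0.add (i2.const_mul (-(2 * a)))).add (i1.const_mul β)).congr ?_
    filter_upwards with r
    simp only [Pi.add_apply]
    ring
  have h0 := integral_eq_zero_of_hasDerivAt_of_integrable hder hd i1
  have h1 : ∫ r : ℝ, (cg a β d r + (r : ℂ) * ((-(2 * a) * (r : ℂ) + β) * cg a β d r)) =
      (∫ r, cg a β d r) + -(2 * a) * (∫ r : ℝ, (r : ℂ) ^ 2 * cg a β d r) +
        β * ∫ r : ℝ, (r : ℂ) * cg a β d r := by
    have i3 : Integrable (fun r : ℝ => cg a β d r + -(2 * a) * ((r : ℂ) ^ 2 * cg a β d r)) :=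
      i0.add (i2.const_mul _)
    rw [← integral_const_mul, ← integral_const_mul, ← integral_add i0 (i2.const_mul _),
      ← integral_add i3 (i1.const_mul _)]
    apply integral_congr_ae
    filter_upwards with r
    ring
  rw [h1, cg_mom1 a β d ha] at h0
  have h2 : (2 * a) * ∫ r : ℝ, (r : ℂ) ^ 2 * cg a β d r =
      (1 + β ^ 2 / (2 * a)) * ∫ r, cg a β d r := by
    have h3 : β * (β / (2 * a) * ∫ r, cg a β d r) = β ^ 2 / (2 * a) * ∫ r, cg a β d r := by ring
    linear_combination -h0 - h3 + h3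
  have h4 : ∫ r : ℝ, (r : ℂ) ^ 2 * cg a β d r =
      (2 * a)⁻¹ * ((2 * a) * ∫ r : ℝ, (r : ℂ) ^ 2 * cg a β d r) := by
    rw [← mul_assoc, inv_mul_cancel₀ (by simpa using ha0), one_mul]
  rw [h4, h2]
  field_simp
  ring

/-! ### the two profiles -/

/-- Gaussian profile -/
noncomputable def P0 (z x : ℝ) : ℝ := Real.exp (-z * x ^ 2)

/-- first moment profile -/
noncomputable def P1 (z x : ℝ) : ℝ := Real.sqrt z * x * Real.exp (-z * x ^ 2)

/-- packet amplitude for `P0` -/
noncomputable def B0 (z ρ u : ℝ) : ℝ := (2 * u - ρ) * Real.exp (-(2 * z) * (u - ρ) ^ 2)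

/-- packet amplitude for `P1` -/
noncomputable def B1 (z ρ u : ℝ) : ℝ :=
  (4 * z * (u - ρ) * (2 * u - ρ) - 1) / (2 * Real.sqrt z) * Real.exp (-(2 * z) * (u - ρ) ^ 2)

/-- the parameter `z + it` -/
noncomputable def aa (z t : ℝ) : ℂ := z + t * I

/-- the parameter of the packets -/
noncomputable def al (z t : ℝ) : ℂ := 2 * z * (t * I) / (2 * z + t * I)

/-- the constant -/
noncomputable def KK (z t : ℝ) : ℂ :=
  (Real.pi / aa z t) ^ (1 / 2 : ℂ) / (Real.pi / (al z t + 2 * z)) ^ (1 / 2 : ℂ)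

lemma ss_ne (z t : ℝ) (hz : 0 < z) : (2 * (z : ℂ) + t * I) ≠ 0 := by
  intro h
  have := congrArg Complex.re h
  simp at this
  linarith

lemma aa_ne (z t : ℝ) (hz : 0 < z) : aa z t ≠ 0 := by
  unfold aa
  intro h
  have := congrArg Complex.re h
  simp at this
  linarith

lemma al_add (z t : ℝ) (hz : 0 < z) :
    al z t + 2 * z = 4 * z * aa z t / (2 * z + t * I) := by
  have h := ss_ne z t hz
  unfold al aa
  field_simp
  ring

lemma al_re (z t : ℝ) (hz : 0 < z) :
    (al z t).re = 2 * z * t ^ 2 / (4 * z ^ 2 + t ^ 2) := by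
  have h := ss_ne z t hz
  have h2 : al z t = ((2 * z * t ^ 2 / (4 * z ^ 2 + t ^ 2) : ℝ) : ℂ) +
      ((4 * z ^ 2 * t / (4 * z ^ 2 + t ^ 2) : ℝ) : ℂ) * I := by
    have h3 : (4 * z ^ 2 + t ^ 2 : ℝ) ≠ 0 := by positivity
    have h4 : ((4 * z ^ 2 + t ^ 2 : ℝ) : ℂ) = (2 * z + t * I) * (2 * z - t * I) := by
      push_cast
      linear_combination ((t : ℂ) ^ 2) * I_sq
    have h5 : ((4 * z ^ 2 + t ^ 2 : ℝ) : ℂ) ≠ 0 := by exact_mod_cast h3
    unfold al
    rw [ofReal_div, ofReal_div, div_mul_eq_mul_div, ← add_div, div_eq_div_iff h h5, h4]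
    push_cast
    linear_combination (-(2 * (z : ℂ) * t ^ 2) * (2 * z + t * I)) * I_sq
  rw [h2, add_re, re_ofReal_mul, I_re, mul_zero, add_zero, ofReal_re]

lemma al_re_ge (z t : ℝ) (hz : 0 < z) (ht : 2 * z ≤ t) : z ≤ (al z t).re := by
  rw [al_re z t hz, le_div_iff₀ (by positivity)]
  nlinarith [sq_nonneg (t - 2 * z)]

end Pool.Agent.Q63.Star
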