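import Mathlib
import Pool.Agent.Q63.Star.Gauss
set_option autoImplicit false

/-! The two packet identities. -/

namespace Pool.Agent.Q63.Star

open MeasureTheory Set Complex
open scoped ENNReal NNReal ComplexConjugate

lemma aa_re (z t : ℝ) : (aa z t).re = z := by
  simp [aa]

lemma ap_re (z t : ℝ) (hz : 0 < z) : 0 < (al z t + 2 * z).re := by
  have h1 : (al z t + 2 * z).re = (al z t).re + 2 * z := by simp
  rw [h1, al_re z t hz]
  have : 0 ≤ 2 * z * t ^ 2 / (4 * z ^ 2 + t ^ 2) := by positivity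
  linarith

lemma cpow_half_ne (a : ℂ) (ha : a ≠ 0) : ((Real.pi : ℂ) / a) ^ (1 / 2 : ℂ) ≠ 0 := by
  have hpi : (Real.pi : ℂ) ≠ 0 := by exact_mod_cast Real.pi_ne_zero
  have h : (Real.pi : ℂ) / a ≠ 0 := div_ne_zero hpi ha
  intro hc
  rw [Complex.cpow_eq_zero_iff] at hc
  exact h hc.1

lemma exp_alg (z w b ρ : ℂ) (hs : 2 * z + w ≠ 0) (ha : z + w ≠ 0) (hz : z ≠ 0) :
    -(z * ρ ^ 2 + w * b ^ 2) + (2 * (z * ρ + w * b)) ^ 2 / (4 * (z + w)) =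
    -(2 * z * w / (2 * z + w) * b ^ 2 + 2 * z * ρ ^ 2) +
      (2 * (2 * z * w / (2 * z + w) * b + 2 * z * ρ)) ^ 2 /
      (4 * (4 * z * (z + w) / (2 * z + w))) := by
  obtain ⟨s, rfl⟩ : ∃ s, w = s - 2 * z := ⟨w + 2 * z, by ring⟩
  have e1 : 2 * z + (s - 2 * z) = s := by ring
  have e2 : z + (s - 2 * z) = s - z := by ring
  rw [e1] at hs ⊢
  rw [e2] at ha ⊢
  field_simp
  ring

/-- the two Gaussian integrals are proportional -/
lemma J_eq (z t b ρ : ℝ) (hz : 0 < z) :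
    ∫ r, cg (aa z t) (2 * (z * ρ + t * I * b)) (-(z * ρ ^ 2 + t * I * b ^ 2)) r =
      KK z t * ∫ u, cg (al z t + 2 * z) (2 * (al z t * b + 2 * z * ρ))
        (-(al z t * b ^ 2 + 2 * z * ρ ^ 2)) u := by
  have hs := ss_ne z t hz
  have ha := aa_ne z t hz
  have hz' : (z : ℂ) ≠ 0 := by exact_mod_cast hz.ne'
  have hap : al z t + 2 * z ≠ 0 := by
    intro h
    have := ap_re z t hz
    rw [h] at this
    simp at this
  rw [cg_eq _ _ _ (by rw [aa_re]; exact hz), cg_eq _ _ _ (ap_re z t hz)]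
  unfold KK
  have hne := cpow_half_ne _ hap
  rw [div_mul_eq_mul_div, eq_div_iff hne]
  have hexp : (-((z : ℂ) * ρ ^ 2 + t * I * b ^ 2) + (2 * (z * ρ + t * I * b)) ^ 2 /
      (4 * aa z t)) = (-(al z t * b ^ 2 + 2 * z * ρ ^ 2) +
      (2 * (al z t * b + 2 * z * ρ)) ^ 2 / (4 * (al z t + 2 * z))) := by
    rw [al_add z t hz]
    unfold al
    unfold aa at ha ⊢
    exact exp_alg z (t * I) b ρ hs ha hz'
  rw [hexp]
  ring

lemma ph_cexp (s : ℝ) : ph s = cexp (-(I * (s : ℂ))) := rfl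

lemma cg_P (z t b ρ r : ℝ) :
    cexp (-(z : ℂ) * ((r : ℂ) - ρ) ^ 2) * ph (t * (r - b) ^ 2) =
      cg (aa z t) (2 * (z * ρ + t * I * b)) (-(z * ρ ^ 2 + t * I * b ^ 2)) r := by
  rw [ph_cexp, ← Complex.exp_add]
  unfold cg aa
  congr 1
  push_cast
  ring

lemma cg_B (z t b ρ u : ℝ) :
    cexp (-(al z t) * (((b - u) ^ 2 : ℝ) : ℂ)) * cexp (-(2 * z : ℂ) * ((u : ℂ) - ρ) ^ 2) =
      cg (al z t + 2 * z) (2 * (al z t * b + 2 * z * ρ)) (-(al z t * b ^ 2 + 2 * z * ρ ^ 2)) u := by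
  rw [← Complex.exp_add]
  unfold cg
  congr 1
  push_cast
  ring

lemma P0_c (z x : ℝ) : ((P0 z x : ℝ) : ℂ) = cexp (-(z : ℂ) * (x : ℂ) ^ 2) := by
  unfold P0
  push_cast
  ring_nf

lemma P1_c (z x : ℝ) : ((P1 z x : ℝ) : ℂ) =
    (Real.sqrt z : ℂ) * x * cexp (-(z : ℂ) * (x : ℂ) ^ 2) := by
  unfold P1
  push_cast
  ring_nf

lemma ident0 (z t b ρ : ℝ) (hz : 0 < z) :
    ∫ r : ℝ, (r : ℂ) * ((P0 z (r - ρ) : ℝ) : ℂ) * ph (t * (r - b) ^ 2) =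
      KK z t * ∫ u : ℝ, cexp (-(al z t) * (((b - u) ^ 2 : ℝ) : ℂ)) * ((B0 z ρ u : ℝ) : ℂ) := by
  have hs := ss_ne z t hz
  have ha := aa_ne z t hz
  have hz' : (z : ℂ) ≠ 0 := by exact_mod_cast hz.ne'
  have haR : 0 < (aa z t).re := by rw [aa_re]; exact hz
  have hapR := ap_re z t hz
  set β : ℂ := 2 * (z * ρ + t * I * b) with hβ
  set d : ℂ := -(z * ρ ^ 2 + t * I * b ^ 2) with hd
  set β' : ℂ := 2 * (al z t * b + 2 * z * ρ) with hβ'
  set d' : ℂ := -(al z t * b ^ 2 + 2 * z * ρ ^ 2) with hd'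
  have e1 : ∀ r : ℝ, (r : ℂ) * ((P0 z (r - ρ) : ℝ) : ℂ) * ph (t * (r - b) ^ 2) =
      (r : ℂ) * cg (aa z t) β d r := by
    intro r
    rw [mul_assoc, P0_c, ofReal_sub, cg_P]
  have e2 : ∀ u : ℝ, cexp (-(al z t) * (((b - u) ^ 2 : ℝ) : ℂ)) * ((B0 z ρ u : ℝ) : ℂ) =
      2 * ((u : ℂ) * cg (al z t + 2 * z) β' d' u) - ρ * cg (al z t + 2 * z) β' d' u := by
    intro u
    have : ((B0 z ρ u : ℝ) : ℂ) = (2 * u - ρ) * cexp (-(2 * z : ℂ) * ((u : ℂ) - ρ) ^ 2) := by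
      unfold B0
      push_cast
      ring_nf
    rw [this, ← cg_B z t b ρ u]
    ring
  have i0 := cg_int (al z t + 2 * z) β' d' hapR
  have i1 := cg_mom_int (al z t + 2 * z) β' d' hapR 1 (by norm_num)
  simp only [pow_one] at i1
  simp_rw [e1, e2]
  rw [cg_mom1 _ _ _ haR, integral_sub (i1.const_mul 2) (i0.const_mul _), integral_const_mul,
    integral_const_mul, cg_mom1 _ _ _ hapR, J_eq z t b ρ hz]
  have key : β / (2 * aa z t) = 2 * (β' / (2 * (al z t + 2 * z))) - ρ := by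
    rw [al_add z t hz, hβ, hβ']
    unfold al
    unfold aa at ha ⊢
    set w : ℂ := t * I with hw
    field_simp
    ring
  rw [key]
  ring

lemma ident1 (z t b ρ : ℝ) (hz : 0 < z) :
    ∫ r : ℝ, (r : ℂ) * ((P1 z (r - ρ) : ℝ) : ℂ) * ph (t * (r - b) ^ 2) =
      KK z t * ∫ u : ℝ, cexp (-(al z t) * (((b - u) ^ 2 : ℝ) : ℂ)) * ((B1 z ρ u : ℝ) : ℂ) := by
  have hs := ss_ne z t hz
  have ha := aa_ne z t hz
  have hz' : (z : ℂ) ≠ 0 := by exact_mod_cast hz.ne'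
  have haR : 0 < (aa z t).re := by rw [aa_re]; exact hz
  have hapR := ap_re z t hz
  have hsz : (Real.sqrt z : ℂ) ^ 2 = z := by
    rw [← ofReal_pow, Real.sq_sqrt hz.le]
  have hsz0 : (Real.sqrt z : ℂ) ≠ 0 := by
    have := (Real.sqrt_pos.2 hz).ne'
    exact_mod_cast this
  set β : ℂ := 2 * (z * ρ + t * I * b) with hβ
  set d : ℂ := -(z * ρ ^ 2 + t * I * b ^ 2) with hd
  set β' : ℂ := 2 * (al z t * b + 2 * z * ρ) with hβ'
  set d' : ℂ := -(al z t * b ^ 2 + 2 * z * ρ ^ 2) with hd'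
  have e1 : ∀ r : ℝ, (r : ℂ) * ((P1 z (r - ρ) : ℝ) : ℂ) * ph (t * (r - b) ^ 2) =
      (Real.sqrt z : ℂ) * ((r : ℂ) ^ 2 * cg (aa z t) β d r) -
        (Real.sqrt z * ρ : ℂ) * ((r : ℂ) * cg (aa z t) β d r) := by
    intro r
    rw [P1_c, ofReal_sub, ← cg_P]
    ring
  have e2 : ∀ u : ℝ, cexp (-(al z t) * (((b - u) ^ 2 : ℝ) : ℂ)) * ((B1 z ρ u : ℝ) : ℂ) =
      (8 * z / (2 * Real.sqrt z) : ℂ) * ((u : ℂ) ^ 2 * cg (al z t + 2 * z) β' d' u) -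
      (12 * z * ρ / (2 * Real.sqrt z) : ℂ) * ((u : ℂ) * cg (al z t + 2 * z) β' d' u) +
      ((4 * z * ρ ^ 2 - 1) / (2 * Real.sqrt z) : ℂ) * cg (al z t + 2 * z) β' d' u := by
    intro u
    have : ((B1 z ρ u : ℝ) : ℂ) = (4 * z * (u - ρ) * (2 * u - ρ) - 1) / (2 * Real.sqrt z) *
        cexp (-(2 * z : ℂ) * ((u : ℂ) - ρ) ^ 2) := by
      unfold B1
      push_cast
      ring_nf
    rw [this, ← cg_B z t b ρ u]
    field_simp
    ring
  have i0 := cg_int (al z t + 2 * z) β' d' hapR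
  have i1 := cg_mom_int (al z t + 2 * z) β' d' hapR 1 (by norm_num)
  have i2 := cg_mom_int (al z t + 2 * z) β' d' hapR 2 le_rfl
  have j1 := cg_mom_int (aa z t) β d haR 1 (by norm_num)
  have j2 := cg_mom_int (aa z t) β d haR 2 le_rfl
  simp only [pow_one] at i1 j1
  simp_rw [e1, e2]
  have i3 : Integrable (fun u : ℝ => (8 * z / (2 * Real.sqrt z) : ℂ) *
      ((u : ℂ) ^ 2 * cg (al z t + 2 * z) β' d' u) -
      (12 * z * ρ / (2 * Real.sqrt z) : ℂ) * ((u : ℂ) * cg (al z t + 2 * z) β' d' u)) :=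
    (i2.const_mul _).sub (i1.const_mul _)
  rw [integral_sub (j2.const_mul _) (j1.const_mul _), integral_add i3 (i0.const_mul _),
    integral_sub (i2.const_mul _) (i1.const_mul _)]
  simp only [integral_const_mul]
  rw [cg_mom1 _ _ _ haR, cg_mom2 _ _ _ haR, cg_mom1 _ _ _ hapR, cg_mom2 _ _ _ hapR,
    J_eq z t b ρ hz]
  have key : 2 * (z : ℂ) * ((β ^ 2 / (4 * aa z t ^ 2) + 1 / (2 * aa z t)) -
      ρ * (β / (2 * aa z t))) = 8 * z * (β' ^ 2 / (4 * (al z t + 2 * z) ^ 2) +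
      1 / (2 * (al z t + 2 * z))) - 12 * z * ρ * (β' / (2 * (al z t + 2 * z))) +
      (4 * z * ρ ^ 2 - 1) := by
    rw [al_add z t hz, hβ, hβ']
    unfold al
    unfold aa at ha ⊢
    set w : ℂ := t * I with hw
    field_simp
    ring
  set J : ℂ := ∫ u, cg (al z t + 2 * z) β' d' u with hJ
  have e3 : (Real.sqrt z : ℂ) * ((β ^ 2 / (4 * aa z t ^ 2) + 1 / (2 * aa z t)) * (KK z t * J)) -
      Real.sqrt z * ρ * (β / (2 * aa z t) * (KK z t * J)) =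
      1 / (2 * Real.sqrt z) * (2 * (z : ℂ) * ((β ^ 2 / (4 * aa z t ^ 2) + 1 / (2 * aa z t)) -
      ρ * (β / (2 * aa z t)))) * (KK z t * J) := by
    rw [← hsz]
    field_simp
  rw [e3, key]
  field_simp

end Pool.Agent.Q63.Star
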