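import Mathlib
import Pool.Agent.Q63.Star.Ident
set_option autoImplicit false

/-! Packets: from the line operator to the circle extension. -/

namespace Pool.Agent.Q63.Star

open MeasureTheory Set Complex
open scoped ENNReal NNReal ComplexConjugate

/-- measure on pairs (signed radius, angle) -/
noncomputable def mu : Measure (ℝ × ℝ) :=
  (volume : Measure ℝ).prod (volume.restrict (Ioo (-Real.pi) Real.pi))

instance : SFinite mu := by unfold mu; infer_instance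

/-- domination -/
def Dom (w : ℝ × ℝ → ℂ) : Prop := ∀ p, |p.1| * ‖w p‖ ≤ 4 * Real.exp (-(1 / 8) * p.1 ^ 2)

/-- line operator -/
noncomputable def LO (w : ℝ × ℝ → ℂ) (ζ : ℂ) (t : ℝ) : ℂ :=
  ∫ p, (p.1 : ℂ) * w p * ph (p.1 * dt (um p.2) ζ + t * p.1 ^ 2) ∂mu

lemma dom_int : Integrable (fun p : ℝ × ℝ => 4 * Real.exp (-(1 / 8) * p.1 ^ 2)) mu := by
  have h1 : Integrable (fun r : ℝ => 4 * Real.exp (-(1 / 8) * r ^ 2)) :=
    (integrable_exp_neg_mul_sq (by norm_num : (0 : ℝ) < 1 / 8)).const_mul 4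
  have h2 : Integrable (fun _ : ℝ => (1 : ℝ)) (volume.restrict (Ioo (-Real.pi) Real.pi)) := by
    rw [integrable_const_iff]
    right
    constructor
    rw [Measure.restrict_apply_univ, Real.volume_Ioo]
    exact ENNReal.ofReal_lt_top
  have h3 := h1.mul_prod h2
  refine h3.congr ?_
  filter_upwards with p
  rw [mul_one]

lemma kerL_meas : Measurable (fun q : (ℂ × ℝ) × (ℝ × ℝ) =>
    ph (q.2.1 * dt (um q.2.2) q.1.1 + q.1.2 * q.2.1 ^ 2)) := by
  have h1 : Measurable (fun q : (ℂ × ℝ) × (ℝ × ℝ) => dt (um q.2.2) q.1.1) := by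
    have h2 : Measurable (fun q : (ℂ × ℝ) × (ℝ × ℝ) => ((um q.2.2, q.1.1) : ℂ × ℂ)) := by fun_prop
    exact dt_meas.comp h2
  fun_prop

lemma kerL_meas_p (ζ : ℂ) (t : ℝ) :
    Measurable (fun p : ℝ × ℝ => ph (p.1 * dt (um p.2) ζ + t * p.1 ^ 2)) := by
  have h : Measurable (fun p : ℝ × ℝ => (((ζ, t), p) : (ℂ × ℝ) × (ℝ × ℝ))) := by fun_prop
  exact kerL_meas.comp h

lemma LO_int (w : ℝ × ℝ → ℂ) (hw : Measurable w) (hd : Dom w) (ζ : ℂ) (t : ℝ) :
    Integrable (fun p : ℝ × ℝ => (p.1 : ℂ) * w p * ph (p.1 * dt (um p.2) ζ + t * p.1 ^ 2)) mu := by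
  refine dom_int.mono' ?_ ?_
  · have := kerL_meas_p ζ t
    exact (by fun_prop : Measurable fun p : ℝ × ℝ => (p.1 : ℂ) * w p *
      ph (p.1 * dt (um p.2) ζ + t * p.1 ^ 2)).aestronglyMeasurable
  · filter_upwards with p
    rw [norm_mul, norm_mul, norm_ph, mul_one, Complex.norm_real, Real.norm_eq_abs]
    exact hd p

lemma LO_meas (w : ℝ × ℝ → ℂ) (hw : Measurable w) :
    Measurable (fun q : ℂ × ℝ => LO w q.1 q.2) := by
  have h := kerL_meas
  have h2 : Measurable (fun q : (ℂ × ℝ) × (ℝ × ℝ) => (q.2.1 : ℂ) * w q.2 *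
    ph (q.2.1 * dt (um q.2.2) q.1.1 + q.1.2 * q.2.1 ^ 2)) := by fun_prop
  exact (h2.stronglyMeasurable.integral_prod_right' (ν := mu)).measurable

lemma LO_iter (w : ℝ × ℝ → ℂ) (hw : Measurable w) (hd : Dom w) (ζ : ℂ) (t : ℝ) :
    LO w ζ t = ∫ θ in Ioo (-Real.pi) Real.pi, ∫ r : ℝ, (r : ℂ) * w (r, θ) *
      ph (r * dt (um θ) ζ + t * r ^ 2) := by
  have h := LO_int w hw hd ζ t
  unfold LO
  unfold mu at h ⊢
  rw [integral_prod_symm _ h]

/-! ### two dimensional Gaussian -/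

lemma norm_half (a : ℂ) : ‖((Real.pi : ℂ) / a) ^ (1 / 2 : ℂ)‖ = Real.sqrt (Real.pi / ‖a‖) := by
  have : (1 / 2 : ℂ) = ((1 / 2 : ℝ) : ℂ) := by push_cast; rfl
  rw [this, Complex.norm_cpow_real, norm_div, Complex.norm_real, Real.norm_eq_abs,
    abs_of_pos Real.pi_pos, ← Real.sqrt_eq_rpow]

lemma g2 (α : ℂ) (hα : 0 < α.re) (c : ℂ) (θ : ℝ) (F : ℝ → ℂ) :
    ∫ v : ℂ, cexp (-α * ((‖c - v‖ ^ 2 : ℝ) : ℂ)) * F (dt v (um θ)) =
      ((Real.pi : ℂ) / α) ^ (1 / 2 : ℂ) *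
        ∫ u : ℝ, cexp (-α * (((dt c (um θ) - u) ^ 2 : ℝ) : ℂ)) * F u := by
  set c' : ℂ := um (-θ) * c with hc'
  have hcc : um θ * c' = c := by
    rw [hc', ← mul_assoc, ← um_add, add_neg_cancel]
    simp [um]
  have hre : c'.re = dt c (um θ) := by
    conv_rhs => rw [← hcc]
    have : dt (um θ * c') (um θ) = dt (um θ * c') (um θ * 1) := by rw [mul_one]
    rw [this, dt_mul, normSq_um, one_mul]
    simp [dt]
  have hmp := rot_mp θ
  have hme : MeasurableEmbedding (fun ζ : ℂ => um θ * ζ) := by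
    have hu : um θ ≠ 0 := by
      intro h
      have := norm_um θ
      rw [h, norm_zero] at this
      norm_num at this
    exact (MeasurableEquiv.mulLeft₀ (um θ) hu).measurableEmbedding
  rw [← hmp.integral_comp hme]
  have e1 : ∀ w : ℂ, cexp (-α * ((‖c - um θ * w‖ ^ 2 : ℝ) : ℂ)) * F (dt (um θ * w) (um θ)) =
      (fun p : ℝ × ℝ => (cexp (-α * (((c'.re - p.1) ^ 2 : ℝ) : ℂ)) * F p.1) *
        cexp (-α * (((c'.im - p.2) ^ 2 : ℝ) : ℂ))) (Complex.measurableEquivRealProd w) := by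
    intro w
    have h1 : ‖c - um θ * w‖ ^ 2 = (c'.re - w.re) ^ 2 + (c'.im - w.im) ^ 2 := by
      have : c - um θ * w = um θ * (c' - w) := by rw [mul_sub, hcc]
      rw [this, norm_mul, norm_um, one_mul, ← Complex.normSq_eq_norm_sq, normSq_apply, sub_re,
        sub_im]
      ring
    have h2 : dt (um θ * w) (um θ) = w.re := by
      have : dt (um θ * w) (um θ) = dt (um θ * w) (um θ * 1) := by rw [mul_one]
      rw [this, dt_mul, normSq_um, one_mul]
      simp [dt]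
    rw [h1, h2]
    simp only [Complex.measurableEquivRealProd_apply]
    rw [mul_right_comm, ← Complex.exp_add]
    congr 2
    push_cast
    ring
  simp_rw [e1]
  rw [Complex.volume_preserving_equiv_real_prod.integral_comp
    Complex.measurableEquivRealProd.measurableEmbedding
    (fun p : ℝ × ℝ => (cexp (-α * (((c'.re - p.1) ^ 2 : ℝ) : ℂ)) * F p.1) *
        cexp (-α * (((c'.im - p.2) ^ 2 : ℝ) : ℂ))), Measure.volume_eq_prod]
  rw [integral_prod_mul (fun x : ℝ => cexp (-α * (((c'.re - x) ^ 2 : ℝ) : ℂ)) * F x)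
    (fun y : ℝ => cexp (-α * (((c'.im - y) ^ 2 : ℝ) : ℂ))), mul_comm, hre]
  congr 1
  have e2 : ∫ y : ℝ, cexp (-α * (((c'.im - y) ^ 2 : ℝ) : ℂ)) =
      ∫ y : ℝ, cexp (-α * ((y ^ 2 : ℝ) : ℂ)) :=
    integral_sub_left_eq_self (fun y : ℝ => cexp (-α * ((y ^ 2 : ℝ) : ℂ))) volume c'.im
  rw [e2]
  have e3 := cg_eq α 0 0 hα
  unfold cg at e3
  rw [show ((0 : ℂ) + 0 ^ 2 / (4 * α)) = 0 by simp, Complex.exp_zero, mul_one] at e3
  rw [← e3]
  apply integral_congr_ae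
  filter_upwards with y
  congr 1
  push_cast
  ring

/-! ### the modulus of the circle integral -/

lemma Qf_abs (b : ℝ → ℂ) (c : ℂ) (t : ℝ) :
    ‖∫ θ in Ioo (-Real.pi) Real.pi, ph (-(t * dt c (um θ) ^ 2)) * b θ‖ₑ =
      ‖Qf b (((t / 2 : ℝ) : ℂ) * c ^ 2)‖ₑ := by
  have h1 : ∫ θ in Ioo (-Real.pi) Real.pi, ph (-(t * dt c (um θ) ^ 2)) * b θ =
      ph (-(t / 2 * normSq c)) * Qf b (((t / 2 : ℝ) : ℂ) * c ^ 2) := by
    unfold Qf
    rw [← integral_const_mul]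
    apply integral_congr_ae
    filter_upwards with θ
    have h2 : -(t * dt c (um θ) ^ 2) = -(t / 2 * normSq c) +
        -(dt (um (2 * θ)) (((t / 2 : ℝ) : ℂ) * c ^ 2)) := by
      have h3 := Real.cos_sq_add_sin_sq θ
      simp only [dt, um_re, um_im, normSq_apply, mul_re, mul_im, ofReal_re, ofReal_im, sq,
        Real.cos_two_mul, Real.sin_two_mul]
      have h4 : Real.sin θ * Real.sin θ = 1 - Real.cos θ * Real.cos θ := by nlinarith
      linear_combination (-(t * c.im * c.im)) * h4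
    rw [h2, ph_add]
    ring
  rw [h1, enorm_mul, enorm_ph, one_mul]

end Pool.Agent.Q63.Star
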