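import Mathlib
import Pool.Agent.Q63.Star.Packet
set_option autoImplicit false

/-! The `L^4` estimate for packets. -/

namespace Pool.Agent.Q63.Star

open MeasureTheory Set Complex
open scoped ENNReal NNReal ComplexConjugate

/-- normalised amplitude -/
noncomputable def BN (Θ : Set ℝ) (ρ : ℝ → ℝ) (BB : ℝ → ℝ → ℝ) (u θ : ℝ) : ℂ :=
  Θ.indicator (fun θ => ((BB (ρ θ) u / 5 : ℝ) : ℂ)) θ

lemma BN_meas (Θ : Set ℝ) (hΘ : MeasurableSet Θ) (ρ : ℝ → ℝ) (hρ : Measurable ρ)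
    (BB : ℝ → ℝ → ℝ) (hBB : Measurable (Function.uncurry BB)) :
    Measurable (Function.uncurry (BN Θ ρ BB)) := by
  have e : Function.uncurry (BN Θ ρ BB) = (Prod.snd ⁻¹' Θ).indicator
      (fun p : ℝ × ℝ => ((BB (ρ p.2) p.1 / 5 : ℝ) : ℂ)) := by
    funext p
    unfold Function.uncurry BN
    by_cases hp : p.2 ∈ Θ
    · rw [indicator_of_mem hp, indicator_of_mem (show p ∈ Prod.snd ⁻¹' Θ from hp)]
    · rw [indicator_of_notMem hp, indicator_of_notMem (show p ∉ Prod.snd ⁻¹' Θ from hp)]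
  rw [e]
  apply Measurable.indicator _ (measurable_snd hΘ)
  have h1 : Measurable (fun p : ℝ × ℝ => ((ρ p.2, p.1) : ℝ × ℝ)) := by fun_prop
  have h2 : Measurable (fun p : ℝ × ℝ => BB (ρ p.2) p.1) := hBB.comp h1
  fun_prop

/-- the constant in front -/
noncomputable def K2 (z t : ℝ) : ℝ :=
  ‖KK z t‖ / ‖((Real.pi : ℂ) / al z t) ^ (1 / 2 : ℂ)‖

lemma K2_bd (z t : ℝ) (hz : 0 < z) (ht : 0 < t) : 4 * t ^ 2 * K2 z t ^ 4 ≤ 29 * z ^ 4 := by
  have hpi := Real.pi_pos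
  have hs := ss_ne z t hz
  have ha := aa_ne z t hz
  have hs0 : 0 < ‖(2 * (z : ℂ) + t * I)‖ := norm_pos_iff.2 hs
  have ha0 : 0 < ‖aa z t‖ := norm_pos_iff.2 ha
  have hst : t ≤ ‖(2 * (z : ℂ) + t * I)‖ := by
    have h1 := Complex.abs_im_le_norm (2 * (z : ℂ) + t * I)
    have h2 : (2 * (z : ℂ) + t * I).im = t := by simp
    rw [h2] at h1
    exact (le_abs_self t).trans h1
  have hal : ‖al z t‖ = 2 * z * t / ‖(2 * (z : ℂ) + t * I)‖ := by
    unfold al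
    rw [norm_div, norm_mul, norm_mul, norm_mul, Complex.norm_real, Complex.norm_real, norm_I,
      Real.norm_eq_abs, Real.norm_eq_abs, abs_of_pos hz, abs_of_pos ht]
    simp
  have hap : ‖al z t + 2 * z‖ = 4 * z * ‖aa z t‖ / ‖(2 * (z : ℂ) + t * I)‖ := by
    rw [al_add z t hz, norm_div, norm_mul, norm_mul, Complex.norm_real, Real.norm_eq_abs,
      abs_of_pos hz]
    simp
  have hal0 : 0 < ‖al z t‖ := by rw [hal]; positivity
  have hap0 : 0 < ‖al z t + 2 * z‖ := by rw [hap]; positivity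
  have hK : K2 z t ^ 2 = 8 * z ^ 2 * t / (Real.pi * ‖(2 * (z : ℂ) + t * I)‖ ^ 2) := by
    unfold K2 KK
    rw [norm_div, norm_half, norm_half, norm_half, div_pow, div_pow, Real.sq_sqrt (by positivity),
      Real.sq_sqrt (by positivity), Real.sq_sqrt (by positivity), hap, hal]
    field_simp
    ring
  have hK1 : K2 z t ^ 2 ≤ 8 * z ^ 2 / (Real.pi * t) := by
    rw [hK, div_le_div_iff₀ (by positivity) (by positivity)]
    have h1 : t ^ 2 ≤ ‖(2 * (z : ℂ) + t * I)‖ ^ 2 := by gcongr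
    have h2 : 0 ≤ 8 * z ^ 2 * Real.pi := by positivity
    nlinarith
  have hK4 : K2 z t ^ 4 ≤ (8 * z ^ 2 / (Real.pi * t)) ^ 2 := by
    have : K2 z t ^ 4 = (K2 z t ^ 2) ^ 2 := by ring
    rw [this]
    have h0 : 0 ≤ K2 z t ^ 2 := sq_nonneg _
    gcongr
  calc 4 * t ^ 2 * K2 z t ^ 4 ≤ 4 * t ^ 2 * (8 * z ^ 2 / (Real.pi * t)) ^ 2 := by gcongr
    _ = 256 * z ^ 4 / Real.pi ^ 2 := by
        field_simp
        norm_num
    _ ≤ _ := by
        rw [div_le_iff₀ (by positivity)]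
        have h3 := Real.pi_gt_three
        have h4 : 9 ≤ Real.pi ^ 2 := by nlinarith
        have h5 : 0 ≤ z ^ 4 := by positivity
        nlinarith

/-- hypotheses on a profile -/
structure Prof (z : ℝ) (P : ℝ → ℝ) (BB : ℝ → ℝ → ℝ) : Prop where
  mP : Measurable P
  mB : Measurable (Function.uncurry BB)
  idn : ∀ t b ρ : ℝ, ∫ r : ℝ, (r : ℂ) * ((P (r - ρ) : ℝ) : ℂ) * ph (t * (r - b) ^ 2) =
      KK z t * ∫ u : ℝ, cexp (-(al z t) * (((b - u) ^ 2 : ℝ) : ℂ)) * ((BB ρ u : ℝ) : ℂ)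
  bd : ∀ ρ u : ℝ, 1 / 2 ≤ ρ → ρ ≤ 1 → |BB ρ u| ≤ 5 * Real.exp (-z * (u - ρ) ^ 2)
  dom : ∀ ρ r : ℝ, 1 / 2 ≤ ρ → ρ ≤ 1 → |r| * |P (r - ρ)| ≤ 4 * Real.exp (-(1 / 8) * r ^ 2)

/-- the packet density -/
noncomputable def wp (Θ : Set ℝ) (ρ P : ℝ → ℝ) (p : ℝ × ℝ) : ℂ :=
  Θ.indicator (fun θ => ((P (p.1 - ρ θ) : ℝ) : ℂ)) p.2

lemma wp_meas (Θ : Set ℝ) (hΘ : MeasurableSet Θ) (ρ P : ℝ → ℝ) (hρ : Measurable ρ)
    (hP : Measurable P) : Measurable (wp Θ ρ P) := by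
  have e : wp Θ ρ P = (Prod.snd ⁻¹' Θ).indicator
      (fun p : ℝ × ℝ => ((P (p.1 - ρ p.2) : ℝ) : ℂ)) := by
    funext p
    unfold wp
    by_cases hp : p.2 ∈ Θ
    · rw [indicator_of_mem hp, indicator_of_mem (show p ∈ Prod.snd ⁻¹' Θ from hp)]
    · rw [indicator_of_notMem hp, indicator_of_notMem (show p ∉ Prod.snd ⁻¹' Θ from hp)]
  rw [e]
  apply Measurable.indicator _ (measurable_snd hΘ)
  fun_prop

lemma wp_dom {z : ℝ} {P : ℝ → ℝ} {BB : ℝ → ℝ → ℝ} (h : Prof z P BB) (Θ : Set ℝ) (ρ : ℝ → ℝ)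
    (hρ : ∀ θ, 1 / 2 ≤ ρ θ ∧ ρ θ ≤ 1) : Dom (wp Θ ρ P) := by
  intro p
  unfold wp
  by_cases hp : p.2 ∈ Θ
  · rw [indicator_of_mem hp, Complex.norm_real, Real.norm_eq_abs]
    exact h.dom _ _ (hρ _).1 (hρ _).2
  · rw [indicator_of_notMem hp, norm_zero, mul_zero]
    positivity

lemma gaussC_int (z : ℝ) (hz : 0 < z) (c : ℂ) :
    Integrable (fun v : ℂ => Real.exp (-z * ‖c - v‖ ^ 2)) := by
  refine ⟨(by fun_prop : Measurable fun v : ℂ => Real.exp (-z * ‖c - v‖ ^ 2)).aestronglyMeasurable,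
    ?_⟩
  have h := glC z hz c
  unfold HasFiniteIntegral
  have e : ∀ v : ℂ, ‖Real.exp (-z * ‖c - v‖ ^ 2)‖ₑ = ENNReal.ofReal (Real.exp (-z * ‖c - v‖ ^ 2)) := by
    intro v
    rw [Real.enorm_eq_ofReal (Real.exp_pos _).le]
  simp_rw [e]
  rw [h]
  exact ENNReal.ofReal_lt_top

lemma pt_bound {z : ℝ} {P : ℝ → ℝ} {BB : ℝ → ℝ → ℝ} (h : Prof z P BB) (hz : 1 ≤ z)
    (Θ : Set ℝ) (hΘ : MeasurableSet Θ) (ρ : ℝ → ℝ) (hρm : Measurable ρ)
    (hρ : ∀ θ, 1 / 2 ≤ ρ θ ∧ ρ θ ≤ 1) (t : ℝ) (ht : 2 * z ≤ t) (c : ℂ) :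
    ‖LO (wp Θ ρ P) (((-(2 * t) : ℝ) : ℂ) * c) t‖ₑ ≤ ENNReal.ofReal (5 * K2 z t) *
      ∫⁻ v : ℂ, ENNReal.ofReal (Real.exp (-z * ‖c - v‖ ^ 2)) *
        ‖Qf (bv (BN Θ ρ BB) v) (((t / 2 : ℝ) : ℂ) * c ^ 2)‖ₑ := by
  have hz0 : 0 < z := by linarith
  have ht0 : 0 < t := by linarith
  have hare : z ≤ (al z t).re := al_re_ge z t hz0 ht
  have hal0 : 0 < (al z t).re := by linarith
  have halne : al z t ≠ 0 := by
    intro hc
    rw [hc] at hal0
    simp at hal0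
  set cst : ℂ := ((Real.pi : ℂ) / al z t) ^ (1 / 2 : ℂ) with hcst
  have hcne : cst ≠ 0 := cpow_half_ne _ halne
  set B := BN Θ ρ BB with hB
  have hBm : Measurable (Function.uncurry B) := BN_meas Θ hΘ ρ hρm BB h.mB
  have hB1 : ∀ u θ, ‖B u θ‖ ≤ 1 := by
    intro u θ
    rw [hB]
    unfold BN
    by_cases hθ : θ ∈ Θ
    · rw [indicator_of_mem hθ, Complex.norm_real, Real.norm_eq_abs, abs_div,
        abs_of_pos (by norm_num : (0 : ℝ) < 5), div_le_one (by norm_num)]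
      have h1 := h.bd (ρ θ) u (hρ θ).1 (hρ θ).2
      have h2 : Real.exp (-z * (u - ρ θ) ^ 2) ≤ 1 := by
        rw [Real.exp_le_one_iff]
        nlinarith [sq_nonneg (u - ρ θ)]
      linarith
    · rw [indicator_of_notMem hθ, norm_zero]
      norm_num
  -- the formula
  have hform : LO (wp Θ ρ P) (((-(2 * t) : ℝ) : ℂ) * c) t = (5 * KK z t / cst) *
      ∫ v : ℂ, cexp (-(al z t) * ((‖c - v‖ ^ 2 : ℝ) : ℂ)) *
        ∫ θ in Ioo (-Real.pi) Real.pi, ph (-(t * dt c (um θ) ^ 2)) * bv B v θ := by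
    rw [LO_iter _ (wp_meas Θ hΘ ρ P hρm h.mP) (wp_dom h Θ ρ hρ)]
    have e1 : ∀ θ : ℝ, ∫ r : ℝ, (r : ℂ) * wp Θ ρ P (r, θ) *
        ph (r * dt (um θ) (((-(2 * t) : ℝ) : ℂ) * c) + t * r ^ 2) =
        (5 * KK z t / cst) * ∫ v : ℂ, ph (-(t * dt c (um θ) ^ 2)) *
          (cexp (-(al z t) * ((‖c - v‖ ^ 2 : ℝ) : ℂ)) * bv B v θ) := by
      intro θ
      by_cases hθ : θ ∈ Θ
      · have e2 : ∀ r : ℝ, (r : ℂ) * wp Θ ρ P (r, θ) *
            ph (r * dt (um θ) (((-(2 * t) : ℝ) : ℂ) * c) + t * r ^ 2) =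
            ph (-(t * dt c (um θ) ^ 2)) *
              ((r : ℂ) * ((P (r - ρ θ) : ℝ) : ℂ) * ph (t * (r - dt c (um θ)) ^ 2)) := by
          intro r
          unfold wp
          simp only
          rw [indicator_of_mem hθ]
          have e3 : r * dt (um θ) (((-(2 * t) : ℝ) : ℂ) * c) + t * r ^ 2 =
              -(t * dt c (um θ) ^ 2) + t * (r - dt c (um θ)) ^ 2 := by
            rw [dt_smul_right]
            have : dt (um θ) c = dt c (um θ) := by unfold dt; ring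
            rw [this]
            ring
          rw [e3, ph_add]
          ring
        simp_rw [e2]
        rw [integral_const_mul, h.idn t (dt c (um θ)) (ρ θ)]
        have e4 := g2 (al z t) hal0 c θ (fun u => ((BB (ρ θ) u : ℝ) : ℂ))
        have e5 : ∫ v : ℂ, ph (-(t * dt c (um θ) ^ 2)) *
          (cexp (-(al z t) * ((‖c - v‖ ^ 2 : ℝ) : ℂ)) * bv B v θ) =
          (1 / 5 : ℂ) * (ph (-(t * dt c (um θ) ^ 2)) *
          ∫ v : ℂ, cexp (-(al z t) * ((‖c - v‖ ^ 2 : ℝ) : ℂ)) *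
            ((BB (ρ θ) (dt v (um θ)) : ℝ) : ℂ)) := by
          rw [← integral_const_mul, ← integral_const_mul]
          apply integral_congr_ae
          filter_upwards with v
          rw [hB]
          unfold bv BN
          rw [indicator_of_mem hθ]
          push_cast
          ring
        rw [e5, e4, ← hcst]
        field_simp
      · have e2 : ∀ r : ℝ, (r : ℂ) * wp Θ ρ P (r, θ) *
            ph (r * dt (um θ) (((-(2 * t) : ℝ) : ℂ) * c) + t * r ^ 2) = 0 := by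
          intro r
          unfold wp
          simp only
          rw [indicator_of_notMem hθ]
          ring
        have e3 : ∀ v : ℂ, ph (-(t * dt c (um θ) ^ 2)) *
          (cexp (-(al z t) * ((‖c - v‖ ^ 2 : ℝ) : ℂ)) * bv B v θ) = 0 := by
          intro v
          rw [hB]
          unfold bv BN
          rw [indicator_of_notMem hθ]
          ring
        simp_rw [e2, e3]
        simp
    simp_rw [e1]
    rw [integral_const_mul]
    congr 1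
    -- swap
    have hI : Integrable (Function.uncurry fun (θ : ℝ) (v : ℂ) => ph (-(t * dt c (um θ) ^ 2)) *
        (cexp (-(al z t) * ((‖c - v‖ ^ 2 : ℝ) : ℂ)) * bv B v θ))
        ((volume.restrict (Ioo (-Real.pi) Real.pi)).prod volume) := by
      have h2 : Integrable (fun _ : ℝ => (1 : ℝ)) (volume.restrict (Ioo (-Real.pi) Real.pi)) := by
        rw [integrable_const_iff]
        right
        constructor
        rw [Measure.restrict_apply_univ, Real.volume_Ioo]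
        exact ENNReal.ofReal_lt_top
      have h3 := h2.mul_prod (gaussC_int z hz0 c)
      refine h3.mono' ?_ ?_
      · have m1 : Measurable (fun p : ℝ × ℂ => dt c (um p.1)) := by
          have h2 : Measurable (fun p : ℝ × ℂ => ((c, um p.1) : ℂ × ℂ)) := by fun_prop
          exact dt_meas.comp h2
        have m2 : Measurable (fun p : ℝ × ℂ => bv B p.2 p.1) := by
          have h2 : Measurable (fun p : ℝ × ℂ => ((p.2, p.1) : ℂ × ℝ)) := by fun_prop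
          exact (bv_meas2 B hBm).comp h2
        exact (by fun_prop : Measurable fun p : ℝ × ℂ => ph (-(t * dt c (um p.1) ^ 2)) *
          (cexp (-(al z t) * ((‖c - p.2‖ ^ 2 : ℝ) : ℂ)) * bv B p.2 p.1)).aestronglyMeasurable
      · filter_upwards with p
        unfold Function.uncurry
        simp only
        rw [norm_mul, norm_ph, one_mul, norm_mul, Complex.norm_exp, one_mul]
        calc Real.exp (-(al z t) * ((‖c - p.2‖ ^ 2 : ℝ) : ℂ)).re * ‖bv B p.2 p.1‖ ≤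
            Real.exp (-z * ‖c - p.2‖ ^ 2) * 1 := by
              apply mul_le_mul _ (hB1 _ _) (norm_nonneg _) (Real.exp_pos _).le
              apply Real.exp_le_exp.2
              rw [mul_comm, re_ofReal_mul, neg_re]
              nlinarith [sq_nonneg ‖c - p.2‖]
          _ = _ := mul_one _
    rw [integral_integral_swap hI]
    apply integral_congr_ae
    filter_upwards with v
    rw [← integral_const_mul]
    apply integral_congr_ae
    filter_upwards with θ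
    ring
  rw [hform, enorm_mul]
  have hk : ‖5 * KK z t / cst‖ₑ = ENNReal.ofReal (5 * K2 z t) := by
    rw [← ofReal_norm]
    congr 1
    unfold K2
    rw [norm_div, norm_mul, mul_div_assoc]
    simp [hcst]
  rw [hk]
  gcongr
  refine (enorm_integral_le_lintegral_enorm _).trans ?_
  apply lintegral_mono
  intro v
  simp only
  rw [enorm_mul, Qf_abs]
  gcongr
  rw [← ofReal_norm, Complex.norm_exp]
  apply ENNReal.ofReal_le_ofReal
  apply Real.exp_le_exp.2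
  rw [mul_comm, re_ofReal_mul, neg_re]
  nlinarith [sq_nonneg ‖c - v‖]

/-- **The packet estimate.** -/
theorem packet : ∃ C : ℝ, 0 < C ∧ ∀ R : ℝ, 16 ≤ R → ∀ z : ℝ, 1 ≤ z → 2 * z ≤ R →
    ∀ (P : ℝ → ℝ) (BB : ℝ → ℝ → ℝ), Prof z P BB →
    ∀ Θ : Set ℝ, MeasurableSet Θ → ∀ ρ : ℝ → ℝ, Measurable ρ →
    (∀ θ, 1 / 2 ≤ ρ θ ∧ ρ θ ≤ 1) →
    ∫⁻ t in Icc R (2 * R), ∫⁻ ζ : ℂ, ‖LO (wp Θ ρ P) ζ t‖ₑ ^ 4 ≤
      ENNReal.ofReal (C * ((1 + Real.log R) / R + R * z * Real.exp (-(z / 128)))) *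
      volume (Θ ∩ Ioo (-Real.pi) Real.pi) := by
  obtain ⟨C, hC, hK⟩ := lemK
  refine ⟨625 * 29 * C, by positivity, ?_⟩
  intro R hR z hz hzR P BB h Θ hΘ ρ hρm hρ
  have hR0 : 0 < R := by linarith
  have hz0 : 0 < z := by linarith
  have hlogR : 0 ≤ Real.log R := Real.log_nonneg (by linarith)
  have hLm : Measurable (fun q : ℂ × ℝ => LO (wp Θ ρ P) q.1 q.2) :=
    LO_meas _ (wp_meas Θ hΘ ρ P hρm h.mP)
  have hBb : ∀ u θ, ‖BN Θ ρ BB u θ‖ ≤ Real.exp (-z * (u - ρ θ) ^ 2) := by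
    intro u θ
    unfold BN
    by_cases hθ : θ ∈ Θ
    · rw [indicator_of_mem hθ, Complex.norm_real, Real.norm_eq_abs, abs_div,
        abs_of_pos (by norm_num : (0 : ℝ) < 5), div_le_iff₀ (by norm_num)]
      have h1 := h.bd (ρ θ) u (hρ θ).1 (hρ θ).2
      linarith
    · rw [indicator_of_notMem hθ, norm_zero]
      exact (Real.exp_pos _).le
  have hBΘ : ∀ u θ, θ ∉ Θ → BN Θ ρ BB u θ = 0 := by
    intro u θ hθ
    unfold BN
    rw [indicator_of_notMem hθ]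
  have hmain := hK R hR z hz ρ hρm (fun θ => (hρ θ).1) Θ hΘ (BN Θ ρ BB)
    (BN_meas Θ hΘ ρ hρm BB h.mB) hBb hBΘ
  have hstep : ∀ t ∈ Icc R (2 * R), ∫⁻ ζ : ℂ, ‖LO (wp Θ ρ P) ζ t‖ₑ ^ 4 ≤
      ENNReal.ofReal (625 * 29 * z ^ 4) * ∫⁻ c : ℂ, (∫⁻ v : ℂ,
        ENNReal.ofReal (Real.exp (-z * ‖c - v‖ ^ 2)) *
        ‖Qf (bv (BN Θ ρ BB) v) (((t / 2 : ℝ) : ℂ) * c ^ 2)‖ₑ) ^ 4 := by
    intro t ht
    have ht0 : 0 < t := lt_of_lt_of_le hR0 ht.1
    have h1 : Measurable (fun ζ : ℂ => ‖LO (wp Θ ρ P) ζ t‖ₑ ^ 4) :=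
      ((hLm.of_uncurry_right (y := t)).enorm).pow_const 4
    have h2 := lint_smulC (fun ζ : ℂ => ‖LO (wp Θ ρ P) ζ t‖ₑ ^ 4) h1 (-(2 * t))
      (by linarith)
    have h3 : ∫⁻ ζ : ℂ, ‖LO (wp Θ ρ P) ζ t‖ₑ ^ 4 = ENNReal.ofReal (4 * t ^ 2) *
        ∫⁻ c : ℂ, ‖LO (wp Θ ρ P) (((-(2 * t) : ℝ) : ℂ) * c) t‖ₑ ^ 4 := by
      rw [h2, ← mul_assoc, ← ENNReal.ofReal_mul (by positivity)]
      have : 4 * t ^ 2 * ((-(2 * t)) ^ 2)⁻¹ = 1 := by
        field_simp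
        norm_num
      rw [this, ENNReal.ofReal_one, one_mul]
    rw [h3]
    calc _ ≤ ENNReal.ofReal (4 * t ^ 2) * ∫⁻ c : ℂ, (ENNReal.ofReal (5 * K2 z t) *
          ∫⁻ v : ℂ, ENNReal.ofReal (Real.exp (-z * ‖c - v‖ ^ 2)) *
          ‖Qf (bv (BN Θ ρ BB) v) (((t / 2 : ℝ) : ℂ) * c ^ 2)‖ₑ) ^ 4 := by
          refine mul_le_mul' le_rfl (lintegral_mono fun c => ?_)
          exact pow_le_pow_left' (pt_bound h hz Θ hΘ ρ hρm hρ t (hzR.trans ht.1) c) 4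
      _ = ENNReal.ofReal (4 * t ^ 2) * (ENNReal.ofReal (5 * K2 z t) ^ 4 * ∫⁻ c : ℂ, (
          ∫⁻ v : ℂ, ENNReal.ofReal (Real.exp (-z * ‖c - v‖ ^ 2)) *
          ‖Qf (bv (BN Θ ρ BB) v) (((t / 2 : ℝ) : ℂ) * c ^ 2)‖ₑ) ^ 4) := by
          rw [← lintegral_const_mul' _ _ (ENNReal.pow_ne_top ENNReal.ofReal_ne_top)]
          congr 1
          apply lintegral_congr
          intro c
          rw [mul_pow]
      _ ≤ _ := by
          rw [← mul_assoc]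
          refine mul_le_mul' ?_ le_rfl
          have hK0 : 0 ≤ K2 z t := by unfold K2; positivity
          rw [← ENNReal.ofReal_pow (by positivity), ← ENNReal.ofReal_mul (by positivity)]
          apply ENNReal.ofReal_le_ofReal
          have := K2_bd z t hz0 ht0
          nlinarith
  calc ∫⁻ t in Icc R (2 * R), ∫⁻ ζ : ℂ, ‖LO (wp Θ ρ P) ζ t‖ₑ ^ 4 ≤
      ∫⁻ t in Icc R (2 * R), ENNReal.ofReal (625 * 29 * z ^ 4) * ∫⁻ c : ℂ, (∫⁻ v : ℂ,
        ENNReal.ofReal (Real.exp (-z * ‖c - v‖ ^ 2)) *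
        ‖Qf (bv (BN Θ ρ BB) v) (((t / 2 : ℝ) : ℂ) * c ^ 2)‖ₑ) ^ 4 :=
        setLIntegral_mono' measurableSet_Icc hstep
    _ = ENNReal.ofReal (625 * 29 * z ^ 4) * ∫⁻ t in Icc R (2 * R), ∫⁻ c : ℂ, (∫⁻ v : ℂ,
        ENNReal.ofReal (Real.exp (-z * ‖c - v‖ ^ 2)) *
        ‖Qf (bv (BN Θ ρ BB) v) (((t / 2 : ℝ) : ℂ) * c ^ 2)‖ₑ) ^ 4 :=
        lintegral_const_mul' _ _ ENNReal.ofReal_ne_top
    _ ≤ _ := mul_le_mul' le_rfl hmain
    _ = _ := by
        rw [← mul_assoc, ← ENNReal.ofReal_mul (by positivity)]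
        congr 2
        field_simp

end Pool.Agent.Q63.Star
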