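import Mathlib
import Pool.Agent.Q63.Star.Packet2
set_option autoImplicit false

/-! Strichartz' inequality for the line operator; the two profiles. -/

namespace Pool.Agent.Q63.Star

open MeasureTheory Set Complex
open scoped ENNReal NNReal ComplexConjugate

/-- function on the plane from a function of signed radius and angle -/
noncomputable def wc (w : ℝ × ℝ → ℂ) (x : ℂ) : ℂ := w (‖x‖, Complex.arg x)

lemma wc_meas (w : ℝ × ℝ → ℂ) (hw : Measurable w) : Measurable (wc w) := by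
  have h : Measurable (fun x : ℂ => ((‖x‖, Complex.arg x) : ℝ × ℝ)) :=
    measurable_norm.prodMk Complex.measurable_arg
  exact hw.comp h

lemma mu_TP : mu.restrict (Ioi (0 : ℝ) ×ˢ univ) = (volume : Measure (ℝ × ℝ)).restrict TP := by
  unfold mu TP
  rw [Measure.volume_eq_prod, ← Measure.prod_restrict, ← Measure.prod_restrict,
    Measure.restrict_univ]

lemma wc_pol (w : ℝ × ℝ → ℂ) (p : ℝ × ℝ) (hp : p ∈ TP) : wc w (p.1 * um p.2) = w p := by
  have h1 : (0 : ℝ) < p.1 := hp.1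
  have h2 : p.2 ∈ Ioc (-Real.pi) Real.pi := ⟨hp.2.1, hp.2.2.le⟩
  unfold wc
  have e1 : ‖(p.1 : ℂ) * um p.2‖ = p.1 := by
    rw [norm_mul, norm_um, mul_one, Complex.norm_real, Real.norm_eq_abs, abs_of_pos h1]
  have e2 : Complex.arg ((p.1 : ℂ) * um p.2) = p.2 := by
    have := Complex.arg_mul_cos_add_sin_mul_I h1 h2
    unfold um
    push_cast
    exact this
  rw [e1, e2]

lemma Ex_wc (w : ℝ × ℝ → ℂ) (ζ : ℂ) (t : ℝ) :
    Ex (wc w) ζ t = ∫ p in Ioi (0 : ℝ) ×ˢ univ,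
      (p.1 : ℂ) * w p * ph (p.1 * dt (um p.2) ζ + t * p.1 ^ 2) ∂mu := by
  rw [mu_TP]
  unfold Ex
  rw [pol_int]
  refine setIntegral_congr_fun TP_meas fun p hp => ?_
  rw [wc_pol w p hp, normSq_smul, normSq_um, mul_one, dt_smul_left]
  ring

lemma lint_wc (w : ℝ × ℝ → ℂ) (k : ℕ) :
    ∫⁻ x, ‖wc w x‖ₑ ^ k = ∫⁻ p in Ioi (0 : ℝ) ×ˢ univ, ENNReal.ofReal |p.1| * ‖w p‖ₑ ^ k ∂mu := by
  rw [mu_TP, pol_lint]
  refine setLIntegral_congr_fun TP_meas fun p hp => ?_
  have h1 : (0 : ℝ) < p.1 := hp.1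
  rw [wc_pol w p hp, abs_of_pos h1]

lemma refl_mp : MeasurePreserving (fun p : ℝ × ℝ => (-p.1, p.2)) mu mu := by
  have h := (Measure.measurePreserving_neg (volume : Measure ℝ)).prod
    (MeasurePreserving.id (volume.restrict (Ioo (-Real.pi) Real.pi)))
  exact h

lemma refl_me : MeasurableEmbedding (fun p : ℝ × ℝ => (-p.1, p.2)) := by
  have h := ((MeasurableEquiv.neg ℝ).prodCongr (MeasurableEquiv.refl ℝ)).measurableEmbedding
  exact h

/-- **Strichartz for the line operator.** -/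
theorem LO_strich (w : ℝ × ℝ → ℂ) (hw : Measurable w)
    (hi : Integrable (fun p : ℝ × ℝ => (p.1 : ℂ) * w p) mu) :
    ∫⁻ t : ℝ, ∫⁻ ζ : ℂ, ‖LO w ζ t‖ₑ ^ 4 ≤
      ENNReal.ofReal (32 * Real.pi ^ 4) * (∫⁻ p, ENNReal.ofReal |p.1| * ‖w p‖ₑ ^ 2 ∂mu) ^ 2 := by
  set wr : ℝ × ℝ → ℂ := fun p => w (-p.1, p.2) with hwr
  have hwrm : Measurable wr := by
    have h : Measurable (fun p : ℝ × ℝ => ((-p.1, p.2) : ℝ × ℝ)) := by fun_prop
    exact hw.comp h
  set S : Set (ℝ × ℝ) := Ioi (0 : ℝ) ×ˢ univ with hS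
  have hSm : MeasurableSet S := measurableSet_Ioi.prod MeasurableSet.univ
  -- integrability
  have hker : ∀ (ζ : ℂ) (t : ℝ), Integrable (fun p : ℝ × ℝ => (p.1 : ℂ) * w p *
      ph (p.1 * dt (um p.2) ζ + t * p.1 ^ 2)) mu := by
    intro ζ t
    have := kerL_meas_p ζ t
    refine hi.mono (by fun_prop : Measurable fun p : ℝ × ℝ => (p.1 : ℂ) * w p *
      ph (p.1 * dt (um p.2) ζ + t * p.1 ^ 2)).aestronglyMeasurable ?_
    filter_upwards with p
    rw [norm_mul _ (ph _), norm_ph, mul_one]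
  -- splitting
  have hsplit : ∀ (ζ : ℂ) (t : ℝ), LO w ζ t = Ex (wc w) ζ t - Ex (wc wr) (-ζ) t := by
    intro ζ t
    unfold LO
    rw [← integral_add_compl hSm (hker ζ t), Ex_wc, Ex_wc, sub_eq_add_neg]
    congr 1
    rw [← integral_indicator hSm.compl, ← refl_mp.integral_comp refl_me, ← integral_neg,
      ← integral_indicator hSm]
    apply integral_congr_ae
    filter_upwards with p
    by_cases hp : p ∈ S
    · have hp0 : (0 : ℝ) < p.1 := hp.1
      have hq : ((-p.1, p.2) : ℝ × ℝ) ∈ Sᶜ := by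
        intro hc
        have : (0 : ℝ) < -p.1 := hc.1
        linarith
      rw [indicator_of_mem hp, indicator_of_mem hq, hwr]
      simp only
      rw [dt_neg_right]
      push_cast
      rw [neg_sq]
      have : -p.1 * dt (um p.2) ζ = p.1 * -dt (um p.2) ζ := by ring
      rw [this]
      ring
    · rw [indicator_of_notMem hp]
      by_cases hq : ((-p.1, p.2) : ℝ × ℝ) ∈ Sᶜ
      · rw [indicator_of_mem hq]
        have h1 : ¬ (0 : ℝ) < p.1 := fun hc => hp ⟨hc, mem_univ _⟩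
        have h2 : ¬ (0 : ℝ) < -p.1 := fun hc => hq ⟨hc, mem_univ _⟩
        have h3 : p.1 = 0 := by linarith
        simp [h3]
      · rw [indicator_of_notMem hq]
  -- the two masses
  set a : ℝ≥0∞ := ∫⁻ x, ‖wc w x‖ₑ ^ 2 with ha
  set b : ℝ≥0∞ := ∫⁻ x, ‖wc wr x‖ₑ ^ 2 with hb
  have hab : a + b ≤ ∫⁻ p, ENNReal.ofReal |p.1| * ‖w p‖ₑ ^ 2 ∂mu := by
    have hF : Measurable (fun p : ℝ × ℝ => ENNReal.ofReal |p.1| * ‖w p‖ₑ ^ 2) := by fun_prop
    have hsp := lintegral_add_compl (μ := mu) (fun p => ENNReal.ofReal |p.1| * ‖w p‖ₑ ^ 2) hSm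
    rw [ha, hb, lint_wc, lint_wc, ← hsp]
    refine add_le_add le_rfl ?_
    rw [← lintegral_indicator hSm, ← lintegral_indicator hSm.compl,
      ← refl_mp.lintegral_comp (hF.indicator hSm.compl)]
    apply lintegral_mono
    intro p
    simp only
    by_cases hp : p ∈ S
    · have hp0 : (0 : ℝ) < p.1 := hp.1
      have hq : ((-p.1, p.2) : ℝ × ℝ) ∈ Sᶜ := by
        intro hc
        have : (0 : ℝ) < -p.1 := hc.1
        linarith
      rw [indicator_of_mem hp, indicator_of_mem hq]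
      simp only [abs_neg, hwr, le_refl]
    · rw [indicator_of_notMem hp]
      exact zero_le
  -- integrability on the plane
  have hi1 : Integrable (wc w) := by
    refine ⟨(wc_meas w hw).aestronglyMeasurable, ?_⟩
    have h1 := lint_wc w 1
    simp only [pow_one] at h1
    unfold HasFiniteIntegral
    rw [h1]
    refine lt_of_le_of_lt (setLIntegral_le_lintegral _ _) ?_
    refine lt_of_le_of_lt (le_of_eq ?_) hi.2
    apply lintegral_congr
    intro p
    rw [enorm_mul, ← ofReal_norm (p.1 : ℂ), Complex.norm_real, Real.norm_eq_abs]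
  have hi2 : Integrable (wc wr) := by
    refine ⟨(wc_meas wr hwrm).aestronglyMeasurable, ?_⟩
    have h1 := lint_wc wr 1
    simp only [pow_one] at h1
    unfold HasFiniteIntegral
    rw [h1]
    refine lt_of_le_of_lt (setLIntegral_le_lintegral _ _) ?_
    have h2 : ∫⁻ p, ENNReal.ofReal |p.1| * ‖wr p‖ₑ ∂mu = ∫⁻ p, ENNReal.ofReal |p.1| * ‖w p‖ₑ ∂mu := by
      rw [← refl_mp.lintegral_comp (by fun_prop : Measurable fun p : ℝ × ℝ =>
        ENNReal.ofReal |p.1| * ‖w p‖ₑ)]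
      apply lintegral_congr
      intro p
      simp only [abs_neg, hwr]
    rw [h2]
    refine lt_of_le_of_lt (le_of_eq ?_) hi.2
    apply lintegral_congr
    intro p
    rw [enorm_mul, ← ofReal_norm (p.1 : ℂ), Complex.norm_real, Real.norm_eq_abs]
  have hm1 : Measurable (fun q : ℂ × ℝ => ‖Ex (wc w) q.1 q.2‖ₑ ^ 4) :=
    ((Ex_meas _ (wc_meas w hw)).enorm).pow_const 4
  have hm2 : Measurable (fun q : ℂ × ℝ => ‖Ex (wc wr) q.1 q.2‖ₑ ^ 4) :=
    ((Ex_meas _ (wc_meas wr hwrm)).enorm).pow_const 4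
  calc ∫⁻ t : ℝ, ∫⁻ ζ : ℂ, ‖LO w ζ t‖ₑ ^ 4 ≤ ∫⁻ t : ℝ, ∫⁻ ζ : ℂ,
        8 * (‖Ex (wc w) ζ t‖ₑ ^ 4 + ‖Ex (wc wr) (-ζ) t‖ₑ ^ 4) := by
        apply lintegral_mono
        intro t
        apply lintegral_mono
        intro ζ
        simp only
        rw [hsplit]
        calc ‖Ex (wc w) ζ t - Ex (wc wr) (-ζ) t‖ₑ ^ 4 ≤
            (‖Ex (wc w) ζ t‖ₑ + ‖Ex (wc wr) (-ζ) t‖ₑ) ^ 4 := by
              gcongr
              exact enorm_sub_le
          _ ≤ _ := by
              have := ENNReal.rpow_add_le_mul_rpow_add_rpow ‖Ex (wc w) ζ t‖ₑ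
                ‖Ex (wc wr) (-ζ) t‖ₑ (p := 4) (by norm_num)
              have e8 : (2 : ℝ≥0∞) ^ ((4 : ℝ) - 1) = 8 := by
                rw [show ((4 : ℝ) - 1) = ((3 : ℕ) : ℝ) by norm_num, ENNReal.rpow_natCast]
                norm_num
              rw [e8] at this
              have e4 : ∀ x : ℝ≥0∞, x ^ (4 : ℝ) = x ^ 4 := by
                intro x
                rw [show (4 : ℝ) = ((4 : ℕ) : ℝ) by norm_num, ENNReal.rpow_natCast]
              rw [e4, e4, e4] at this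
              exact this
    _ = 8 * ((∫⁻ t : ℝ, ∫⁻ ζ : ℂ, ‖Ex (wc w) ζ t‖ₑ ^ 4) +
        ∫⁻ t : ℝ, ∫⁻ ζ : ℂ, ‖Ex (wc wr) ζ t‖ₑ ^ 4) := by
        have h1 : ∀ t : ℝ, ∫⁻ ζ : ℂ, 8 * (‖Ex (wc w) ζ t‖ₑ ^ 4 + ‖Ex (wc wr) (-ζ) t‖ₑ ^ 4) =
            8 * ((∫⁻ ζ : ℂ, ‖Ex (wc w) ζ t‖ₑ ^ 4) + ∫⁻ ζ : ℂ, ‖Ex (wc wr) ζ t‖ₑ ^ 4) := by
          intro t
          have n1 : Measurable (fun ζ : ℂ => ‖Ex (wc w) ζ t‖ₑ ^ 4) :=
            ((Ex_meas_left _ (wc_meas w hw) t).enorm).pow_const 4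
          rw [lintegral_const_mul' _ _ (by norm_num), lintegral_add_left n1]
          congr 2
          exact lintegral_neg_eq_self (fun ζ : ℂ => ‖Ex (wc wr) ζ t‖ₑ ^ 4)
        simp_rw [h1]
        rw [lintegral_const_mul' _ _ (by norm_num), lintegral_add_left]
        exact (hm1.comp measurable_swap).lintegral_prod_right'
    _ ≤ 8 * (ENNReal.ofReal (4 * Real.pi ^ 4) * a ^ 2 + ENNReal.ofReal (4 * Real.pi ^ 4) * b ^ 2) := by
        gcongr
        · exact strich _ (wc_meas w hw) hi1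
        · exact strich _ (wc_meas wr hwrm) hi2
    _ = ENNReal.ofReal (32 * Real.pi ^ 4) * (a ^ 2 + b ^ 2) := by
        rw [← mul_add, ← mul_assoc]
        congr 1
        rw [show (8 : ℝ≥0∞) = ENNReal.ofReal 8 by norm_num, ← ENNReal.ofReal_mul (by norm_num)]
        congr 1
        ring
    _ ≤ ENNReal.ofReal (32 * Real.pi ^ 4) * (a + b) ^ 2 := by
        gcongr
        have : (a + b) ^ 2 = a ^ 2 + b ^ 2 + 2 * a * b := by ring
        rw [this]
        exact le_self_add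
    _ ≤ _ := by gcongr

/-! ### the two profiles -/

lemma exp_lin (y : ℝ) : y ≤ Real.exp (y ^ 2 / 2) := by
  have := Real.add_one_le_exp (y ^ 2 / 2)
  nlinarith [sq_nonneg (y - 1)]

lemma dom_aux (ρ r : ℝ) (h1 : 1 / 2 ≤ ρ) (h2 : ρ ≤ 1) :
    |r| * Real.exp (-(1 / 2) * (r - ρ) ^ 2) ≤ 4 * Real.exp (-(1 / 8) * r ^ 2) := by
  have h3 : -(1 / 2) * (r - ρ) ^ 2 ≤ 1 / 2 + -(1 / 4) * r ^ 2 := by
    nlinarith [sq_nonneg (r - 2 * ρ)]
  have h4 : |r| ≤ 2 * Real.exp (1 / 8 * r ^ 2) := by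
    have := Real.add_one_le_exp (1 / 8 * r ^ 2)
    have h5 : |r| ^ 2 = r ^ 2 := sq_abs r
    nlinarith [sq_nonneg (|r| - 2)]
  have h6 : Real.exp (1 / 2) ≤ 2 := by
    have h7 : Real.exp (1 / 2) ^ 2 = Real.exp 1 := by
      rw [← Real.exp_nat_mul]
      norm_num
    have h8 := Real.exp_one_lt_d9
    have h9 := Real.exp_pos (1 / 2)
    nlinarith
  calc |r| * Real.exp (-(1 / 2) * (r - ρ) ^ 2) ≤ (2 * Real.exp (1 / 8 * r ^ 2)) *
        Real.exp (1 / 2 + -(1 / 4) * r ^ 2) := by gcongr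
    _ = 2 * Real.exp (1 / 2) * (Real.exp (1 / 8 * r ^ 2) * Real.exp (-(1 / 4) * r ^ 2)) := by
        rw [Real.exp_add]; ring
    _ = 2 * Real.exp (1 / 2) * Real.exp (-(1 / 8) * r ^ 2) := by
        rw [← Real.exp_add]
        congr 2
        ring
    _ ≤ 2 * 2 * Real.exp (-(1 / 8) * r ^ 2) := by gcongr
    _ = _ := by ring

lemma prof0 (z : ℝ) (hz : 1 ≤ z) : Prof z (P0 z) (B0 z) where
  mP := by unfold P0; fun_prop
  mB := by
    unfold Function.uncurry B0
    fun_prop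
  idn := fun t b ρ => ident0 z t b ρ (by linarith)
  bd := by
    intro ρ u h1 h2
    unfold B0
    rw [abs_mul, abs_of_pos (Real.exp_pos _)]
    have h3 : Real.exp (-(2 * z) * (u - ρ) ^ 2) = Real.exp (-z * (u - ρ) ^ 2) *
        Real.exp (-z * (u - ρ) ^ 2) := by
      rw [← Real.exp_add]; congr 1; ring
    rw [h3, ← mul_assoc]
    apply mul_le_mul_of_nonneg_right _ (Real.exp_pos _).le
    have h4 : |2 * u - ρ| ≤ 5 * Real.exp (z * (u - ρ) ^ 2) := by
      have h5 := Real.add_one_le_exp (z * (u - ρ) ^ 2)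
      have h6 : |2 * u - ρ| ≤ 2 * |u - ρ| + 1 := by
        calc |2 * u - ρ| = |2 * (u - ρ) + ρ| := by congr 1; ring
          _ ≤ |2 * (u - ρ)| + |ρ| := abs_add_le _ _
          _ ≤ _ := by
            rw [abs_mul, abs_of_pos (by norm_num : (0 : ℝ) < 2), abs_of_pos (by linarith : 0 < ρ)]
            linarith
      have h7 : |u - ρ| ^ 2 = (u - ρ) ^ 2 := sq_abs _
      nlinarith [sq_nonneg (|u - ρ| - 1), sq_nonneg (u - ρ)]
    calc |2 * u - ρ| * Real.exp (-z * (u - ρ) ^ 2) ≤ 5 * Real.exp (z * (u - ρ) ^ 2) *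
          Real.exp (-z * (u - ρ) ^ 2) := by gcongr
      _ = 5 := by
          rw [mul_assoc, ← Real.exp_add]
          have : z * (u - ρ) ^ 2 + -z * (u - ρ) ^ 2 = 0 := by ring
          rw [this, Real.exp_zero, mul_one]
  dom := by
    intro ρ r h1 h2
    refine le_trans ?_ (dom_aux ρ r h1 h2)
    unfold P0
    rw [abs_of_pos (Real.exp_pos _)]
    gcongr
    linarith

lemma prof1 (z : ℝ) (hz : 1 ≤ z) : Prof z (P1 z) (B1 z) where
  mP := by unfold P1; fun_prop
  mB := by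
    unfold Function.uncurry B1
    fun_prop
  idn := fun t b ρ => ident1 z t b ρ (by linarith)
  bd := by
    intro ρ u h1 h2
    have hz0 : 0 < z := by linarith
    have hs1 : 1 ≤ Real.sqrt z := Real.one_le_sqrt.2 hz
    have hs0 : 0 < Real.sqrt z := by linarith
    have hss : Real.sqrt z ^ 2 = z := Real.sq_sqrt hz0.le
    unfold B1
    rw [abs_mul, abs_of_pos (Real.exp_pos _)]
    have h3 : Real.exp (-(2 * z) * (u - ρ) ^ 2) = Real.exp (-z * (u - ρ) ^ 2) *
        Real.exp (-z * (u - ρ) ^ 2) := by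
      rw [← Real.exp_add]; congr 1; ring
    rw [h3, ← mul_assoc]
    apply mul_le_mul_of_nonneg_right _ (Real.exp_pos _).le
    set y : ℝ := Real.sqrt z * |u - ρ| with hy
    have hy0 : 0 ≤ y := by positivity
    have hy2 : y ^ 2 = z * (u - ρ) ^ 2 := by
      rw [hy, mul_pow, hss, sq_abs]
    have h4 : |(4 * z * (u - ρ) * (2 * u - ρ) - 1) / (2 * Real.sqrt z)| ≤
        5 * Real.exp (z * (u - ρ) ^ 2) := by
      rw [abs_div, abs_of_pos (by positivity : 0 < 2 * Real.sqrt z), div_le_iff₀ (by positivity)]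
      have h5 := Real.add_one_le_exp (z * (u - ρ) ^ 2)
      have h6 : |4 * z * (u - ρ) * (2 * u - ρ) - 1| ≤ 8 * y ^ 2 + 4 * Real.sqrt z * y + 1 := by
        have e1 : 4 * z * (u - ρ) * (2 * u - ρ) - 1 =
            8 * (z * (u - ρ) ^ 2) + 4 * z * ρ * (u - ρ) + (-1) := by ring
        rw [e1]
        calc |8 * (z * (u - ρ) ^ 2) + 4 * z * ρ * (u - ρ) + (-1)| ≤
              |8 * (z * (u - ρ) ^ 2) + 4 * z * ρ * (u - ρ)| + |(-1 : ℝ)| := abs_add_le _ _
          _ ≤ |8 * (z * (u - ρ) ^ 2)| + |4 * z * ρ * (u - ρ)| + |(-1 : ℝ)| := by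
              gcongr
              exact abs_add_le _ _
          _ ≤ _ := by
              have a1 : |8 * (z * (u - ρ) ^ 2)| = 8 * y ^ 2 := by
                rw [hy2, abs_of_nonneg (by positivity)]
              have a2 : |4 * z * ρ * (u - ρ)| ≤ 4 * Real.sqrt z * y := by
                rw [abs_mul, abs_of_pos (by positivity : 0 < 4 * z * ρ), hy]
                have : 4 * Real.sqrt z * (Real.sqrt z * |u - ρ|) = 4 * z * |u - ρ| := by
                  rw [← mul_assoc, mul_assoc 4, ← sq, hss]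
                rw [this]
                apply mul_le_mul_of_nonneg_right _ (abs_nonneg _)
                nlinarith
              have a3 : |(-1 : ℝ)| = 1 := by norm_num
              rw [a1, a3]
              linarith
      refine h6.trans ?_
      rw [← hy2] at h5 ⊢
      have h7 : 8 * y ^ 2 + 4 * Real.sqrt z * y + 1 ≤ 5 * (y ^ 2 + 1) * (2 * Real.sqrt z) := by
        nlinarith [mul_nonneg hs0.le (sq_nonneg (y - 1)), mul_nonneg (sub_nonneg.2 hs1) (sq_nonneg y),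
          mul_nonneg hs0.le (sq_nonneg y)]
      refine h7.trans ?_
      gcongr
    calc |(4 * z * (u - ρ) * (2 * u - ρ) - 1) / (2 * Real.sqrt z)| * Real.exp (-z * (u - ρ) ^ 2) ≤
          5 * Real.exp (z * (u - ρ) ^ 2) * Real.exp (-z * (u - ρ) ^ 2) := by gcongr
      _ = 5 := by
          rw [mul_assoc, ← Real.exp_add]
          have : z * (u - ρ) ^ 2 + -z * (u - ρ) ^ 2 = 0 := by ring
          rw [this, Real.exp_zero, mul_one]
  dom := by
    intro ρ r h1 h2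
    refine le_trans ?_ (dom_aux ρ r h1 h2)
    have hz0 : 0 < z := by linarith
    have hss : Real.sqrt z ^ 2 = z := Real.sq_sqrt hz0.le
    unfold P1
    rw [abs_mul, abs_mul, abs_of_pos (Real.exp_pos _), abs_of_nonneg (Real.sqrt_nonneg z)]
    gcongr
    have h3 := exp_lin (Real.sqrt z * |r - ρ|)
    have h4 : (Real.sqrt z * |r - ρ|) ^ 2 / 2 = z / 2 * (r - ρ) ^ 2 := by
      rw [mul_pow, hss, sq_abs]; ring
    rw [h4] at h3
    calc Real.sqrt z * |r - ρ| * Real.exp (-z * (r - ρ) ^ 2) ≤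
        Real.exp (z / 2 * (r - ρ) ^ 2) * Real.exp (-z * (r - ρ) ^ 2) := by gcongr
      _ = Real.exp (-(z / 2) * (r - ρ) ^ 2) := by
          rw [← Real.exp_add]; congr 1; ring
      _ ≤ _ := by
          apply Real.exp_le_exp.2
          nlinarith [sq_nonneg (r - ρ)]

end Pool.Agent.Q63.Star
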