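import Mathlib
import Pool.Agent.Q63.Star.Hi
set_option autoImplicit false

/-! Smoothing of a jump, and integrals of densities depending on a parameter. -/

namespace Pool.Agent.Q63.Star

open MeasureTheory Set Complex
open scoped ENNReal NNReal ComplexConjugate

/-- `∫_0^x e^{-y²} dy` -/
noncomputable def Gf (x : ℝ) : ℝ := ∫ y in (0 : ℝ)..x, Real.exp (-y ^ 2)

/-- smoothed Heaviside function -/
noncomputable def Hs (x : ℝ) : ℝ := 1 / 2 + Gf x / Real.sqrt Real.pi

lemma ge_cont : Continuous (fun y : ℝ => Real.exp (-y ^ 2)) := by fun_prop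

lemma Gf_der (x : ℝ) : HasDerivAt Gf (Real.exp (-x ^ 2)) x :=
  intervalIntegral.integral_hasDerivAt_right (ge_cont.intervalIntegrable _ _)
    (ge_cont.stronglyMeasurableAtFilter _ _) ge_cont.continuousAt

lemma Gf_cont : Continuous Gf := by
  rw [continuous_iff_continuousAt]
  exact fun x => (Gf_der x).continuousAt

lemma Hs_cont : Continuous Hs := by
  unfold Hs
  have := Gf_cont
  fun_prop

lemma Gf_neg (x : ℝ) : Gf (-x) = - Gf x := by
  unfold Gf
  have h := intervalIntegral.integral_comp_neg (a := 0) (b := x) (fun y => Real.exp (-y ^ 2))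
  simp only [neg_zero, even_two, Even.neg_pow] at h
  rw [h, intervalIntegral.integral_symm]

lemma ge_int : Integrable (fun y : ℝ => Real.exp (-y ^ 2)) := by
  have := integrable_exp_neg_mul_sq (by norm_num : (0 : ℝ) < 1)
  simpa using this

lemma ge_val : ∫ y : ℝ, Real.exp (-y ^ 2) = Real.sqrt Real.pi := by
  have := integral_gaussian 1
  simpa using this

lemma ge_half : ∫ y in Ioi (0 : ℝ), Real.exp (-y ^ 2) = Real.sqrt Real.pi / 2 := by
  have := integral_gaussian_Ioi 1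
  simpa using this

lemma one_sub_Hs (x : ℝ) (hx : 0 ≤ x) : |1 - Hs x| ≤ Real.exp (-x ^ 2) := by
  have hsp : 0 < Real.sqrt Real.pi := Real.sqrt_pos.2 Real.pi_pos
  have h1 : Real.sqrt Real.pi / 2 - Gf x = ∫ y in Ioi x, Real.exp (-y ^ 2) := by
    rw [← ge_half]
    unfold Gf
    rw [intervalIntegral.integral_of_le hx, ← Ioc_union_Ioi_eq_Ioi hx,
      setIntegral_union (Ioc_disjoint_Ioi le_rfl) measurableSet_Ioi ge_int.integrableOn
      ge_int.integrableOn]
    ring
  have h2 : 1 - Hs x = (∫ y in Ioi x, Real.exp (-y ^ 2)) / Real.sqrt Real.pi := by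
    rw [← h1]
    unfold Hs
    field_simp
    ring
  have h3 : 0 ≤ ∫ y in Ioi x, Real.exp (-y ^ 2) :=
    integral_nonneg fun y => (Real.exp_pos _).le
  have h4 : ∫ y in Ioi x, Real.exp (-y ^ 2) ≤ Real.exp (-x ^ 2) * Real.sqrt Real.pi := by
    have hi : Integrable (fun y : ℝ => Real.exp (-x ^ 2) * Real.exp (-(y - x) ^ 2)) :=
      (ge_int.comp_sub_right x).const_mul _
    calc ∫ y in Ioi x, Real.exp (-y ^ 2) ≤
          ∫ y in Ioi x, Real.exp (-x ^ 2) * Real.exp (-(y - x) ^ 2) := by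
          apply setIntegral_mono_on ge_int.integrableOn hi.integrableOn measurableSet_Ioi
          intro y hy
          have hy' : x < y := hy
          rw [← Real.exp_add]
          apply Real.exp_le_exp.2
          nlinarith [mul_nonneg hx (sub_nonneg.2 hy'.le)]
      _ ≤ ∫ y, Real.exp (-x ^ 2) * Real.exp (-(y - x) ^ 2) :=
          setIntegral_le_integral hi (ae_of_all _ fun y => by positivity)
      _ = _ := by
          rw [integral_const_mul, integral_sub_right_eq_self (fun y => Real.exp (-y ^ 2)), ge_val]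
  rw [h2, abs_of_nonneg (by positivity), div_le_iff₀ hsp]
  exact h4

lemma Hs_neg (x : ℝ) : Hs (-x) = 1 - Hs x := by
  unfold Hs
  rw [Gf_neg]
  ring

/-- the error of the smoothed jump -/
lemma jump (x a : ℝ) (ha : 0 < a) :
    |(if 0 ≤ x then (1 : ℝ) else 0) - Hs (x * a)| ≤ Real.exp (-(a ^ 2) * x ^ 2) := by
  have e : -(a ^ 2) * x ^ 2 = -(x * a) ^ 2 := by ring
  rw [e]
  by_cases hx : 0 ≤ x
  · rw [if_pos hx]
    exact one_sub_Hs _ (by positivity)
  · rw [if_neg hx]
    push Not at hx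
    have h1 : Hs (x * a) = 1 - Hs (-(x * a)) := by
      rw [← Hs_neg, neg_neg]
    have h2 := one_sub_Hs (-(x * a)) (by nlinarith)
    rw [zero_sub, abs_neg, h1]
    rw [neg_sq] at h2
    exact h2

lemma Hs_sub (b a : ℝ) :
    Hs b - Hs a = (∫ y in a..b, Real.exp (-y ^ 2)) / Real.sqrt Real.pi := by
  unfold Hs Gf
  rw [← intervalIntegral.integral_interval_sub_left (ge_cont.intervalIntegrable 0 b)
    (ge_cont.intervalIntegrable 0 a)]
  ring

/-- change of scale -/
lemma Hs_scale (x X1 X0 : ℝ) :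
    Hs (x * Real.exp X0) - Hs (x * Real.exp X1) =
      (∫ τ in X1..X0, P1 (Real.exp (2 * τ)) x) / Real.sqrt Real.pi := by
  have h1 : ∫ τ in X1..X0, P1 (Real.exp (2 * τ)) x =
      Gf (x * Real.exp X0) - Gf (x * Real.exp X1) := by
    apply intervalIntegral.integral_eq_sub_of_hasDerivAt
    · intro τ _
      have h2 : HasDerivAt (fun τ => x * Real.exp τ) (x * Real.exp τ) τ :=
        (Real.hasDerivAt_exp τ).const_mul x
      have h3 := (Gf_der (x * Real.exp τ)).comp τ h2
      have h4 : Real.sqrt (Real.exp (2 * τ)) = Real.exp τ := by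
        rw [show Real.exp (2 * τ) = Real.exp τ ^ 2 by rw [← Real.exp_nat_mul]; norm_num]
        exact Real.sqrt_sq (Real.exp_pos _).le
      have h5 : Real.exp (2 * τ) = Real.exp τ ^ 2 := by
        rw [← Real.exp_nat_mul]; norm_num
      have h6 : P1 (Real.exp (2 * τ)) x =
          Real.exp (-(x * Real.exp τ) ^ 2) * (x * Real.exp τ) := by
        unfold P1
        rw [h4, h5, show -(x * Real.exp τ) ^ 2 = -Real.exp τ ^ 2 * x ^ 2 by ring]
        ring
      rw [h6]
      exact h3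
    · apply Continuous.intervalIntegrable
      unfold P1
      fun_prop
  rw [h1]
  unfold Hs
  ring

/-- superposition of Gaussians -/
lemma Hs_third (r ρ X : ℝ) :
    Hs ((r - 1 / 2) * Real.exp X) - Hs ((r - ρ) * Real.exp X) =
      Real.exp X / Real.sqrt Real.pi * ∫ y in (1 / 2)..ρ, P0 (Real.exp (2 * X)) (r - y) := by
  rw [Hs_sub]
  have h := intervalIntegral.integral_comp_sub_mul (a := 1 / 2) (b := ρ)
    (fun w => Real.exp (-w ^ 2)) (Real.exp_pos X).ne' (r * Real.exp X)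
  have e1 : r * Real.exp X - Real.exp X * ρ = (r - ρ) * Real.exp X := by ring
  have e2 : r * Real.exp X - Real.exp X * (1 / 2) = (r - 1 / 2) * Real.exp X := by ring
  rw [e1, e2, smul_eq_mul] at h
  have e3 : ∫ y in (1 / 2)..ρ, P0 (Real.exp (2 * X)) (r - y) =
      ∫ y in (1 / 2)..ρ, Real.exp (-(r * Real.exp X - Real.exp X * y) ^ 2) := by
    apply intervalIntegral.integral_congr
    intro y _
    unfold P0
    simp only
    congr 1
    have h5 : Real.exp (2 * X) = Real.exp X ^ 2 := by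
      rw [← Real.exp_nat_mul]; norm_num
    rw [h5]
    ring
  rw [e3, h]
  have : Real.exp X ≠ 0 := (Real.exp_pos X).ne'
  field_simp

/-! ### densities depending on a parameter -/

lemma LO_param (S : Set ℝ) (hS : MeasurableSet S) (hSv : volume S < ∞) (W : ℝ → ℝ × ℝ → ℂ)
    (hW : Measurable (Function.uncurry W)) (hD : ∀ τ ∈ S, Dom (W τ)) :
    (∀ ζ t, Integrable (fun p : ℝ × ℝ => (p.1 : ℂ) * (∫ τ in S, W τ p) *
      ph (p.1 * dt (um p.2) ζ + t * p.1 ^ 2)) mu) ∧
    ∀ ζ t, LO (fun p => ∫ τ in S, W τ p) ζ t = ∫ τ in S, LO (W τ) ζ t := by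
  have hI : ∀ ζ t, Integrable (Function.uncurry fun (τ : ℝ) (p : ℝ × ℝ) => (p.1 : ℂ) * W τ p *
      ph (p.1 * dt (um p.2) ζ + t * p.1 ^ 2)) ((volume.restrict S).prod mu) := by
    intro ζ t
    have h2 : Integrable (fun _ : ℝ => (1 : ℝ)) (volume.restrict S) := by
      rw [integrable_const_iff]
      right
      constructor
      rw [Measure.restrict_apply_univ]
      exact hSv
    have h3 := h2.mul_prod dom_int
    refine h3.mono' ?_ ?_
    · have m1 := kerL_meas_p ζ t
      have m2 : Measurable (fun q : ℝ × (ℝ × ℝ) => W q.1 q.2) := hW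
      have m3 : Measurable (fun q : ℝ × (ℝ × ℝ) =>
        ph (q.2.1 * dt (um q.2.2) ζ + t * q.2.1 ^ 2)) := m1.comp measurable_snd
      exact (by fun_prop : Measurable fun q : ℝ × (ℝ × ℝ) => (q.2.1 : ℂ) * W q.1 q.2 *
        ph (q.2.1 * dt (um q.2.2) ζ + t * q.2.1 ^ 2)).aestronglyMeasurable
    · have h4 : ∀ᵐ q : ℝ × (ℝ × ℝ) ∂((volume.restrict S).prod mu), q.1 ∈ S := by
        have h5 : ∀ᵐ τ ∂(volume.restrict S), τ ∈ S := ae_restrict_mem hS
        exact (Measure.quasiMeasurePreserving_fst).ae h5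
      filter_upwards [h4] with q hq
      unfold Function.uncurry
      simp only
      rw [norm_mul, norm_mul, norm_ph, mul_one, Complex.norm_real, Real.norm_eq_abs, one_mul]
      exact hD q.1 hq q.2
  constructor
  · intro ζ t
    have h := (hI ζ t).integral_prod_right
    refine h.congr ?_
    filter_upwards with p
    unfold Function.uncurry
    simp only
    rw [integral_mul_const, integral_const_mul]
  · intro ζ t
    unfold LO
    rw [integral_integral_swap (hI ζ t)]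
    apply integral_congr_ae
    filter_upwards with p
    rw [integral_mul_const, integral_const_mul]

lemma LO_param4 (S : Set ℝ) (hS : MeasurableSet S) (W : ℝ → ℝ × ℝ → ℂ)
    (hW : Measurable (Function.uncurry W)) (T : Set ℝ) (M : ℝ≥0∞)
    (hM : ∀ τ ∈ S, ∫⁻ t in T, ∫⁻ ζ : ℂ, ‖LO (W τ) ζ t‖ₑ ^ 4 ≤ M) :
    ∫⁻ t in T, ∫⁻ ζ : ℂ, ‖∫ τ in S, LO (W τ) ζ t‖ₑ ^ 4 ≤ volume S ^ 4 * M := by
  have hJ : Measurable (fun q : (ℝ × ℂ) × ℝ => ‖LO (W q.2) q.1.2 q.1.1‖ₑ ^ 4) := by
    have h2 : Measurable (fun q : ((ℝ × ℂ) × ℝ) × (ℝ × ℝ) => (q.2.1 : ℂ) * W q.1.2 q.2 *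
        ph (q.2.1 * dt (um q.2.2) q.1.1.2 + q.1.1.1 * q.2.1 ^ 2)) := by
      have m2 : Measurable (fun q : ((ℝ × ℂ) × ℝ) × (ℝ × ℝ) => W q.1.2 q.2) := by
        have : Measurable (fun q : ((ℝ × ℂ) × ℝ) × (ℝ × ℝ) => ((q.1.2, q.2) : ℝ × (ℝ × ℝ))) := by
          fun_prop
        exact hW.comp this
      have m3 : Measurable (fun q : ((ℝ × ℂ) × ℝ) × (ℝ × ℝ) => dt (um q.2.2) q.1.1.2) := by
        have h2 : Measurable (fun q : ((ℝ × ℂ) × ℝ) × (ℝ × ℝ) =>
            ((um q.2.2, q.1.1.2) : ℂ × ℂ)) := by fun_prop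
        exact dt_meas.comp h2
      fun_prop
    exact ((h2.stronglyMeasurable.integral_prod_right' (ν := mu)).measurable.enorm).pow_const 4
  have hJ3 : ∀ (t : ℝ) (ζ : ℂ), Measurable (fun τ : ℝ => ‖LO (W τ) ζ t‖ₑ) := by
    intro t ζ
    have h2 : Measurable (fun q : ℝ × (ℝ × ℝ) => (q.2.1 : ℂ) * W q.1 q.2 *
        ph (q.2.1 * dt (um q.2.2) ζ + t * q.2.1 ^ 2)) := by
      have m2 : Measurable (fun q : ℝ × (ℝ × ℝ) => W q.1 q.2) := hW
      have m3 : Measurable (fun q : ℝ × (ℝ × ℝ) =>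
        ph (q.2.1 * dt (um q.2.2) ζ + t * q.2.1 ^ 2)) := (kerL_meas_p ζ t).comp measurable_snd
      fun_prop
    exact ((h2.stronglyMeasurable.integral_prod_right' (ν := mu)).measurable.enorm)
  calc ∫⁻ t in T, ∫⁻ ζ : ℂ, ‖∫ τ in S, LO (W τ) ζ t‖ₑ ^ 4 ≤
      ∫⁻ t in T, ∫⁻ ζ : ℂ, volume S ^ 3 * ∫⁻ τ in S, ‖LO (W τ) ζ t‖ₑ ^ 4 := by
        apply lintegral_mono
        intro t
        apply lintegral_mono
        intro ζ
        simp only
        have h1 := hol4 (volume.restrict S) (fun τ => ‖LO (W τ) ζ t‖ₑ) (hJ3 t ζ).aemeasurable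
        rw [Measure.restrict_apply_univ] at h1
        refine le_trans ?_ h1
        gcongr
        exact enorm_integral_le_lintegral_enorm _
    _ = ∫⁻ t in T, volume S ^ 3 * ∫⁻ ζ : ℂ, ∫⁻ τ in S, ‖LO (W τ) ζ t‖ₑ ^ 4 := by
        apply lintegral_congr
        intro t
        rw [lintegral_const_mul]
        have h5 : Measurable (fun q : ℂ × ℝ => (((t, q.1), q.2) : (ℝ × ℂ) × ℝ)) := by fun_prop
        exact (hJ.comp h5).lintegral_prod_right'
    _ = volume S ^ 3 * ∫⁻ t in T, ∫⁻ ζ : ℂ, ∫⁻ τ in S, ‖LO (W τ) ζ t‖ₑ ^ 4 := by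
        rw [lintegral_const_mul]
        have h6 := hJ.lintegral_prod_right' (ν := volume.restrict S)
        exact h6.lintegral_prod_right' (ν := volume)
    _ = volume S ^ 3 * ∫⁻ t in T, ∫⁻ τ in S, ∫⁻ ζ : ℂ, ‖LO (W τ) ζ t‖ₑ ^ 4 := by
        congr 1
        apply lintegral_congr
        intro t
        rw [lintegral_lintegral_swap]
        have h5 : Measurable (fun q : ℂ × ℝ => (((t, q.1), q.2) : (ℝ × ℂ) × ℝ)) := by fun_prop
        exact (hJ.comp h5).aemeasurable
    _ = volume S ^ 3 * ∫⁻ τ in S, ∫⁻ t in T, ∫⁻ ζ : ℂ, ‖LO (W τ) ζ t‖ₑ ^ 4 := by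
        congr 1
        rw [lintegral_lintegral_swap]
        have h5 : Measurable (fun q : (ℝ × ℝ) × ℂ => (((q.1.1, q.2), q.1.2) : (ℝ × ℂ) × ℝ)) := by
          fun_prop
        exact (hJ.comp h5).lintegral_prod_right'.aemeasurable
    _ ≤ volume S ^ 3 * ∫⁻ τ in S, M := by
        exact mul_le_mul' le_rfl (setLIntegral_mono' hS hM)
    _ = _ := by
        rw [lintegral_const, Measure.restrict_apply_univ]
        ring

end Pool.Agent.Q63.Star
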