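import Mathlib
import Pool.Agent.Q63.Star.Erf
set_option autoImplicit false

/-! The `L^4` estimate for the unit pieces. -/

namespace Pool.Agent.Q63.Star

open MeasureTheory Set Complex
open scoped ENNReal NNReal ComplexConjugate

/-- profile of the unit piece -/
noncomputable def vr (ρ r : ℝ) : ℝ := if 1 / 2 ≤ r ∧ r < ρ then 1 else 0

/-- density of the unit piece -/
noncomputable def vd (Θ : Set ℝ) (ρ : ℝ → ℝ) (p : ℝ × ℝ) : ℂ :=
  Θ.indicator (fun θ => ((vr (ρ θ) p.1 : ℝ) : ℂ)) p.2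

/-- jump -/
noncomputable def jp (x : ℝ) : ℝ := if 0 ≤ x then 1 else 0

lemma vr_eq (ρ r : ℝ) (hρ : 1 / 2 ≤ ρ) : vr ρ r = jp (r - 1 / 2) - jp (r - ρ) := by
  unfold vr jp
  by_cases h1 : 1 / 2 ≤ r
  · by_cases h2 : r < ρ
    · rw [if_pos ⟨h1, h2⟩, if_pos (by linarith), if_neg (by linarith)]
      norm_num
    · rw [if_neg (fun h => h2 h.2), if_pos (by linarith), if_pos (by linarith)]
      norm_num
  · rw [if_neg (fun h => h1 h.1), if_neg (by linarith), if_neg (by linarith)]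
    norm_num

/-- first piece -/
noncomputable def f1 (X0 ρ r : ℝ) : ℝ :=
  (jp (r - 1 / 2) - Hs ((r - 1 / 2) * Real.exp X0)) - (jp (r - ρ) - Hs ((r - ρ) * Real.exp X0))

lemma f1_bd (X0 ρ r : ℝ) : |f1 X0 ρ r| ≤ Real.exp (-(Real.exp X0 ^ 2) * (r - 1 / 2) ^ 2) +
    Real.exp (-(Real.exp X0 ^ 2) * (r - ρ) ^ 2) := by
  unfold f1
  refine (abs_sub _ _).trans ?_
  exact add_le_add (jump _ _ (Real.exp_pos _)) (jump _ _ (Real.exp_pos _))

lemma P1_ii (x X1 X0 : ℝ) :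
    IntervalIntegrable (fun τ => P1 (Real.exp (2 * τ)) x) volume X1 X0 := by
  apply Continuous.intervalIntegrable
  unfold P1
  fun_prop

lemma v_dec (X0 X1 ρ r : ℝ) (hρ : 1 / 2 ≤ ρ) : vr ρ r = f1 X0 ρ r +
    (((∫ τ in X1..X0, P1 (Real.exp (2 * τ)) (r - 1 / 2)) / Real.sqrt Real.pi) -
      ((∫ τ in X1..X0, P1 (Real.exp (2 * τ)) (r - ρ)) / Real.sqrt Real.pi)) +
    Real.exp X1 / Real.sqrt Real.pi * ∫ y in (1 / 2)..ρ, P0 (Real.exp (2 * X1)) (r - y) := by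
  rw [← Hs_scale, ← Hs_scale, ← Hs_third, vr_eq ρ r hρ]
  unfold f1
  ring

lemma jp_meas : Measurable jp := by
  unfold jp
  exact Measurable.ite (measurableSet_le measurable_const measurable_id) measurable_const
    measurable_const

/-- first density -/
noncomputable def w1 (X0 : ℝ) (Θ : Set ℝ) (ρ : ℝ → ℝ) (p : ℝ × ℝ) : ℂ :=
  Θ.indicator (fun θ => ((f1 X0 (ρ θ) p.1 : ℝ) : ℂ)) p.2

lemma ind_meas (Θ : Set ℝ) (hΘ : MeasurableSet Θ) (F : ℝ × ℝ → ℂ) (hF : Measurable F) :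
    Measurable (fun p : ℝ × ℝ => Θ.indicator (fun θ => F (p.1, θ)) p.2) := by
  have e : (fun p : ℝ × ℝ => Θ.indicator (fun θ => F (p.1, θ)) p.2) =
      (Prod.snd ⁻¹' Θ).indicator F := by
    funext p
    by_cases hp : p.2 ∈ Θ
    · rw [indicator_of_mem hp, indicator_of_mem (show p ∈ Prod.snd ⁻¹' Θ from hp)]
    · rw [indicator_of_notMem hp, indicator_of_notMem (show p ∉ Prod.snd ⁻¹' Θ from hp)]
  rw [e]
  exact hF.indicator (measurable_snd hΘ)

lemma f1_meas (X0 : ℝ) (ρ : ℝ → ℝ) (hρ : Measurable ρ) :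
    Measurable (fun p : ℝ × ℝ => f1 X0 (ρ p.2) p.1) := by
  have h1 := jp_meas
  have h2 := Hs_cont.measurable
  unfold f1
  fun_prop

lemma w1_meas (X0 : ℝ) (Θ : Set ℝ) (hΘ : MeasurableSet Θ) (ρ : ℝ → ℝ) (hρ : Measurable ρ) :
    Measurable (w1 X0 Θ ρ) := by
  have h := f1_meas X0 ρ hρ
  exact ind_meas Θ hΘ (fun p => ((f1 X0 (ρ p.2) p.1 : ℝ) : ℂ)) (by fun_prop)

lemma w1_int (X0 : ℝ) (hX0 : 0 ≤ X0) (Θ : Set ℝ) (hΘ : MeasurableSet Θ) (ρ : ℝ → ℝ)
    (hρm : Measurable ρ) (hρ : ∀ θ, 1 / 2 ≤ ρ θ ∧ ρ θ ≤ 1) :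
    Integrable (fun p : ℝ × ℝ => (p.1 : ℂ) * w1 X0 Θ ρ p) mu := by
  have hm := w1_meas X0 Θ hΘ ρ hρm
  refine (dom_int.const_mul 2).mono' (by fun_prop : Measurable fun p : ℝ × ℝ =>
    (p.1 : ℂ) * w1 X0 Θ ρ p).aestronglyMeasurable ?_
  filter_upwards with p
  rw [norm_mul, Complex.norm_real, Real.norm_eq_abs]
  unfold w1
  by_cases hp : p.2 ∈ Θ
  · rw [indicator_of_mem hp, Complex.norm_real, Real.norm_eq_abs]
    have h1 := f1_bd X0 (ρ p.2) p.1
    have he : 1 ≤ Real.exp X0 := Real.one_le_exp hX0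
    have he2 : 1 ≤ Real.exp X0 ^ 2 := one_le_pow₀ he
    have h2 : ∀ a : ℝ, Real.exp (-(Real.exp X0 ^ 2) * (p.1 - a) ^ 2) ≤
        Real.exp (-(1 / 2) * (p.1 - a) ^ 2) := by
      intro a
      apply Real.exp_le_exp.2
      nlinarith [sq_nonneg (p.1 - a)]
    have h3 := dom_aux (1 / 2) p.1 le_rfl (by norm_num)
    have h4 := dom_aux (ρ p.2) p.1 (hρ _).1 (hρ _).2
    calc |p.1| * |f1 X0 (ρ p.2) p.1| ≤ |p.1| * (Real.exp (-(1 / 2) * (p.1 - 1 / 2) ^ 2) +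
          Real.exp (-(1 / 2) * (p.1 - ρ p.2) ^ 2)) := by
          gcongr
          exact h1.trans (add_le_add (h2 _) (h2 _))
      _ ≤ _ := by
          rw [mul_add]
          linarith
  · rw [indicator_of_notMem hp, norm_zero, mul_zero]
    positivity

lemma edge_pt (z r ρ : ℝ) (hz : 1 ≤ z) (h1 : 1 / 2 ≤ ρ) (h2 : ρ ≤ 1) :
    |r| * Real.exp (-z * (r - ρ) ^ 2) ^ 2 ≤ 2 * Real.exp (-z * (r - ρ) ^ 2) := by
  have h3 : |r| ≤ 1 + |r - ρ| := by
    calc |r| = |ρ + (r - ρ)| := by congr 1; ring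
      _ ≤ |ρ| + |r - ρ| := abs_add_le _ _
      _ ≤ _ := by rw [abs_of_pos (by linarith : 0 < ρ)]; linarith
  have h4 := Real.add_one_le_exp (z * (r - ρ) ^ 2)
  have h5 : |r - ρ| ^ 2 = (r - ρ) ^ 2 := sq_abs _
  have h6 : |r| ≤ 2 * Real.exp (z * (r - ρ) ^ 2) := by
    nlinarith [sq_nonneg (|r - ρ| - 1), sq_nonneg (r - ρ)]
  calc |r| * Real.exp (-z * (r - ρ) ^ 2) ^ 2 ≤ 2 * Real.exp (z * (r - ρ) ^ 2) *
        Real.exp (-z * (r - ρ) ^ 2) ^ 2 := by gcongr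
    _ = 2 * (Real.exp (z * (r - ρ) ^ 2) * Real.exp (-z * (r - ρ) ^ 2)) *
        Real.exp (-z * (r - ρ) ^ 2) := by ring
    _ = _ := by
        rw [← Real.exp_add]
        have : z * (r - ρ) ^ 2 + -z * (r - ρ) ^ 2 = 0 := by ring
        rw [this, Real.exp_zero, mul_one]

lemma w1_mass (X0 : ℝ) (hX0 : 0 ≤ X0) (Θ : Set ℝ) (hΘ : MeasurableSet Θ) (ρ : ℝ → ℝ)
    (hρm : Measurable ρ) (hρ : ∀ θ, 1 / 2 ≤ ρ θ ∧ ρ θ ≤ 1) :
    ∫⁻ p, ENNReal.ofReal |p.1| * ‖w1 X0 Θ ρ p‖ₑ ^ 2 ∂mu ≤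
      ENNReal.ofReal (8 * Real.sqrt (Real.pi / Real.exp X0 ^ 2)) *
        volume (Θ ∩ Ioo (-Real.pi) Real.pi) := by
  have hm := w1_meas X0 Θ hΘ ρ hρm
  set z : ℝ := Real.exp X0 ^ 2 with hz
  have hz1 : 1 ≤ z := one_le_pow₀ (Real.one_le_exp hX0)
  have hz0 : 0 < z := by linarith
  unfold mu
  rw [lintegral_prod_symm _ (by fun_prop)]
  calc ∫⁻ θ in Ioo (-Real.pi) Real.pi, ∫⁻ r : ℝ, ENNReal.ofReal |r| * ‖w1 X0 Θ ρ (r, θ)‖ₑ ^ 2 ≤
      ∫⁻ θ in Ioo (-Real.pi) Real.pi, Θ.indicator (fun _ =>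
        ENNReal.ofReal (8 * Real.sqrt (Real.pi / z))) θ := by
        apply lintegral_mono
        intro θ
        simp only
        by_cases hθ : θ ∈ Θ
        · rw [indicator_of_mem hθ]
          calc ∫⁻ r : ℝ, ENNReal.ofReal |r| * ‖w1 X0 Θ ρ (r, θ)‖ₑ ^ 2 ≤
              ∫⁻ r : ℝ, (ENNReal.ofReal 4 * ENNReal.ofReal (Real.exp (-z * (r - 1 / 2) ^ 2)) +
                ENNReal.ofReal 4 * ENNReal.ofReal (Real.exp (-z * (r - ρ θ) ^ 2))) := by
                apply lintegral_mono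
                intro r
                simp only
                unfold w1
                rw [indicator_of_mem hθ, ← ofReal_norm, ← ENNReal.ofReal_pow (norm_nonneg _),
                  Complex.norm_real, Real.norm_eq_abs, ← ENNReal.ofReal_mul (abs_nonneg _),
                  ← ENNReal.ofReal_mul (by norm_num), ← ENNReal.ofReal_mul (by norm_num),
                  ← ENNReal.ofReal_add (by positivity) (by positivity)]
                apply ENNReal.ofReal_le_ofReal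
                have h1 := f1_bd X0 (ρ θ) r
                rw [← hz] at h1
                have h2 := edge_pt z r (1 / 2) hz1 le_rfl (by norm_num)
                have h3 := edge_pt z r (ρ θ) hz1 (hρ θ).1 (hρ θ).2
                set a := Real.exp (-z * (r - 1 / 2) ^ 2) with ha
                set b := Real.exp (-z * (r - ρ θ) ^ 2) with hb
                have ha0 : 0 < a := Real.exp_pos _
                have hb0 : 0 < b := Real.exp_pos _
                have h4 : |f1 X0 (ρ θ) r| ^ 2 ≤ (a + b) ^ 2 := by gcongr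
                have h5 : (a + b) ^ 2 ≤ 2 * a ^ 2 + 2 * b ^ 2 := by nlinarith [sq_nonneg (a - b)]
                calc |r| * |f1 X0 (ρ θ) r| ^ 2 ≤ |r| * (2 * a ^ 2 + 2 * b ^ 2) := by
                      gcongr
                      exact h4.trans h5
                  _ ≤ _ := by nlinarith
            _ = _ := by
                rw [lintegral_add_left (by fun_prop), lintegral_const_mul' _ _ ENNReal.ofReal_ne_top,
                  lintegral_const_mul' _ _ ENNReal.ofReal_ne_top, gl z hz0, gl z hz0, ← add_mul,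
                  ← ENNReal.ofReal_add (by norm_num) (by norm_num),
                  ← ENNReal.ofReal_mul (by norm_num)]
                congr 2
                norm_num
        · rw [indicator_of_notMem hθ]
          have : ∀ r : ℝ, ENNReal.ofReal |r| * ‖w1 X0 Θ ρ (r, θ)‖ₑ ^ 2 = 0 := by
            intro r
            unfold w1
            rw [indicator_of_notMem hθ]
            simp
          simp_rw [this]
          simp
    _ = _ := by
        rw [lintegral_indicator_const hΘ, Measure.restrict_apply hΘ]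

/-- scale family -/
noncomputable def WA (Θ : Set ℝ) (ρ : ℝ → ℝ) (τ : ℝ) (p : ℝ × ℝ) : ℂ :=
  wp Θ ρ (P1 (Real.exp (2 * τ))) p

lemma WA_meas (Θ : Set ℝ) (hΘ : MeasurableSet Θ) (ρ : ℝ → ℝ) (hρ : Measurable ρ) :
    Measurable (Function.uncurry (WA Θ ρ)) := by
  have e : Function.uncurry (WA Θ ρ) = Set.indicator ((fun q : ℝ × (ℝ × ℝ) => q.2.2) ⁻¹' Θ)
      (fun q : ℝ × (ℝ × ℝ) => ((P1 (Real.exp (2 * q.1)) (q.2.1 - ρ q.2.2) : ℝ) : ℂ)) := by
    funext q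
    unfold Function.uncurry WA wp
    by_cases hp : q.2.2 ∈ Θ
    · rw [indicator_of_mem hp,
        indicator_of_mem (show q ∈ (fun q : ℝ × (ℝ × ℝ) => q.2.2) ⁻¹' Θ from hp)]
    · rw [indicator_of_notMem hp,
        indicator_of_notMem (show q ∉ (fun q : ℝ × (ℝ × ℝ) => q.2.2) ⁻¹' Θ from hp)]
  rw [e]
  apply Measurable.indicator
  · unfold P1
    fun_prop
  · exact (measurable_snd.comp measurable_snd) hΘ

/-- position family -/
noncomputable def WD (Θ : Set ℝ) (ρ : ℝ → ℝ) (z y : ℝ) (p : ℝ × ℝ) : ℂ :=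
  wp (Θ ∩ {θ | y ≤ ρ θ}) (fun _ => y) (P0 z) p

lemma WD_meas (Θ : Set ℝ) (hΘ : MeasurableSet Θ) (ρ : ℝ → ℝ) (hρ : Measurable ρ) (z : ℝ) :
    Measurable (Function.uncurry (WD Θ ρ z)) := by
  set A : Set (ℝ × (ℝ × ℝ)) := {q | q.2.2 ∈ Θ ∧ q.1 ≤ ρ q.2.2} with hA
  have hAm : MeasurableSet A := by
    apply MeasurableSet.inter
    · exact (measurable_snd.comp measurable_snd) hΘ
    · exact measurableSet_le measurable_fst (hρ.comp (measurable_snd.comp measurable_snd))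
  have e : Function.uncurry (WD Θ ρ z) = A.indicator
      (fun q : ℝ × (ℝ × ℝ) => ((P0 z (q.2.1 - q.1) : ℝ) : ℂ)) := by
    funext q
    unfold Function.uncurry WD wp
    by_cases hp : q.2.2 ∈ Θ ∩ {θ | q.1 ≤ ρ θ}
    · rw [indicator_of_mem hp, indicator_of_mem (show q ∈ A from hp)]
    · rw [indicator_of_notMem hp, indicator_of_notMem (show q ∉ A from hp)]
  rw [e]
  apply Measurable.indicator _ hAm
  unfold P0
  fun_prop

lemma vd_dec (X0 X1 : ℝ) (hX : X1 ≤ X0) (Θ : Set ℝ) (ρ : ℝ → ℝ)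
    (hρ : ∀ θ, 1 / 2 ≤ ρ θ ∧ ρ θ ≤ 1) (p : ℝ × ℝ) :
    vd Θ ρ p = w1 X0 Θ ρ p + ((Real.sqrt Real.pi)⁻¹ : ℂ) *
      (∫ τ in Ioc X1 X0, WA Θ (fun _ => 1 / 2) τ p) - ((Real.sqrt Real.pi)⁻¹ : ℂ) *
      (∫ τ in Ioc X1 X0, WA Θ ρ τ p) + ((Real.exp X1 / Real.sqrt Real.pi : ℝ) : ℂ) *
      ∫ y in Ioc (1 / 2 : ℝ) 1, WD Θ ρ (Real.exp (2 * X1)) y p := by
  by_cases hp : p.2 ∈ Θ
  · have h1 := v_dec X0 X1 (ρ p.2) p.1 (hρ p.2).1
    have e0 : vd Θ ρ p = ((vr (ρ p.2) p.1 : ℝ) : ℂ) := by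
      unfold vd
      rw [indicator_of_mem hp]
    have e1 : w1 X0 Θ ρ p = ((f1 X0 (ρ p.2) p.1 : ℝ) : ℂ) := by
      unfold w1
      rw [indicator_of_mem hp]
    have e2 : ∀ ρ' : ℝ → ℝ, ∫ τ in Ioc X1 X0, WA Θ ρ' τ p =
        ((∫ τ in X1..X0, P1 (Real.exp (2 * τ)) (p.1 - ρ' p.2) : ℝ) : ℂ) := by
      intro ρ'
      rw [intervalIntegral.integral_of_le hX, ← integral_complex_ofReal]
      apply integral_congr_ae
      filter_upwards with τ
      unfold WA wp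
      rw [indicator_of_mem hp]
    have e3 : ∫ y in Ioc (1 / 2 : ℝ) 1, WD Θ ρ (Real.exp (2 * X1)) y p =
        ((∫ y in (1 / 2)..(ρ p.2), P0 (Real.exp (2 * X1)) (p.1 - y) : ℝ) : ℂ) := by
      rw [intervalIntegral.integral_of_le (hρ p.2).1, ← integral_complex_ofReal,
        ← integral_indicator measurableSet_Ioc, ← integral_indicator measurableSet_Ioc]
      apply integral_congr_ae
      filter_upwards with y
      by_cases hy : y ∈ Ioc (1 / 2) (ρ p.2)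
      · have hy1 : y ∈ Ioc (1 / 2 : ℝ) 1 := ⟨hy.1, hy.2.trans (hρ p.2).2⟩
        rw [indicator_of_mem hy, indicator_of_mem hy1]
        unfold WD wp
        rw [indicator_of_mem (show p.2 ∈ Θ ∩ {θ | y ≤ ρ θ} from ⟨hp, hy.2⟩)]
      · rw [indicator_of_notMem hy]
        by_cases hy1 : y ∈ Ioc (1 / 2 : ℝ) 1
        · rw [indicator_of_mem hy1]
          unfold WD wp
          rw [indicator_of_notMem]
          intro hc
          exact hy ⟨hy1.1, hc.2⟩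
        · rw [indicator_of_notMem hy1]
    rw [e0, e1, e2, e2, e3, h1]
    push_cast
    ring
  · have e0 : vd Θ ρ p = 0 := by
      unfold vd
      rw [indicator_of_notMem hp]
    have e1 : w1 X0 Θ ρ p = 0 := by
      unfold w1
      rw [indicator_of_notMem hp]
    have e2 : ∀ ρ' : ℝ → ℝ, ∀ τ : ℝ, WA Θ ρ' τ p = 0 := by
      intro ρ' τ
      unfold WA wp
      rw [indicator_of_notMem hp]
    have e3 : ∀ y : ℝ, WD Θ ρ (Real.exp (2 * X1)) y p = 0 := by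
      intro y
      unfold WD wp
      rw [indicator_of_notMem (fun hc => hp hc.1)]
    simp [e0, e1, e2, e3]

lemma sum4 (a b c d : ℂ) : ‖a + b - c + d‖ₑ ^ 4 ≤
    64 * (‖a‖ₑ ^ 4 + ‖b‖ₑ ^ 4 + ‖c‖ₑ ^ 4 + ‖d‖ₑ ^ 4) := by
  have h := hol4 (Measure.count : Measure (Fin 4)) ![‖a‖ₑ, ‖b‖ₑ, ‖c‖ₑ, ‖d‖ₑ] (by fun_prop)
  rw [lintegral_count, lintegral_count, tsum_fintype, tsum_fintype, Fin.sum_univ_four,
    Fin.sum_univ_four, Measure.count_univ] at h
  have h2 : ‖a + b - c + d‖ₑ ≤ ‖a‖ₑ + ‖b‖ₑ + ‖c‖ₑ + ‖d‖ₑ := by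
    calc _ ≤ ‖a + b - c‖ₑ + ‖d‖ₑ := enorm_add_le _ _
      _ ≤ (‖a + b‖ₑ + ‖c‖ₑ) + ‖d‖ₑ := by gcongr; exact enorm_sub_le
      _ ≤ _ := by gcongr; exact enorm_add_le _ _
  calc _ ≤ (‖a‖ₑ + ‖b‖ₑ + ‖c‖ₑ + ‖d‖ₑ) ^ 4 := by gcongr
    _ ≤ _ := by
      refine le_trans (le_of_eq ?_) (h.trans (le_of_eq ?_))
      · simp
      · congr 1
        simp
        norm_num

end Pool.Agent.Q63.Star
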