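import Mathlib
import Pool.Agent.Q63.Star.Unit4
set_option autoImplicit false

/-! The `L^4` estimate for the unit pieces, conclusion. -/

namespace Pool.Agent.Q63.Star

open MeasureTheory Set Complex
open scoped ENNReal NNReal ComplexConjugate

lemma WA_dom (Θ : Set ℝ) (ρ : ℝ → ℝ) (hρ : ∀ θ, 1 / 2 ≤ ρ θ ∧ ρ θ ≤ 1) (τ : ℝ) (hτ : 0 ≤ τ) :
    Dom (WA Θ ρ τ) := by
  have hz : 1 ≤ Real.exp (2 * τ) := Real.one_le_exp (by linarith)
  exact wp_dom (prof1 _ hz) Θ ρ hρ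

lemma WD_dom (Θ : Set ℝ) (ρ : ℝ → ℝ) (z : ℝ) (hz : 1 ≤ z) (y : ℝ) (hy : y ∈ Ioc (1 / 2 : ℝ) 1) :
    Dom (WD Θ ρ z y) :=
  wp_dom (prof0 _ hz) _ (fun _ => y) (fun _ => ⟨hy.1.le, hy.2⟩)

lemma LO_dec (X0 X1 : ℝ) (hX1 : 0 ≤ X1) (hX : X1 ≤ X0) (Θ : Set ℝ) (hΘ : MeasurableSet Θ)
    (ρ : ℝ → ℝ) (hρm : Measurable ρ) (hρ : ∀ θ, 1 / 2 ≤ ρ θ ∧ ρ θ ≤ 1) (ζ : ℂ) (t : ℝ) :
    LO (vd Θ ρ) ζ t = LO (w1 X0 Θ ρ) ζ t + ((Real.sqrt Real.pi)⁻¹ : ℂ) *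
      (∫ τ in Ioc X1 X0, LO (WA Θ (fun _ => 1 / 2) τ) ζ t) - ((Real.sqrt Real.pi)⁻¹ : ℂ) *
      (∫ τ in Ioc X1 X0, LO (WA Θ ρ τ) ζ t) + ((Real.exp X1 / Real.sqrt Real.pi : ℝ) : ℂ) *
      ∫ y in Ioc (1 / 2 : ℝ) 1, LO (WD Θ ρ (Real.exp (2 * X1)) y) ζ t := by
  have hz : 1 ≤ Real.exp (2 * X1) := Real.one_le_exp (by linarith)
  have pA := LO_param (Ioc X1 X0) measurableSet_Ioc (by simp) (WA Θ (fun _ => 1 / 2))
    (WA_meas Θ hΘ _ measurable_const)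
    (fun τ hτ => WA_dom Θ _ (fun _ => ⟨le_rfl, by norm_num⟩) τ (hX1.trans hτ.1.le))
  have pB := LO_param (Ioc X1 X0) measurableSet_Ioc (by simp) (WA Θ ρ)
    (WA_meas Θ hΘ _ hρm)
    (fun τ hτ => WA_dom Θ _ hρ τ (hX1.trans hτ.1.le))
  have pD := LO_param (Ioc (1 / 2 : ℝ) 1) measurableSet_Ioc (by simp)
    (WD Θ ρ (Real.exp (2 * X1))) (WD_meas Θ hΘ _ hρm _)
    (fun y hy => WD_dom Θ ρ _ hz y hy)
  have h1 : Integrable (fun p : ℝ × ℝ => (p.1 : ℂ) * w1 X0 Θ ρ p *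
      ph (p.1 * dt (um p.2) ζ + t * p.1 ^ 2)) mu := by
    have hi := w1_int X0 (hX1.trans hX) Θ hΘ ρ hρm hρ
    have hk := kerL_meas_p ζ t
    have hm := w1_meas X0 Θ hΘ ρ hρm
    refine hi.mono (by fun_prop : Measurable fun p : ℝ × ℝ => (p.1 : ℂ) * w1 X0 Θ ρ p *
      ph (p.1 * dt (um p.2) ζ + t * p.1 ^ 2)).aestronglyMeasurable ?_
    filter_upwards with p
    rw [norm_mul _ (ph _), norm_ph, mul_one]
  rw [← pA.2 ζ t, ← pB.2 ζ t, ← pD.2 ζ t]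
  unfold LO
  have iA := (pA.1 ζ t).const_mul ((Real.sqrt Real.pi)⁻¹ : ℂ)
  have iB := (pB.1 ζ t).const_mul ((Real.sqrt Real.pi)⁻¹ : ℂ)
  have iD := (pD.1 ζ t).const_mul ((Real.exp X1 / Real.sqrt Real.pi : ℝ) : ℂ)
  rw [← integral_const_mul, ← integral_const_mul, ← integral_const_mul]
  rw [← integral_add' h1 iA, ← integral_sub' (h1.add iA) iB,
    ← integral_add' ((h1.add iA).sub iB) iD]
  apply integral_congr_ae
  filter_upwards with p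
  simp only [Pi.add_apply, Pi.sub_apply]
  rw [vd_dec X0 X1 hX Θ ρ hρ p]
  ring

lemma vol_le (Θ : Set ℝ) : volume (Θ ∩ Ioo (-Real.pi) Real.pi) ≤ ENNReal.ofReal (2 * Real.pi) := by
  calc volume (Θ ∩ Ioo (-Real.pi) Real.pi) ≤ volume (Ioo (-Real.pi) Real.pi) :=
        measure_mono inter_subset_right
    _ = _ := by
        rw [Real.volume_Ioo]
        congr 1
        ring

lemma lint_add4 {α : Type*} [MeasurableSpace α] (μ : Measure α) (a b c d : α → ℝ≥0∞)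
    (ha : Measurable a) (hb : Measurable b) (hc : Measurable c) :
    ∫⁻ x, 64 * (a x + b x + c x + d x) ∂μ =
      64 * ((∫⁻ x, a x ∂μ) + (∫⁻ x, b x ∂μ) + (∫⁻ x, c x ∂μ) + ∫⁻ x, d x ∂μ) := by
  rw [lintegral_const_mul' _ _ (by norm_num)]
  congr 1
  rw [lintegral_add_left (f := fun x => a x + b x + c x) ((ha.add hb).add hc),
    lintegral_add_left (f := fun x => a x + b x) (ha.add hb), lintegral_add_left ha]

/-- **`L^4` bound for the unit piece.** -/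
theorem L4unit : ∃ C : ℝ, 0 < C ∧ ∀ R : ℝ, 16 ≤ R → ∀ z1 : ℝ, 1 ≤ z1 → 2 * z1 ≤ R →
    ∀ Θ : Set ℝ, MeasurableSet Θ → ∀ ρ : ℝ → ℝ, Measurable ρ →
    (∀ θ, 1 / 2 ≤ ρ θ ∧ ρ θ ≤ 1) →
    ∫⁻ t in Icc R (2 * R), ∫⁻ ζ : ℂ, ‖LO (vd Θ ρ) ζ t‖ₑ ^ 4 ≤
      ENNReal.ofReal (C * (z1 ^ 2 + (1 + Real.log R) ^ 4) *
        ((1 + Real.log R) / R + R ^ 2 * Real.exp (-(z1 / 128)))) *
      volume (Θ ∩ Ioo (-Real.pi) Real.pi) := by
  obtain ⟨C, hC, hpk⟩ := packet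
  have hpi := Real.pi_pos
  have hpi1 : 1 ≤ Real.pi := by linarith [Real.pi_gt_three]
  refine ⟨64 * (8192 * Real.pi ^ 6 + 3 * C), by positivity, ?_⟩
  intro R hR z1 hz1 hz1R Θ hΘ ρ hρm hρ
  have hR0 : 0 < R := by linarith
  have hz10 : 0 < z1 := by linarith
  have hlogR : 0 ≤ Real.log R := Real.log_nonneg (by linarith)
  set X0 : ℝ := 1 / 2 * Real.log (R / 2) with hX0
  set X1 : ℝ := 1 / 2 * Real.log z1 with hX1
  have hX1n : 0 ≤ X1 := by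
    have := Real.log_nonneg hz1
    positivity
  have hX : X1 ≤ X0 := by
    have : Real.log z1 ≤ Real.log (R / 2) := Real.log_le_log hz10 (by linarith)
    rw [hX0, hX1]
    linarith
  have hX0n : 0 ≤ X0 := hX1n.trans hX
  have e0 : Real.exp X0 ^ 2 = R / 2 := by
    rw [← Real.exp_nat_mul, hX0]
    push_cast
    rw [← mul_assoc, show (2 : ℝ) * (1 / 2) = 1 by norm_num, one_mul,
      Real.exp_log (by positivity)]
  have e1 : Real.exp (2 * X1) = z1 := by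
    rw [hX1, ← mul_assoc, show (2 : ℝ) * (1 / 2) = 1 by norm_num, one_mul, Real.exp_log hz10]
  have e1' : Real.exp X1 ^ 2 = z1 := by
    rw [← e1, ← Real.exp_nat_mul]
    norm_num
  have hXlog : X0 - X1 ≤ Real.log R := by
    have h1 : Real.log (R / 2) ≤ Real.log R := Real.log_le_log (by positivity) (by linarith)
    have h2 : X0 ≤ Real.log R := by
      have h3 : 0 ≤ Real.log (R / 2) := Real.log_nonneg (by linarith)
      rw [hX0]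
      linarith
    linarith
  set V : ℝ≥0∞ := volume (Θ ∩ Ioo (-Real.pi) Real.pi) with hV
  set Q : ℝ := (1 + Real.log R) / R + R ^ 2 * Real.exp (-(z1 / 128)) with hQ
  have hQ0 : 0 ≤ Q := by positivity
  have hRQ : 1 / R ≤ Q := by
    rw [hQ]
    have h1 : 1 / R ≤ (1 + Real.log R) / R := by
      gcongr
      linarith
    have h2 : 0 ≤ R ^ 2 * Real.exp (-(z1 / 128)) := by positivity
    linarith
  -- packets
  have hM : ∀ (z : ℝ), z1 ≤ z → 2 * z ≤ R → ∀ (P : ℝ → ℝ) (BB : ℝ → ℝ → ℝ), Prof z P BB →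
      ∀ Θ' : Set ℝ, MeasurableSet Θ' → Θ' ⊆ Θ → ∀ ρ' : ℝ → ℝ, Measurable ρ' →
      (∀ θ, 1 / 2 ≤ ρ' θ ∧ ρ' θ ≤ 1) →
      ∫⁻ t in Icc R (2 * R), ∫⁻ ζ : ℂ, ‖LO (wp Θ' ρ' P) ζ t‖ₑ ^ 4 ≤ ENNReal.ofReal (C * Q) * V := by
    intro z hz hzR P BB hP Θ' hΘ' hsub ρ' hρ'm hρ'
    refine (hpk R hR z (hz1.trans hz) hzR P BB hP Θ' hΘ' ρ' hρ'm hρ').trans ?_
    have hz0 : 0 < z := by linarith
    refine mul_le_mul' (ENNReal.ofReal_le_ofReal ?_)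
      (measure_mono (inter_subset_inter_left _ hsub))
    refine mul_le_mul_of_nonneg_left ?_ hC.le
    rw [hQ]
    have h1 : Real.exp (-(z / 128)) ≤ Real.exp (-(z1 / 128)) :=
      Real.exp_le_exp.2 (by linarith)
    have h2 : R * z * Real.exp (-(z / 128)) ≤ R ^ 2 * Real.exp (-(z1 / 128)) := by
      apply mul_le_mul _ h1 (Real.exp_pos _).le (by positivity)
      nlinarith
    linarith
  set T : Set ℝ := Icc R (2 * R) with hT
  -- the four parts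
  have hP1 : ∫⁻ t in T, ∫⁻ ζ : ℂ, ‖LO (w1 X0 Θ ρ) ζ t‖ₑ ^ 4 ≤
      ENNReal.ofReal (8192 * Real.pi ^ 6 / R) * V := by
    refine (setLIntegral_le_lintegral _ _).trans ?_
    refine (LO_strich _ (w1_meas X0 Θ hΘ ρ hρm) (w1_int X0 hX0n Θ hΘ ρ hρm hρ)).trans ?_
    have hms := w1_mass X0 hX0n Θ hΘ ρ hρm hρ
    rw [e0] at hms
    calc _ ≤ ENNReal.ofReal (32 * Real.pi ^ 4) *
          (ENNReal.ofReal (8 * Real.sqrt (Real.pi / (R / 2))) * V) ^ 2 := by gcongr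
      _ = ENNReal.ofReal (32 * Real.pi ^ 4 * (64 * (Real.pi / (R / 2)))) * V * V := by
          rw [mul_pow, ← ENNReal.ofReal_pow (by positivity), ← mul_assoc,
            ← ENNReal.ofReal_mul (by positivity), mul_pow, Real.sq_sqrt (by positivity), sq V,
            ← mul_assoc]
          norm_num
      _ ≤ ENNReal.ofReal (32 * Real.pi ^ 4 * (64 * (Real.pi / (R / 2)))) * V *
          ENNReal.ofReal (2 * Real.pi) := by
          gcongr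
          exact vol_le Θ
      _ = _ := by
          rw [mul_right_comm, ← ENNReal.ofReal_mul (by positivity)]
          congr 2
          field_simp
          ring
  have hsp1 : ‖((Real.sqrt Real.pi)⁻¹ : ℂ)‖ₑ ≤ 1 := by
    rw [← ofReal_norm, ENNReal.ofReal_le_one, norm_inv, Complex.norm_real, Real.norm_eq_abs,
      abs_of_pos (Real.sqrt_pos.2 hpi)]
    exact inv_le_one_of_one_le₀ (Real.one_le_sqrt.2 hpi1)
  have hvolS : volume (Ioc X1 X0) ^ 4 ≤ ENNReal.ofReal ((1 + Real.log R) ^ 4) := by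
    rw [Real.volume_Ioc, ← ENNReal.ofReal_pow (by linarith)]
    apply ENNReal.ofReal_le_ofReal
    have : 0 ≤ X0 - X1 := by linarith
    gcongr
    linarith
  have hP2 : ∀ ρ' : ℝ → ℝ, Measurable ρ' → (∀ θ, 1 / 2 ≤ ρ' θ ∧ ρ' θ ≤ 1) →
      ∫⁻ t in T, ∫⁻ ζ : ℂ, ‖((Real.sqrt Real.pi)⁻¹ : ℂ) *
        ∫ τ in Ioc X1 X0, LO (WA Θ ρ' τ) ζ t‖ₑ ^ 4 ≤
      ENNReal.ofReal ((1 + Real.log R) ^ 4 * (C * Q)) * V := by
    intro ρ' hρ'm hρ'
    have h1 := LO_param4 (Ioc X1 X0) measurableSet_Ioc (WA Θ ρ') (WA_meas Θ hΘ _ hρ'm) T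
      (ENNReal.ofReal (C * Q) * V) (by
        intro τ hτ
        have hz : z1 ≤ Real.exp (2 * τ) := by
          rw [← e1]
          exact Real.exp_le_exp.2 (by linarith [hτ.1])
        have hzR : 2 * Real.exp (2 * τ) ≤ R := by
          have : Real.exp (2 * τ) ≤ Real.exp X0 ^ 2 := by
            rw [← Real.exp_nat_mul]
            push_cast
            exact Real.exp_le_exp.2 (by linarith [hτ.2])
          rw [e0] at this
          linarith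
        exact hM _ hz hzR _ _ (prof1 _ (hz1.trans hz)) Θ hΘ Subset.rfl ρ' hρ'm hρ')
    calc _ ≤ ∫⁻ t in T, ∫⁻ ζ : ℂ, ‖∫ τ in Ioc X1 X0, LO (WA Θ ρ' τ) ζ t‖ₑ ^ 4 := by
          apply lintegral_mono
          intro t
          apply lintegral_mono
          intro ζ
          simp only
          rw [enorm_mul]
          calc _ ≤ (1 * ‖∫ τ in Ioc X1 X0, LO (WA Θ ρ' τ) ζ t‖ₑ) ^ 4 := by gcongr
            _ = _ := by rw [one_mul]
      _ ≤ _ := h1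
      _ ≤ ENNReal.ofReal ((1 + Real.log R) ^ 4) * (ENNReal.ofReal (C * Q) * V) := by gcongr
      _ = _ := by
          rw [← mul_assoc, ← ENNReal.ofReal_mul (by positivity)]
  have hP3 : ∫⁻ t in T, ∫⁻ ζ : ℂ, ‖((Real.exp X1 / Real.sqrt Real.pi : ℝ) : ℂ) *
        ∫ y in Ioc (1 / 2 : ℝ) 1, LO (WD Θ ρ (Real.exp (2 * X1)) y) ζ t‖ₑ ^ 4 ≤
      ENNReal.ofReal (z1 ^ 2 * (C * Q)) * V := by
    have h1 := LO_param4 (Ioc (1 / 2 : ℝ) 1) measurableSet_Ioc (WD Θ ρ (Real.exp (2 * X1)))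
      (WD_meas Θ hΘ _ hρm _) T (ENNReal.ofReal (C * Q) * V) (by
        intro y hy
        have hz : z1 ≤ Real.exp (2 * X1) := by rw [e1]
        have hzR : 2 * Real.exp (2 * X1) ≤ R := by rw [e1]; exact hz1R
        exact hM _ hz hzR _ _ (prof0 _ (hz1.trans hz)) (Θ ∩ {θ | y ≤ ρ θ})
          (hΘ.inter (measurableSet_le measurable_const hρm)) inter_subset_left (fun _ => y)
          measurable_const (fun _ => ⟨hy.1.le, hy.2⟩))
    have hv : volume (Ioc (1 / 2 : ℝ) 1) ^ 4 ≤ 1 := by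
      rw [Real.volume_Ioc]
      have : ENNReal.ofReal (1 - 1 / 2) ≤ 1 := by
        rw [ENNReal.ofReal_le_one]; norm_num
      exact pow_le_one₀ zero_le this
    have hcst : ‖((Real.exp X1 / Real.sqrt Real.pi : ℝ) : ℂ)‖ₑ ^ 4 ≤ ENNReal.ofReal (z1 ^ 2) := by
      rw [← ofReal_norm, ← ENNReal.ofReal_pow (norm_nonneg _), Complex.norm_real,
        Real.norm_eq_abs, abs_of_pos (by positivity)]
      apply ENNReal.ofReal_le_ofReal
      have h2 : Real.exp X1 / Real.sqrt Real.pi ≤ Real.exp X1 := by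
        apply div_le_self (Real.exp_pos _).le
        exact Real.one_le_sqrt.2 hpi1
      calc (Real.exp X1 / Real.sqrt Real.pi) ^ 4 ≤ Real.exp X1 ^ 4 := by gcongr
        _ = (Real.exp X1 ^ 2) ^ 2 := by ring
        _ = _ := by rw [e1']
    calc _ = ∫⁻ t in T, ∫⁻ ζ : ℂ, ‖((Real.exp X1 / Real.sqrt Real.pi : ℝ) : ℂ)‖ₑ ^ 4 *
          ‖∫ y in Ioc (1 / 2 : ℝ) 1, LO (WD Θ ρ (Real.exp (2 * X1)) y) ζ t‖ₑ ^ 4 := by
          apply lintegral_congr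
          intro t
          apply lintegral_congr
          intro ζ
          rw [enorm_mul, mul_pow]
      _ = ‖((Real.exp X1 / Real.sqrt Real.pi : ℝ) : ℂ)‖ₑ ^ 4 * ∫⁻ t in T, ∫⁻ ζ : ℂ,
          ‖∫ y in Ioc (1 / 2 : ℝ) 1, LO (WD Θ ρ (Real.exp (2 * X1)) y) ζ t‖ₑ ^ 4 := by
          have hne : ‖((Real.exp X1 / Real.sqrt Real.pi : ℝ) : ℂ)‖ₑ ^ 4 ≠ ∞ :=
            ENNReal.pow_ne_top enorm_ne_top
          rw [← lintegral_const_mul' _ _ hne]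
          apply lintegral_congr
          intro t
          rw [← lintegral_const_mul' _ _ hne]
      _ ≤ ENNReal.ofReal (z1 ^ 2) * (1 * (ENNReal.ofReal (C * Q) * V)) := by
          gcongr
          exact h1.trans (mul_le_mul' hv le_rfl)
      _ = _ := by
          rw [one_mul, ← mul_assoc, ← ENNReal.ofReal_mul (by positivity)]
  -- measurability
  have mLO : ∀ w : ℝ × ℝ → ℂ, Measurable w → Measurable (fun q : ℝ × ℂ => ‖LO w q.2 q.1‖ₑ ^ 4) := by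
    intro w hw
    exact ((LO_meas w hw).comp measurable_swap).enorm.pow_const 4
  have mI : ∀ (S : Set ℝ) (W : ℝ → ℝ × ℝ → ℂ), Measurable (Function.uncurry W) → ∀ k : ℂ,
      Measurable (fun q : ℝ × ℂ => ‖k * ∫ τ in S, LO (W τ) q.2 q.1‖ₑ ^ 4) := by
    intro S W hW k
    have h2 : Measurable (fun q : ((ℝ × ℂ) × ℝ) × (ℝ × ℝ) => (q.2.1 : ℂ) * W q.1.2 q.2 *
        ph (q.2.1 * dt (um q.2.2) q.1.1.2 + q.1.1.1 * q.2.1 ^ 2)) := by
      have m2 : Measurable (fun q : ((ℝ × ℂ) × ℝ) × (ℝ × ℝ) => W q.1.2 q.2) := by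
        have : Measurable (fun q : ((ℝ × ℂ) × ℝ) × (ℝ × ℝ) => ((q.1.2, q.2) : ℝ × (ℝ × ℝ))) := by
          fun_prop
        exact hW.comp this
      have m3 : Measurable (fun q : ((ℝ × ℂ) × ℝ) × (ℝ × ℝ) => dt (um q.2.2) q.1.1.2) := by
        have h2 : Measurable (fun q : ((ℝ × ℂ) × ℝ) × (ℝ × ℝ) =>
            ((um q.2.2, q.1.1.2) : ℂ × ℂ)) := by fun_prop
        exact dt_meas.comp h2
      fun_prop
    have h3 : Measurable (fun q : (ℝ × ℂ) × ℝ => LO (W q.2) q.1.2 q.1.1) :=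
      (h2.stronglyMeasurable.integral_prod_right' (ν := mu)).measurable
    have h4 : Measurable (fun q : ℝ × ℂ => ∫ τ in S, LO (W τ) q.2 q.1) :=
      (h3.stronglyMeasurable.integral_prod_right' (ν := volume.restrict S)).measurable
    exact ((h4.const_mul k).enorm).pow_const 4
  have mA := mLO _ (w1_meas X0 Θ hΘ ρ hρm)
  have mB := mI (Ioc X1 X0) _ (WA_meas Θ hΘ (fun _ => 1 / 2) measurable_const)
    ((Real.sqrt Real.pi)⁻¹ : ℂ)
  have mC := mI (Ioc X1 X0) _ (WA_meas Θ hΘ ρ hρm) ((Real.sqrt Real.pi)⁻¹ : ℂ)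
  have mD := mI (Ioc (1 / 2 : ℝ) 1) _ (WD_meas Θ hΘ ρ hρm (Real.exp (2 * X1)))
    ((Real.exp X1 / Real.sqrt Real.pi : ℝ) : ℂ)
  calc ∫⁻ t in T, ∫⁻ ζ : ℂ, ‖LO (vd Θ ρ) ζ t‖ₑ ^ 4 ≤ ∫⁻ t in T, ∫⁻ ζ : ℂ,
        64 * (‖LO (w1 X0 Θ ρ) ζ t‖ₑ ^ 4 +
        ‖((Real.sqrt Real.pi)⁻¹ : ℂ) * ∫ τ in Ioc X1 X0, LO (WA Θ (fun _ => 1 / 2) τ) ζ t‖ₑ ^ 4 +
        ‖((Real.sqrt Real.pi)⁻¹ : ℂ) * ∫ τ in Ioc X1 X0, LO (WA Θ ρ τ) ζ t‖ₑ ^ 4 +
        ‖((Real.exp X1 / Real.sqrt Real.pi : ℝ) : ℂ) *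
          ∫ y in Ioc (1 / 2 : ℝ) 1, LO (WD Θ ρ (Real.exp (2 * X1)) y) ζ t‖ₑ ^ 4) := by
        apply lintegral_mono
        intro t
        apply lintegral_mono
        intro ζ
        simp only
        rw [LO_dec X0 X1 hX1n hX Θ hΘ ρ hρm hρ]
        exact sum4 _ _ _ _
    _ = 64 * ((∫⁻ t in T, ∫⁻ ζ : ℂ, ‖LO (w1 X0 Θ ρ) ζ t‖ₑ ^ 4) +
        (∫⁻ t in T, ∫⁻ ζ : ℂ, ‖((Real.sqrt Real.pi)⁻¹ : ℂ) *
          ∫ τ in Ioc X1 X0, LO (WA Θ (fun _ => 1 / 2) τ) ζ t‖ₑ ^ 4) +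
        (∫⁻ t in T, ∫⁻ ζ : ℂ, ‖((Real.sqrt Real.pi)⁻¹ : ℂ) *
          ∫ τ in Ioc X1 X0, LO (WA Θ ρ τ) ζ t‖ₑ ^ 4) +
        ∫⁻ t in T, ∫⁻ ζ : ℂ, ‖((Real.exp X1 / Real.sqrt Real.pi : ℝ) : ℂ) *
          ∫ y in Ioc (1 / 2 : ℝ) 1, LO (WD Θ ρ (Real.exp (2 * X1)) y) ζ t‖ₑ ^ 4) := by
        have h9 : ∀ t : ℝ, ∫⁻ ζ : ℂ, 64 * (‖LO (w1 X0 Θ ρ) ζ t‖ₑ ^ 4 +
            ‖((Real.sqrt Real.pi)⁻¹ : ℂ) *
              ∫ τ in Ioc X1 X0, LO (WA Θ (fun _ => 1 / 2) τ) ζ t‖ₑ ^ 4 +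
            ‖((Real.sqrt Real.pi)⁻¹ : ℂ) * ∫ τ in Ioc X1 X0, LO (WA Θ ρ τ) ζ t‖ₑ ^ 4 +
            ‖((Real.exp X1 / Real.sqrt Real.pi : ℝ) : ℂ) *
              ∫ y in Ioc (1 / 2 : ℝ) 1, LO (WD Θ ρ (Real.exp (2 * X1)) y) ζ t‖ₑ ^ 4) =
            64 * ((∫⁻ ζ : ℂ, ‖LO (w1 X0 Θ ρ) ζ t‖ₑ ^ 4) +
            (∫⁻ ζ : ℂ, ‖((Real.sqrt Real.pi)⁻¹ : ℂ) *
              ∫ τ in Ioc X1 X0, LO (WA Θ (fun _ => 1 / 2) τ) ζ t‖ₑ ^ 4) +
            (∫⁻ ζ : ℂ, ‖((Real.sqrt Real.pi)⁻¹ : ℂ) *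
              ∫ τ in Ioc X1 X0, LO (WA Θ ρ τ) ζ t‖ₑ ^ 4) +
            ∫⁻ ζ : ℂ, ‖((Real.exp X1 / Real.sqrt Real.pi : ℝ) : ℂ) *
              ∫ y in Ioc (1 / 2 : ℝ) 1, LO (WD Θ ρ (Real.exp (2 * X1)) y) ζ t‖ₑ ^ 4) := by
          intro t
          have sec : ∀ F : ℝ × ℂ → ℝ≥0∞, Measurable F → Measurable (fun ζ : ℂ => F (t, ζ)) :=
            fun F hF => hF.comp measurable_prodMk_left
          exact lint_add4 volume _ _ _ _ (sec _ mA) (sec _ mB) (sec _ mC)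
        simp_rw [h9]
        exact lint_add4 _ _ _ _ _ (mA.lintegral_prod_right' (ν := (volume : Measure ℂ)))
          (mB.lintegral_prod_right' (ν := (volume : Measure ℂ)))
          (mC.lintegral_prod_right' (ν := (volume : Measure ℂ)))
    _ ≤ 64 * (ENNReal.ofReal (8192 * Real.pi ^ 6 / R) * V +
        ENNReal.ofReal ((1 + Real.log R) ^ 4 * (C * Q)) * V +
        ENNReal.ofReal ((1 + Real.log R) ^ 4 * (C * Q)) * V +
        ENNReal.ofReal (z1 ^ 2 * (C * Q)) * V) := by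
        have hB := hP2 (fun _ => 1 / 2) measurable_const (fun _ => ⟨le_rfl, by norm_num⟩)
        have hC' := hP2 ρ hρm hρ
        exact mul_le_mul' le_rfl (add_le_add (add_le_add (add_le_add hP1 hB) hC') hP3)
    _ = ENNReal.ofReal (64 * (8192 * Real.pi ^ 6 / R + (1 + Real.log R) ^ 4 * (C * Q) +
        (1 + Real.log R) ^ 4 * (C * Q) + z1 ^ 2 * (C * Q))) * V := by
        rw [← add_mul, ← add_mul, ← add_mul, ← mul_assoc,
          ← ENNReal.ofReal_add (by positivity) (by positivity),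
          ← ENNReal.ofReal_add (by positivity) (by positivity),
          ← ENNReal.ofReal_add (by positivity) (by positivity),
          show (64 : ℝ≥0∞) = ENNReal.ofReal 64 by norm_num, ← ENNReal.ofReal_mul (by norm_num)]
    _ ≤ _ := by
        refine mul_le_mul' (ENNReal.ofReal_le_ofReal ?_) le_rfl
        have h1 : 1 ≤ z1 ^ 2 + (1 + Real.log R) ^ 4 := by
          have : 1 ≤ z1 ^ 2 := one_le_pow₀ hz1
          have : 0 ≤ (1 + Real.log R) ^ 4 := by positivity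
          linarith
        have h2 : 8192 * Real.pi ^ 6 / R ≤ 8192 * Real.pi ^ 6 *
            ((z1 ^ 2 + (1 + Real.log R) ^ 4) * Q) := by
          rw [div_eq_mul_one_div]
          gcongr
          calc 1 / R ≤ Q := hRQ
            _ = 1 * Q := (one_mul _).symm
            _ ≤ _ := by gcongr
        have h3 : (1 + Real.log R) ^ 4 * (C * Q) ≤ C * ((z1 ^ 2 + (1 + Real.log R) ^ 4) * Q) := by
          have : 0 ≤ z1 ^ 2 * (C * Q) := by positivity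
          nlinarith
        have h4 : z1 ^ 2 * (C * Q) ≤ C * ((z1 ^ 2 + (1 + Real.log R) ^ 4) * Q) := by
          have : 0 ≤ (1 + Real.log R) ^ 4 * (C * Q) := by positivity
          nlinarith
        calc 64 * (8192 * Real.pi ^ 6 / R + (1 + Real.log R) ^ 4 * (C * Q) +
            (1 + Real.log R) ^ 4 * (C * Q) + z1 ^ 2 * (C * Q)) ≤
            64 * (8192 * Real.pi ^ 6 * ((z1 ^ 2 + (1 + Real.log R) ^ 4) * Q) +
            C * ((z1 ^ 2 + (1 + Real.log R) ^ 4) * Q) + C * ((z1 ^ 2 + (1 + Real.log R) ^ 4) * Q) +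
            C * ((z1 ^ 2 + (1 + Real.log R) ^ 4) * Q)) := by gcongr
          _ = _ := by ring

end Pool.Agent.Q63.Star
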