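import Mathlib
import Pool.Agent.Q63.Star.Unit5
set_option autoImplicit false

/-! The `L^q` bound for the unit pieces on dyadic time intervals. -/

namespace Pool.Agent.Q63.Star

open MeasureTheory Set Complex
open scoped ENNReal NNReal ComplexConjugate

lemma vr_meas2 (ρ : ℝ → ℝ) (hρ : Measurable ρ) :
    Measurable (fun p : ℝ × ℝ => vr (ρ p.2) p.1) := by
  unfold vr
  exact Measurable.ite ((measurableSet_le measurable_const measurable_fst).inter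
    (measurableSet_lt measurable_fst (hρ.comp measurable_snd))) measurable_const measurable_const

lemma vd_meas (Θ : Set ℝ) (hΘ : MeasurableSet Θ) (ρ : ℝ → ℝ) (hρ : Measurable ρ) :
    Measurable (vd Θ ρ) := by
  have h : Measurable (fun p : ℝ × ℝ => ((vr (ρ p.2) p.1 : ℝ) : ℂ)) := by
    have := vr_meas2 ρ hρ
    fun_prop
  exact ind_meas Θ hΘ (fun p => ((vr (ρ p.2) p.1 : ℝ) : ℂ)) h

lemma vd_zero (Θ : Set ℝ) (ρ : ℝ → ℝ) (p : ℝ × ℝ) (hp : p.1 < 1 / 2) : vd Θ ρ p = 0 := by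
  unfold vd
  by_cases h : p.2 ∈ Θ
  · rw [indicator_of_mem h]
    unfold vr
    rw [if_neg (fun h => by linarith [h.1])]
    simp
  · rw [indicator_of_notMem h]

lemma vd_ind (Θ : Set ℝ) (ρ : ℝ → ℝ) (hρ : ∀ θ, ρ θ ≤ 1) (p : ℝ × ℝ) :
    ‖vd Θ ρ p‖ₑ ≤ (Icc (1 / 2 : ℝ) 1 ×ˢ Θ).indicator (fun _ => (1 : ℝ≥0∞)) p := by
  unfold vd
  by_cases h : p.2 ∈ Θ
  · rw [indicator_of_mem h]
    unfold vr
    by_cases h2 : 1 / 2 ≤ p.1 ∧ p.1 < ρ p.2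
    · rw [if_pos h2, indicator_of_mem (show p ∈ Icc (1 / 2 : ℝ) 1 ×ˢ Θ from
        ⟨⟨h2.1, h2.2.le.trans (hρ _)⟩, h⟩)]
      simp
    · rw [if_neg h2]
      simp
  · rw [indicator_of_notMem h]
    simp

/-- unit piece -/
noncomputable def hu (Θ : Set ℝ) (ρ : ℝ → ℝ) : ℂ → ℂ := wc (vd Θ ρ)

lemma hu_meas (Θ : Set ℝ) (hΘ : MeasurableSet Θ) (ρ : ℝ → ℝ) (hρ : Measurable ρ) :
    Measurable (hu Θ ρ) := wc_meas _ (vd_meas Θ hΘ ρ hρ)

lemma hu_le_one (Θ : Set ℝ) (ρ : ℝ → ℝ) (hρ : ∀ θ, ρ θ ≤ 1) (x : ℂ) : ‖hu Θ ρ x‖ₑ ≤ 1 := by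
  unfold hu wc
  refine (vd_ind Θ ρ hρ _).trans ?_
  exact indicator_le_self' (fun _ _ => zero_le) _

lemma Ex_hu (Θ : Set ℝ) (ρ : ℝ → ℝ) (ζ : ℂ) (t : ℝ) : Ex (hu Θ ρ) ζ t = LO (vd Θ ρ) ζ t := by
  unfold hu
  rw [Ex_wc]
  unfold LO
  apply setIntegral_eq_integral_of_forall_compl_eq_zero
  intro p hp
  have : p.1 < 1 / 2 := by
    have : ¬ (0 < p.1) := fun h => hp ⟨h, mem_univ _⟩
    linarith
  rw [vd_zero _ _ _ this]
  simp

lemma hu_mass (Θ : Set ℝ) (hΘ : MeasurableSet Θ) (ρ : ℝ → ℝ) (hρ : ∀ θ, ρ θ ≤ 1) :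
    ∫⁻ x, ‖hu Θ ρ x‖ₑ ≤ volume (Θ ∩ Ioo (-Real.pi) Real.pi) := by
  have h := lint_wc (vd Θ ρ) 1
  simp only [pow_one] at h
  unfold hu
  rw [h]
  calc ∫⁻ p in Ioi (0 : ℝ) ×ˢ univ, ENNReal.ofReal |p.1| * ‖vd Θ ρ p‖ₑ ∂mu
      ≤ ∫⁻ p, ENNReal.ofReal |p.1| * ‖vd Θ ρ p‖ₑ ∂mu := setLIntegral_le_lintegral _ _
    _ ≤ ∫⁻ p, (Icc (1 / 2 : ℝ) 1 ×ˢ Θ).indicator (fun _ => (1 : ℝ≥0∞)) p ∂mu := by
        apply lintegral_mono
        intro p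
        simp only
        by_cases hp : p ∈ Icc (1 / 2 : ℝ) 1 ×ˢ Θ
        · have h1 := vd_ind Θ ρ hρ p
          rw [indicator_of_mem hp] at h1 ⊢
          have h2 : ENNReal.ofReal |p.1| ≤ 1 := by
            rw [ENNReal.ofReal_le_one, abs_of_pos (by linarith [hp.1.1])]
            exact hp.1.2
          calc _ ≤ (1 : ℝ≥0∞) * 1 := mul_le_mul' h2 h1
            _ = 1 := one_mul 1
        · have h1 := vd_ind Θ ρ hρ p
          rw [indicator_of_notMem hp] at h1 ⊢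
          rw [le_antisymm h1 zero_le, mul_zero]
    _ = mu (Icc (1 / 2 : ℝ) 1 ×ˢ Θ) := by
        rw [lintegral_indicator_const (measurableSet_Icc.prod hΘ), one_mul]
    _ = ENNReal.ofReal (1 / 2) * volume (Θ ∩ Ioo (-Real.pi) Real.pi) := by
        unfold mu
        rw [Measure.prod_prod, Real.volume_Icc, Measure.restrict_apply hΘ]
        congr 2
        norm_num
    _ ≤ 1 * volume (Θ ∩ Ioo (-Real.pi) Real.pi) := by
        gcongr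
        rw [ENNReal.ofReal_le_one]
        norm_num
    _ = _ := one_mul _

lemma V_ne (Θ : Set ℝ) : volume (Θ ∩ Ioo (-Real.pi) Real.pi) ≠ ∞ :=
  ne_top_of_le_ne_top ENNReal.ofReal_ne_top (vol_le Θ)

lemma hu_int (Θ : Set ℝ) (hΘ : MeasurableSet Θ) (ρ : ℝ → ℝ) (hρm : Measurable ρ)
    (hρ : ∀ θ, ρ θ ≤ 1) : Integrable (hu Θ ρ) := by
  refine ⟨(hu_meas Θ hΘ ρ hρm).aestronglyMeasurable, ?_⟩
  rw [hasFiniteIntegral_iff_enorm]
  exact lt_of_le_of_lt (hu_mass Θ hΘ ρ hρ) (V_ne Θ).lt_top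

lemma hu_mass2 (Θ : Set ℝ) (hΘ : MeasurableSet Θ) (ρ : ℝ → ℝ) (hρ : ∀ θ, ρ θ ≤ 1) :
    ∫⁻ x, ‖hu Θ ρ x‖ₑ ^ 2 ≤ volume (Θ ∩ Ioo (-Real.pi) Real.pi) := by
  refine le_trans (lintegral_mono fun x => ?_) (hu_mass Θ hΘ ρ hρ)
  exact pow_le_of_le_one zero_le (hu_le_one Θ ρ hρ x) (by norm_num)

lemma hu_L2 (Θ : Set ℝ) (hΘ : MeasurableSet Θ) (ρ : ℝ → ℝ) (hρm : Measurable ρ)
    (hρ : ∀ θ, ρ θ ≤ 1) (T : Set ℝ) :
    ∫⁻ t in T, ∫⁻ ζ, ‖Ex (hu Θ ρ) ζ t‖ₑ ^ 2 ≤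
      ENNReal.ofReal ((2 * Real.pi) ^ 2) * volume (Θ ∩ Ioo (-Real.pi) Real.pi) * volume T := by
  calc _ ≤ ∫⁻ t in T, ENNReal.ofReal ((2 * Real.pi) ^ 2) *
        volume (Θ ∩ Ioo (-Real.pi) Real.pi) := by
        apply lintegral_mono
        intro t
        exact (planch2 _ (hu_meas Θ hΘ ρ hρm) (hu_int Θ hΘ ρ hρm hρ) t).trans
          (mul_le_mul' le_rfl (hu_mass2 Θ hΘ ρ hρ))
    _ = _ := by rw [lintegral_const, Measure.restrict_apply_univ]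

lemma elem (δ : ℝ) (hδ : 0 < δ) : ∃ K : ℝ, 0 < K ∧ ∀ R : ℝ, 16 ≤ R →
    ((R ^ δ) ^ 2 + (1 + Real.log R) ^ 4) * ((1 + Real.log R) / R +
      R ^ 2 * Real.exp (-(R ^ δ / 128))) ≤ K * R ^ (3 * δ - 1) := by
  obtain ⟨n, hn⟩ := exists_nat_ge (3 / δ)
  have hn' : 3 ≤ δ * n := by
    rw [div_le_iff₀ hδ] at hn
    linarith
  set c1 : ℝ := 1 + 2 / δ with hc1
  set c2 : ℝ := (n.factorial : ℝ) * 128 ^ n with hc2
  have hc1p : 0 < c1 := by positivity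
  have hc2p : 0 < c2 := by positivity
  refine ⟨(1 + c1 ^ 4) * (c1 + c2), by positivity, fun R hR => ?_⟩
  have hR0 : 0 < R := by linarith
  have hR1 : 1 ≤ R := by linarith
  have hlog : 0 ≤ Real.log R := Real.log_nonneg hR1
  have hL : 1 + Real.log R ≤ c1 * R ^ (δ / 2) := by
    have h1 := Real.log_le_rpow_div hR0.le (half_pos hδ)
    have h2 : (1 : ℝ) ≤ R ^ (δ / 2) := Real.one_le_rpow hR1 (by positivity)
    have h3 : R ^ (δ / 2) / (δ / 2) = 2 / δ * R ^ (δ / 2) := by field_simp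
    rw [h3] at h1
    rw [hc1]
    linarith
  have e2 : (R ^ δ) ^ 2 = R ^ (2 * δ) := by
    rw [← Real.rpow_natCast, ← Real.rpow_mul hR0.le]
    congr 1
    push_cast
    ring
  have h4 : (1 + Real.log R) ^ 4 ≤ c1 ^ 4 * R ^ (2 * δ) := by
    calc (1 + Real.log R) ^ 4 ≤ (c1 * R ^ (δ / 2)) ^ 4 := by gcongr
      _ = c1 ^ 4 * R ^ (2 * δ) := by
          rw [mul_pow, ← Real.rpow_natCast (R ^ (δ / 2)), ← Real.rpow_mul hR0.le]
          congr 2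
          push_cast
          ring
  have h5 : (1 + Real.log R) / R ≤ c1 * R ^ (δ - 1) := by
    calc (1 + Real.log R) / R ≤ c1 * R ^ (δ / 2) / R := by gcongr
      _ = c1 * R ^ (δ / 2 - 1) := by rw [mul_div_assoc, Real.rpow_sub_one hR0.ne']
      _ ≤ _ := by
          gcongr
          linarith
  have h6 : R ^ 2 * Real.exp (-(R ^ δ / 128)) ≤ c2 * R ^ (δ - 1) := by
    set x : ℝ := R ^ δ / 128 with hx
    have hx0 : 0 < x := by positivity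
    have h7 := Real.pow_div_factorial_le_exp x hx0.le n
    have hfac : (0 : ℝ) < n.factorial := by positivity
    have h8 : Real.exp (-x) ≤ n.factorial / x ^ n := by
      rw [Real.exp_neg, inv_le_comm₀ (Real.exp_pos _) (by positivity), inv_div]
      exact h7
    have h9 : (n.factorial : ℝ) / x ^ n = c2 / R ^ (δ * n) := by
      rw [hx, div_pow, hc2, Real.rpow_mul hR0.le, Real.rpow_natCast]
      field_simp
    have h10 : R ^ (3 : ℝ) ≤ R ^ (δ * n) := Real.rpow_le_rpow_of_exponent_le hR1 hn'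
    calc R ^ 2 * Real.exp (-x) ≤ R ^ 2 * (c2 / R ^ (δ * n)) := by
          rw [← h9]
          gcongr
      _ ≤ R ^ 2 * (c2 / R ^ (3 : ℝ)) := by gcongr
      _ = c2 * R ^ (-1 : ℝ) := by
          have : R ^ (3 : ℝ) = R ^ 3 := by exact_mod_cast Real.rpow_natCast R 3
          rw [this, Real.rpow_neg_one]
          field_simp
      _ ≤ _ := by
          gcongr
          linarith
  have h11 : 0 ≤ R ^ (2 * δ) := by positivity
  have h12 : 0 ≤ R ^ (δ - 1) := by positivity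
  calc ((R ^ δ) ^ 2 + (1 + Real.log R) ^ 4) * ((1 + Real.log R) / R +
      R ^ 2 * Real.exp (-(R ^ δ / 128))) ≤
      (R ^ (2 * δ) + c1 ^ 4 * R ^ (2 * δ)) * (c1 * R ^ (δ - 1) + c2 * R ^ (δ - 1)) := by
        rw [e2]
        gcongr
    _ = (1 + c1 ^ 4) * (c1 + c2) * (R ^ (2 * δ) * R ^ (δ - 1)) := by ring
    _ = _ := by
        rw [← Real.rpow_add hR0]
        congr 2
        ring

/-- log-convexity -/
lemma logc (T : Set ℝ) (G : ℝ → ℂ → ℝ≥0∞) (hG : Measurable (fun p : ℝ × ℂ => G p.1 p.2)) (q : ℝ)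
    (hq : 2 < q) (hq4 : q < 4) :
    ∫⁻ t in T, ∫⁻ ζ, G t ζ ^ q ≤ (∫⁻ t in T, ∫⁻ ζ, G t ζ ^ 2) ^ ((4 - q) / 2) *
      (∫⁻ t in T, ∫⁻ ζ, G t ζ ^ 4) ^ ((q - 2) / 2) := by
  have e : ∀ F : ℝ × ℂ → ℝ≥0∞, Measurable F → ∫⁻ t in T, ∫⁻ ζ, F (t, ζ) =
      ∫⁻ p, F p ∂((volume.restrict T).prod volume) := by
    intro F hF
    rw [lintegral_prod _ hF.aemeasurable]
  rw [e (fun p => G p.1 p.2 ^ q) (hG.pow_const q), e (fun p => G p.1 p.2 ^ 2) (hG.pow_const 2),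
    e (fun p => G p.1 p.2 ^ 4) (hG.pow_const 4)]
  have h := ENNReal.lintegral_mul_norm_pow_le (μ := (volume.restrict T).prod (volume : Measure ℂ))
    (f := fun p => G p.1 p.2 ^ 2) (g := fun p => G p.1 p.2 ^ 4) (hG.pow_const 2).aemeasurable
    (hG.pow_const 4).aemeasurable (p := (4 - q) / 2) (q := (q - 2) / 2) (by linarith) (by linarith)
    (by ring)
  refine le_trans (le_of_eq ?_) h
  apply lintegral_congr
  intro p
  rw [← ENNReal.rpow_natCast, ← ENNReal.rpow_natCast, ← ENNReal.rpow_mul, ← ENNReal.rpow_mul,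
    ← ENNReal.rpow_add_of_nonneg _ _ (by push_cast; linarith) (by push_cast; linarith)]
  congr 1
  push_cast
  ring

/-- the unit pieces on a dyadic time interval -/
lemma unitR (q : ℝ) (hq : 3 < q) (hq4 : q < 4) : ∃ K : ℝ, 0 < K ∧ ∀ R : ℝ, 16 ≤ R →
    ∀ Θ : Set ℝ, MeasurableSet Θ → ∀ ρ : ℝ → ℝ, Measurable ρ →
    (∀ θ, 1 / 2 ≤ ρ θ ∧ ρ θ ≤ 1) →
    ∫⁻ t in Icc R (2 * R), ∫⁻ ζ : ℂ, ‖Ex (hu Θ ρ) ζ t‖ₑ ^ q ≤
      ENNReal.ofReal (K * R ^ (-((q - 3) / 2))) * volume (Θ ∩ Ioo (-Real.pi) Real.pi) := by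
  obtain ⟨C, hC, h4⟩ := L4unit
  set δ : ℝ := (q - 3) / 6 with hδ
  have hδ0 : 0 < δ := by rw [hδ]; linarith
  obtain ⟨K0, hK0, hel⟩ := elem δ hδ0
  have hpi := Real.pi_pos
  refine ⟨((2 * Real.pi) ^ 2) ^ ((4 - q) / 2) * (C * K0) ^ ((q - 2) / 2), by positivity, ?_⟩
  intro R hR Θ hΘ ρ hρm hρ
  have hR0 : 0 < R := by linarith
  have hR1 : 1 ≤ R := by linarith
  set V : ℝ≥0∞ := volume (Θ ∩ Ioo (-Real.pi) Real.pi) with hV
  have hm : Measurable (fun p : ℝ × ℂ => ‖Ex (hu Θ ρ) p.2 p.1‖ₑ) :=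
    ((Ex_meas _ (hu_meas Θ hΘ ρ hρm)).comp measurable_swap).enorm
  refine (logc (Icc R (2 * R)) (fun t ζ => ‖Ex (hu Θ ρ) ζ t‖ₑ) hm q (by linarith) hq4).trans ?_
  have hA2 : ∫⁻ t in Icc R (2 * R), ∫⁻ ζ, ‖Ex (hu Θ ρ) ζ t‖ₑ ^ 2 ≤
      ENNReal.ofReal ((2 * Real.pi) ^ 2 * R) * V := by
    refine (hu_L2 Θ hΘ ρ hρm (fun θ => (hρ θ).2) _).trans (le_of_eq ?_)
    rw [Real.volume_Icc, mul_right_comm, ← ENNReal.ofReal_mul (by positivity)]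
    congr 3
    ring
  have hz1 : 1 ≤ R ^ δ := Real.one_le_rpow hR1 hδ0.le
  have hz2 : 2 * R ^ δ ≤ R := by
    have h1 : R ^ δ ≤ R ^ (1 / 2 : ℝ) := Real.rpow_le_rpow_of_exponent_le hR1 (by rw [hδ]; linarith)
    rw [← Real.sqrt_eq_rpow] at h1
    have h2 : Real.sqrt R ^ 2 = R := Real.sq_sqrt hR0.le
    have h3 : 4 ≤ Real.sqrt R := by
      rw [show (4 : ℝ) = Real.sqrt 16 by
        rw [show (16 : ℝ) = 4 ^ 2 by norm_num, Real.sqrt_sq (by norm_num)]]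
      exact Real.sqrt_le_sqrt hR
    nlinarith
  have hA4 : ∫⁻ t in Icc R (2 * R), ∫⁻ ζ, ‖Ex (hu Θ ρ) ζ t‖ₑ ^ 4 ≤
      ENNReal.ofReal (C * K0 * R ^ (3 * δ - 1)) * V := by
    simp_rw [Ex_hu]
    refine (h4 R hR (R ^ δ) hz1 hz2 Θ hΘ ρ hρm hρ).trans ?_
    refine mul_le_mul' (ENNReal.ofReal_le_ofReal ?_) le_rfl
    rw [mul_assoc C, mul_assoc C]
    exact mul_le_mul_of_nonneg_left (hel R hR) hC.le
  have hs1 : 0 ≤ (4 - q) / 2 := by linarith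
  have hs2 : 0 ≤ (q - 2) / 2 := by linarith
  calc _ ≤ (ENNReal.ofReal ((2 * Real.pi) ^ 2 * R) * V) ^ ((4 - q) / 2) *
        (ENNReal.ofReal (C * K0 * R ^ (3 * δ - 1)) * V) ^ ((q - 2) / 2) :=
        mul_le_mul' (ENNReal.rpow_le_rpow hA2 hs1) (ENNReal.rpow_le_rpow hA4 hs2)
    _ = ENNReal.ofReal (((2 * Real.pi) ^ 2 * R) ^ ((4 - q) / 2) *
        (C * K0 * R ^ (3 * δ - 1)) ^ ((q - 2) / 2)) * V := by
        rw [ENNReal.mul_rpow_of_nonneg _ _ hs1, ENNReal.mul_rpow_of_nonneg _ _ hs2,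
          ENNReal.ofReal_rpow_of_nonneg (by positivity) hs1,
          ENNReal.ofReal_rpow_of_nonneg (by positivity) hs2, mul_mul_mul_comm,
          ← ENNReal.ofReal_mul (by positivity), ← ENNReal.rpow_add_of_nonneg _ _ hs1 hs2]
        congr 1
        have : (4 - q) / 2 + (q - 2) / 2 = 1 := by ring
        rw [this, ENNReal.rpow_one]
    _ ≤ _ := by
        refine mul_le_mul' (ENNReal.ofReal_le_ofReal ?_) le_rfl
        rw [Real.mul_rpow (by positivity) hR0.le,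
          Real.mul_rpow (x := C * K0) (by positivity) (by positivity),
          ← Real.rpow_mul hR0.le, mul_mul_mul_comm, ← Real.rpow_add hR0]
        refine mul_le_mul_of_nonneg_left (Real.rpow_le_rpow_of_exponent_le hR1 ?_) (by positivity)
        rw [hδ]
        nlinarith

end Pool.Agent.Q63.Star
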