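import Mathlib
import Pool.Agent.Q63.Star.Unit6
set_option autoImplicit false

/-! The `L^q` bound for the unit pieces, all times. -/

namespace Pool.Agent.Q63.Star

open MeasureTheory Set Complex
open scoped ENNReal NNReal ComplexConjugate

lemma cover (G : ℝ → ℝ≥0∞) : ∫⁻ t in Ici (0 : ℝ), G t ≤ (∫⁻ t in Icc (0 : ℝ) 16, G t) +
    ∑' k : ℕ, ∫⁻ t in Icc (16 * 2 ^ k : ℝ) (2 * (16 * 2 ^ k)), G t := by
  have h : Ici (0 : ℝ) ⊆ Icc 0 16 ∪ ⋃ k : ℕ, Icc (16 * 2 ^ k : ℝ) (2 * (16 * 2 ^ k)) := by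
    intro t ht
    have ht0 : (0 : ℝ) ≤ t := ht
    by_cases h16 : t ≤ 16
    · left
      exact ⟨ht, h16⟩
    · right
      rw [mem_iUnion]
      obtain ⟨k, hk1, hk2⟩ := exists_nat_pow_near (x := t / 16) (y := 2)
        (by linarith [not_le.1 h16]) (by norm_num)
      refine ⟨k, ?_, ?_⟩
      · linarith
      · rw [pow_succ] at hk2
        linarith
  exact (lintegral_mono_set h).trans ((lintegral_union_le _ _ _).trans
    (add_le_add le_rfl (lintegral_iUnion_le _ _)))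

lemma pw_up (a M : ℝ≥0∞) (h : a ≤ M) (p q : ℝ) (hp : 0 ≤ p) (hpq : p ≤ q) :
    a ^ q ≤ M ^ (q - p) * a ^ p := by
  calc a ^ q = a ^ (q - p) * a ^ p := by
        rw [← ENNReal.rpow_add_of_nonneg _ _ (by linarith) hp]
        congr 1
        ring
    _ ≤ _ := by
        refine mul_le_mul' (ENNReal.rpow_le_rpow h (by linarith)) le_rfl

lemma conj_Ex (h : ℂ → ℂ) (hr : ∀ x, conj (h x) = h x) (ζ : ℂ) (t : ℝ) :
    Ex h ζ (-t) = conj (Ex h (-ζ) t) := by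
  unfold Ex
  rw [← integral_conj]
  apply integral_congr_ae
  filter_upwards with x
  rw [map_mul, ph_conj, hr, dt_neg_right]
  congr 2
  ring

lemma even_G (h : ℂ → ℂ) (hm : Measurable h) (hr : ∀ x, conj (h x) = h x) (q : ℝ) :
    ∫⁻ t : ℝ, ∫⁻ ζ : ℂ, ‖Ex h ζ t‖ₑ ^ q ≤
      2 * ∫⁻ t in Ici (0 : ℝ), ∫⁻ ζ : ℂ, ‖Ex h ζ t‖ₑ ^ q := by
  set G : ℝ → ℝ≥0∞ := fun t => ∫⁻ ζ : ℂ, ‖Ex h ζ t‖ₑ ^ q with hG
  have hev : ∀ t, G (-t) = G t := by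
    intro t
    rw [hG]
    simp only
    have e : ∀ ζ : ℂ, ‖Ex h ζ (-t)‖ₑ ^ q = (fun z => ‖Ex h z t‖ₑ ^ q) (-ζ) := by
      intro ζ
      simp only
      rw [conj_Ex h hr]
      congr 1
      rw [← ofReal_norm, ← ofReal_norm, RCLike.norm_conj]
    simp_rw [e]
    exact (Measure.measurePreserving_neg (volume : Measure ℂ)).lintegral_comp
      ((Ex_meas_left h hm t).enorm.pow_const q)
  have h1 := lintegral_add_compl (μ := volume) G (measurableSet_Ici (a := (0 : ℝ)))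
  rw [compl_Ici] at h1
  have h2 : ∫⁻ t in Iio (0 : ℝ), G t ≤ ∫⁻ t in Ici (0 : ℝ), G t := by
    have h3 := (Measure.measurePreserving_neg (volume : Measure ℝ)).setLIntegral_comp_preimage_emb
      (MeasurableEquiv.neg ℝ).measurableEmbedding G (Iic 0)
    have h4 : (Neg.neg ⁻¹' (Iic (0 : ℝ)) : Set ℝ) = Ici 0 := by
      ext x
      simp
    rw [h4] at h3
    calc _ ≤ ∫⁻ t in Iic (0 : ℝ), G t := lintegral_mono_set Iio_subset_Iic_self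
      _ = ∫⁻ t in Ici (0 : ℝ), G (-t) := h3.symm
      _ = _ := by simp_rw [hev]
  rw [← h1, two_mul]
  exact add_le_add le_rfl h2

lemma Ex_hu_le (Θ : Set ℝ) (hΘ : MeasurableSet Θ) (ρ : ℝ → ℝ) (hρ : ∀ θ, ρ θ ≤ 1) (ζ : ℂ)
    (t : ℝ) : ‖Ex (hu Θ ρ) ζ t‖ₑ ≤ ENNReal.ofReal (2 * Real.pi) :=
  (Ex_le _ _ _).trans ((hu_mass Θ hΘ ρ hρ).trans (vol_le Θ))

lemma unitP (q : ℝ) (hq : 3 < q) (hq4 : q < 4) : ∃ C : ℝ≥0∞, C ≠ ∞ ∧
    ∀ Θ : Set ℝ, MeasurableSet Θ → ∀ ρ : ℝ → ℝ, Measurable ρ →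
    (∀ θ, 1 / 2 ≤ ρ θ ∧ ρ θ ≤ 1) →
    ∫⁻ t in Ici (0 : ℝ), ∫⁻ ζ : ℂ, ‖Ex (hu Θ ρ) ζ t‖ₑ ^ q ≤
      C * volume (Θ ∩ Ioo (-Real.pi) Real.pi) := by
  obtain ⟨K, hK, h⟩ := unitR q hq hq4
  set a : ℝ := (q - 3) / 2 with ha
  have ha0 : 0 < a := by rw [ha]; linarith
  set r : ℝ≥0∞ := ENNReal.ofReal (2 ^ (-a)) with hr
  have hr1 : r < 1 := by
    rw [hr, ENNReal.ofReal_lt_one]
    exact Real.rpow_lt_one_of_one_lt_of_neg (by norm_num) (by linarith)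
  refine ⟨ENNReal.ofReal (2 * Real.pi) ^ (q - 2) * (ENNReal.ofReal ((2 * Real.pi) ^ 2) *
    ENNReal.ofReal 16) + ENNReal.ofReal K * (1 - r)⁻¹, ?_, ?_⟩
  · have h1 : (1 - r)⁻¹ ≠ ∞ := by
      rw [Ne, ENNReal.inv_eq_top]
      exact (tsub_pos_of_lt hr1).ne'
    have h2 : ENNReal.ofReal (2 * Real.pi) ^ (q - 2) ≠ ∞ :=
      ENNReal.rpow_ne_top_of_nonneg (by linarith) ENNReal.ofReal_ne_top
    exact ENNReal.add_ne_top.2 ⟨ENNReal.mul_ne_top h2 (ENNReal.mul_ne_top ENNReal.ofReal_ne_top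
      ENNReal.ofReal_ne_top), ENNReal.mul_ne_top ENNReal.ofReal_ne_top h1⟩
  intro Θ hΘ ρ hρm hρ
  have hρ1 : ∀ θ, ρ θ ≤ 1 := fun θ => (hρ θ).2
  set V : ℝ≥0∞ := volume (Θ ∩ Ioo (-Real.pi) Real.pi) with hV
  have hq2 : 0 < q - 2 := by linarith
  refine (cover _).trans ?_
  rw [add_mul]
  refine add_le_add ?_ ?_
  · calc ∫⁻ t in Icc (0 : ℝ) 16, ∫⁻ ζ : ℂ, ‖Ex (hu Θ ρ) ζ t‖ₑ ^ q ≤
        ∫⁻ t in Icc (0 : ℝ) 16, ∫⁻ ζ : ℂ, ENNReal.ofReal (2 * Real.pi) ^ (q - 2) *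
          ‖Ex (hu Θ ρ) ζ t‖ₑ ^ 2 := by
          apply lintegral_mono
          intro t
          apply lintegral_mono
          intro ζ
          have := pw_up _ _ (Ex_hu_le Θ hΘ ρ hρ1 ζ t) 2 q (by norm_num) (by linarith)
          rwa [ENNReal.rpow_ofNat] at this
      _ = ENNReal.ofReal (2 * Real.pi) ^ (q - 2) *
          ∫⁻ t in Icc (0 : ℝ) 16, ∫⁻ ζ : ℂ, ‖Ex (hu Θ ρ) ζ t‖ₑ ^ 2 := by
          have hne : ENNReal.ofReal (2 * Real.pi) ^ (q - 2) ≠ ∞ :=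
            ENNReal.rpow_ne_top_of_nonneg hq2.le ENNReal.ofReal_ne_top
          rw [← lintegral_const_mul' _ _ hne]
          apply lintegral_congr
          intro t
          rw [lintegral_const_mul' _ _ hne]
      _ ≤ ENNReal.ofReal (2 * Real.pi) ^ (q - 2) * (ENNReal.ofReal ((2 * Real.pi) ^ 2) * V *
          volume (Icc (0 : ℝ) 16)) := mul_le_mul' le_rfl (hu_L2 Θ hΘ ρ hρm hρ1 _)
      _ = _ := by
          rw [Real.volume_Icc, sub_zero]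
          ring
  · calc ∑' k : ℕ, ∫⁻ t in Icc (16 * 2 ^ k : ℝ) (2 * (16 * 2 ^ k)),
        ∫⁻ ζ : ℂ, ‖Ex (hu Θ ρ) ζ t‖ₑ ^ q ≤ ∑' k : ℕ, ENNReal.ofReal K * r ^ k * V := by
          refine ENNReal.tsum_le_tsum fun k => ?_
          have hk : (1 : ℝ) ≤ 2 ^ k := one_le_pow₀ (by norm_num)
          refine (h (16 * 2 ^ k) (by linarith) Θ hΘ ρ hρm hρ).trans ?_
          refine mul_le_mul' ?_ le_rfl
          rw [hr, ← ENNReal.ofReal_pow (by positivity), ← ENNReal.ofReal_mul hK.le]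
          apply ENNReal.ofReal_le_ofReal
          refine mul_le_mul_of_nonneg_left ?_ hK.le
          calc (16 * 2 ^ k : ℝ) ^ (-((q - 3) / 2)) ≤ (2 ^ k : ℝ) ^ (-((q - 3) / 2)) := by
                apply Real.rpow_le_rpow_of_nonpos (by positivity) (by linarith) (by linarith)
            _ = _ := by
                rw [← Real.rpow_natCast, ← Real.rpow_natCast, ← Real.rpow_mul (by norm_num),
                  ← Real.rpow_mul (by norm_num), mul_comm]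
      _ = _ := by
          rw [ENNReal.tsum_mul_right, ENNReal.tsum_mul_left, ENNReal.tsum_geometric]

lemma hu_conj (Θ : Set ℝ) (ρ : ℝ → ℝ) (x : ℂ) : conj (hu Θ ρ x) = hu Θ ρ x := by
  unfold hu wc vd
  by_cases h : (‖x‖, Complex.arg x).2 ∈ Θ
  · rw [indicator_of_mem h, Complex.conj_ofReal]
  · rw [indicator_of_notMem h, map_zero]

/-- **The unit pieces.** -/
theorem unitQ (q : ℝ) (hq : 3 < q) : ∃ C : ℝ≥0∞, C ≠ ∞ ∧
    ∀ Θ : Set ℝ, MeasurableSet Θ → ∀ ρ : ℝ → ℝ, Measurable ρ →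
    (∀ θ, 1 / 2 ≤ ρ θ ∧ ρ θ ≤ 1) →
    ∫⁻ t : ℝ, ∫⁻ ζ : ℂ, ‖Ex (hu Θ ρ) ζ t‖ₑ ^ q ≤
      C * volume (Θ ∩ Ioo (-Real.pi) Real.pi) := by
  set p : ℝ := min q (7 / 2) with hp
  have hp3 : 3 < p := lt_min hq (by norm_num)
  have hp4 : p < 4 := lt_of_le_of_lt (min_le_right _ _) (by norm_num)
  have hpq : p ≤ q := min_le_left _ _
  obtain ⟨C, hC, h⟩ := unitP p hp3 hp4
  have hne : ENNReal.ofReal (2 * Real.pi) ^ (q - p) ≠ ∞ :=
    ENNReal.rpow_ne_top_of_nonneg (by linarith) ENNReal.ofReal_ne_top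
  refine ⟨ENNReal.ofReal (2 * Real.pi) ^ (q - p) * (2 * C),
    ENNReal.mul_ne_top hne (ENNReal.mul_ne_top (by norm_num) hC), ?_⟩
  intro Θ hΘ ρ hρm hρ
  have hρ1 : ∀ θ, ρ θ ≤ 1 := fun θ => (hρ θ).2
  calc ∫⁻ t : ℝ, ∫⁻ ζ : ℂ, ‖Ex (hu Θ ρ) ζ t‖ₑ ^ q ≤
      ∫⁻ t : ℝ, ∫⁻ ζ : ℂ, ENNReal.ofReal (2 * Real.pi) ^ (q - p) *
          ‖Ex (hu Θ ρ) ζ t‖ₑ ^ p := by
        apply lintegral_mono
        intro t
        apply lintegral_mono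
        intro ζ
        exact pw_up _ _ (Ex_hu_le Θ hΘ ρ hρ1 ζ t) p q (by linarith) hpq
    _ = ENNReal.ofReal (2 * Real.pi) ^ (q - p) *
        ∫⁻ t : ℝ, ∫⁻ ζ : ℂ, ‖Ex (hu Θ ρ) ζ t‖ₑ ^ p := by
        rw [← lintegral_const_mul' _ _ hne]
        apply lintegral_congr
        intro t
        rw [lintegral_const_mul' _ _ hne]
    _ ≤ ENNReal.ofReal (2 * Real.pi) ^ (q - p) *
        (2 * (C * volume (Θ ∩ Ioo (-Real.pi) Real.pi))) := by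
        refine mul_le_mul' le_rfl ((even_G _ (hu_meas Θ hΘ ρ hρm) (hu_conj Θ ρ) p).trans ?_)
        exact mul_le_mul' le_rfl (h Θ hΘ ρ hρm hρ)
    _ = _ := by ring

end Pool.Agent.Q63.Star
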