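import Mathlib
import Pool.Agent.Q63.Star.Unit7
set_option autoImplicit false

/-! Star-shaped sets. -/

namespace Pool.Agent.Q63.Star

open MeasureTheory Set Complex
open scoped ENNReal NNReal ComplexConjugate

/-- star-shaped sets about `0`, in the open unit disc -/
structure StarSet (S : Set ℂ) : Prop where
  meas : MeasurableSet S
  star : ∀ x ∈ S, ∀ s : ℝ, 0 < s → s ≤ 1 → (s : ℂ) * x ∈ S
  bdd : ∀ x ∈ S, ‖x‖ < 1

/-- radii along a ray -/
def rset (S : Set ℂ) (θ : ℝ) : Set ℝ := {0} ∪ {r : ℝ | 0 < r ∧ (r : ℂ) * um θ ∈ S}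

/-- radial function -/
noncomputable def rr (S : Set ℂ) (θ : ℝ) : ℝ := sSup (rset S θ)

lemma norm_rum (r θ : ℝ) (hr : 0 ≤ r) : ‖(r : ℂ) * um θ‖ = r := by
  rw [norm_mul, norm_um, mul_one, Complex.norm_real, Real.norm_eq_abs, abs_of_nonneg hr]

lemma rset_le {S : Set ℂ} (hS : StarSet S) (θ : ℝ) : ∀ r ∈ rset S θ, r ≤ 1 := by
  intro r hr
  rcases hr with h | h
  · rw [mem_singleton_iff] at h
    rw [h]
    norm_num
  · have := hS.bdd _ h.2
    rw [norm_rum r θ h.1.le] at this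
    exact this.le

lemma rset_ne (S : Set ℂ) (θ : ℝ) : (rset S θ).Nonempty := ⟨0, Or.inl rfl⟩

lemma rset_bdd {S : Set ℂ} (hS : StarSet S) (θ : ℝ) : BddAbove (rset S θ) :=
  ⟨1, fun r hr => rset_le hS θ r hr⟩

lemma rr_nonneg {S : Set ℂ} (hS : StarSet S) (θ : ℝ) : 0 ≤ rr S θ :=
  le_csSup (rset_bdd hS θ) (Or.inl rfl)

lemma rr_le_one {S : Set ℂ} (hS : StarSet S) (θ : ℝ) : rr S θ ≤ 1 :=
  csSup_le (rset_ne S θ) (rset_le hS θ)

lemma mem_of_lt {S : Set ℂ} (hS : StarSet S) (θ r : ℝ) (hr : 0 < r) (h : r < rr S θ) :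
    (r : ℂ) * um θ ∈ S := by
  obtain ⟨r', hr', hlt⟩ := exists_lt_of_lt_csSup (rset_ne S θ) h
  rcases hr' with h' | h'
  · rw [mem_singleton_iff] at h'
    linarith
  · have h1 := hS.star _ h'.2 (r / r') (div_pos hr h'.1) ((div_le_one h'.1).2 hlt.le)
    have e : ((r / r' : ℝ) : ℂ) * ((r' : ℂ) * um θ) = (r : ℂ) * um θ := by
      have : (r' : ℂ) ≠ 0 := by exact_mod_cast h'.1.ne'
      push_cast
      field_simp
    rwa [e] at h1

lemma le_of_mem {S : Set ℂ} (hS : StarSet S) (θ r : ℝ) (hr : 0 < r) (h : (r : ℂ) * um θ ∈ S) :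
    r ≤ rr S θ := le_csSup (rset_bdd hS θ) (Or.inr ⟨hr, h⟩)

lemma rr_meas {S : Set ℂ} (hS : StarSet S) : Measurable (rr S) := by
  apply measurable_of_Ioi
  intro c
  by_cases hc : c < 0
  · have : rr S ⁻¹' Ioi c = univ := by
      ext θ
      simp only [mem_preimage, mem_Ioi, mem_univ, iff_true]
      exact lt_of_lt_of_le hc (rr_nonneg hS θ)
    rw [this]
    exact MeasurableSet.univ
  · have hc0 : 0 ≤ c := not_lt.1 hc
    have : rr S ⁻¹' Ioi c = ⋃ (r : ℚ) (_ : c < r), {θ : ℝ | (((r : ℚ) : ℝ) : ℂ) * um θ ∈ S} := by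
      ext θ
      simp only [mem_preimage, mem_Ioi, mem_iUnion, mem_ofPred_eq, exists_prop]
      constructor
      · intro h
        obtain ⟨r, hr1, hr2⟩ := exists_rat_btwn h
        exact ⟨r, hr1, mem_of_lt hS θ r (by linarith) hr2⟩
      · rintro ⟨r, hr1, hr2⟩
        exact lt_of_lt_of_le hr1 (le_of_mem hS θ r (by linarith) hr2)
    rw [this]
    refine MeasurableSet.iUnion fun r => MeasurableSet.iUnion fun _ => ?_
    have hm : Measurable (fun θ : ℝ => (((r : ℚ) : ℝ) : ℂ) * um θ) := by fun_prop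
    exact hm hS.meas

/-- the region under a radial function -/
noncomputable def st (ρ : ℝ → ℝ) (x : ℂ) : ℂ := if 0 < ‖x‖ ∧ ‖x‖ < ρ (Complex.arg x) then 1 else 0

lemma st_meas (ρ : ℝ → ℝ) (hρ : Measurable ρ) : Measurable (st ρ) := by
  unfold st
  have h1 : Measurable (fun x : ℂ => ρ (Complex.arg x)) := hρ.comp Complex.measurable_arg
  exact Measurable.ite ((measurableSet_lt measurable_const measurable_norm).inter
    (measurableSet_lt measurable_norm h1)) measurable_const measurable_const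

lemma graph_null (ρ : ℝ → ℝ) (hρ : Measurable ρ) :
    (volume : Measure (ℝ × ℝ)) {p : ℝ × ℝ | p.1 = ρ p.2} = 0 := by
  have hm : MeasurableSet {p : ℝ × ℝ | p.1 = ρ p.2} :=
    measurableSet_eq_fun measurable_fst (hρ.comp measurable_snd)
  rw [Measure.volume_eq_prod, Measure.prod_apply_symm hm]
  have : ∀ y : ℝ, volume ((fun x : ℝ => ((x, y) : ℝ × ℝ)) ⁻¹' {p : ℝ × ℝ | p.1 = ρ p.2}) = 0 := by
    intro y
    have e : (fun x : ℝ => ((x, y) : ℝ × ℝ)) ⁻¹' {p : ℝ × ℝ | p.1 = ρ p.2} = {ρ y} := by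
      ext x
      simp
    rw [e]
    simp
  simp_rw [this]
  simp

lemma sphere_null (ρ : ℝ → ℝ) (hρ : Measurable ρ) :
    volume {x : ℂ | ‖x‖ = ρ (Complex.arg x)} = 0 := by
  have hm : MeasurableSet {x : ℂ | ‖x‖ = ρ (Complex.arg x)} :=
    measurableSet_eq_fun measurable_norm (hρ.comp Complex.measurable_arg)
  rw [← lintegral_indicator_one hm, pol_lint]
  have h0 : ∀ᵐ p : ℝ × ℝ, p ∉ {p : ℝ × ℝ | p.1 = ρ p.2} := by
    rw [ae_iff]
    simp only [not_not]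
    exact graph_null ρ hρ
  have h1 : ∀ᵐ p : ℝ × ℝ ∂(volume.restrict TP), ENNReal.ofReal p.1 *
      ({x : ℂ | ‖x‖ = ρ (Complex.arg x)}.indicator (1 : ℂ → ℝ≥0∞) (p.1 * um p.2)) = 0 := by
    filter_upwards [ae_restrict_of_ae h0, ae_restrict_mem TP_meas] with p hp hpT
    rw [indicator_of_notMem, mul_zero]
    intro hc
    apply hp
    have hw := wc_pol (fun p => ((ρ p.2 : ℝ) : ℂ)) p hpT
    unfold wc at hw
    have h2 : ρ (Complex.arg ((p.1 : ℂ) * um p.2)) = ρ p.2 := by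
      simp only at hw
      exact_mod_cast hw
    have h3 : ‖(p.1 : ℂ) * um p.2‖ = ρ (Complex.arg ((p.1 : ℂ) * um p.2)) := hc
    have hp1 : (0 : ℝ) < p.1 := hpT.1
    rw [norm_rum _ _ hp1.le, h2] at h3
    exact h3
  rw [lintegral_congr_ae h1]
  simp

lemma norm_um_arg (x : ℂ) : ((‖x‖ : ℝ) : ℂ) * um (Complex.arg x) = x := by
  have := Complex.norm_mul_cos_add_sin_mul_I x
  unfold um
  push_cast
  exact this

lemma ind_eq_st {S : Set ℂ} (hS : StarSet S) :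
    S.indicator (fun _ => (1 : ℂ)) =ᵐ[volume] st (rr S) := by
  have h1 : ∀ᵐ x : ℂ, x ∉ {x : ℂ | ‖x‖ = rr S (Complex.arg x)} := by
    rw [ae_iff]
    simp only [not_not]
    exact sphere_null _ (rr_meas hS)
  have h2 : ∀ᵐ x : ℂ, x ≠ 0 := by
    rw [ae_iff]
    simp
  filter_upwards [h1, h2] with x hx hx0
  have hn : 0 < ‖x‖ := norm_pos_iff.2 hx0
  unfold st
  by_cases hxS : x ∈ S
  · rw [indicator_of_mem hxS, if_pos]
    refine ⟨hn, lt_of_le_of_ne ?_ hx⟩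
    apply le_of_mem hS _ _ hn
    rwa [norm_um_arg]
  · rw [indicator_of_notMem hxS, if_neg]
    rintro ⟨_, h⟩
    apply hxS
    have := mem_of_lt hS _ _ hn h
    rwa [norm_um_arg] at this

lemma Ex_congr (f g : ℂ → ℂ) (h : f =ᵐ[volume] g) (ζ : ℂ) (t : ℝ) : Ex f ζ t = Ex g ζ t := by
  unfold Ex
  apply integral_congr_ae
  filter_upwards [h] with x hx
  rw [hx]

/-! ### dyadic pieces -/

/-- annuli -/
def An (j : ℕ) : Set ℂ := {x : ℂ | 1 / 2 ≤ 2 ^ j * ‖x‖ ∧ 2 ^ j * ‖x‖ < 1}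

/-- directions of the pieces -/
def Tj (ρ : ℝ → ℝ) (j : ℕ) : Set ℝ := {θ : ℝ | 1 / 2 < 2 ^ j * ρ θ}

/-- radii of the pieces -/
noncomputable def rj (ρ : ℝ → ℝ) (j : ℕ) (θ : ℝ) : ℝ := max (1 / 2) (min 1 (2 ^ j * ρ θ))

lemma rj_bd (ρ : ℝ → ℝ) (j : ℕ) (θ : ℝ) : 1 / 2 ≤ rj ρ j θ ∧ rj ρ j θ ≤ 1 :=
  ⟨le_max_left _ _, max_le (by norm_num) (min_le_left _ _)⟩

lemma rj_meas (ρ : ℝ → ℝ) (hρ : Measurable ρ) (j : ℕ) : Measurable (rj ρ j) := by
  unfold rj
  fun_prop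

lemma Tj_meas (ρ : ℝ → ℝ) (hρ : Measurable ρ) (j : ℕ) : MeasurableSet (Tj ρ j) :=
  measurableSet_lt measurable_const (hρ.const_mul _)

lemma An_meas (j : ℕ) : MeasurableSet (An j) :=
  (measurableSet_le measurable_const (measurable_norm.const_mul _)).inter
    (measurableSet_lt (measurable_norm.const_mul _) measurable_const)

/-- dilated piece -/
noncomputable def hj (ρ : ℝ → ℝ) (j : ℕ) (x : ℂ) : ℂ :=
  hu (Tj ρ j) (rj ρ j) (((2 ^ j : ℝ) : ℂ) * x)

lemma hj_eq (ρ : ℝ → ℝ) (j : ℕ) (x : ℂ) : hj ρ j x = (An j).indicator (st ρ) x := by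
  have hc : (0 : ℝ) < 2 ^ j := by positivity
  unfold hj hu wc vd
  have e1 : ‖((2 ^ j : ℝ) : ℂ) * x‖ = 2 ^ j * ‖x‖ := by
    rw [norm_mul, Complex.norm_real, Real.norm_eq_abs, abs_of_pos hc]
  rw [Complex.arg_real_mul x hc, e1]
  by_cases hT : Complex.arg x ∈ Tj ρ j
  · rw [indicator_of_mem (show ((2 ^ j * ‖x‖, Complex.arg x) : ℝ × ℝ).2 ∈ Tj ρ j from hT)]
    simp only
    unfold vr
    by_cases hA : x ∈ An j
    · rw [indicator_of_mem hA]
      unfold st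
      have hA1 : 1 / 2 ≤ 2 ^ j * ‖x‖ := hA.1
      have hA2 : 2 ^ j * ‖x‖ < 1 := hA.2
      have hx0 : 0 < ‖x‖ := by
        by_contra hcon
        have : ‖x‖ = 0 := le_antisymm (not_lt.1 hcon) (norm_nonneg _)
        rw [this] at hA1
        norm_num at hA1
      by_cases hx : ‖x‖ < ρ (Complex.arg x)
      · rw [if_pos, if_pos ⟨hx0, hx⟩]
        · simp
        · refine ⟨hA1, lt_max_of_lt_right (lt_min hA2 ?_)⟩
          exact mul_lt_mul_of_pos_left hx hc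
      · rw [if_neg, if_neg (fun h => hx h.2)]
        · simp
        · rintro ⟨_, h⟩
          rcases lt_max_iff.1 h with h | h
          · linarith
          · have := (lt_min_iff.1 h).2
            exact hx (lt_of_mul_lt_mul_left this hc.le)
    · rw [indicator_of_notMem hA, if_neg]
      · simp
      · rintro ⟨h1, h2⟩
        exact hA ⟨h1, h2.trans_le (rj_bd ρ j _).2⟩
  · rw [indicator_of_notMem (show ((2 ^ j * ‖x‖, Complex.arg x) : ℝ × ℝ).2 ∉ Tj ρ j from hT)]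
    by_cases hA : x ∈ An j
    · rw [indicator_of_mem hA]
      unfold st
      rw [if_neg]
      rintro ⟨_, h⟩
      apply hT
      have h1 : 2 ^ j * ‖x‖ < 2 ^ j * ρ (Complex.arg x) := mul_lt_mul_of_pos_left h hc
      exact lt_of_le_of_lt hA.1 h1
    · rw [indicator_of_notMem hA]

lemma An_disj : Pairwise (Function.onFun Disjoint An) := by
  have key : ∀ i j : ℕ, i < j → Disjoint (An i) (An j) := by
    intro i j hij
    rw [Set.disjoint_left]
    intro x hi hj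
    have h1 : (2 : ℝ) ^ (i + 1) ≤ 2 ^ j := pow_le_pow_right₀ (by norm_num) hij
    have h2 : (1 : ℝ) / 2 ≤ 2 ^ i * ‖x‖ := hi.1
    have h3 : 2 ^ j * ‖x‖ < 1 := hj.2
    have h4 : (2 : ℝ) ^ (i + 1) * ‖x‖ ≤ 2 ^ j * ‖x‖ := by gcongr
    rw [pow_succ] at h4
    linarith
  intro i j hij
  rcases lt_or_gt_of_ne hij with h | h
  · exact key i j h
  · exact (key j i h).symm

lemma An_cover (x : ℂ) (h0 : 0 < ‖x‖) (h1 : ‖x‖ < 1) : x ∈ ⋃ j, An j := by
  classical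
  have hex : ∃ j : ℕ, 1 / 2 ≤ 2 ^ j * ‖x‖ := by
    obtain ⟨j, hj⟩ := pow_unbounded_of_one_lt (1 / (2 * ‖x‖)) (by norm_num : (1 : ℝ) < 2)
    refine ⟨j, ?_⟩
    rw [div_lt_iff₀ (by positivity)] at hj
    linarith
  rw [mem_iUnion]
  refine ⟨Nat.find hex, Nat.find_spec hex, ?_⟩
  rcases Nat.eq_zero_or_pos (Nat.find hex) with h | h
  · rw [h, pow_zero, one_mul]
    exact h1
  · obtain ⟨k, hk⟩ := Nat.exists_eq_succ_of_ne_zero h.ne'
    have h2 := Nat.find_min hex (m := k) (by omega)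
    rw [hk, Nat.succ_eq_add_one, pow_succ]
    rw [not_le] at h2
    linarith

lemma st_supp (ρ : ℝ → ℝ) (hρ : ∀ θ, ρ θ ≤ 1) (x : ℂ) (hx : x ∉ ⋃ j, An j) : st ρ x = 0 := by
  unfold st
  rw [if_neg]
  rintro ⟨h1, h2⟩
  exact hx (An_cover x h1 (h2.trans_le (hρ _)))

lemma st_int (ρ : ℝ → ℝ) (hρm : Measurable ρ) (hρ : ∀ θ, ρ θ ≤ 1) : Integrable (st ρ) := by
  have h : IntegrableOn (fun _ : ℂ => (1 : ℝ)) (Metric.ball 0 1) :=
    integrableOn_const (Metric.isBounded_ball.measure_lt_top.ne)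
  have h2 := (integrable_indicator_iff measurableSet_ball).2 h
  refine h2.mono' (st_meas ρ hρm).aestronglyMeasurable ?_
  filter_upwards with x
  unfold st
  split_ifs with hx
  · rw [indicator_of_mem]
    · simp
    · rw [mem_ball_zero_iff]
      exact hx.2.trans_le (hρ _)
  · rw [norm_zero]
    exact indicator_nonneg (fun _ _ => zero_le_one) _

lemma Ex_st (ρ : ℝ → ℝ) (hρm : Measurable ρ) (hρ : ∀ θ, ρ θ ≤ 1) (ζ : ℂ) (t : ℝ) :
    Ex (st ρ) ζ t = ∑' j, Ex (hj ρ j) ζ t := by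
  have hi := Ex_int (st ρ) (st_int ρ hρm hρ) ζ t
  have h1 : Ex (st ρ) ζ t = ∫ x in ⋃ j, An j, ph (dt x ζ + t * normSq x) * st ρ x := by
    unfold Ex
    symm
    apply setIntegral_eq_integral_of_forall_compl_eq_zero
    intro x hx
    rw [st_supp ρ hρ x hx, mul_zero]
  rw [h1, integral_iUnion An_meas An_disj hi.integrableOn]
  congr 1
  funext j
  unfold Ex
  rw [← integral_indicator (An_meas j)]
  apply integral_congr_ae
  filter_upwards with x
  rw [hj_eq]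
  by_cases hx : x ∈ An j
  · rw [indicator_of_mem hx, indicator_of_mem hx]
  · rw [indicator_of_notMem hx, indicator_of_notMem hx, mul_zero]

/-! ### scaling -/

lemma Ex_scale (h : ℂ → ℂ) (c : ℝ) (hc : 0 < c) (ζ : ℂ) (t : ℝ) :
    Ex (fun x => h ((c : ℂ) * x)) ζ t =
      (((c ^ 2)⁻¹ : ℝ) : ℂ) * Ex h (((c⁻¹ : ℝ) : ℂ) * ζ) ((c ^ 2)⁻¹ * t) := by
  have hc' : (c : ℂ) ≠ 0 := by exact_mod_cast hc.ne'
  have h1 := Measure.integral_comp_smul (volume : Measure ℂ)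
    (fun y => ph (dt y (((c⁻¹ : ℝ) : ℂ) * ζ) + (c ^ 2)⁻¹ * t * normSq y) * h y) c
  rw [Complex.finrank_real_complex, abs_of_nonneg (by positivity)] at h1
  unfold Ex
  rw [Complex.real_smul] at h1
  rw [← h1]
  apply integral_congr_ae
  filter_upwards with x
  rw [Complex.real_smul, dt_smul_left, dt_smul_right, normSq_smul]
  congr 2
  field_simp

lemma scaleQ (h : ℂ → ℂ) (hm : Measurable h) (c : ℝ) (hc : 0 < c) (q : ℝ) (hq : 0 ≤ q) :
    ∫⁻ t : ℝ, ∫⁻ ζ : ℂ, ‖Ex (fun x => h ((c : ℂ) * x)) ζ t‖ₑ ^ q =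
      ENNReal.ofReal (c ^ (4 - 2 * q)) * ∫⁻ t : ℝ, ∫⁻ ζ : ℂ, ‖Ex h ζ t‖ₑ ^ q := by
  have hcz : ENNReal.ofReal ((c ^ 2)⁻¹) ^ q ≠ ∞ :=
    ENNReal.rpow_ne_top_of_nonneg hq ENNReal.ofReal_ne_top
  have e1 : ∀ (ζ : ℂ) (t : ℝ), ‖Ex (fun x => h ((c : ℂ) * x)) ζ t‖ₑ ^ q =
      ENNReal.ofReal ((c ^ 2)⁻¹) ^ q *
        (fun z => ‖Ex h z ((c ^ 2)⁻¹ * t)‖ₑ ^ q) (((c⁻¹ : ℝ) : ℂ) * ζ) := by
    intro ζ t
    simp only
    rw [Ex_scale h c hc, enorm_mul, ENNReal.mul_rpow_of_nonneg _ _ hq]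
    congr 2
    rw [← ofReal_norm, Complex.norm_real, Real.norm_eq_abs, abs_of_nonneg (by positivity)]
  simp_rw [e1]
  have e2 : ∀ t : ℝ, ∫⁻ ζ : ℂ, ENNReal.ofReal ((c ^ 2)⁻¹) ^ q *
      (fun z => ‖Ex h z ((c ^ 2)⁻¹ * t)‖ₑ ^ q) (((c⁻¹ : ℝ) : ℂ) * ζ) =
      ENNReal.ofReal ((c ^ 2)⁻¹) ^ q * ENNReal.ofReal (c ^ 2) *
        (fun s => ∫⁻ z : ℂ, ‖Ex h z s‖ₑ ^ q) ((c ^ 2)⁻¹ * t) := by
    intro t
    rw [lintegral_const_mul' _ _ hcz, lint_smulC (fun z => ‖Ex h z ((c ^ 2)⁻¹ * t)‖ₑ ^ q)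
      ((Ex_meas_left h hm _).enorm.pow_const q) _ (inv_ne_zero hc.ne'), mul_assoc]
    congr 3
    field_simp
  simp_rw [e2]
  have hG : Measurable (fun s : ℝ => ∫⁻ z : ℂ, ‖Ex h z s‖ₑ ^ q) :=
    (((Ex_meas h hm).comp measurable_swap).enorm.pow_const q).lintegral_prod_right'
      (f := fun p : ℝ × ℂ => ‖Ex h p.2 p.1‖ₑ ^ q)
  rw [lintegral_const_mul' _ _ (ENNReal.mul_ne_top hcz ENNReal.ofReal_ne_top),
    Pool.Agent.W771.lint_scale (fun s => ∫⁻ z : ℂ, ‖Ex h z s‖ₑ ^ q) hG ((c ^ 2)⁻¹)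
      (by positivity), ← mul_assoc, inv_inv, abs_of_pos (by positivity),
    ENNReal.ofReal_rpow_of_nonneg (by positivity) hq, ← ENNReal.ofReal_mul (by positivity),
    ← ENNReal.ofReal_mul (by positivity)]
  congr 2
  have h2 : (c ^ 2 : ℝ) = c ^ (2 : ℝ) := by exact_mod_cast (Real.rpow_natCast c 2).symm
  rw [h2, ← Real.rpow_neg hc.le, ← Real.rpow_mul hc.le, ← Real.rpow_add hc, ← Real.rpow_add hc]
  congr 1
  ring

lemma vol_piece {S : Set ℂ} (hS : StarSet S) (j : ℕ) :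
    volume (Tj (rr S) j ∩ Ioo (-Real.pi) Real.pi) ≤
      ENNReal.ofReal (16 * (2 ^ j) ^ 2) * volume S := by
  set a : ℝ := (2 * 2 ^ j)⁻¹ with ha
  have ha0 : 0 < a := by positivity
  have hTm := Tj_meas (rr S) (rr_meas hS) j
  have h1 : ENNReal.ofReal (a / 2) * (ENNReal.ofReal (a / 2) *
      volume (Tj (rr S) j ∩ Ioo (-Real.pi) Real.pi)) ≤ volume S := by
    calc ENNReal.ofReal (a / 2) * (ENNReal.ofReal (a / 2) *
          volume (Tj (rr S) j ∩ Ioo (-Real.pi) Real.pi)) =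
        ∫⁻ p in TP, (Ioo (a / 2) a ×ˢ Tj (rr S) j).indicator
          (fun _ => ENNReal.ofReal (a / 2)) p := by
          rw [lintegral_indicator_const (measurableSet_Ioo.prod hTm),
            Measure.restrict_apply (measurableSet_Ioo.prod hTm)]
          have e : Ioo (a / 2) a ×ˢ Tj (rr S) j ∩ TP =
              Ioo (a / 2) a ×ˢ (Tj (rr S) j ∩ Ioo (-Real.pi) Real.pi) := by
            ext p
            simp only [TP, mem_inter_iff, mem_prod, mem_Ioo, mem_Ioi]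
            constructor
            · rintro ⟨⟨h1, h2⟩, h3, h4⟩
              exact ⟨h1, h2, h4⟩
            · rintro ⟨h1, h2, h4⟩
              exact ⟨⟨h1, h2⟩, by linarith, h4⟩
          rw [e, Measure.volume_eq_prod, Measure.prod_prod, Real.volume_Ioo]
          congr 3
          ring
      _ ≤ ∫⁻ p in TP, ENNReal.ofReal p.1 * S.indicator (1 : ℂ → ℝ≥0∞) (p.1 * um p.2) := by
          apply lintegral_mono
          intro p
          simp only
          by_cases hp : p ∈ Ioo (a / 2) a ×ˢ Tj (rr S) j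
          · rw [indicator_of_mem hp]
            have hp1 : a / 2 < p.1 := hp.1.1
            have hp2 : p.1 < a := hp.1.2
            have hp3 : 1 / 2 < 2 ^ j * rr S p.2 := hp.2
            have hmem : (p.1 : ℂ) * um p.2 ∈ S := by
              apply mem_of_lt hS _ _ (by linarith)
              refine hp2.trans ?_
              rw [ha, inv_lt_iff_one_lt_mul₀ (by positivity)]
              linarith
            rw [indicator_of_mem hmem, Pi.one_apply, mul_one]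
            exact ENNReal.ofReal_le_ofReal hp1.le
          · rw [indicator_of_notMem hp]
            exact zero_le
      _ = volume S := by rw [← pol_lint, lintegral_indicator_one hS.meas]
  calc volume (Tj (rr S) j ∩ Ioo (-Real.pi) Real.pi) =
      ENNReal.ofReal (16 * (2 ^ j) ^ 2) * (ENNReal.ofReal (a / 2) * (ENNReal.ofReal (a / 2) *
      volume (Tj (rr S) j ∩ Ioo (-Real.pi) Real.pi))) := by
        rw [← mul_assoc (ENNReal.ofReal (a / 2)), ← ENNReal.ofReal_mul (by positivity),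
          ← mul_assoc, ← ENNReal.ofReal_mul (by positivity)]
        have : 16 * (2 ^ j) ^ 2 * (a / 2 * (a / 2)) = 1 := by
          rw [ha]
          field_simp
          norm_num
        rw [this, ENNReal.ofReal_one, one_mul]
    _ ≤ _ := mul_le_mul' le_rfl h1

/-- **Star-shaped sets: restricted estimate in the full range.** -/
theorem starQ (q : ℝ) (hq : 3 < q) : ∃ C : ℝ≥0∞, C ≠ ∞ ∧ ∀ S : Set ℂ, StarSet S →
    ∫⁻ t : ℝ, ∫⁻ ζ : ℂ, ‖Ex (S.indicator (fun _ => 1)) ζ t‖ₑ ^ q ≤ C * volume S := by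
  obtain ⟨C1, hC1, hu1⟩ := unitQ q hq
  obtain ⟨C2, hC2⟩ := Pool.Agent.W771.sum_pow q (q - 3) (by linarith) (by linarith)
  set r : ℝ≥0∞ := ENNReal.ofReal (2 ^ (3 - q)) with hr
  have hr1 : r < 1 := by
    rw [hr, ENNReal.ofReal_lt_one]
    exact Real.rpow_lt_one_of_one_lt_of_neg (by norm_num) (by linarith)
  have hrs : (1 - r)⁻¹ ≠ ∞ := by
    rw [Ne, ENNReal.inv_eq_top]
    exact (tsub_pos_of_lt hr1).ne'
  refine ⟨C2 * (C1 * (ENNReal.ofReal 16 * (1 - r)⁻¹)), ENNReal.mul_ne_top ENNReal.coe_ne_top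
    (ENNReal.mul_ne_top hC1 (ENNReal.mul_ne_top ENNReal.ofReal_ne_top hrs)), ?_⟩
  intro S hS
  set ρ : ℝ → ℝ := rr S with hρ
  have hρm : Measurable ρ := rr_meas hS
  have hρ1 : ∀ θ, ρ θ ≤ 1 := rr_le_one hS
  have hhm : ∀ j, Measurable (hu (Tj ρ j) (rj ρ j)) := fun j =>
    hu_meas _ (Tj_meas ρ hρm j) _ (rj_meas ρ hρm j)
  have hjm : ∀ j, Measurable (hj ρ j) := by
    intro j
    unfold hj
    exact (hhm j).comp (by fun_prop)
  have e1 : ∀ (ζ : ℂ) (t : ℝ), ‖Ex (S.indicator (fun _ => 1)) ζ t‖ₑ ^ q ≤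
      C2 * ∑' j : ℕ, ENNReal.ofReal (2 ^ ((q - 3) * (j : ℝ))) * ‖Ex (hj ρ j) ζ t‖ₑ ^ q := by
    intro ζ t
    rw [Ex_congr _ _ (ind_eq_st hS), Ex_st ρ hρm hρ1]
    exact (ENNReal.rpow_le_rpow (enorm_tsum_le_tsum_enorm) (by linarith)).trans (hC2 _)
  have hGm : ∀ j : ℕ, Measurable (fun p : ℝ × ℂ =>
      ENNReal.ofReal (2 ^ ((q - 3) * (j : ℝ))) * ‖Ex (hj ρ j) p.2 p.1‖ₑ ^ q) := fun j =>
    (((Ex_meas _ (hjm j)).comp measurable_swap).enorm.pow_const q).const_mul _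
  calc ∫⁻ t : ℝ, ∫⁻ ζ : ℂ, ‖Ex (S.indicator (fun _ => 1)) ζ t‖ₑ ^ q ≤
      ∫⁻ t : ℝ, ∫⁻ ζ : ℂ, C2 * ∑' j : ℕ, ENNReal.ofReal (2 ^ ((q - 3) * (j : ℝ))) *
        ‖Ex (hj ρ j) ζ t‖ₑ ^ q := lintegral_mono fun t => lintegral_mono fun ζ => e1 ζ t
    _ = C2 * ∑' j : ℕ, ENNReal.ofReal (2 ^ ((q - 3) * (j : ℝ))) *
        ∫⁻ t : ℝ, ∫⁻ ζ : ℂ, ‖Ex (hj ρ j) ζ t‖ₑ ^ q := by
        have h1 : ∀ t : ℝ, ∫⁻ ζ : ℂ, C2 * ∑' j : ℕ, ENNReal.ofReal (2 ^ ((q - 3) * (j : ℝ))) *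
            ‖Ex (hj ρ j) ζ t‖ₑ ^ q = C2 * ∑' j : ℕ, ∫⁻ ζ : ℂ,
            ENNReal.ofReal (2 ^ ((q - 3) * (j : ℝ))) * ‖Ex (hj ρ j) ζ t‖ₑ ^ q := by
          intro t
          rw [lintegral_const_mul' _ _ ENNReal.coe_ne_top, lintegral_tsum]
          intro j
          exact ((hGm j).comp measurable_prodMk_left).aemeasurable
        simp_rw [h1]
        rw [lintegral_const_mul' _ _ ENNReal.coe_ne_top, lintegral_tsum]
        · congr 2
          funext j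
          rw [← lintegral_const_mul' _ _ ENNReal.ofReal_ne_top]
          apply lintegral_congr
          intro t
          rw [lintegral_const_mul' _ _ ENNReal.ofReal_ne_top]
        · intro j
          exact ((hGm j).lintegral_prod_right').aemeasurable
    _ ≤ C2 * ∑' j : ℕ, C1 * (ENNReal.ofReal 16 * r ^ j * volume S) := by
        refine mul_le_mul' le_rfl (ENNReal.tsum_le_tsum fun j => ?_)
        have h2 : ∫⁻ t : ℝ, ∫⁻ ζ : ℂ, ‖Ex (hj ρ j) ζ t‖ₑ ^ q ≤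
            ENNReal.ofReal ((2 ^ j : ℝ) ^ (4 - 2 * q)) * (C1 *
              (ENNReal.ofReal (16 * (2 ^ j) ^ 2) * volume S)) := by
          unfold hj
          rw [scaleQ _ (hhm j) (2 ^ j) (by positivity) q (by linarith)]
          refine mul_le_mul' le_rfl ((hu1 _ (Tj_meas ρ hρm j) _ (rj_meas ρ hρm j)
            (rj_bd ρ j)).trans (mul_le_mul' le_rfl (vol_piece hS j)))
        refine (mul_le_mul' le_rfl h2).trans (le_of_eq ?_)
        have e3 : (2 : ℝ) ^ ((q - 3) * (j : ℝ)) * ((2 ^ j : ℝ) ^ (4 - 2 * q) *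
            (16 * (2 ^ j) ^ 2)) = 16 * (2 ^ (3 - q)) ^ j := by
          have h20 : (0 : ℝ) ≤ 2 := by norm_num
          have h2p : (0 : ℝ) < 2 := by norm_num
          have f1 : ((2 ^ j : ℝ) ^ 2) = 2 ^ (2 * (j : ℝ)) := by
            rw [← pow_mul, ← Real.rpow_natCast]
            congr 1
            push_cast
            ring
          have f2 : (2 ^ j : ℝ) ^ (4 - 2 * q) = 2 ^ ((j : ℝ) * (4 - 2 * q)) := by
            rw [← Real.rpow_natCast, ← Real.rpow_mul h20]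
          have f3 : ((2 : ℝ) ^ (3 - q)) ^ j = 2 ^ ((3 - q) * (j : ℝ)) := by
            rw [← Real.rpow_natCast, ← Real.rpow_mul h20]
          rw [f1, f2, f3]
          calc (2 : ℝ) ^ ((q - 3) * (j : ℝ)) * ((2 : ℝ) ^ ((j : ℝ) * (4 - 2 * q)) *
                (16 * (2 : ℝ) ^ (2 * (j : ℝ)))) =
                16 * ((2 : ℝ) ^ ((q - 3) * (j : ℝ)) * ((2 : ℝ) ^ ((j : ℝ) * (4 - 2 * q)) *
                (2 : ℝ) ^ (2 * (j : ℝ)))) := by ring
            _ = _ := by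
                rw [← Real.rpow_add h2p, ← Real.rpow_add h2p]
                congr 2
                ring
        calc _ = C1 * (ENNReal.ofReal (2 ^ ((q - 3) * (j : ℝ))) * (
              ENNReal.ofReal ((2 ^ j : ℝ) ^ (4 - 2 * q)) *
              ENNReal.ofReal (16 * (2 ^ j) ^ 2)) * volume S) := by ring
          _ = _ := by
              rw [← ENNReal.ofReal_mul (by positivity), ← ENNReal.ofReal_mul (by positivity), e3,
                ENNReal.ofReal_mul (by norm_num), ENNReal.ofReal_pow (by positivity)]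
    _ = _ := by
        rw [ENNReal.tsum_mul_left, ENNReal.tsum_mul_right, ENNReal.tsum_mul_left,
          ENNReal.tsum_geometric]
        ring

end Pool.Agent.Q63.Star
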