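import Mathlib
import Pool.Agent.Q63.Star.Star8
set_option autoImplicit false

/-! Interpolation: from star-shaped sets to functions nonincreasing along rays. The lemmas
`lint_low`, `lint_high`, `holder_piece` and the proof pattern of `pointwise` are taken from
`Pool.Agent.TH297.QC`. -/

namespace Pool.Agent.Q63.Star

open MeasureTheory Set Complex
open scoped ENNReal NNReal ComplexConjugate

theorem lint_low {b s0 : ℝ} (hb : b < 1) (hs : 0 ≤ s0) :
    ∫⁻ s in Ioc 0 s0, ENNReal.ofReal (s ^ (-b)) = ENNReal.ofReal (s0 ^ (1 - b) / (1 - b)) := by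
  have h1 : IntervalIntegrable (fun s : ℝ => s ^ (-b)) volume 0 s0 :=
    intervalIntegral.intervalIntegrable_rpow' (by linarith)
  rw [intervalIntegrable_iff_integrableOn_Ioc_of_le hs] at h1
  rw [← ofReal_integral_eq_lintegral_ofReal h1]
  · rw [← intervalIntegral.integral_of_le hs, integral_rpow (Or.inl (by linarith))]
    rw [Real.zero_rpow (by linarith), sub_zero, show -b + 1 = 1 - b by ring]
  · filter_upwards [ae_restrict_mem measurableSet_Ioc] with s hs
    exact Real.rpow_nonneg hs.1.le _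

theorem lint_high {b s0 : ℝ} (hb : 1 < b) (hs : 0 < s0) :
    ∫⁻ s in Ioi s0, ENNReal.ofReal (s ^ (-b)) = ENNReal.ofReal (s0 ^ (1 - b) / (b - 1)) := by
  have h1 : IntegrableOn (fun s : ℝ => s ^ (-b)) (Ioi s0) :=
    integrableOn_Ioi_rpow_of_lt (by linarith) hs
  rw [← ofReal_integral_eq_lintegral_ofReal h1]
  · rw [integral_Ioi_rpow_of_lt (by linarith) hs]
    congr 1
    rw [show -b + 1 = 1 - b by ring, ← neg_div_neg_eq, neg_neg, neg_sub]
  · filter_upwards [ae_restrict_mem measurableSet_Ioi] with s hs'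
    exact Real.rpow_nonneg (hs.trans hs').le _

theorem holder_piece {u : ℝ → ℝ≥0∞} (hu : Measurable u) {S : Set ℝ} (hS : MeasurableSet S)
    (hS0 : S ⊆ Ioi 0) {r : ℝ} (hr : 1 < r) (b : ℝ) :
    ∫⁻ s in S, u s ≤ (∫⁻ s in Ioi 0, ENNReal.ofReal (s ^ (b * (r - 1))) * u s ^ r) ^ (1 / r) *
      (∫⁻ s in S, ENNReal.ofReal (s ^ (-b))) ^ (1 - 1 / r) := by
  have hr0 : 0 < r := by linarith
  have hpq : r.HolderConjugate (r / (r - 1)) := Real.HolderConjugate.conjExponent hr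
  have hmp : ∀ c : ℝ, Measurable fun s : ℝ => ENNReal.ofReal (s ^ c) := fun c =>
    (measurable_id.pow_const c).ennreal_ofReal
  have h := ENNReal.lintegral_mul_le_Lp_mul_Lq (μ := volume.restrict S) hpq
    (f := fun s => ENNReal.ofReal (s ^ (b * (1 - 1 / r))) * u s)
    (g := fun s => ENNReal.ofReal (s ^ (-(b * (1 - 1 / r)))))
    ((hmp _).mul hu).aemeasurable (hmp _).aemeasurable
  have e1 : ∫⁻ s in S, u s = ∫⁻ s in S, ((fun s => ENNReal.ofReal (s ^ (b * (1 - 1 / r))) * u s) *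
      fun s => ENNReal.ofReal (s ^ (-(b * (1 - 1 / r))))) s := by
    refine setLIntegral_congr_fun hS fun s hs => ?_
    have hs0 : (0 : ℝ) < s := hS0 hs
    simp only [Pi.mul_apply]
    rw [mul_right_comm, ← ENNReal.ofReal_mul (by positivity), ← Real.rpow_add hs0,
      add_neg_cancel, Real.rpow_zero, ENNReal.ofReal_one, one_mul]
  rw [e1]
  refine h.trans ?_
  have e2 : ∫⁻ s in S, (ENNReal.ofReal (s ^ (b * (1 - 1 / r))) * u s) ^ r
      = ∫⁻ s in S, ENNReal.ofReal (s ^ (b * (r - 1))) * u s ^ r := by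
    refine setLIntegral_congr_fun hS fun s hs => ?_
    have hs0 : (0 : ℝ) < s := hS0 hs
    rw [ENNReal.mul_rpow_of_nonneg _ _ hr0.le, ENNReal.ofReal_rpow_of_nonneg (by positivity) hr0.le,
      ← Real.rpow_mul hs0.le]
    congr 3
    field_simp
  have e3 : ∫⁻ s in S, ENNReal.ofReal (s ^ (-(b * (1 - 1 / r)))) ^ (r / (r - 1))
      = ∫⁻ s in S, ENNReal.ofReal (s ^ (-b)) := by
    refine setLIntegral_congr_fun hS fun s hs => ?_
    have hs0 : (0 : ℝ) < s := hS0 hs
    have hr1 : 0 < r - 1 := by linarith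
    rw [ENNReal.ofReal_rpow_of_nonneg (by positivity) (by positivity),
      ← Real.rpow_mul hs0.le]
    congr 2
    field_simp
  rw [e2, e3]
  have e4 : 1 / (r / (r - 1)) = 1 - 1 / r := by
    have hr1 : 0 < r - 1 := by linarith
    field_simp
  rw [e4]
  refine mul_le_mul_left ?_ _
  exact ENNReal.rpow_le_rpow (lintegral_mono_set hS0) (by positivity)


/-- The pointwise inequality. -/
theorem pointwise {q q0 q1 : ℝ} (hq0 : 1 < q0) (h0q : q0 < q) (hq1 : q < q1) :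
    ∃ C : ℝ≥0∞, C ≠ ∞ ∧ ∀ u : ℝ → ℝ≥0∞, Measurable u →
      (∫⁻ s in Ioi 0, u s) ^ q ≤ C *
        ((∫⁻ s in Ioi 0, ENNReal.ofReal (s ^ (q - 1)) * u s ^ q0) +
          ∫⁻ s in Ioi 0, ENNReal.ofReal (s ^ (q - 1)) * u s ^ q1) := by
  have hq : 0 < q := by linarith
  have h01 : 0 < q0 - 1 := by linarith
  have h11 : 0 < q1 - 1 := by linarith
  have hq00 : 0 < q0 := by linarith
  have hq11 : 0 < q1 := by linarith
  set b0 : ℝ := (q - 1) / (q0 - 1) with hb0
  set b1 : ℝ := (q - 1) / (q1 - 1) with hb1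
  have hb0' : 1 < b0 := by
    rw [hb0, one_lt_div h01]
    linarith
  have hb1' : b1 < 1 := by
    rw [hb1, div_lt_one h11]
    linarith
  have ea0 : b0 * (q0 - 1) = q - 1 := by
    rw [hb0]
    field_simp
  have ea1 : b1 * (q1 - 1) = q - 1 := by
    rw [hb1]
    field_simp
  set c0 : ℝ := (1 / (b0 - 1)) ^ (1 - 1 / q0) with hc0
  set c1 : ℝ := (1 / (1 - b1)) ^ (1 - 1 / q1) with hc1
  have hc0' : 0 < c0 := Real.rpow_pos_of_pos (by
    have : 0 < b0 - 1 := by linarith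
    positivity) _
  have hc1' : 0 < c1 := Real.rpow_pos_of_pos (by
    have : 0 < 1 - b1 := by linarith
    positivity) _
  refine ⟨ENNReal.ofReal ((c0 + c1) ^ q), ENNReal.ofReal_ne_top, fun u hu => ?_⟩
  set S0 : ℝ≥0∞ := ∫⁻ s in Ioi 0, ENNReal.ofReal (s ^ (q - 1)) * u s ^ q0 with hS0
  set S1 : ℝ≥0∞ := ∫⁻ s in Ioi 0, ENNReal.ofReal (s ^ (q - 1)) * u s ^ q1 with hS1
  have hC0 : ENNReal.ofReal ((c0 + c1) ^ q) ≠ 0 := by
    rw [Ne, ENNReal.ofReal_eq_zero, not_le]
    positivity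
  rcases eq_or_ne (S0 + S1) ∞ with htop | htop
  · rw [htop, ENNReal.mul_top hC0]
    exact le_top
  rcases eq_or_ne (S0 + S1) 0 with hz | hz
  · have h0 : S0 = 0 := (add_eq_zero.1 hz).1
    have hmp : ∀ c : ℝ, Measurable fun s : ℝ => ENNReal.ofReal (s ^ c) := fun c =>
      (measurable_id.pow_const c).ennreal_ofReal
    have hmm : Measurable fun s : ℝ => ENNReal.ofReal (s ^ (q - 1)) * u s ^ q0 :=
      (hmp _).mul (hu.pow_const _)
    rw [hS0, lintegral_eq_zero_iff hmm] at h0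
    have h1 : ∀ᵐ s ∂(volume.restrict (Ioi (0 : ℝ))), u s = 0 := by
      filter_upwards [h0, ae_restrict_mem measurableSet_Ioi] with s hs hs0
      have hs0' : (0 : ℝ) < s := hs0
      simp only [Pi.zero_apply] at hs
      rcases mul_eq_zero.1 hs with h | h
      · rw [ENNReal.ofReal_eq_zero] at h
        exact absurd h (not_le.2 (Real.rpow_pos_of_pos hs0' _))
      · exact (ENNReal.rpow_eq_zero_iff_of_pos (by linarith)).1 h
    have h2 : ∫⁻ s in Ioi (0 : ℝ), u s = 0 := by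
      rw [lintegral_eq_zero_iff hu]
      exact h1
    rw [h2, ENNReal.zero_rpow_of_pos hq]
    exact zero_le
  set sg : ℝ := (S0 + S1).toReal with hsg
  have hsg0 : 0 < sg := ENNReal.toReal_pos hz htop
  have hSe : S0 + S1 = ENNReal.ofReal sg := (ENNReal.ofReal_toReal htop).symm
  set s0 : ℝ := sg ^ (1 / q) with hs0
  have hs0' : 0 < s0 := Real.rpow_pos_of_pos hsg0 _
  -- the two pieces
  have hp0 : ∫⁻ s in Ioi s0, u s ≤ ENNReal.ofReal (c0 * sg ^ (1 / q)) := by
    refine (holder_piece hu measurableSet_Ioi (Ioi_subset_Ioi hs0'.le) hq0 b0).trans ?_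
    rw [lint_high hb0' hs0', ea0]
    have h1 : S0 ^ (1 / q0) ≤ ENNReal.ofReal (sg ^ (1 / q0)) := by
      rw [← ENNReal.ofReal_rpow_of_nonneg hsg0.le (by positivity), ← hSe]
      exact ENNReal.rpow_le_rpow le_self_add (by positivity)
    have h1b : 0 < b0 - 1 := by linarith
    have hq0' : 0 ≤ 1 - 1 / q0 := by
      rw [sub_nonneg, div_le_one (by linarith)]
      exact hq0.le
    refine (mul_le_mul_left h1 _).trans (le_of_eq ?_)
    rw [ENNReal.ofReal_rpow_of_nonneg (by positivity) hq0', ← ENNReal.ofReal_mul (by positivity)]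
    congr 1
    rw [Real.div_rpow (by positivity) h1b.le, hc0, Real.div_rpow zero_le_one h1b.le,
      Real.one_rpow, ← Real.rpow_mul hs0'.le, hs0, ← Real.rpow_mul hsg0.le]
    have e : sg ^ (1 / q0) * sg ^ (1 / q * ((1 - b0) * (1 - 1 / q0))) = sg ^ (1 / q) := by
      rw [← Real.rpow_add hsg0]
      congr 1
      rw [hb0]
      field_simp
      ring
    rw [mul_div_assoc', e]
    ring
  have hp1 : ∫⁻ s in Ioc 0 s0, u s ≤ ENNReal.ofReal (c1 * sg ^ (1 / q)) := by
    have hq1'' : 1 < q1 := by linarith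
    refine (holder_piece hu measurableSet_Ioc Ioc_subset_Ioi_self hq1'' b1).trans ?_
    rw [lint_low hb1' hs0'.le, ea1]
    have h1 : S1 ^ (1 / q1) ≤ ENNReal.ofReal (sg ^ (1 / q1)) := by
      rw [← ENNReal.ofReal_rpow_of_nonneg hsg0.le (by positivity), ← hSe]
      exact ENNReal.rpow_le_rpow le_add_self (by positivity)
    have h1b : 0 < 1 - b1 := by linarith
    have hq1' : 0 ≤ 1 - 1 / q1 := by
      rw [sub_nonneg, div_le_one (by linarith)]
      exact hq1''.le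
    refine (mul_le_mul_left h1 _).trans (le_of_eq ?_)
    rw [ENNReal.ofReal_rpow_of_nonneg (by positivity) hq1', ← ENNReal.ofReal_mul (by positivity)]
    congr 1
    rw [Real.div_rpow (by positivity) h1b.le, hc1, Real.div_rpow zero_le_one h1b.le,
      Real.one_rpow, ← Real.rpow_mul hs0'.le, hs0, ← Real.rpow_mul hsg0.le]
    have e : sg ^ (1 / q1) * sg ^ (1 / q * ((1 - b1) * (1 - 1 / q1))) = sg ^ (1 / q) := by
      rw [← Real.rpow_add hsg0]
      congr 1
      rw [hb1]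
      field_simp
      ring
    rw [mul_div_assoc', e]
    ring
  have hsum : ∫⁻ s in Ioi (0 : ℝ), u s ≤ ENNReal.ofReal ((c0 + c1) * sg ^ (1 / q)) := by
    rw [← Ioc_union_Ioi_eq_Ioi hs0'.le]
    refine (lintegral_union_le _ _ _).trans ((add_le_add hp1 hp0).trans (le_of_eq ?_))
    rw [← ENNReal.ofReal_add (by positivity) (by positivity)]
    congr 1
    ring
  refine (ENNReal.rpow_le_rpow hsum hq.le).trans (le_of_eq ?_)
  rw [ENNReal.ofReal_rpow_of_nonneg (by positivity) hq.le, Real.mul_rpow (by positivity)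
    (by positivity), ← Real.rpow_mul hsg0.le, one_div_mul_cancel hq.ne', Real.rpow_one,
    ENNReal.ofReal_mul (by positivity), hSe]

/-- nonincreasing along rays -/
structure RayFn (h : ℂ → ℝ) : Prop where
  meas : Measurable h
  nonneg : ∀ x, 0 ≤ h x
  mono : ∀ x, ∀ s : ℝ, 0 < s → s ≤ 1 → h x ≤ h ((s : ℂ) * x)
  supp : ∀ x, 1 ≤ ‖x‖ → h x = 0

/-- superlevel set -/
def SL (h : ℂ → ℝ) (s : ℝ) : Set ℂ := {x | s < h x}

lemma SL_star {h : ℂ → ℝ} (hh : RayFn h) (s : ℝ) (hs : 0 < s) : StarSet (SL h s) where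
  meas := measurableSet_lt measurable_const hh.meas
  star := fun x hx r hr hr1 => lt_of_lt_of_le hx (hh.mono x r hr hr1)
  bdd := by
    intro x hx
    by_contra hcon
    have h1 := hh.supp x (not_lt.1 hcon)
    have h2 : s < h x := hx
    linarith

lemma one_le_add_rpow (y q : ℝ) (hy : 0 ≤ y) (hq : 1 ≤ q) : y ≤ 1 + y ^ q := by
  rcases le_or_gt y 1 with h | h
  · have : 0 ≤ y ^ q := Real.rpow_nonneg hy _
    linarith
  · have : y ^ (1 : ℝ) ≤ y ^ q := Real.rpow_le_rpow_of_exponent_le h.le hq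
    rw [Real.rpow_one] at this
    linarith

lemma ray_fin {h : ℂ → ℝ} (hh : RayFn h) (q : ℝ) (hq : 1 ≤ q)
    (hf : ∫⁻ x, ENNReal.ofReal (h x ^ q) ≠ ∞) : ∫⁻ x, ENNReal.ofReal (h x) ≠ ∞ := by
  have h1 : ∀ x, ENNReal.ofReal (h x) ≤ (Metric.ball (0 : ℂ) 1).indicator (fun _ => 1) x +
      ENNReal.ofReal (h x ^ q) := by
    intro x
    by_cases hx : x ∈ Metric.ball (0 : ℂ) 1
    · rw [indicator_of_mem hx, ← ENNReal.ofReal_one, ← ENNReal.ofReal_add zero_le_one
        (Real.rpow_nonneg (hh.nonneg x) _)]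
      exact ENNReal.ofReal_le_ofReal (one_le_add_rpow _ _ (hh.nonneg x) hq)
    · rw [mem_ball_zero_iff, not_lt] at hx
      rw [hh.supp x hx]
      simp
  refine ne_top_of_le_ne_top ?_ (lintegral_mono h1)
  rw [lintegral_add_left (measurable_const.indicator measurableSet_ball),
    lintegral_indicator_const measurableSet_ball, one_mul]
  exact ENNReal.add_ne_top.2 ⟨Metric.isBounded_ball.measure_lt_top.ne, hf⟩

/-- superposition kernel -/
noncomputable def kr (h : ℂ → ℝ) (s : ℝ) (x : ℂ) : ℂ := (SL h s).indicator (fun _ => 1) x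

lemma kr_meas {h : ℂ → ℝ} (hm : Measurable h) : Measurable (fun p : ℝ × ℂ => kr h p.1 p.2) := by
  have e : (fun p : ℝ × ℂ => kr h p.1 p.2) =
      {p : ℝ × ℂ | p.1 < h p.2}.indicator (fun _ => (1 : ℂ)) := by
    funext p
    unfold kr
    by_cases hp : p.1 < h p.2
    · rw [indicator_of_mem (show p.2 ∈ SL h p.1 from hp),
        indicator_of_mem (show p ∈ {p : ℝ × ℂ | p.1 < h p.2} from hp)]
    · rw [indicator_of_notMem (show p.2 ∉ SL h p.1 from hp),
        indicator_of_notMem (show p ∉ {p : ℝ × ℂ | p.1 < h p.2} from hp)]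
  rw [e]
  exact measurable_const.indicator (measurableSet_lt measurable_fst (hm.comp measurable_snd))

lemma kr_enorm (h : ℂ → ℝ) (s : ℝ) (x : ℂ) :
    ‖kr h s x‖ₑ = (Iio (h x)).indicator (fun _ => (1 : ℝ≥0∞)) s := by
  unfold kr
  by_cases hp : s < h x
  · rw [indicator_of_mem (show x ∈ SL h s from hp), indicator_of_mem (show s ∈ Iio (h x) from hp)]
    simp
  · rw [indicator_of_notMem (show x ∉ SL h s from hp),
      indicator_of_notMem (show s ∉ Iio (h x) from hp)]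
    simp

lemma kr_int (h : ℂ → ℝ) (x : ℂ) (hx : 0 ≤ h x) : ∫ s in Ioi (0 : ℝ), kr h s x = (h x : ℂ) := by
  have e : ∀ s : ℝ, kr h s x = (Iio (h x)).indicator (fun _ => (1 : ℂ)) s := by
    intro s
    unfold kr
    by_cases hp : s < h x
    · rw [indicator_of_mem (show x ∈ SL h s from hp), indicator_of_mem (show s ∈ Iio (h x) from hp)]
    · rw [indicator_of_notMem (show x ∉ SL h s from hp),
        indicator_of_notMem (show s ∉ Iio (h x) from hp)]
  simp_rw [e]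
  rw [integral_indicator measurableSet_Iio, Measure.restrict_restrict measurableSet_Iio,
    integral_const]
  have e2 : Iio (h x) ∩ Ioi 0 = Ioo 0 (h x) := by
    ext s
    simp only [mem_inter_iff, mem_Iio, mem_Ioi, mem_Ioo]
    tauto
  rw [e2, measureReal_restrict_apply_univ, Real.volume_real_Ioo_of_le hx, sub_zero]
  simp

lemma Ex_layer {h : ℂ → ℝ} (hh : RayFn h) (hf : ∫⁻ x, ENNReal.ofReal (h x) ≠ ∞) (ζ : ℂ) (t : ℝ) :
    ‖Ex (fun x => (h x : ℂ)) ζ t‖ₑ ≤ ∫⁻ s in Ioi (0 : ℝ), ‖Ex (kr h s) ζ t‖ₑ := by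
  have hkm := kr_meas hh.meas
  have hker := ker_meas_x ζ t
  have hFm : Measurable (fun p : ℂ × ℝ => ph (dt p.1 ζ + t * normSq p.1) * kr h p.2 p.1) :=
    (hker.comp measurable_fst).mul (hkm.comp measurable_swap)
  have hint : Integrable (fun p : ℂ × ℝ => ph (dt p.1 ζ + t * normSq p.1) * kr h p.2 p.1)
      ((volume : Measure ℂ).prod (volume.restrict (Ioi (0 : ℝ)))) := by
    refine ⟨hFm.aestronglyMeasurable, ?_⟩
    rw [hasFiniteIntegral_iff_enorm, lintegral_prod _ hFm.enorm.aemeasurable]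
    refine lt_of_le_of_lt (lintegral_mono (g := fun x => ENNReal.ofReal (h x)) fun x => ?_)
      hf.lt_top
    simp only
    have e : ∀ s : ℝ, ‖ph (dt x ζ + t * normSq x) * kr h s x‖ₑ =
        (Iio (h x)).indicator (fun _ => (1 : ℝ≥0∞)) s := by
      intro s
      rw [enorm_mul, enorm_ph, one_mul, kr_enorm]
    simp_rw [e]
    rw [lintegral_indicator_const measurableSet_Iio, one_mul,
      Measure.restrict_apply measurableSet_Iio]
    have e2 : Iio (h x) ∩ Ioi 0 = Ioo 0 (h x) := by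
      ext s
      simp only [mem_inter_iff, mem_Iio, mem_Ioi, mem_Ioo]
      tauto
    rw [e2, Real.volume_Ioo, sub_zero]
  have h1 : Ex (fun x => (h x : ℂ)) ζ t = ∫ s in Ioi (0 : ℝ), Ex (kr h s) ζ t := by
    unfold Ex
    rw [← integral_integral_swap (f := fun x s => ph (dt x ζ + t * normSq x) * kr h s x) hint]
    apply integral_congr_ae
    filter_upwards with x
    rw [integral_const_mul, kr_int h x (hh.nonneg x)]
  rw [h1]
  exact enorm_integral_le_lintegral_enorm _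

lemma Ex_kr_meas {h : ℂ → ℝ} (hm : Measurable h) :
    Measurable (fun p : (ℝ × ℂ) × ℝ => Ex (kr h p.2) p.1.2 p.1.1) := by
  have hk := kr_meas hm
  have h1 : Measurable (fun q : ((ℝ × ℂ) × ℝ) × ℂ =>
      ph (dt q.2 q.1.1.2 + q.1.1.1 * normSq q.2)) := by
    have : Measurable (fun q : ((ℝ × ℂ) × ℝ) × ℂ => (((q.1.1.2, q.1.1.1), q.2) : (ℂ × ℝ) × ℂ)) := by
      fun_prop
    exact ker_meas.comp this
  have h2 : Measurable (fun q : ((ℝ × ℂ) × ℝ) × ℂ => kr h q.1.2 q.2) := by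
    have : Measurable (fun q : ((ℝ × ℂ) × ℝ) × ℂ => ((q.1.2, q.2) : ℝ × ℂ)) := by fun_prop
    exact hk.comp this
  exact ((h1.mul h2).stronglyMeasurable.integral_prod_right' (ν := volume)).measurable

lemma tri_swap (F : (ℝ × ℂ) × ℝ → ℝ≥0∞) (hF : Measurable F) (ν : Measure ℝ) [SFinite ν] :
    ∫⁻ t : ℝ, ∫⁻ ζ : ℂ, (∫⁻ s, F ((t, ζ), s) ∂ν) =
      ∫⁻ s, (∫⁻ t : ℝ, ∫⁻ ζ : ℂ, F ((t, ζ), s)) ∂ν := by
  have h1 : Measurable (fun p : ℝ × ℂ => ∫⁻ s, F (p, s) ∂ν) := hF.lintegral_prod_right'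
  calc ∫⁻ t : ℝ, ∫⁻ ζ : ℂ, (∫⁻ s, F ((t, ζ), s) ∂ν) =
      ∫⁻ p : ℝ × ℂ, (∫⁻ s, F (p, s) ∂ν) ∂((volume : Measure ℝ).prod (volume : Measure ℂ)) := by
        rw [lintegral_prod _ h1.aemeasurable]
    _ = ∫⁻ s, (∫⁻ p : ℝ × ℂ, F (p, s) ∂((volume : Measure ℝ).prod (volume : Measure ℂ))) ∂ν :=
        lintegral_lintegral_swap (f := fun p s => F (p, s)) hF.aemeasurable
    _ = _ := by
        apply lintegral_congr
        intro s
        have h2 : Measurable (fun p : ℝ × ℂ => F (p, s)) := hF.comp measurable_prodMk_right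
        rw [lintegral_prod _ h2.aemeasurable]

lemma add2 (A B : ℝ × ℂ → ℝ≥0∞) (hA : Measurable A) (c : ℝ≥0∞) (hc : c ≠ ∞) :
    ∫⁻ t : ℝ, ∫⁻ ζ : ℂ, c * (A (t, ζ) + B (t, ζ)) =
      c * ((∫⁻ t : ℝ, ∫⁻ ζ : ℂ, A (t, ζ)) + ∫⁻ t : ℝ, ∫⁻ ζ : ℂ, B (t, ζ)) := by
  have h1 : ∀ t : ℝ, ∫⁻ ζ : ℂ, c * (A (t, ζ) + B (t, ζ)) =
      c * ((∫⁻ ζ : ℂ, A (t, ζ)) + ∫⁻ ζ : ℂ, B (t, ζ)) := by
    intro t
    have h2 : Measurable (fun ζ : ℂ => A (t, ζ)) := hA.comp measurable_prodMk_left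
    rw [lintegral_const_mul' _ _ hc, lintegral_add_left h2]
  simp_rw [h1]
  rw [lintegral_const_mul' _ _ hc]
  congr 1
  exact lintegral_add_left hA.lintegral_prod_right' _


end Pool.Agent.Q63.Star
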