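import Mathlib
import Pool.Agent.Q63.Star.Star9
set_option autoImplicit false

/-! Functions nonincreasing along rays. -/

namespace Pool.Agent.Q63.Star

open MeasureTheory Set Complex
open scoped ENNReal NNReal ComplexConjugate

lemma u_meas {h : ℂ → ℝ} (hm : Measurable h) (ζ : ℂ) (t : ℝ) :
    Measurable (fun s : ℝ => ‖Ex (kr h s) ζ t‖ₑ) := by
  have h1 := Ex_kr_meas hm
  have h2 : Measurable (fun s : ℝ => (((t, ζ), s) : (ℝ × ℂ) × ℝ)) := by fun_prop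
  have h3 : Measurable (fun s : ℝ => Ex (kr h s) ζ t) := (h1.comp h2 :)
  exact h3.enorm

/-- **Functions nonincreasing along rays from the origin.** -/
theorem rayQ (q : ℝ) (hq : 3 < q) : ∃ C : ℝ≥0∞, C ≠ ∞ ∧ ∀ h : ℂ → ℝ, RayFn h →
    ∫⁻ t : ℝ, ∫⁻ ζ : ℂ, ‖Ex (fun x => (h x : ℂ)) ζ t‖ₑ ^ q ≤
      C * ∫⁻ x, ENNReal.ofReal (h x ^ q) := by
  set q0 : ℝ := (q + 3) / 2 with hq0
  set q1 : ℝ := q + 1 with hq1
  have h30 : 3 < q0 := by rw [hq0]; linarith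
  have h0q : q0 < q := by rw [hq0]; linarith
  have hqq1 : q < q1 := by rw [hq1]; linarith
  obtain ⟨C0, hC0, hS0⟩ := starQ q0 h30
  obtain ⟨C1, hC1, hS1⟩ := starQ q1 (by linarith)
  obtain ⟨Cp, hCp, hP⟩ := pointwise (q := q) (q0 := q0) (q1 := q1) (by linarith) h0q hqq1
  have hqpos : 0 < q := by linarith
  refine ⟨Cp * ((C0 + C1) * (ENNReal.ofReal q)⁻¹) + 1, ?_, ?_⟩
  · refine ENNReal.add_ne_top.2 ⟨ENNReal.mul_ne_top hCp (ENNReal.mul_ne_top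
      (ENNReal.add_ne_top.2 ⟨hC0, hC1⟩) ?_), by norm_num⟩
    rw [Ne, ENNReal.inv_eq_top, ENNReal.ofReal_eq_zero, not_le]
    exact hqpos
  intro h hh
  rcases eq_or_ne (∫⁻ x, ENNReal.ofReal (h x ^ q)) ∞ with htop | htop
  · rw [htop, ENNReal.mul_top (by simp)]
    exact le_top
  have hfin := ray_fin hh q (by linarith) htop
  have hum := (Ex_kr_meas hh.meas).enorm
  have hmp : Measurable fun s : ℝ => ENNReal.ofReal (s ^ (q - 1)) :=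
    (measurable_id.pow_const _).ennreal_ofReal
  have hA : ∀ r : ℝ, Measurable (fun p : (ℝ × ℂ) × ℝ =>
      ENNReal.ofReal (p.2 ^ (q - 1)) * ‖Ex (kr h p.2) p.1.2 p.1.1‖ₑ ^ r) := fun r =>
    (hmp.comp measurable_snd).mul (hum.pow_const r)
  have hlay := lintegral_rpow_eq_lintegral_meas_lt_mul (volume : Measure ℂ)
    (Filter.Eventually.of_forall hh.nonneg) hh.meas.aemeasurable hqpos
  set L : ℝ≥0∞ := ∫⁻ s in Ioi (0 : ℝ), volume {a : ℂ | s < h a} * ENNReal.ofReal (s ^ (q - 1))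
    with hL
  have hLeq : L = (ENNReal.ofReal q)⁻¹ * ∫⁻ x, ENNReal.ofReal (h x ^ q) := by
    rw [hlay, ← mul_assoc, ENNReal.inv_mul_cancel, one_mul]
    · rw [Ne, ENNReal.ofReal_eq_zero, not_le]
      exact hqpos
    · exact ENNReal.ofReal_ne_top
  have hpart : ∀ (r : ℝ) (C : ℝ≥0∞), C ≠ ∞ → (∀ S : Set ℂ, StarSet S →
      ∫⁻ t : ℝ, ∫⁻ ζ : ℂ, ‖Ex (S.indicator (fun _ => 1)) ζ t‖ₑ ^ r ≤ C * volume S) →
      ∫⁻ t : ℝ, ∫⁻ ζ : ℂ, ∫⁻ s in Ioi (0 : ℝ), ENNReal.ofReal (s ^ (q - 1)) *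
        ‖Ex (kr h s) ζ t‖ₑ ^ r ≤ C * L := by
    intro r C hC hS
    rw [tri_swap (fun p => ENNReal.ofReal (p.2 ^ (q - 1)) * ‖Ex (kr h p.2) p.1.2 p.1.1‖ₑ ^ r)
      (hA r) (volume.restrict (Ioi 0)), hL, ← lintegral_const_mul' _ _ hC]
    refine setLIntegral_mono' (measurableSet_Ioi (a := (0 : ℝ))) fun s hs => ?_
    have hs0 : (0 : ℝ) < s := hs
    calc ∫⁻ t : ℝ, ∫⁻ ζ : ℂ, ENNReal.ofReal (s ^ (q - 1)) * ‖Ex (kr h s) ζ t‖ₑ ^ r =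
        ENNReal.ofReal (s ^ (q - 1)) * ∫⁻ t : ℝ, ∫⁻ ζ : ℂ, ‖Ex (kr h s) ζ t‖ₑ ^ r := by
          rw [← lintegral_const_mul' _ _ ENNReal.ofReal_ne_top]
          apply lintegral_congr
          intro t
          rw [lintegral_const_mul' _ _ ENNReal.ofReal_ne_top]
      _ ≤ ENNReal.ofReal (s ^ (q - 1)) * (C * volume (SL h s)) :=
          mul_le_mul' le_rfl (hS _ (SL_star hh s hs0))
      _ = _ := by
          have : SL h s = {a : ℂ | s < h a} := rfl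
          rw [this]
          ring
  have hB : Measurable (fun p : ℝ × ℂ => ∫⁻ s in Ioi (0 : ℝ), ENNReal.ofReal (s ^ (q - 1)) *
      ‖Ex (kr h s) p.2 p.1‖ₑ ^ q0) := (hA q0).lintegral_prod_right'
  calc ∫⁻ t : ℝ, ∫⁻ ζ : ℂ, ‖Ex (fun x => (h x : ℂ)) ζ t‖ₑ ^ q ≤
      ∫⁻ t : ℝ, ∫⁻ ζ : ℂ, Cp * ((∫⁻ s in Ioi (0 : ℝ), ENNReal.ofReal (s ^ (q - 1)) *
        ‖Ex (kr h s) ζ t‖ₑ ^ q0) + ∫⁻ s in Ioi (0 : ℝ), ENNReal.ofReal (s ^ (q - 1)) *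
        ‖Ex (kr h s) ζ t‖ₑ ^ q1) := by
        refine lintegral_mono fun t => lintegral_mono fun ζ => ?_
        exact (ENNReal.rpow_le_rpow (Ex_layer hh hfin ζ t) hqpos.le).trans
          (hP (fun s : ℝ => ‖Ex (kr h s) ζ t‖ₑ) (u_meas hh.meas ζ t))
    _ = Cp * ((∫⁻ t : ℝ, ∫⁻ ζ : ℂ, ∫⁻ s in Ioi (0 : ℝ), ENNReal.ofReal (s ^ (q - 1)) *
        ‖Ex (kr h s) ζ t‖ₑ ^ q0) + ∫⁻ t : ℝ, ∫⁻ ζ : ℂ, ∫⁻ s in Ioi (0 : ℝ),
        ENNReal.ofReal (s ^ (q - 1)) * ‖Ex (kr h s) ζ t‖ₑ ^ q1) := by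
        exact add2 (fun p : ℝ × ℂ => ∫⁻ s in Ioi (0 : ℝ), ENNReal.ofReal (s ^ (q - 1)) *
          ‖Ex (kr h s) p.2 p.1‖ₑ ^ q0) (fun p : ℝ × ℂ => ∫⁻ s in Ioi (0 : ℝ),
          ENNReal.ofReal (s ^ (q - 1)) * ‖Ex (kr h s) p.2 p.1‖ₑ ^ q1) hB Cp hCp
    _ ≤ Cp * (C0 * L + C1 * L) :=
        mul_le_mul' le_rfl (add_le_add (hpart q0 C0 hC0 hS0) (hpart q1 C1 hC1 hS1))
    _ = Cp * ((C0 + C1) * (ENNReal.ofReal q)⁻¹) * ∫⁻ x, ENNReal.ofReal (h x ^ q) := by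
        rw [hLeq]
        ring
    _ ≤ _ := mul_le_mul' le_self_add le_rfl

end Pool.Agent.Q63.Star
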