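import Mathlib
import Pool.Agent.Q63.Star.Star10
set_option autoImplicit false

/-! Variation along rays from an arbitrary centre. -/

namespace Pool.Agent.Q63.Star

open MeasureTheory Set Complex
open scoped ENNReal NNReal ComplexConjugate

lemma pow4 (a b c d : ℝ≥0∞) (q : ℝ) (hq : 0 ≤ q) :
    (a + b + c + d) ^ q ≤ 4 ^ q * (a ^ q + b ^ q + c ^ q + d ^ q) := by
  set M : ℝ≥0∞ := max (max a b) (max c d) with hM
  have ha : a ≤ M := (le_max_left _ _).trans (le_max_left _ _)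
  have hb : b ≤ M := (le_max_right _ _).trans (le_max_left _ _)
  have hc : c ≤ M := (le_max_left _ _).trans (le_max_right _ _)
  have hd : d ≤ M := (le_max_right _ _).trans (le_max_right _ _)
  have h1 : a + b + c + d ≤ 4 * M := by
    calc a + b + c + d ≤ M + M + M + M := by gcongr
      _ = 4 * M := by ring
  have h2 : M ^ q ≤ a ^ q + b ^ q + c ^ q + d ^ q := by
    rcases max_choice (max a b) (max c d) with h | h
    · rcases max_choice a b with h' | h'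
      · rw [hM, h, h']
        exact (le_self_add.trans le_self_add).trans le_self_add
      · rw [hM, h, h']
        exact (le_add_self.trans le_self_add).trans le_self_add
    · rcases max_choice c d with h' | h'
      · rw [hM, h, h']
        exact (le_add_self).trans le_self_add
      · rw [hM, h, h']
        exact le_add_self
  calc (a + b + c + d) ^ q ≤ (4 * M) ^ q := ENNReal.rpow_le_rpow h1 hq
    _ = 4 ^ q * M ^ q := ENNReal.mul_rpow_of_nonneg _ _ hq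
    _ ≤ _ := mul_le_mul' le_rfl h2

/-- shear -/
lemma shear (f : ℂ → ℂ) (a ζ : ℂ) (t : ℝ) :
    ‖Ex f ζ t‖ₑ = ‖Ex (fun y => f (a + y)) (ζ + (2 * t : ℝ) * a) t‖ₑ := by
  have h1 : Ex f ζ t = ph (dt a ζ + t * normSq a) *
      Ex (fun y => f (a + y)) (ζ + (2 * t : ℝ) * a) t := by
    unfold Ex
    rw [← integral_const_mul, ← integral_add_left_eq_self _ a]
    apply integral_congr_ae
    filter_upwards with y
    rw [← mul_assoc, ← ph_add]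
    congr 2
    simp only [dt, normSq_apply, add_re, add_im, mul_re, mul_im, ofReal_re, ofReal_im]
    ring
  rw [h1, enorm_mul, enorm_ph, one_mul]

lemma shearQ (f : ℂ → ℂ) (hf : Measurable f) (a : ℂ) (q : ℝ) :
    ∫⁻ t : ℝ, ∫⁻ ζ : ℂ, ‖Ex f ζ t‖ₑ ^ q =
      ∫⁻ t : ℝ, ∫⁻ ζ : ℂ, ‖Ex (fun y => f (a + y)) ζ t‖ₑ ^ q := by
  apply lintegral_congr
  intro t
  simp_rw [shear f a _ t]
  exact lintegral_add_right_eq_self (fun z => ‖Ex (fun y => f (a + y)) z t‖ₑ ^ q) _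

/-- centre at the origin -/
theorem var0 (q : ℝ) (hq : 3 < q) : ∃ C : ℝ≥0∞, C ≠ ∞ ∧ ∀ (f : ℂ → ℂ) (g : ℂ → ℝ),
    Measurable f → Measurable g → (∀ x, 1 ≤ ‖x‖ → f x = 0 ∧ g x = 0) →
    (∀ x, ∀ s : ℝ, 1 ≤ s → ‖f x - f ((s : ℂ) * x)‖ ≤ g x - g ((s : ℂ) * x)) →
    ∫⁻ t : ℝ, ∫⁻ ζ : ℂ, ‖Ex f ζ t‖ₑ ^ q ≤ C * ∫⁻ x, ‖g x‖ₑ ^ q := by
  obtain ⟨C, hC, hray⟩ := rayQ q hq
  have hqp : 0 < q := by linarith
  have h4 : (4 : ℝ≥0∞) ^ q ≠ ∞ := ENNReal.rpow_ne_top_of_nonneg hqp.le (by norm_num)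
  have h2' : (2 : ℝ≥0∞) ^ q ≠ ∞ := ENNReal.rpow_ne_top_of_nonneg hqp.le (by norm_num)
  refine ⟨4 ^ q * (4 * (C * 2 ^ q)) + 1, ?_, ?_⟩
  · exact ENNReal.add_ne_top.2 ⟨ENNReal.mul_ne_top h4 (ENNReal.mul_ne_top (by norm_num)
      (ENNReal.mul_ne_top hC h2')), by norm_num⟩
  intro f g hf hg hsupp hvar
  rcases eq_or_ne (∫⁻ x, ‖g x‖ₑ ^ q) ∞ with htop | htop
  · rw [htop, ENNReal.mul_top (by simp)]
    exact le_top
  -- domination
  have hdom : ∀ x, x ≠ 0 → ‖f x‖ ≤ g x := by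
    intro x hx
    have hn : 0 < ‖x‖ := norm_pos_iff.2 hx
    set s : ℝ := max 1 (1 / ‖x‖) with hs
    have hs1 : 1 ≤ s := le_max_left _ _
    have hs2 : 1 / ‖x‖ ≤ s := le_max_right _ _
    have hns : 1 ≤ ‖(s : ℂ) * x‖ := by
      rw [norm_mul, Complex.norm_real, Real.norm_eq_abs, abs_of_pos (by linarith)]
      rw [div_le_iff₀ hn] at hs2
      exact hs2
    have h1 := hvar x s hs1
    rw [(hsupp _ hns).1, (hsupp _ hns).2, sub_zero, sub_zero] at h1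
    exact h1
  -- the three functions
  have hmk : ∀ φ : ℂ → ℝ, Measurable φ → (∀ x, 1 ≤ ‖x‖ → φ x = 0) →
      (∀ x, ∀ s : ℝ, 1 ≤ s → φ ((s : ℂ) * x) ≤ φ x) → RayFn (fun x => max 0 (φ x)) := by
    intro φ hφ hφs hφm
    refine ⟨measurable_const.max hφ, fun x => le_max_left _ _, fun x s hs hs1 => ?_,
      fun x hx => by simp [hφs x hx]⟩
    have h1 := hφm ((s : ℂ) * x) s⁻¹ ((one_le_inv₀ hs).2 hs1)
    have e : ((s⁻¹ : ℝ) : ℂ) * ((s : ℂ) * x) = x := by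
      have : (s : ℂ) ≠ 0 := by exact_mod_cast hs.ne'
      push_cast
      field_simp
    rw [e] at h1
    exact max_le_max le_rfl h1
  have hh0 : RayFn (fun x => max 0 (g x)) := by
    refine hmk g hg (fun x hx => (hsupp x hx).2) fun x s hs => ?_
    have := (norm_nonneg _).trans (hvar x s hs)
    linarith
  have hh1 : RayFn (fun x => max 0 (g x + (f x).re)) := by
    refine hmk _ (hg.add (Complex.measurable_re.comp hf)) (fun x hx => ?_) fun x s hs => ?_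
    · rw [(hsupp x hx).1, (hsupp x hx).2]
      simp
    · have h1 := (Complex.abs_re_le_norm (f x - f ((s : ℂ) * x))).trans (hvar x s hs)
      rw [Complex.sub_re] at h1
      have := neg_abs_le ((f x).re - (f ((s : ℂ) * x)).re)
      linarith
  have hh2 : RayFn (fun x => max 0 (g x + (f x).im)) := by
    refine hmk _ (hg.add (Complex.measurable_im.comp hf)) (fun x hx => ?_) fun x s hs => ?_
    · rw [(hsupp x hx).1, (hsupp x hx).2]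
      simp
    · have h1 := (Complex.abs_im_le_norm (f x - f ((s : ℂ) * x))).trans (hvar x s hs)
      rw [Complex.sub_im] at h1
      have := neg_abs_le ((f x).im - (f ((s : ℂ) * x)).im)
      linarith
  set h0 : ℂ → ℝ := fun x => max 0 (g x) with hh0d
  set h1 : ℂ → ℝ := fun x => max 0 (g x + (f x).re) with hh1d
  set h2 : ℂ → ℝ := fun x => max 0 (g x + (f x).im) with hh2d
  have hne : ∀ᵐ x : ℂ, x ≠ 0 := by
    rw [ae_iff]
    simp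
  have e0 : ∀ x, x ≠ 0 → h0 x = g x := by
    intro x hx
    exact max_eq_right ((norm_nonneg _).trans (hdom x hx))
  have e1 : ∀ x, x ≠ 0 → h1 x = g x + (f x).re := by
    intro x hx
    refine max_eq_right ?_
    have h3 := (Complex.abs_re_le_norm (f x)).trans (hdom x hx)
    have := neg_abs_le (f x).re
    linarith
  have e2 : ∀ x, x ≠ 0 → h2 x = g x + (f x).im := by
    intro x hx
    refine max_eq_right ?_
    have h3 := (Complex.abs_im_le_norm (f x)).trans (hdom x hx)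
    have := neg_abs_le (f x).im
    linarith
  -- masses
  set G : ℝ≥0∞ := ∫⁻ x, ‖g x‖ₑ ^ q with hG
  have hm : ∀ h : ℂ → ℝ, (∀ x, 0 ≤ h x) → (∀ x, x ≠ 0 → h x ≤ 2 * g x) →
      ∫⁻ x, ENNReal.ofReal (h x ^ q) ≤ 2 ^ q * G := by
    intro h hh hle
    rw [hG, ← lintegral_const_mul' _ _ h2']
    apply lintegral_mono_ae
    filter_upwards [hne] with x hx
    have hgx : 0 ≤ g x := (norm_nonneg _).trans (hdom x hx)
    rw [← ofReal_norm, Real.norm_eq_abs, abs_of_nonneg hgx, show (2 : ℝ≥0∞) = ENNReal.ofReal 2 by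
      norm_num, ENNReal.ofReal_rpow_of_nonneg (by norm_num) hqp.le,
      ENNReal.ofReal_rpow_of_nonneg hgx hqp.le, ← ENNReal.ofReal_mul (by positivity),
      ← Real.mul_rpow (by norm_num) hgx]
    exact ENNReal.ofReal_le_ofReal (Real.rpow_le_rpow (hh x) (hle x hx) hqp.le)
  have m0 : ∫⁻ x, ENNReal.ofReal (h0 x ^ q) ≤ 2 ^ q * G := by
    refine hm h0 hh0.nonneg fun x hx => ?_
    have hgx : 0 ≤ g x := (norm_nonneg _).trans (hdom x hx)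
    rw [e0 x hx]
    linarith
  have m1 : ∫⁻ x, ENNReal.ofReal (h1 x ^ q) ≤ 2 ^ q * G := by
    refine hm h1 hh1.nonneg fun x hx => ?_
    rw [e1 x hx]
    have h3 := (Complex.abs_re_le_norm (f x)).trans (hdom x hx)
    have := le_abs_self (f x).re
    linarith
  have m2 : ∫⁻ x, ENNReal.ofReal (h2 x ^ q) ≤ 2 ^ q * G := by
    refine hm h2 hh2.nonneg fun x hx => ?_
    rw [e2 x hx]
    have h3 := (Complex.abs_im_le_norm (f x)).trans (hdom x hx)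
    have := le_abs_self (f x).im
    linarith
  have hfin : (2 : ℝ≥0∞) ^ q * G ≠ ∞ := ENNReal.mul_ne_top h2' htop
  have hint : ∀ h : ℂ → ℝ, RayFn h → ∫⁻ x, ENNReal.ofReal (h x ^ q) ≤ 2 ^ q * G →
      Integrable (fun x => (h x : ℂ)) := by
    intro h hh hle
    have h3 := ray_fin hh q (by linarith) (ne_top_of_le_ne_top hfin hle)
    refine ⟨(Complex.measurable_ofReal.comp hh.meas).aestronglyMeasurable, ?_⟩
    rw [hasFiniteIntegral_iff_enorm]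
    refine lt_of_le_of_lt (lintegral_mono fun x => ?_) h3.lt_top
    simp only
    rw [← ofReal_norm, Complex.norm_real, Real.norm_eq_abs, abs_of_nonneg (hh.nonneg x)]
  have i0 := hint h0 hh0 m0
  have i1 := hint h1 hh1 m1
  have i2 := hint h2 hh2 m2
  -- decomposition
  have hdec : ∀ (ζ : ℂ) (t : ℝ), Ex f ζ t = (Ex (fun x => (h1 x : ℂ)) ζ t -
      Ex (fun x => (h0 x : ℂ)) ζ t) + I * (Ex (fun x => (h2 x : ℂ)) ζ t -
      Ex (fun x => (h0 x : ℂ)) ζ t) := by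
    intro ζ t
    rw [← Ex_sub _ _ i1 i0, ← Ex_sub _ _ i2 i0]
    have j1 := Ex_int _ (i1.sub i0) ζ t
    have j2 := Ex_int _ (i2.sub i0) ζ t
    unfold Ex
    rw [← integral_const_mul, ← integral_add (by exact j1) (by exact j2.const_mul I)]
    apply integral_congr_ae
    filter_upwards [hne] with x hx
    rw [e0 x hx, e1 x hx, e2 x hx]
    push_cast
    have h3 : f x = ((f x).re : ℂ) + ((f x).im : ℂ) * I := (Complex.re_add_im (f x)).symm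
    have h4 : ph (dt x ζ + t * normSq x) * f x =
        ph (dt x ζ + t * normSq x) * (((f x).re : ℂ) + ((f x).im : ℂ) * I) := by
      rw [← h3]
    rw [h4]
    ring
  have hpt : ∀ (ζ : ℂ) (t : ℝ), ‖Ex f ζ t‖ₑ ^ q ≤ 4 ^ q * (‖Ex (fun x => (h1 x : ℂ)) ζ t‖ₑ ^ q +
      ‖Ex (fun x => (h0 x : ℂ)) ζ t‖ₑ ^ q + ‖Ex (fun x => (h2 x : ℂ)) ζ t‖ₑ ^ q +
      ‖Ex (fun x => (h0 x : ℂ)) ζ t‖ₑ ^ q) := by
    intro ζ t
    refine le_trans (ENNReal.rpow_le_rpow ?_ hqp.le) (pow4 _ _ _ _ q hqp.le)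
    rw [hdec]
    refine (enorm_add_le _ _).trans ?_
    rw [enorm_mul]
    have hI : ‖(I : ℂ)‖ₑ = 1 := by
      rw [← ofReal_norm, Complex.norm_I, ENNReal.ofReal_one]
    rw [hI, one_mul, add_assoc]
    exact add_le_add enorm_sub_le enorm_sub_le
  have hM : ∀ h : ℂ → ℝ, RayFn h → Measurable (fun p : ℝ × ℂ =>
      ‖Ex (fun x => (h x : ℂ)) p.2 p.1‖ₑ ^ q) := by
    intro h hh
    exact (((Ex_meas _ (Complex.measurable_ofReal.comp hh.meas)).comp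
      measurable_swap).enorm.pow_const q)
  have M0 := hM h0 hh0
  have M1 := hM h1 hh1
  have M2 := hM h2 hh2
  have B0 := (hray h0 hh0).trans (mul_le_mul' le_rfl m0)
  have B1 := (hray h1 hh1).trans (mul_le_mul' le_rfl m1)
  have B2 := (hray h2 hh2).trans (mul_le_mul' le_rfl m2)
  have hsec : ∀ F : ℝ × ℂ → ℝ≥0∞, Measurable F → ∀ t : ℝ, Measurable (fun ζ : ℂ => F (t, ζ)) :=
    fun F hF t => hF.comp measurable_prodMk_left
  have hsplit : ∀ A B : ℝ × ℂ → ℝ≥0∞, Measurable A →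
      ∫⁻ t : ℝ, ∫⁻ ζ : ℂ, (A (t, ζ) + B (t, ζ)) =
        (∫⁻ t : ℝ, ∫⁻ ζ : ℂ, A (t, ζ)) + ∫⁻ t : ℝ, ∫⁻ ζ : ℂ, B (t, ζ) := by
    intro A B hA
    have := add2 A B hA 1 (by norm_num)
    simpa only [one_mul] using this
  calc ∫⁻ t : ℝ, ∫⁻ ζ : ℂ, ‖Ex f ζ t‖ₑ ^ q ≤ ∫⁻ t : ℝ, ∫⁻ ζ : ℂ, 4 ^ q *
      (‖Ex (fun x => (h1 x : ℂ)) ζ t‖ₑ ^ q +
      ‖Ex (fun x => (h0 x : ℂ)) ζ t‖ₑ ^ q + ‖Ex (fun x => (h2 x : ℂ)) ζ t‖ₑ ^ q +
      ‖Ex (fun x => (h0 x : ℂ)) ζ t‖ₑ ^ q) :=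
        lintegral_mono fun t => lintegral_mono fun ζ => hpt ζ t
    _ = 4 ^ q * ((∫⁻ t : ℝ, ∫⁻ ζ : ℂ, (‖Ex (fun x => (h1 x : ℂ)) ζ t‖ₑ ^ q +
        ‖Ex (fun x => (h0 x : ℂ)) ζ t‖ₑ ^ q + ‖Ex (fun x => (h2 x : ℂ)) ζ t‖ₑ ^ q)) +
        ∫⁻ t : ℝ, ∫⁻ ζ : ℂ, ‖Ex (fun x => (h0 x : ℂ)) ζ t‖ₑ ^ q) :=
        add2 (fun p => ‖Ex (fun x => (h1 x : ℂ)) p.2 p.1‖ₑ ^ q +
          ‖Ex (fun x => (h0 x : ℂ)) p.2 p.1‖ₑ ^ q + ‖Ex (fun x => (h2 x : ℂ)) p.2 p.1‖ₑ ^ q)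
          (fun p => ‖Ex (fun x => (h0 x : ℂ)) p.2 p.1‖ₑ ^ q) ((M1.add M0).add M2) _ h4
    _ = 4 ^ q * ((((∫⁻ t : ℝ, ∫⁻ ζ : ℂ, ‖Ex (fun x => (h1 x : ℂ)) ζ t‖ₑ ^ q) +
        ∫⁻ t : ℝ, ∫⁻ ζ : ℂ, ‖Ex (fun x => (h0 x : ℂ)) ζ t‖ₑ ^ q) +
        ∫⁻ t : ℝ, ∫⁻ ζ : ℂ, ‖Ex (fun x => (h2 x : ℂ)) ζ t‖ₑ ^ q) +
        ∫⁻ t : ℝ, ∫⁻ ζ : ℂ, ‖Ex (fun x => (h0 x : ℂ)) ζ t‖ₑ ^ q) := by
        congr 2
        refine (hsplit (fun p => ‖Ex (fun x => (h1 x : ℂ)) p.2 p.1‖ₑ ^ q +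
          ‖Ex (fun x => (h0 x : ℂ)) p.2 p.1‖ₑ ^ q)
          (fun p => ‖Ex (fun x => (h2 x : ℂ)) p.2 p.1‖ₑ ^ q) (M1.add M0)).trans ?_
        congr 1
        exact hsplit (fun p => ‖Ex (fun x => (h1 x : ℂ)) p.2 p.1‖ₑ ^ q)
          (fun p => ‖Ex (fun x => (h0 x : ℂ)) p.2 p.1‖ₑ ^ q) M1
    _ ≤ 4 ^ q * (C * (2 ^ q * G) + C * (2 ^ q * G) + C * (2 ^ q * G) + C * (2 ^ q * G)) :=
        mul_le_mul' le_rfl (add_le_add (add_le_add (add_le_add B1 B0) B2) B0)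
    _ = 4 ^ q * (4 * (C * 2 ^ q)) * G := by ring
    _ ≤ _ := mul_le_mul' le_self_add le_rfl

/-- **Variation along rays, arbitrary centre.** -/
theorem varC (q : ℝ) (hq : 3 < q) : ∃ C : ℝ≥0∞, C ≠ ∞ ∧ ∀ (a : ℂ) (f : ℂ → ℂ) (g : ℂ → ℝ),
    Measurable f → Measurable g → (∀ x, 1 ≤ ‖x - a‖ → f x = 0 ∧ g x = 0) →
    (∀ x, ∀ s : ℝ, 1 ≤ s →
      ‖f x - f (a + (s : ℂ) * (x - a))‖ ≤ g x - g (a + (s : ℂ) * (x - a))) →
    ∫⁻ t : ℝ, ∫⁻ ζ : ℂ, ‖Ex f ζ t‖ₑ ^ q ≤ C * ∫⁻ x, ‖g x‖ₑ ^ q := by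
  obtain ⟨C, hC, h⟩ := var0 q hq
  refine ⟨C, hC, fun a f g hf hg hs hv => ?_⟩
  rw [shearQ f hf a q]
  have e : ∫⁻ x, ‖g x‖ₑ ^ q = ∫⁻ y, ‖g (a + y)‖ₑ ^ q :=
    (lintegral_add_left_eq_self (fun x => ‖g x‖ₑ ^ q) a).symm
  rw [e]
  refine h (fun y => f (a + y)) (fun y => g (a + y)) (hf.comp (measurable_const_add a))
    (hg.comp (measurable_const_add a)) (fun x hx => hs (a + x) (by simpa using hx))
    fun x s hs1 => ?_
  have := hv (a + x) s hs1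
  rwa [add_sub_cancel_left] at this

end Pool.Agent.Q63.Star
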